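import Pool.Agent.N970.RQ.Bil7b
import Pool.Agent.N970.Sgn.Sgp

/-!
# BILJ21n: the pairs of vectors of the same norm `A l`, and the result
-/

set_option autoImplicit false
set_option linter.unusedSectionVars false

namespace Pool.Agent.N970.RQ

open Finset
open Pool.Agent.N969.P15 (V3 tw)
open Pool.Agent.N969.RQ (ip7 vec7 c7 R21 Un sgd sj o7 Fd nn S_BILJ21n)
open Pool.Agent.N969.P17G (sgp sgnE)
open Pool.Agent.N844.P17G (Iso sig)
open Pool.Agent.N970.Sgn
open Pool.Agent.N970.P21G (mem7 pc7g)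
open Pool.Agent.N877.P21G (Fn I7 dt w7 Ai P7)
open Pool.Agent.N871.G21 (FF FF_of Fn_mul Fs Fs_eq dl hl main_2 prod7 R1_four M2_dt)
open Pool.Agent.N833.P21 (L2 M2 R1 Ps_odd)
open Pool.Agent.N295.P15.E (Ps)

/-- no prime factors `3`, `7` and the densities do not vanish: the factors of the divisor sums do
not vanish -/
theorem ne_of_L7 {n S T : ℕ} (hn : Fn n) (h3 : n % 3 = 2) (h7 : I7 n) (hS : S ≠ 0) (hT : T ≠ 0)
    (hST : S + T = n) (hL : Pool.Agent.N877.P21G.L7 n (2 * T - (n : ℕ)) (4 * S * T) ≠ 0) :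
    L2 n S T * Fs n S T ≠ 0 ∧ Odd ((S * T).factorization 7) := by
  have hFF := FF_of hn
  have h37 : ¬ 3 ∣ n := by omega
  have h77 : ¬ 7 ∣ n := by unfold I7 at h7; omega
  have p3 : Nat.Prime 3 := Nat.prime_three
  have p7 : Nat.Prime 7 := by norm_num
  have m3 : 3 ∉ n.primeFactors := fun h => h37 (Nat.dvd_of_mem_primeFactors h)
  have m7 : 7 ∉ n.primeFactors := fun h => h77 (Nat.dvd_of_mem_primeFactors h)
  have hST0 : S * T ≠ 0 := mul_ne_zero hS hT
  have h4ST : 4 * S * T ≠ 0 := by positivity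
  have hodd : Odd ((4 * S * T).factorization 7) := by
    by_contra h
    exact hL (by unfold Pool.Agent.N877.P21G.L7; rw [if_neg h])
  have hL' := hL
  unfold Pool.Agent.N877.P21G.L7 at hL'
  rw [if_pos hodd, Pool.Agent.N871.G21.prod7 h4ST] at hL'
  have e4 : (4 * S * T).factorization 7 = (S * T).factorization 7 := by
    rw [mul_assoc]
    exact fac4' hST0 p7 (by norm_num)
  rw [e4] at hodd
  have hR : R1 n (S * T) ≠ 0 := by
    have h1 := right_ne_zero_of_mul (right_ne_zero_of_mul hL')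
    rw [mul_assoc, R1_four hFF hST0] at h1
    exact h1
  have hM : M2 n S T ≠ 0 := by
    rw [M2_dt hn hS hT (by rw [one_mul]; exact hST)]
    exact left_ne_zero_of_mul hL'
  have hMF : M2 n S T * Fs n S T ≠ 0 := by
    rw [Fs_eq]
    exact mul_ne_zero hM hR
  have key := main_2 hn (c := 1) (Or.inl rfl) hS hT (by rw [one_mul]; exact hST)
  have h3' : hl n S T 3 = 1 := if_neg m3
  have h7' : hl n S T 7 = 1 := if_neg m7
  have P3 : Ps n 3 = 1 := by
    rw [hFF.Ps_l 3 p3 (by norm_num) m3, jacobiSym.mod_left]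
    have : (-(n : ℤ)) % ((3 : ℕ) : ℤ) = 1 := by push_cast; omega
    rw [this, jacobiSym.one_left]
  have P7' : Ps n 7 = -1 := by
    rw [hFF.Ps_l 7 p7 (by norm_num) m7, jacobiSym.mod_left]
    unfold I7 at h7
    rcases h7 with h | h | h
    · have : (-(n : ℤ)) % ((7 : ℕ) : ℤ) = 6 := by push_cast; omega
      rw [this]; norm_num
    · have : (-(n : ℤ)) % ((7 : ℕ) : ℤ) = 5 := by push_cast; omega
      rw [this]; norm_num
    · have : (-(n : ℤ)) % ((7 : ℕ) : ℤ) = 3 := by push_cast; omega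
      rw [this]; norm_num
  have hdl : dl n S * dl n T = -1 := by
    unfold dl
    rw [if_neg m3, if_neg m7, if_neg m3, if_neg m7, P3, P7', one_pow, one_pow, one_mul, one_mul,
      ← pow_add]
    have e5 : S.factorization 7 + T.factorization 7 = (S * T).factorization 7 := by
      rw [Nat.factorization_mul hS hT, Finsupp.add_apply]
    rw [e5]
    exact hodd.neg_one_pow
  rw [h3', h7', hdl] at key
  refine ⟨fun h0 => hMF ?_, hodd⟩
  rw [h0] at key
  linarith

theorem dl_val {n T : ℕ} (hn : Fn n) (h3 : n % 3 = 2) (h7 : I7 n) :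
    dl n T = (-1) ^ T.factorization 7 := by
  have hFF := FF_of hn
  have h37 : ¬ 3 ∣ n := by omega
  have h77 : ¬ 7 ∣ n := by unfold I7 at h7; omega
  have p3 : Nat.Prime 3 := Nat.prime_three
  have p7 : Nat.Prime 7 := by norm_num
  have m3 : 3 ∉ n.primeFactors := fun h => h37 (Nat.dvd_of_mem_primeFactors h)
  have m7 : 7 ∉ n.primeFactors := fun h => h77 (Nat.dvd_of_mem_primeFactors h)
  have P3 : Ps n 3 = 1 := by
    rw [hFF.Ps_l 3 p3 (by norm_num) m3, jacobiSym.mod_left]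
    have : (-(n : ℤ)) % ((3 : ℕ) : ℤ) = 1 := by push_cast; omega
    rw [this, jacobiSym.one_left]
  have P7' : Ps n 7 = -1 := by
    rw [hFF.Ps_l 7 p7 (by norm_num) m7, jacobiSym.mod_left]
    unfold I7 at h7
    rcases h7 with h | h | h
    · have : (-(n : ℤ)) % ((7 : ℕ) : ℤ) = 6 := by push_cast; omega
      rw [this]; norm_num
    · have : (-(n : ℤ)) % ((7 : ℕ) : ℤ) = 5 := by push_cast; omega
      rw [this]; norm_num
    · have : (-(n : ℤ)) % ((7 : ℕ) : ℤ) = 3 := by push_cast; omega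
      rw [this]; norm_num
  unfold dl
  rw [if_neg m3, if_neg m7, P3, P7', one_pow, one_mul]

theorem jac7 {n : ℕ} (h : I7 n) : jacobiSym n 7 = 1 ∧ jacobiSym (-(n : ℤ)) 7 = -1 := by
  rw [jacobiSym.mod_left, jacobiSym.mod_left (-(n : ℤ))]
  unfold I7 at h
  rcases h with h | h | h
  · have e1 : (n : ℤ) % ((7 : ℕ) : ℤ) = 1 := by push_cast; omega
    have e2 : (-(n : ℤ)) % ((7 : ℕ) : ℤ) = 6 := by push_cast; omega
    rw [e1, e2]; norm_num
  · have e1 : (n : ℤ) % ((7 : ℕ) : ℤ) = 2 := by push_cast; omega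
    have e2 : (-(n : ℤ)) % ((7 : ℕ) : ℤ) = 5 := by push_cast; omega
    rw [e1, e2]; norm_num
  · have e1 : (n : ℤ) % ((7 : ℕ) : ℤ) = 4 := by push_cast; omega
    have e2 : (-(n : ℤ)) % ((7 : ℕ) : ℤ) = 3 := by push_cast; omega
    rw [e1, e2]; norm_num

/-- the sign of a pair of vectors of norm `A l` -/
theorem sgnE_EE {A l : ℕ} (hl : l.Prime) (hl4 : l % 4 = 3) (hl3 : l % 3 = 1)
    (hl7 : jacobiSym l 7 = -1) (hlA : ¬ l ∣ A) (hA : Ai A) {v w : V3}
    (hv : ip7 v v = (A * l : ℕ)) (hw : ip7 w w = (A * l : ℕ)) :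
    sgnE 1 A (A * l) (((A * l : ℕ) + ip7 v w) / 2) = EE l v * EE l w := by
  have hFl : Fact l.Prime := ⟨hl⟩
  have h2 : l ≠ 2 := by rintro rfl; omega
  have l3 : l ≠ 3 := by rintro rfl; omega
  have l7 : l ≠ 7 := by rintro rfl; norm_num at hl7
  have hK := nK (l := l) h2 l7
  obtain ⟨hA1, hA3, hA7⟩ := hA
  have hAor : A = 1 ∨ Fd A := Or.inr hA1
  have hcop : Nat.Coprime A l := ((Nat.Prime.coprime_iff_not_dvd hl).2 hlA).symm
  have hFnl : Fn l := Or.inl ⟨hl.squarefree, hl4⟩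
  obtain ⟨hn, -⟩ := Fn_mul hAor hFnl hcop
  have hn3 : (A * l) % 3 = 2 := by rw [Nat.mul_mod, hA3, hl3]
  have hI : I7 (A * l) := by
    apply I7_of
    push_cast
    rw [jacobiSym.mul_left, hA7, hl7]
    norm_num
  have iv := iso7 (l := l) hlA hv
  have iw := iso7 (l := l) hlA hw
  obtain ⟨j1, j2⟩ := jac7 hI
  have hll : l ∣ A * l := dvd_mul_left _ _
  have hln2 : ¬ l ^ 2 ∣ A * l := by
    intro h
    rw [pow_two] at h
    exact hlA (Nat.dvd_of_mul_dvd_mul_right hl.pos h)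
  -- the range of the inner product
  have hcs := cs7 v w
  rw [← ip7_eq, ← ip7_eq, ← ip7_eq, hv, hw] at hcs
  have hn0 : (0 : ℤ) < (A * l : ℕ) := by
    have : 0 < A * l := Nat.pos_of_ne_zero (FF_of hn).n0
    exact_mod_cast this
  have habs : |ip7 v w| ≤ (A * l : ℕ) := by
    apply abs_le_of_sq_le_sq _ hn0.le
    rw [pow_two ((A * l : ℕ) : ℤ)]
    exact hcs
  obtain ⟨hb1, hb2⟩ := abs_le.1 habs
  have h28 := dvd28 v w
  rw [hv, hw] at h28
  -- parity
  have hpar : (2 : ℤ) ∣ (A * l : ℕ) + ip7 v w := by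
    have e1 : ((A * l : ℕ) : ℤ) * (A * l : ℕ) - ip7 v w ^ 2 =
        ((A * l : ℕ) + ip7 v w) * ((A * l : ℕ) - ip7 v w) := by ring
    rw [e1] at h28
    have h5 : (2 : ℤ) ∣ ((A * l : ℕ) + ip7 v w) * ((A * l : ℕ) - ip7 v w) :=
      Dvd.dvd.trans (by norm_num) h28
    rcases Int.prime_two.dvd_or_dvd h5 with h | h
    · exact h
    · have e2 : ((A * l : ℕ) : ℤ) + ip7 v w = ((A * l : ℕ) - ip7 v w) + 2 * ip7 v w := by ring
      rw [e2]
      exact dvd_add h (dvd_mul_right _ _)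
  obtain ⟨T, hT⟩ := hpar
  have hT2 : (((A * l : ℕ) : ℤ) + ip7 v w) / 2 = T := by rw [hT]; omega
  rw [hT2]
  have hT0 : 0 ≤ T := by linarith
  obtain ⟨U, rfl⟩ := Int.eq_ofNat_of_zero_le hT0
  have hUn : U ≤ A * l := by
    have : (U : ℤ) ≤ (A * l : ℕ) := by linarith
    exact_mod_cast this
  -- `E v E w`
  have hE : EE l v * EE l w = sgp 1 (A * l) l U * jacobiSym (2 * U - (A * l : ℕ)) 7 := by
    have e1 : EE l v * EE l w = (psi ip7 l v * psi ip7 l w) * (oo v * oo w) := by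
      unfold EE; ring
    have e2 : ip7 v w = 2 * U - (A * l : ℕ) := by linarith
    rw [e1, oo_mul, psi_mul frm7 h2 hK iv iw, e2,
      sgp_sig frm7 h2 hK (k := 1) hll hln2 hl.not_dvd_one hv (by rw [hw]; push_cast; ring) iv iw
        (T := U) (by linear_combination -hT)]
  rw [hE]
  have hjac : ∀ a b : ℤ, (7 : ℤ) ∣ a - b → jacobiSym a 7 = jacobiSym b 7 := fun a b h => by
    apply jacobiSym.mod_left'
    omega
  rcases Nat.eq_zero_or_pos U with hU0 | hU0
  · subst hU0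
    have e3 := sgnE_zero hAor hFnl hcop
    rw [Nat.cast_zero, e3, mul_zero, zero_sub, j2]
    unfold sgp
    rw [if_pos (dvd_zero _), Int.zero_ediv, if_pos (dvd_zero _)]
    have e4 : (-((1 : ℕ) : ℤ)) = -1 := by norm_num
    rw [e4, jacobiSym.at_neg_one (by rw [Nat.odd_iff]; omega), ZMod.χ₄_nat_three_mod_four hl4]
    norm_num
  rcases Nat.eq_or_lt_of_le hUn with hUn | hUn
  · subst hUn
    have e3 := sgnE_top hAor hFnl hcop
    have e5 : (2 * ((A * l : ℕ) : ℤ) - (A * l : ℕ)) = (A * l : ℕ) := by ring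
    rw [e3, e5, j1]
    have e7 : sgp 1 (A * l) l ((A * l : ℕ) : ℤ) = 1 := by
      unfold sgp
      rw [if_pos (by push_cast; exact dvd_mul_left _ _)]
      have hnl : A * l / l = A := Nat.mul_div_cancel _ hl.pos
      have e : ((A * l : ℕ) : ℤ) / l = ((A * l / l : ℕ) : ℤ) := by push_cast; rfl
      have hlAz : ¬ (l : ℤ) ∣ (A : ℤ) := by exact_mod_cast hlA
      rw [e, hnl, if_neg hlAz]
      exact Pool.Agent.N970.P17G.jac_sq hlAz
    rw [e7]
    norm_num
  -- the main case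
  obtain ⟨S, hS⟩ : ∃ S, S + U = A * l := ⟨A * l - U, by omega⟩
  have hS0 : S ≠ 0 := by omega
  have hU' : U ≠ 0 := by omega
  have hip : ip7 v w = 2 * U - (A * l : ℕ) := by linarith
  have hdet : ((4 * S * U : ℕ) : ℤ) = (A * l : ℕ) * (A * l : ℕ) - (2 * U - (A * l : ℕ)) ^ 2 := by
    rw [← hS]; push_cast; ring
  have h4n : 2 ∣ A * l → 4 ∣ A * l := by
    intro h
    obtain ⟨m, hm, -⟩ := Pool.Agent.N871.G21.Fn_two hn h
    exact ⟨m, hm⟩
  have hcount := pc7g hn h4n hI (b := 2 * U - (A * l : ℕ)) (D := 4 * S * U)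
    (by positivity) hdet
  have hLne : Pool.Agent.N877.P21G.L7 (A * l) (2 * U - (A * l : ℕ)) (4 * S * U) ≠ 0 := by
    intro h0
    rw [h0, mul_zero] at hcount
    have hc : c7 (A * l : ℕ) (2 * U - (A * l : ℕ)) (A * l : ℕ) = 0 := by exact_mod_cast hcount
    unfold c7 at hc
    rw [card_eq_zero] at hc
    have : ((v, w) : V3 × V3) ∈ (∅ : Finset (V3 × V3)) := by
      rw [← hc, mem_filter, mem_product, mem7, mem7]
      exact ⟨⟨hv, hw⟩, hip⟩
    exact absurd this (notMem_empty _)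
  obtain ⟨hLF, hodd⟩ := ne_of_L7 hn hn3 hI hS0 hU' hS hLne
  have h3A : ¬ 3 ∣ A := by omega
  have h7A : ¬ 7 ∣ A := by
    intro h
    rw [jacobiSym.mod_left] at hA7
    have : (A : ℤ) % ((7 : ℕ) : ℤ) = 0 := by push_cast; omega
    rw [this] at hA7
    norm_num at hA7
  rw [sgnE_sgp hAor hl hl4 hcop hS0 hU' hS (fun h => absurd h h3A) (fun h => absurd h h7A) hLF l3 l7,
    dl_val hn hn3 hI, mul_comm]
  congr 1
  have h7n : ¬ 7 ∣ A * l := by unfold I7 at hI; omega
  have p7 : Nat.Prime 7 := by norm_num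
  by_cases h7U : 7 ∣ U
  · have h7S : S.factorization 7 = 0 := Nat.factorization_eq_zero_of_not_dvd (by
      intro h; exact h7n (by rw [← hS]; exact dvd_add h h7U))
    rw [Nat.factorization_mul hS0 hU', Finsupp.add_apply, h7S, zero_add] at hodd
    rw [hodd.neg_one_pow, hjac (2 * U - (A * l : ℕ)) (-((A * l : ℕ) : ℤ)) (by omega), j2]
  · have h7U' : U.factorization 7 = 0 := Nat.factorization_eq_zero_of_not_dvd h7U
    rw [h7U', pow_zero]
    have h7S : 7 ∣ S := by
      have h1 : 0 < S.factorization 7 := by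
        rw [Nat.factorization_mul hS0 hU', Finsupp.add_apply, h7U', add_zero] at hodd
        exact hodd.pos
      exact Nat.dvd_of_factorization_pos h1.ne'
    rw [hjac (2 * U - (A * l : ℕ)) ((A * l : ℕ) : ℤ) (by omega), j1]

/-- **BILJ21n** -/
theorem t_BILJ21n : S_BILJ21n := by
  intro l hl hC
  obtain ⟨hls, hl4, hl3, hl7⟩ := hC
  have hj : jacobiSym l 7 = -1 := by
    rw [jacobiSym.mod_left]
    unfold Pool.Agent.N877.P21.Sp7 at hl7
    rcases hl7 with h | h | h
    · have : (l : ℤ) % ((7 : ℕ) : ℤ) = 3 := by push_cast; omega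
      rw [this]; norm_num
    · have : (l : ℤ) % ((7 : ℕ) : ℤ) = 5 := by push_cast; omega
      rw [this]; norm_num
    · have : (l : ℤ) % ((7 : ℕ) : ℤ) = 6 := by push_cast; omega
      rw [this]; norm_num
  have h2 : l ≠ 2 := by rintro rfl; omega
  have l7 : l ≠ 7 := by rintro rfl; norm_num at hj
  refine ⟨Zn l, fun _ => 0, ?_, ?_⟩
  · intro D d hD hlD hun hsg hd3 hd7
    have hprod : d * (D / d) = D := Nat.mul_div_cancel' hun.1
    obtain ⟨hFd, hD3, hD7⟩ := hD
    have hj3 : ∀ k : ℕ, jacobiSym k 3 = -1 → k % 3 = 2 := by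
      intro k hk
      rw [jacobiSym.mod_left] at hk
      have : k % 3 = 0 ∨ k % 3 = 1 ∨ k % 3 = 2 := by omega
      rcases this with h | h | h
      · have e : (k : ℤ) % ((3 : ℕ) : ℤ) = 0 := by push_cast; omega
        rw [e] at hk; norm_num at hk
      · have e : (k : ℤ) % ((3 : ℕ) : ℤ) = 1 := by push_cast; omega
        rw [e] at hk; norm_num at hk
      · exact h
    have d3 := hj3 d hd3
    have e3 : D / d % 3 = 2 := by
      have h1 : (d * (D / d)) % 3 = 1 := by rw [hprod]; exact hD3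
      rw [Nat.mul_mod, d3] at h1
      have : D / d % 3 < 3 := Nat.mod_lt _ (by norm_num)
      interval_cases h : D / d % 3 <;> omega
    have je : jacobiSym (D / d : ℕ) 7 = -1 := by
      have h1 : jacobiSym (d * (D / d) : ℕ) 7 = 1 := by rw [hprod]; exact hD7
      push_cast at h1
      rw [jacobiSym.mul_left, hd7] at h1
      push_cast
      linarith
    have hH : HH D d l := ⟨hl, h2, l7, hl4, hl3, hj, ⟨hFd, hD3, hD7⟩, hlD, hun, hsg, d3, e3, hd7, je⟩
    refine ⟨?_, Or.inr ?_⟩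
    · rw [mul_zero]
      refine t_EISJ7p D d l hFd hD7 hun hsg hl hl4 l7 hlD ?_
      have e : (-((d * l : ℕ) : ℤ)) = (-1) * (d * l) := by push_cast; ring
      rw [e, jacobiSym.mul_left, jacobiSym.mul_left, hd7, hj]
      norm_num
    · rw [mul_zero, zero_sub]
      exact main7 hH
  · intro A hlA hA
    unfold P7 Zn
    rw [pow_two, sum_mul_sum]
    refine sum_congr rfl fun v hv => sum_congr rfl fun w hw => ?_
    rw [mem7] at hv hw
    rw [sgnE_EE hl hl4 hl3 hj hlA hA hv hw]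
    ring

end Pool.Agent.N970.RQ
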