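import Pool.Agent.N970.RQ.PC7
import Pool.Agent.N218.RQ.Eisj
import Pool.Agent.N975.RQ.Low
import Pool.Agent.N975.RQ.C1Jp
import Pool.Agent.N816.RQ.C2J

/-!
# EISJ7, EISJ7p: the signed numbers of pairs of vectors of the lattice of `B_7` (project RQ)
-/

set_option autoImplicit false

namespace Pool.Agent.N970.RQ

open Finset
open Pool.Agent.N969.RQ
open Pool.Agent.N969.P15 (un V3 tw)
open Pool.Agent.N218.RQ (core odd_part nn')

theorem op7 : op 7 = o7 := by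
  unfold op
  rw [if_neg (by norm_num), if_neg (by norm_num)]

theorem o7_mod (a b : ℤ) (h : (7 : ℤ) ∣ a - b) : o7 a = o7 b := by
  unfold o7
  apply jacobiSym.mod_left'
  omega

theorem inv7 {l : ℕ} (hl : l.Prime) (h7 : l ≠ 7) : ((7 : ℕ) : ℤ) ∣ l * (l : ℤ) ^ 5 - 1 := by
  have h7l : ¬ (7 : ℤ) ∣ l := fun h => by
    have h' : 7 ∣ l := by exact_mod_cast h
    exact h7 ((Nat.prime_dvd_prime_iff_eq (by norm_num) hl).1 h').symm
  have h5 : (l : ℤ) % 7 = 1 ∨ (l : ℤ) % 7 = 2 ∨ (l : ℤ) % 7 = 3 ∨ (l : ℤ) % 7 = 4 ∨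
    (l : ℤ) % 7 = 5 ∨ (l : ℤ) % 7 = 6 := by omega
  have e : (l : ℤ) * (l : ℤ) ^ 5 - 1 = (l : ℤ) ^ 6 - 1 := by ring
  rw [e]
  push_cast
  apply Int.ModEq.dvd
  have h6 : (l : ℤ) ^ 6 ≡ 1 [ZMOD 7] := by
    refine (Int.ModEq.pow 6 (Int.mod_modEq (l : ℤ) 7).symm).trans ?_
    rcases h5 with h | h | h | h | h | h <;> rw [h] <;> decide
  exact h6.symm

/-- **EISJ7** -/
theorem t_EISJ7 : S_EISJ7 := by
  intro D d l hD hD7 hd hs hl hl4 hl7 hDl hdl
  have := core (p := 7) (κ := 4) (li := (l : ℤ) ^ 5) (c := c7) c7_symm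
    (fun n1 n2 b m h1 h2 h3 h4 h5 => pc7' h1 h2 h3 h4 h5)
    Pool.Agent.N975.RQ.t_LOW Pool.Agent.N975.RQ.t_C1J Pool.Agent.N816.RQ.t_C2Jp
    (Or.inr (Or.inr rfl)) hD hD7 hd hs hl hl4 hl7 hDl hdl
    (fun a b h => by rw [op7]; exact o7_mod a b h) (inv7 hl hl7)
  rw [op7] at this
  exact this

/-! ### all auxiliary primes -/

theorem nn_facts' {D d l : ℕ} (hD : Fd D) (hd : Un D d) (hs : sgd D d = 1) (hl : l.Prime)
    (hl4 : l % 4 = 3) (hlD : ¬ l ∣ D) :
    Squarefree (nn D d l) ∧ nn D d l % 4 = 3 ∧ nn D d l * nn' D d l = D * l ^ 2 := by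
  obtain ⟨h1, h2⟩ := odd_part hD hd hs
  have hprod : d * (D / d) = D := Nat.mul_div_cancel' hd.1
  have hcl : ∀ k : ℕ, k ∣ D → Nat.Coprime k l := fun k hk =>
    ((Nat.Prime.coprime_iff_not_dvd hl).2 fun h => hlD (h.trans hk)).symm
  unfold nn nn'
  by_cases h : 2 ∣ d
  · rw [if_pos h] at h1 h2
    rw [if_pos h, if_pos h]
    refine ⟨(Nat.squarefree_mul (hcl _ (Nat.div_dvd_of_dvd hd.1))).2 ⟨h1, hl.squarefree⟩, ?_, ?_⟩
    · rw [Nat.mul_mod, h2, hl4]
    · calc D / d * l * (d * l) = (d * (D / d)) * l ^ 2 := by ring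
        _ = D * l ^ 2 := by rw [hprod]
  · rw [if_neg h] at h1 h2
    rw [if_neg h, if_neg h]
    refine ⟨(Nat.squarefree_mul (hcl _ hd.1)).2 ⟨h1, hl.squarefree⟩, ?_, ?_⟩
    · rw [Nat.mul_mod, h2, hl4]
    · calc d * l * (D / d * l) = (d * (D / d)) * l ^ 2 := by ring
        _ = D * l ^ 2 := by rw [hprod]

theorem Un_ndvd {D d l : ℕ} (hd : Un D d) (hlD : ¬ l ∣ D) : ¬ l ∣ d ∧ ¬ l ∣ D / d :=
  ⟨fun h => hlD (h.trans hd.1), fun h => hlD (h.trans (Nat.div_dvd_of_dvd hd.1))⟩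

/-- the sign of the pairs with `l ∣ t` if `(D / l) = -1` -/
theorem sj_neg {D d l : ℕ} {t : ℤ} (hd : Un D d) (hl : l.Prime) (hl4 : l % 4 = 3)
    (ht : (l : ℤ) ∣ t) (hDl : jacobiSym D l = -1) : sj D d l (-t) = sj D d l t := by
  have hFl : Fact l.Prime := ⟨hl⟩
  have hlD : ¬ l ∣ D := by
    intro h
    have : jacobiSym D l = 0 := by
      have : NeZero l := ⟨hl.ne_zero⟩
      rw [jacobiSym.eq_zero_iff_not_coprime, Int.gcd_natCast_natCast]
      intro h3
      have := Nat.dvd_gcd h (dvd_refl l)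
      rw [h3] at this
      exact hl.one_lt.ne' (Nat.dvd_one.1 this)
    rw [this] at hDl
    norm_num at hDl
  obtain ⟨k, rfl⟩ := ht
  have hl0 : (l : ℤ) ≠ 0 := by exact_mod_cast hl.ne_zero
  have hprod : d * (D / d) = D := Nat.mul_div_cancel' hd.1
  have hprodZ : (d : ℤ) * (D / d : ℕ) = D := by exact_mod_cast hprod
  obtain ⟨hld, hle⟩ := Un_ndvd hd hlD
  have hlp : Prime (l : ℤ) := Nat.prime_iff_prime_int.1 hl
  have key : ∀ k : ℤ, (∃ c : ℤ, (l : ℤ) ∣ (D / d : ℕ) * c ^ 2 - 2 * k * c + d ∧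
      jacobiSym c l = 1) → ∃ c : ℤ, (l : ℤ) ∣ (D / d : ℕ) * c ^ 2 - 2 * (-k) * c + d ∧
      jacobiSym c l = 1 := by
    rintro k ⟨c, hc, hc1⟩
    -- the other root
    have hcl : ¬ (l : ℤ) ∣ c := by
      intro h
      rw [jacobiSym.eq_zero_iff_not_coprime.2] at hc1
      · norm_num at hc1
      · intro h3
        have h4 : (l : ℤ) ∣ Int.gcd c l := Int.dvd_coe_gcd h (dvd_refl _)
        rw [h3] at h4
        have h5 : l ∣ 1 := by exact_mod_cast h4
        exact hl.one_lt.ne' (Nat.dvd_one.1 h5)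
    have hec : IsCoprime ((D / d : ℕ) * c : ℤ) (l : ℤ) := by
      rw [Int.isCoprime_iff_gcd_eq_one, Int.gcd_comm]
      refine (Int.isCoprime_iff_gcd_eq_one.1 ?_)
      rw [hlp.coprime_iff_not_dvd]
      intro h
      rcases hlp.dvd_or_dvd h with h | h
      · exact hle (by exact_mod_cast h)
      · exact hcl h
    obtain ⟨a, b, hab⟩ := hec
    -- c' = - d * a, `e c c' = - d`
    refine ⟨-(d * a), ?_, ?_⟩
    · -- e c c' ≡ -d
      have h1 : (l : ℤ) ∣ (D / d : ℕ) * c * (-(d * a)) + d :=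
        ⟨b * d, by linear_combination (-(d : ℤ)) * hab⟩
      -- e c^2 * F(c') where F(x) = e x^2 + 2 k x + d
      have h2 : (l : ℤ) ∣ ((D / d : ℕ) * c ^ 2) *
          ((D / d : ℕ) * (-(d * a)) ^ 2 - 2 * (-k) * (-(d * a)) + d) := by
        obtain ⟨u, hu⟩ := h1
        obtain ⟨w, hw⟩ := hc
        have e : ((D / d : ℕ) * c ^ 2) * ((D / d : ℕ) * (-(d * a)) ^ 2 - 2 * (-k) * (-(d * a)) + d) =
          l * (((D / d : ℕ) * c * (-(d * a)) - d) * u + 2 * k * c * u + d * w) := by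
          linear_combination ((D / d : ℕ) * c * (-(d * a)) - d + 2 * k * c) * hu + d * hw
        exact ⟨_, e⟩
      rcases hlp.dvd_or_dvd h2 with h | h
      · rcases hlp.dvd_or_dvd h with h | h
        · exact absurd (by exact_mod_cast h : l ∣ D / d) hle
        · exact absurd (hlp.dvd_of_dvd_pow h) hcl
      · exact h
    · have h1 : jacobiSym ((D / d : ℕ) * c * (-(d * a))) l = jacobiSym (-d) l := by
        apply jacobiSym.mod_left'
        have : (l : ℤ) ∣ (D / d : ℕ) * c * (-(d * a)) - (-d) :=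
          ⟨b * d, by linear_combination (-(d : ℤ)) * hab⟩
        exact (Int.modEq_iff_dvd.2 this).symm
      rw [jacobiSym.mul_left, jacobiSym.mul_left, hc1] at h1
      have h2 : jacobiSym (-(d : ℤ)) l = - jacobiSym d l := by
        have : (-(d : ℤ)) = (-1) * d := by ring
        rw [this, jacobiSym.mul_left, jacobiSym.at_neg_one (by
          rw [Nat.odd_iff]; omega), ZMod.χ₄_nat_three_mod_four hl4]
        ring
      have h3 : jacobiSym d l * jacobiSym (D / d : ℕ) l = -1 := by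
        rw [← jacobiSym.mul_left, hprodZ, hDl]
      have h4 : jacobiSym (D / d : ℕ) l ^ 2 = 1 := by
        apply jacobiSym.sq_one
        rw [Int.gcd_natCast_natCast]
        exact ((Nat.Prime.coprime_iff_not_dvd hl).2 hle).symm
      rw [h2] at h1
      have h5 : jacobiSym (D / d : ℕ) l * (jacobiSym (D / d : ℕ) l * 1 * jacobiSym (-(d * a)) l) =
        jacobiSym (D / d : ℕ) l * (- jacobiSym d l) := by rw [h1]
      linear_combination h5 - jacobiSym (-(d * a)) l * h4 - h3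
  have hiff : (∃ c : ℤ, (l : ℤ) ∣ (D / d : ℕ) * c ^ 2 - 2 * (-k) * c + d ∧ jacobiSym c l = 1) ↔
      ∃ c : ℤ, (l : ℤ) ∣ (D / d : ℕ) * c ^ 2 - 2 * k * c + d ∧ jacobiSym c l = 1 := by
    constructor
    · intro h
      have := key (-k) h
      rwa [neg_neg] at this
    · exact key k
  unfold sj
  have e1 : -((l : ℤ) * k) / l = -k := by
    rw [← mul_neg, Int.mul_ediv_cancel_left _ hl0]
  have e2 : ((l : ℤ) * k) / l = k := Int.mul_ediv_cancel_left _ hl0
  rw [if_pos (dvd_neg.2 (Dvd.intro k rfl)), if_pos (Dvd.intro k rfl), e1, e2]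
  split_ifs with g1 g2 g2
  · rfl
  · exact absurd (hiff.1 g1) g2
  · exact absurd (hiff.2 g2) g1
  · rfl

/-- the sum over the multiples of `l` vanishes by symmetry -/
theorem ST_odd {N D l : ℕ} {f : ℤ → ℤ} (hf : ∀ t, f (-t) = - f t) :
    Pool.Agent.N969.RQ.ST N D l (fun t _ => f t) = 0 := by
  unfold Pool.Agent.N969.RQ.ST
  have h : ∀ s : Finset ℤ, (∀ t ∈ s, -t ∈ s) → ∑ t ∈ s, f t = 0 := by
    intro s hs
    have h1 : ∑ t ∈ s, f t = ∑ t ∈ s, f (-t) := by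
      refine sum_nbij' (fun t => -t) (fun t => -t) hs hs (fun t _ => neg_neg t)
        (fun t _ => neg_neg t) (fun t _ => by rw [neg_neg])
    simp only [hf, sum_neg_distrib] at h1
    omega
  apply h
  intro t ht
  rw [mem_filter, mem_Ioo] at ht ⊢
  refine ⟨⟨by omega, by omega⟩, ?_⟩
  rw [neg_sq]
  exact ht.2

/-- the assembly for all auxiliary primes -/
theorem corep {p D d l : ℕ} {κ : ℤ} {li : ℤ} {c : ℤ → ℤ → ℤ → ℕ}
    (hsym : ∀ a b c' : ℤ, c a b c' = c c' b a) (hcn : ∀ a b c' : ℤ, c a (-b) c' = c a b c')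
    (hPC : ∀ (n1 n2 : ℕ) (b : ℤ) (m : ℕ), Squarefree n1 → n1 % 4 = 3 → ¬ p ∣ n1 →
      0 < m → (m : ℤ) = n1 * n2 - b ^ 2 → (c n1 b n2 : ℤ) = κ * lcp n1 m p)
    (hL : S_LOW) (hC1 : S_C1Jp) (hC2 : S_C2Jpp) (hp : p = 3 ∨ p = 5 ∨ p = 7)
    (hD : Fd D) (hDp : jacobiSym D p = 1) (hd : Un D d) (hs : sgd D d = 1) (hl : l.Prime)
    (hl4 : l % 4 = 3) (hlp : l ≠ p) (hlD : ¬ l ∣ D)
    (hdl : jacobiSym (-((d * l : ℕ) : ℤ)) p = -1)
    (hw : ∀ a b : ℤ, (p : ℤ) ∣ a - b → op p a = op p b)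
    (hwn : ∀ a : ℤ, op p (-a) = - op p a) (hli : (p : ℤ) ∣ l * li - 1) :
    Pool.Agent.N969.RQ.ST p D l (fun t _ => op p (t * li) * sj D d l t *
      (c (d * l : ℕ) t (D / d * l : ℕ) : ℤ)) = 0 := by
  have hpp : p.Prime := by rcases hp with rfl | rfl | rfl <;> norm_num
  have hl2 : l ≠ 2 := by rintro rfl; omega
  have hlp' : ¬ l ∣ p := fun h => hlp ((Nat.prime_dvd_prime_iff_eq hl hpp).1 h)
  have h1 := hC1 p (op p) D d l li hpp.pos hD hd hs hl hl2 hlp' hlD hw hli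
  have h2 : ∑ u ∈ un l, jacobiSym u l * J p (op p) D d u l = 0 := by
    refine sum_eq_zero fun u _ => ?_
    rw [hL p hp D d hD hDp hd hs u l (by exact_mod_cast hl.ne_zero), mul_zero]
  rw [h2] at h1
  obtain ⟨f1, f2, f3⟩ := nn_facts' hD hd hs hl hl4 hlD
  have hnp : ∀ k : ℕ, (jacobiSym k p ≠ 0) → ¬ p ∣ k := by
    intro k hk h
    apply hk
    have : NeZero p := ⟨hpp.ne_zero⟩
    rw [jacobiSym.eq_zero_iff_not_coprime, Int.gcd_natCast_natCast]
    intro h3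
    have := Nat.dvd_gcd h (dvd_refl p)
    rw [h3] at this
    exact hpp.one_lt.ne' (Nat.dvd_one.1 this)
  have hpD : ¬ p ∣ D := hnp D (by rw [hDp]; norm_num)
  have hpl : ¬ p ∣ l := fun h => hlp ((Nat.prime_dvd_prime_iff_eq hpp hl).1 h).symm
  have hpn : ¬ p ∣ nn D d l := by
    intro h
    have h5 : p ∣ D * l ^ 2 := by rw [← f3]; exact h.mul_right _
    rcases (Nat.Prime.dvd_mul hpp).1 h5 with h6 | h6
    · exact hpD h6
    · exact hpl (hpp.dvd_of_dvd_pow h6)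
  have hl0 : (l : ℤ) ≠ 0 := by exact_mod_cast hl.ne_zero
  -- the terms with `l ∤ t` or `(D / l) = 1`
  have term : ∀ t : ℤ, t ^ 2 < (D * l ^ 2 : ℕ) → ((4 * p : ℕ) : ℤ) ∣ (D * l ^ 2 : ℕ) - t ^ 2 →
      (¬ (l : ℤ) ∣ t ∨ jacobiSym D l = 1) →
      op p (t * li) * sj D d l t * (c (d * l : ℕ) t (D / d * l : ℕ) : ℤ) =
      -κ * (op p (t * li) * Wp p D d l t (((D * l ^ 2 : ℕ) : ℤ) - t ^ 2).toNat) := by
    intro t ht1 ht2 htl
    set m : ℕ := (((D * l ^ 2 : ℕ) : ℤ) - t ^ 2).toNat with hm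
    have hmz : (m : ℤ) = ((D * l ^ 2 : ℕ) : ℤ) - t ^ 2 := Int.toNat_of_nonneg (by linarith)
    have hm0 : 0 < m := by
      have : (0 : ℤ) < m := by rw [hmz]; linarith
      exact_mod_cast this
    have hmz' : (m : ℤ) = D * l ^ 2 - t ^ 2 := by rw [hmz]; push_cast; ring
    have h4p : 4 * p ∣ m := by
      have : ((4 * p : ℕ) : ℤ) ∣ (m : ℤ) := by rw [hmz]; exact ht2
      exact_mod_cast this
    have e1 := hC2 p hp D d l hD hDp hd hs hl hl4 hlp hlD hdl t m hm0 hmz' htl h4p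
    have e2 : (c (d * l : ℕ) t (D / d * l : ℕ) : ℤ) = κ * lcp (nn D d l) m p := by
      rw [← hPC (nn D d l) (nn' D d l) t m f1 f2 hpn hm0 (by
        rw [hmz']
        have : ((nn D d l * nn' D d l : ℕ) : ℤ) = ((D * l ^ 2 : ℕ) : ℤ) := by rw [f3]
        push_cast at this
        rw [this])]
      unfold nn nn'
      by_cases h : 2 ∣ d
      · rw [if_pos h, if_pos h, hsym]
      · rw [if_neg h, if_neg h]
    rw [e1, e2]
    ring
  have hjpm : jacobiSym D l = 1 ∨ jacobiSym D l = -1 := by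
    rcases jacobiSym.trichotomy D l with h | h | h
    · exfalso
      have : NeZero l := ⟨hl.ne_zero⟩
      rw [jacobiSym.eq_zero_iff_not_coprime, Int.gcd_natCast_natCast] at h
      exact h ((Nat.Prime.coprime_iff_not_dvd hl).2 hlD).symm
    · exact Or.inl h
    · exact Or.inr h
  rcases hjpm with hj | hj
  · have key : Pool.Agent.N969.RQ.ST p D l (fun t _ => op p (t * li) * sj D d l t *
        (c (d * l : ℕ) t (D / d * l : ℕ) : ℤ)) =
        -κ * Pool.Agent.N969.RQ.ST p D l (fun t m => op p (t * li) * Wp p D d l t m) := by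
      unfold Pool.Agent.N969.RQ.ST
      rw [mul_sum]
      refine sum_congr rfl fun t ht => ?_
      rw [mem_filter] at ht
      exact term t ht.2.1 ht.2.2 (Or.inr hj)
    rw [key, ← h1, mul_zero]
  · have e0 := core (p := p) (κ := κ) (li := li) (c := c) hsym hPC hL
      Pool.Agent.N975.RQ.t_C1J Pool.Agent.N816.RQ.t_C2Jp hp hD hDp hd hs hl hl4 hlp hj hdl hw hli
    have e1 : Pool.Agent.N969.RQ.ST p D l (fun t _ => op p (t * li) *
        (sj D d l t - jacobiSym (2 * t) l) * (c (d * l : ℕ) t (D / d * l : ℕ) : ℤ)) = 0 := by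
      apply ST_odd
      intro t
      by_cases htl : (l : ℤ) ∣ t
      · have hz : ∀ s : ℤ, (l : ℤ) ∣ s → jacobiSym (2 * s) l = 0 := by
          intro s hs'
          have : NeZero l := ⟨hl.ne_zero⟩
          rw [jacobiSym.eq_zero_iff_not_coprime]
          intro h3
          have h4 : (l : ℤ) ∣ Int.gcd (2 * s) l := Int.dvd_coe_gcd (hs'.mul_left 2) (dvd_refl _)
          rw [h3] at h4
          have h5 : l ∣ 1 := by exact_mod_cast h4
          exact hl.one_lt.ne' (Nat.dvd_one.1 h5)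
        rw [hz _ htl, hz _ (dvd_neg.2 htl), hcn, neg_mul, hwn, sj_neg hd hl hl4 htl hj]
        ring
      · have hs1 : ∀ s : ℤ, ¬ (l : ℤ) ∣ s → sj D d l s - jacobiSym (2 * s) l = 0 := by
          intro s hs'
          unfold sj
          rw [if_neg hs', sub_self]
        rw [hs1 _ htl, hs1 _ (fun h => htl (dvd_neg.1 h))]
        ring
    have e2 : Pool.Agent.N969.RQ.ST p D l (fun t _ => op p (t * li) * sj D d l t *
        (c (d * l : ℕ) t (D / d * l : ℕ) : ℤ)) =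
        Pool.Agent.N969.RQ.ST p D l (fun t _ => op p (t * li) * jacobiSym (2 * t) l *
        (c (d * l : ℕ) t (D / d * l : ℕ) : ℤ)) +
        Pool.Agent.N969.RQ.ST p D l (fun t _ => op p (t * li) *
        (sj D d l t - jacobiSym (2 * t) l) * (c (d * l : ℕ) t (D / d * l : ℕ) : ℤ)) := by
      unfold Pool.Agent.N969.RQ.ST
      rw [← sum_add_distrib]
      exact sum_congr rfl fun t _ => by ring
    rw [e2, e0, e1, add_zero]

theorem o7_neg (a : ℤ) : o7 (-a) = - o7 a := by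
  unfold o7
  have : (-a) = (-1) * a := by ring
  rw [this, jacobiSym.mul_left, show jacobiSym (-1) 7 = -1 by norm_num]
  ring

theorem c7_neg (a b c : ℤ) : c7 a (-b) c = c7 a b c := by
  unfold c7
  have h : ∀ (n : ℤ) (v : V3), v ∈ vec7 n → -v ∈ vec7 n := by
    intro n v hv
    unfold vec7 at hv ⊢
    rw [mem_filter, Fintype.mem_piFinset] at hv ⊢
    refine ⟨fun i => ?_, ?_⟩
    · have := Finset.mem_Icc.1 (hv.1 i)
      rw [Finset.mem_Icc, Pi.neg_apply]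
      omega
    · rw [← hv.2]
      unfold ip7
      simp only [Pi.neg_apply]
      ring
  refine card_nbij' (fun q => (-q.1, q.2)) (fun q => (-q.1, q.2)) ?_ ?_ ?_ ?_
  · rintro ⟨v, w⟩ hq
    rw [Finset.mem_coe, mem_filter, mem_product] at hq ⊢
    refine ⟨⟨h _ _ hq.1.1, hq.1.2⟩, ?_⟩
    have := hq.2
    unfold ip7 at this ⊢
    simp only [Pi.neg_apply]
    linarith
  · rintro ⟨v, w⟩ hq
    rw [Finset.mem_coe, mem_filter, mem_product] at hq ⊢
    refine ⟨⟨h _ _ hq.1.1, hq.1.2⟩, ?_⟩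
    have := hq.2
    unfold ip7 at this ⊢
    simp only [Pi.neg_apply]
    linarith
  · rintro ⟨v, w⟩ _
    simp
  · rintro ⟨v, w⟩ _
    simp

/-- **EISJ7p** -/
theorem s_EISJ7p (hC2 : S_C2Jpp) : S_EISJ7p := by
  intro D d l hD hD7 hd hs hl hl4 hl7 hlD hdl
  have := corep (p := 7) (κ := 4) (li := (l : ℤ) ^ 5) (c := c7) c7_symm c7_neg
    (fun n1 n2 b m h1 h2 h3 h4 h5 => pc7' h1 h2 h3 h4 h5)
    Pool.Agent.N975.RQ.t_LOW Pool.Agent.N975.RQ.t_C1Jp hC2
    (Or.inr (Or.inr rfl)) hD hD7 hd hs hl hl4 hl7 hlD hdl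
    (fun a b h => by rw [op7]; exact o7_mod a b h) (fun a => by rw [op7]; exact o7_neg a)
    (inv7 hl hl7)
  rw [op7] at this
  exact this

end Pool.Agent.N970.RQ
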