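import Pool.Agent.N970.RQ.Orth7
import Pool.Agent.N970.RQ.Eis7
import Pool.Agent.N969.RQ.Defs4

/-!
# BILJ21n: the signed pair sums and the sum over the inner products
-/

set_option autoImplicit false

namespace Pool.Agent.N970.RQ

open Finset
open Pool.Agent.N969.P15 (V3 tw)
open Pool.Agent.N969.RQ (ip7 vec7 c7 R21 Un sgd sj o7 Fd nn)
open Pool.Agent.N218.RQ (odd_part nn')
open Pool.Agent.N844.P17G (Iso sig)
open Pool.Agent.N970.Sgn
open Pool.Agent.N970.P21G (mem7)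
open Pool.Agent.N877.P21G (Fn I7 L37 cp3 w7)

/-- the sign of a vector -/
noncomputable def EE (l : ℕ) (v : V3) : ℤ := psi ip7 l v * oo v

/-- the signed sum over the vectors in an isotropic line -/
noncomputable def Fi (l n : ℕ) (i : Fin 4) : ℤ :=
  ∑ v ∈ vec7 (n : ℤ), (if (3 : ℤ) ∣ L3 i v then 1 else 0) * EE l v

/-- the signed sum -/
noncomputable def Zn (l n : ℕ) : ℤ := ∑ v ∈ vec7 ((n * l : ℕ) : ℤ), w7 (n * l) v * EE l v

theorem L3_rot (i : Fin 4) (v : V3) : (3 : ℤ) ∣ L3 i (rot7 v) ↔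
    (3 : ℤ) ∣ L3 (![2, 3, 0, 1] i) v := by
  have e : L3 i (rot7 v) = - L3 (![2, 3, 0, 1] i) v := by
    match i with
    | 0 => simp [L3, rot7]; ring
    | 1 => simp [L3, rot7]; ring
    | 2 => simp [L3, rot7]; ring
    | 3 => simp [L3, rot7]; ring
  rw [e, dvd_neg]

theorem L3_wot (i : Fin 4) (v : V3) : (3 : ℤ) ∣ L3 i (wot7 v) ↔
    (3 : ℤ) ∣ L3 (![3, 2, 1, 0] i) v := by
  have e : L3 i (wot7 v) = L3 (![3, 2, 1, 0] i) v := by
    match i with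
    | 0 => simp [L3, wot7]; ring
    | 1 => simp [L3, wot7]; ring
    | 2 => simp [L3, wot7]
    | 3 => simp [L3, wot7]
  rw [e]

section

variable {l : ℕ} [hl : Fact l.Prime] (h2 : l ≠ 2) (h7 : l ≠ 7)

include h2 h7

theorem Fi_rot {n : ℕ} (hn : ∀ v : V3, ip7 v v = n → Iso ip7 l v) (i : Fin 4) :
    Fi l n i = Fi l n (![2, 3, 0, 1] i) := by
  unfold Fi
  refine sum_nbij' rot7 rot7 ?_ ?_ (fun v _ => rot7_rot7 v) (fun v _ => rot7_rot7 v) ?_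
  · intro v hv
    rw [mem7] at hv ⊢
    rw [sim_rot7.iso, hv]; ring
  · intro v hv
    rw [mem7] at hv ⊢
    rw [sim_rot7.iso, hv]; ring
  · intro v hv
    rw [mem7] at hv
    have h1 : ∀ j : Fin 4, (![2, 3, 0, 1] : Fin 4 → Fin 4) (![2, 3, 0, 1] j) = j := by decide
    have h3 := L3_rot (![2, 3, 0, 1] i) v
    rw [h1] at h3
    unfold EE
    rw [psi_rot7 h2 h7 (hn v hv), oo_rot]
    by_cases h : (3 : ℤ) ∣ L3 i v
    · rw [if_pos h, if_pos (h3.2 h)]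
    · rw [if_neg h, if_neg (fun h' => h (h3.1 h'))]

theorem Fi_wot {n : ℕ} (hn : ∀ v : V3, ip7 v v = n → Iso ip7 l v) (h7l : jacobiSym 7 l = 1)
    (i : Fin 4) : Fi l n i = - Fi l n (![3, 2, 1, 0] i) := by
  unfold Fi
  rw [← sum_neg_distrib]
  refine sum_nbij' wot7 wot7 ?_ ?_ (fun v _ => wot7_wot7 v) (fun v _ => wot7_wot7 v) ?_
  · intro v hv
    rw [mem7] at hv ⊢
    rw [sim_wot7.iso, hv]; ring
  · intro v hv
    rw [mem7] at hv ⊢
    rw [sim_wot7.iso, hv]; ring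
  · intro v hv
    rw [mem7] at hv
    have h1 : ∀ j : Fin 4, (![3, 2, 1, 0] : Fin 4 → Fin 4) (![3, 2, 1, 0] j) = j := by decide
    have h3 := L3_wot (![3, 2, 1, 0] i) v
    rw [h1] at h3
    unfold EE
    rw [psi_wot7 h2 h7 (hn v hv), oo_wot, h7l]
    by_cases h : (3 : ℤ) ∣ L3 i v
    · rw [if_pos h, if_pos (h3.2 h)]; ring
    · rw [if_neg h, if_neg (fun h' => h (h3.1 h'))]; ring

/-- the sum over the lines -/
theorem sum_Fi {n1 n2 : ℕ} (h1 : ∀ v : V3, ip7 v v = (n1 * l : ℕ) → Iso ip7 l v)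
    (h3 : ∀ v : V3, ip7 v v = (n2 * l : ℕ) → Iso ip7 l v) (h7l : jacobiSym 7 l = 1)
    (e1 : ¬ 3 ∣ n1 * l) (e2 : ¬ 3 ∣ n2 * l) :
    ∑ i, Fi l (n1 * l) i * Fi l (n2 * l) i = Zn l n1 * Zn l n2 := by
  have z : ∀ n : ℕ, (∀ v : V3, ip7 v v = (n * l : ℕ) → Iso ip7 l v) → ¬ 3 ∣ n * l →
      Zn l n = 2 * Fi l (n * l) 0 ∧ Fi l (n * l) 1 = - Fi l (n * l) 0 ∧
      Fi l (n * l) 2 = Fi l (n * l) 0 ∧ Fi l (n * l) 3 = - Fi l (n * l) 0 := by
    intro n hn e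
    have r0 := Fi_rot h2 h7 hn 0
    have r1 := Fi_rot h2 h7 hn 1
    have w0 := Fi_wot h2 h7 hn h7l 0
    have w1 := Fi_wot h2 h7 hn h7l 1
    simp only [Matrix.cons_val_zero, Matrix.cons_val_one] at r0 r1 w0 w1
    have e0 : Zn l n = Fi l (n * l) 0 - Fi l (n * l) 3 := by
      unfold Zn Fi
      rw [← sum_sub_distrib]
      refine sum_congr rfl fun v _ => ?_
      unfold w7
      rw [if_neg e]
      have a0 : L3 0 v = v 1 + v 0 := by simp [L3]; ring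
      have a3 : (3 : ℤ) ∣ L3 3 v ↔ (3 : ℤ) ∣ v 1 - v 0 := by
        have : L3 3 v = -(v 1 - v 0) := by simp [L3]
        rw [this, dvd_neg]
      rw [a0]
      simp only [a3]
      ring
    refine ⟨by rw [e0]; linarith, by linarith, by linarith, by linarith⟩
  obtain ⟨a1, a2, a3, a4⟩ := z n1 h1 e1
  obtain ⟨b1, b2, b3, b4⟩ := z n2 h3 e2
  rw [Fin.sum_univ_four, a1, a2, a3, a4, b1, b2, b3, b4]
  ring

end

/-- the sum over the lines as a sum over the inner products -/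
theorem Fi_pairs {l n1 n2 : ℕ} {s : Finset ℤ}
    (hs : ∀ v w : V3, ip7 v v = n1 → ip7 w w = n2 → cl v w ≠ 0 → ip7 v w ∈ s) :
    ∑ i, Fi l n1 i * Fi l n2 i = ∑ t ∈ s, jacobiSym t 7 *
      ∑ q ∈ (vec7 (n1 : ℤ) ×ˢ vec7 (n2 : ℤ)).filter (fun q => ip7 q.1 q.2 = t),
        psi ip7 l q.1 * psi ip7 l q.2 * cl q.1 q.2 := by
  have e1 : ∑ i, Fi l n1 i * Fi l n2 i =
      ∑ q ∈ vec7 (n1 : ℤ) ×ˢ vec7 (n2 : ℤ), EE l q.1 * EE l q.2 * cl q.1 q.2 := by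
    unfold Fi
    simp only [sum_mul_sum]
    rw [sum_product, sum_comm]
    refine sum_congr rfl fun v _ => ?_
    rw [sum_comm]
    refine sum_congr rfl fun w _ => ?_
    unfold cl
    rw [mul_sum]
    refine sum_congr rfl fun i _ => ?_
    ring
  rw [e1]
  have e2 : ∑ q ∈ vec7 (n1 : ℤ) ×ˢ vec7 (n2 : ℤ), EE l q.1 * EE l q.2 * cl q.1 q.2 =
      ∑ q ∈ (vec7 (n1 : ℤ) ×ˢ vec7 (n2 : ℤ)).filter (fun q => ip7 q.1 q.2 ∈ s),
        EE l q.1 * EE l q.2 * cl q.1 q.2 := by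
    symm
    apply sum_subset (filter_subset _ _)
    intro q hq hq'
    rw [mem_product, mem7, mem7] at hq
    rw [mem_filter, mem_product, mem7, mem7] at hq'
    have : cl q.1 q.2 = 0 := by
      by_contra h
      exact hq' ⟨hq, hs _ _ hq.1 hq.2 h⟩
    rw [this, mul_zero]
  rw [e2]
  rw [← sum_fiberwise_of_maps_to (t := s) (g := fun q : V3 × V3 => ip7 q.1 q.2)
    (fun q hq => (mem_filter.1 hq).2)]
  refine sum_congr rfl fun t ht => ?_
  rw [mul_sum, filter_filter]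
  have e3 : (vec7 (n1 : ℤ) ×ˢ vec7 (n2 : ℤ)).filter (fun q => ip7 q.1 q.2 ∈ s ∧ ip7 q.1 q.2 = t) =
      (vec7 (n1 : ℤ) ×ˢ vec7 (n2 : ℤ)).filter (fun q => ip7 q.1 q.2 = t) := by
    refine filter_congr fun q _ => ⟨fun h => h.2, fun h => ⟨by rw [h]; exact ht, h⟩⟩
  rw [e3]
  refine sum_congr rfl fun q hq => ?_
  rw [← (mem_filter.1 hq).2, ← oo_mul]
  unfold EE
  ring

end Pool.Agent.N970.RQ
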