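import Pool.Agent.N970.RQ.X7

/-!
# Pairs of vectors with a common isotropic line modulo `3` (project RQ)
-/

set_option autoImplicit false

namespace Pool.Agent.N970.RQ

open Finset
open Pool.Agent.Z700 (hh fac)
open Pool.Agent.Y574.Z7 (chp chp_mul chp_sq jac_eq dvd_fac nd4)
open Pool.Agent.N295.P15 (Ps Ps_fac Ps_pm Fd pf_prime pf_dvd fac4 chp4)
open Pool.Agent.N969.P15 (tw ep2)
open Pool.Agent.N816.P17 (bi bi_comm)
open Pool.Agent.N970.PC
open Pool.Agent.N969.RQ (rr7)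

/-! ### the isotropic lines modulo `3` -/

/-- the four isotropic lines modulo `3` -/
def L3 (i : Fin 4) (v : Fin 3 → ℤ) : ℤ :=
  match i with
  | 0 => v 0 + v 1
  | 1 => v 0 + v 1 + v 2
  | 2 => v 0 - v 1 - v 2
  | 3 => v 0 - v 1

/-- the same over the field -/
def M3 (i : Fin 4) (a b c : ZMod 3) : ZMod 3 :=
  match i with
  | 0 => a + b
  | 1 => a + b + c
  | 2 => a - b - c
  | 3 => a - b

theorem L3_cast (i : Fin 4) (v : Fin 3 → ℤ) : ((L3 i v : ℤ) : ZMod 3) = M3 i (v 0) (v 1) (v 2) := by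
  match i with
  | 0 => simp [L3, M3]
  | 1 => simp [L3, M3]
  | 2 => simp [L3, M3]
  | 3 => simp [L3, M3]

/-- the inner product over the field -/
def b3 (a b c x y z : ZMod 3) : ZMod 3 := a * x + b * y + 2 * (c * z) + 2 * (b * z + c * y)

theorem b3_cast (v w : Fin 3 → ℤ) : ((bi G7 v w : ℤ) : ZMod 3) =
    b3 (v 0) (v 1) (v 2) (w 0) (w 1) (w 2) := by
  rw [biG7]
  unfold b3
  push_cast
  have h7 : (7 : ZMod 3) = 1 := by decide
  have h4 : (4 : ZMod 3) = 1 := by decide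
  have h8 : (8 : ZMod 3) = 2 := by decide
  rw [h7, h4, h8]
  ring

theorem dvd3_iff (z : ℤ) : (3 : ℤ) ∣ z ↔ (z : ZMod 3) = 0 := (ZMod.intCast_zmod_eq_zero_iff_dvd z 3).symm

theorem two_lines : ∀ a b c : ZMod 3, b3 a b c a b c = 2 →
    ∑ i : Fin 4, (if M3 i a b c = 0 then (1 : ℤ) else 0) = 2 := by
  decide +kernel

theorem com_lines : ∀ a b c x y z : ZMod 3, b3 a b c a b c = 2 → b3 x y z x y z = 2 →
    ∑ i : Fin 4, (if M3 i a b c = 0 then (1 : ℤ) else 0) * (if M3 i x y z = 0 then 1 else 0) =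
      if 1 - b3 a b c x y z ^ 2 = 0 then 1 + (if x + b3 a b c x y z * a = 0 ∧
        y + b3 a b c x y z * b = 0 ∧ z + b3 a b c x y z * c = 0 then 1 else 0) else 0 := by
  decide +kernel

/-- the vectors orthogonal to a line -/
noncomputable def v3 (i : Fin 4) (n : ℕ) : Finset (Fin 3 → ℤ) := (vv n).filter fun v => (3 : ℤ) ∣ L3 i v

theorem v3_card (i : Fin 4) (n : ℕ) :
    ((v3 i n).card : ℤ) = ∑ v ∈ vv n, if (3 : ℤ) ∣ L3 i v then (1 : ℤ) else 0 := by
  unfold v3
  rw [Finset.card_filter]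
  push_cast
  rfl

theorem cast_two {n : ℕ} (h : n % 3 = 2) : (n : ZMod 3) = 2 := by
  have key : (n : ZMod 3) = ((n % 3 : ℕ) : ZMod 3) := (ZMod.natCast_mod n 3).symm
  rw [key, h]
  rfl

theorem self_two {n : ℕ} (h : n % 3 = 2) {v : Fin 3 → ℤ} (hv : v ∈ vv n) :
    b3 (v 0) (v 1) (v 2) (v 0) (v 1) (v 2) = 2 := by
  rw [mem_vv] at hv
  rw [← b3_cast, hv, Int.cast_natCast, cast_two h]

/-- each vector is orthogonal to two lines -/
theorem sum_v3 {n : ℕ} (h : n % 3 = 2) : ∑ i : Fin 4, ((v3 i n).card : ℤ) = 2 * rr7 n := by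
  rw [rr7_eq, Finset.sum_congr rfl fun i _ => v3_card i n, Finset.sum_comm,
    Finset.card_eq_sum_ones, Nat.cast_sum, Finset.mul_sum]
  refine Finset.sum_congr rfl fun v hv => ?_
  rw [Nat.cast_one, mul_one, ← two_lines _ _ _ (self_two h hv)]
  refine Finset.sum_congr rfl fun i _ => ?_
  rw [← L3_cast]
  simp only [dvd3_iff]

/-! ### the symmetries -/

def g1 (v : Fin 3 → ℤ) : Fin 3 → ℤ := ![-v 0, v 1, v 2]
def g2 (v : Fin 3 → ℤ) : Fin 3 → ℤ := ![v 0, v 1 + v 2, -v 2]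

theorem g1_g1 (v : Fin 3 → ℤ) : g1 (g1 v) = v := by
  ext i
  fin_cases i <;> simp [g1]

theorem g2_g2 (v : Fin 3 → ℤ) : g2 (g2 v) = v := by
  ext i
  fin_cases i <;> simp [g2]

theorem g1_mem {n : ℕ} {v : Fin 3 → ℤ} (h : v ∈ vv n) : g1 v ∈ vv n := by
  rw [mem_vv, bi_self] at h ⊢
  simp only [g1, Matrix.cons_val_zero, Matrix.cons_val_one, Matrix.cons_val]
  rw [← h]
  ring

theorem g2_mem {n : ℕ} {v : Fin 3 → ℤ} (h : v ∈ vv n) : g2 v ∈ vv n := by
  rw [mem_vv, bi_self] at h ⊢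
  simp only [g2, Matrix.cons_val_zero, Matrix.cons_val_one, Matrix.cons_val]
  rw [← h]
  ring

theorem card_g {n : ℕ} {i j : Fin 4} (g : (Fin 3 → ℤ) → (Fin 3 → ℤ)) (hg : ∀ v, g (g v) = v)
    (hm : ∀ v ∈ vv n, g v ∈ vv n) (h : ∀ v, (3 : ℤ) ∣ L3 i (g v) ↔ (3 : ℤ) ∣ L3 j v) :
    (v3 i n).card = (v3 j n).card := by
  refine Finset.card_nbij' g g ?_ ?_ (fun v _ => hg v) (fun v _ => hg v)
  · intro v hv
    have hv := Finset.mem_filter.1 (Finset.mem_coe.1 hv)
    refine Finset.mem_coe.2 (Finset.mem_filter.2 ⟨hm v hv.1, ?_⟩)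
    rw [← h, hg]
    exact hv.2
  · intro v hv
    have hv := Finset.mem_filter.1 (Finset.mem_coe.1 hv)
    exact Finset.mem_coe.2 (Finset.mem_filter.2 ⟨hm v hv.1, (h v).2 hv.2⟩)

theorem card_30 (n : ℕ) : (v3 3 n).card = (v3 0 n).card :=
  card_g g1 g1_g1 (fun _ => g1_mem) (fun v => by
    show (3 : ℤ) ∣ -v 0 - v 1 ↔ (3 : ℤ) ∣ v 0 + v 1
    omega)

theorem card_21 (n : ℕ) : (v3 2 n).card = (v3 1 n).card :=
  card_g g1 g1_g1 (fun _ => g1_mem) (fun v => by
    show (3 : ℤ) ∣ -v 0 - v 1 - v 2 ↔ (3 : ℤ) ∣ v 0 + v 1 + v 2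
    omega)

theorem card_01 (n : ℕ) : (v3 0 n).card = (v3 1 n).card :=
  card_g g2 g2_g2 (fun _ => g2_mem) (fun v => by
    show (3 : ℤ) ∣ v 0 + (v 1 + v 2) ↔ (3 : ℤ) ∣ v 0 + v 1 + v 2
    omega)

theorem card_all {n : ℕ} (h : n % 3 = 2) (i : Fin 4) : 2 * ((v3 i n).card : ℤ) = rr7 n := by
  have h1 := sum_v3 h
  rw [Fin.sum_univ_four, card_30, card_21, card_01] at h1
  match i with
  | 0 => rw [card_01]; linarith
  | 1 => linarith
  | 2 => rw [card_21]; linarith
  | 3 => rw [card_30, card_01]; linarith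

/-! ### the proportional pairs -/

/-- the number of pairs proportional modulo `3` -/
noncomputable def cp3 (n1 : ℕ) (b : ℤ) (n2 : ℕ) : ℕ :=
  ((vv n1 ×ˢ vv n2).filter fun q => bi G7 q.1 q.2 = b ∧ ∀ i, (3 : ℤ) ∣ q.2 i + b * q.1 i).card

/-- the number of common lines -/
theorem com_eq {n n2 : ℕ} (h : n % 3 = 2) (h2 : n2 % 3 = 2) {v w : Fin 3 → ℤ} (hv : v ∈ vv n)
    (hw : w ∈ vv n2) :
    ∑ i : Fin 4, (if (3 : ℤ) ∣ L3 i v then (1 : ℤ) else 0) * (if (3 : ℤ) ∣ L3 i w then 1 else 0) =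
      if (3 : ℤ) ∣ (n : ℤ) * n2 - bi G7 v w ^ 2 then
        1 + (if ∀ i, (3 : ℤ) ∣ w i + bi G7 v w * v i then 1 else 0) else 0 := by
  have hc := com_lines _ _ _ _ _ _ (self_two h hv) (self_two h2 hw)
  have e1 : (∀ i, (3 : ℤ) ∣ w i + bi G7 v w * v i) ↔
      ((w 0 : ZMod 3) + b3 (v 0) (v 1) (v 2) (w 0) (w 1) (w 2) * v 0 = 0 ∧
        (w 1 : ZMod 3) + b3 (v 0) (v 1) (v 2) (w 0) (w 1) (w 2) * v 1 = 0 ∧
        (w 2 : ZMod 3) + b3 (v 0) (v 1) (v 2) (w 0) (w 1) (w 2) * v 2 = 0) := by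
    simp only [dvd3_iff, Fin.forall_fin_succ, IsEmpty.forall_iff, and_true]
    push_cast
    rw [b3_cast]
  have e2 : (3 : ℤ) ∣ (n : ℤ) * n2 - bi G7 v w ^ 2 ↔
      1 - b3 (v 0) (v 1) (v 2) (w 0) (w 1) (w 2) ^ 2 = 0 := by
    rw [dvd3_iff]
    push_cast
    rw [b3_cast, cast_two h, cast_two h2]
    have : (2 : ZMod 3) * 2 = 1 := by decide
    rw [this]
  simp only [e1, e2]
  rw [← hc]
  refine Finset.sum_congr rfl fun i _ => ?_
  rw [← L3_cast, ← L3_cast]
  simp only [dvd3_iff]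

/-- the sum over all pairs of the number of common lines -/
theorem sum_com {n n2 : ℕ} (h : n % 3 = 2) (h2 : n2 % 3 = 2) :
    ∑ v ∈ vv n, ∑ w ∈ vv n2, ∑ i : Fin 4, (if (3 : ℤ) ∣ L3 i v then (1 : ℤ) else 0) *
      (if (3 : ℤ) ∣ L3 i w then 1 else 0) = rr7 n * rr7 n2 := by
  have e1 : ∀ v ∈ vv n, ∑ w ∈ vv n2, ∑ i : Fin 4, (if (3 : ℤ) ∣ L3 i v then (1 : ℤ) else 0) *
      (if (3 : ℤ) ∣ L3 i w then 1 else 0) =
      ∑ i : Fin 4, (if (3 : ℤ) ∣ L3 i v then (1 : ℤ) else 0) * ((v3 i n2).card : ℤ) := by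
    intro v _
    rw [Finset.sum_comm]
    refine Finset.sum_congr rfl fun i _ => ?_
    rw [v3_card, Finset.mul_sum]
  rw [Finset.sum_congr rfl e1, Finset.sum_comm]
  have e2 : ∀ i : Fin 4, ∑ v ∈ vv n, (if (3 : ℤ) ∣ L3 i v then (1 : ℤ) else 0) *
      ((v3 i n2).card : ℤ) = ((v3 i n).card : ℤ) * ((v3 i n2).card : ℤ) := by
    intro i
    rw [v3_card i n, Finset.sum_mul]
  rw [Finset.sum_congr rfl fun i _ => e2 i]
  have e3 : ∀ i : Fin 4, 4 * (((v3 i n).card : ℤ) * ((v3 i n2).card : ℤ)) = rr7 n * rr7 n2 := by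
    intro i
    rw [← card_all h i, ← card_all h2 i]
    ring
  have e4 : 4 * ∑ i : Fin 4, ((v3 i n).card : ℤ) * ((v3 i n2).card : ℤ) =
      4 * (rr7 n * rr7 n2) := by
    rw [Finset.mul_sum, Finset.sum_congr rfl fun i _ => e3 i, Finset.sum_const, Finset.card_univ,
      Fintype.card_fin, nsmul_eq_mul, Nat.cast_ofNat]
  linarith

/-- REL: the sum over the inner products -/
theorem sum_rel {n n2 : ℕ} (h : n % 3 = 2) (h2 : n2 % 3 = 2) (hns : ¬ IsSquare (n * n2)) :
    ∑ t ∈ (Tr (n * n2)).filter (fun t : ℤ => (3 : ℤ) ∣ ((n * n2 : ℕ) : ℤ) - t ^ 2),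
      ((cpp n t n2 : ℤ) + cp3 n t n2) = rr7 n * rr7 n2 := by
  rw [← sum_com h h2]
  have s1 : ∀ t, ((cpp n t n2 : ℤ) + cp3 n t n2) = ∑ v ∈ vv n, ∑ w ∈ vv n2,
      (if bi G7 v w = t then (1 + if ∀ i, (3 : ℤ) ∣ w i + bi G7 v w * v i then (1 : ℤ) else 0)
        else 0) := by
    intro t
    unfold cpp cp3
    rw [Finset.card_filter, Finset.card_filter]
    push_cast
    rw [← Finset.sum_add_distrib, Finset.sum_product]
    refine Finset.sum_congr rfl fun v _ => Finset.sum_congr rfl fun w _ => ?_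
    by_cases hb : bi G7 v w = t
    · subst hb
      simp only [if_true, true_and]
    · simp only [hb, false_and, if_false, add_zero]
  rw [Finset.sum_congr rfl fun t _ => s1 t, Finset.sum_comm]
  refine Finset.sum_congr rfl fun v hv => ?_
  rw [Finset.sum_comm]
  refine Finset.sum_congr rfl fun w hw => ?_
  rw [com_eq h h2 hv hw, Finset.sum_ite_eq]
  have hin := ip_lt hns hv hw
  simp only [Finset.mem_filter, hin, true_and]
  push_cast
  rfl

/-! ### the evaluation of the number of proportional pairs -/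

/-- the translation -/
def T3 (t : ℤ) (u v : Fin 3 → ℤ) : Fin 3 → ℤ := fun i => 3 * u i - t * v i

/-- the inverse translation -/
def U3 (t : ℤ) (w v : Fin 3 → ℤ) : Fin 3 → ℤ := fun i => (w i + t * v i) / 3

theorem ip_T3 (t : ℤ) (u v : Fin 3 → ℤ) :
    bi G7 v (T3 t u v) = 3 * bi G7 v u - t * bi G7 v v := by
  rw [biG7, biG7, biG7]
  unfold T3
  ring

theorem ip_T3' (t : ℤ) (u v : Fin 3 → ℤ) : bi G7 (T3 t u v) (T3 t u v) =
    9 * bi G7 u u - 6 * t * bi G7 v u + t ^ 2 * bi G7 v v := by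
  rw [biG7, biG7, biG7, biG7]
  unfold T3
  ring

theorem cp3_eq {n n2 n2' c : ℕ} {t : ℤ} (hc : 3 * c = n + 1)
    (hn : (9 * n2' : ℤ) = n2 + t ^ 2 * (n + 2)) :
    cp3 n t n2 = cpp n (t * c) n2' := by
  have hcZ : 3 * (c : ℤ) = n + 1 := by exact_mod_cast hc
  unfold cp3 cpp
  refine Finset.card_nbij' (fun q => (q.1, U3 t q.2 q.1)) (fun q => (q.1, T3 t q.2 q.1)) ?_ ?_ ?_ ?_
  · rintro ⟨v, w⟩ hq
    have hq := Finset.mem_filter.1 (Finset.mem_coe.1 hq)
    obtain ⟨h1, h2, h3⟩ := hq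
    obtain ⟨h4, h5⟩ := Finset.mem_product.1 h1
    rw [mem_vv] at h4 h5
    simp only at h2 h3 h4 h5
    have h6 : T3 t (U3 t w v) v = w := by
      funext i
      unfold T3 U3
      rw [Int.mul_ediv_cancel' (h3 i)]
      ring
    have h7 := ip_T3 t (U3 t w v) v
    have h8 := ip_T3' t (U3 t w v) v
    rw [h6, h2, h4] at h7
    rw [h6, h5, h4] at h8
    have h9 : bi G7 v (U3 t w v) = t * c := by
      have : 3 * bi G7 v (U3 t w v) = 3 * (t * c) := by linear_combination -h7 - t * hcZ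
      exact mul_left_cancel₀ (by norm_num) this
    rw [h9] at h8
    refine Finset.mem_coe.2 (Finset.mem_filter.2 ⟨Finset.mem_product.2 ⟨(mem_vv _ _).2 h4,
      (mem_vv _ _).2 ?_⟩, h9⟩)
    have : (9 : ℤ) * bi G7 (U3 t w v) (U3 t w v) = 9 * n2' := by
      linear_combination -h8 - hn + 2 * t ^ 2 * hcZ
    exact mul_left_cancel₀ (by norm_num) this
  · rintro ⟨v, u⟩ hq
    have hq := Finset.mem_filter.1 (Finset.mem_coe.1 hq)
    obtain ⟨h1, h2⟩ := hq
    obtain ⟨h4, h5⟩ := Finset.mem_product.1 h1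
    rw [mem_vv] at h4 h5
    simp only at h2 h4 h5
    refine Finset.mem_coe.2 (Finset.mem_filter.2 ⟨Finset.mem_product.2 ⟨(mem_vv _ _).2 h4,
      (mem_vv _ _).2 ?_⟩, ?_, ?_⟩)
    · show bi G7 (T3 t u v) (T3 t u v) = n2
      rw [ip_T3', h5, h2, h4]
      linear_combination hn - 2 * t ^ 2 * hcZ
    · show bi G7 v (T3 t u v) = t
      rw [ip_T3, h2, h4]
      linear_combination t * hcZ
    · intro i
      show (3 : ℤ) ∣ T3 t u v i + t * v i
      unfold T3
      exact ⟨u i, by ring⟩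
  · rintro ⟨v, w⟩ hq
    have hq := Finset.mem_filter.1 (Finset.mem_coe.1 hq)
    obtain ⟨h1, h2, h3⟩ := hq
    refine Prod.ext rfl ?_
    funext i
    show 3 * ((w i + t * v i) / 3) - t * v i = w i
    rw [Int.mul_ediv_cancel' (h3 i)]
    ring
  · rintro ⟨v, u⟩ _
    refine Prod.ext rfl ?_
    funext i
    show (3 * u i - t * v i + t * v i) / 3 = u i
    rw [sub_add_cancel]
    exact Int.mul_ediv_cancel_left _ (by norm_num)

theorem cp3_zero {n n2 : ℕ} {t : ℤ} (h9 : ¬ (9 : ℤ) ∣ (n : ℤ) * n2 - t ^ 2) : cp3 n t n2 = 0 := by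
  unfold cp3
  rw [Finset.card_eq_zero, Finset.filter_eq_empty_iff]
  rintro ⟨v, w⟩ hq ⟨h2, h3⟩
  apply h9
  obtain ⟨h4, h5⟩ := Finset.mem_product.1 hq
  rw [mem_vv] at h4 h5
  simp only at h2 h3 h4 h5
  have h6 : T3 t (U3 t w v) v = w := by
    funext i
    unfold T3 U3
    rw [Int.mul_ediv_cancel' (h3 i)]
    ring
  have h7 := ip_T3 t (U3 t w v) v
  have h8 := ip_T3' t (U3 t w v) v
  rw [h6, h2] at h7
  rw [h6, h5] at h8
  rw [h4] at h7 h8
  generalize bi G7 v (U3 t w v) = x at h7 h8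
  generalize bi G7 (U3 t w v) (U3 t w v) = y at h8
  exact ⟨n * y - x ^ 2, by linear_combination (n : ℤ) * h8 - (3 * x - t * n + t) * h7⟩

/-- the local sums for `m / 9` -/
theorem Lf_nine {n x l : ℕ} (hx : x ≠ 0) (hl : l.Prime) (h3 : l ≠ 3) :
    Lf n (9 * x) l = Lf n x l := by
  have e1 : (9 * x).factorization l = x.factorization l := by
    rw [Nat.factorization_mul (by norm_num) hx, Finsupp.add_apply,
      Nat.factorization_eq_zero_of_not_dvd, zero_add]
    intro h1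
    rw [show 9 = 3 * 3 from rfl] at h1
    rcases hl.dvd_mul.1 h1 with h2 | h2 <;>
      exact h3 ((Nat.prime_dvd_prime_iff_eq hl Nat.prime_three).1 h2)
  have e2 : chp l (9 * x) = chp l x := by
    rw [chp_mul, show 9 = 3 * 3 from rfl, chp_mul, chp_sq hl (by norm_num), one_mul]
  unfold Lf lam
  rw [e1, e2]

/-- the local sum at `3`, when `3` splits -/
theorem Lf_three {n m : ℕ} (h : Fd n) (h3 : n % 3 = 2) : Lf n m 3 = m.factorization 3 + 1 := by
  have hn : ¬ 3 ∣ n := by omega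
  have hJ : jacobiSym (-(n : ℤ)) 3 = 1 := by
    rw [jacobiSym.mod_left]
    have : (-(n : ℤ)) % ((3 : ℕ) : ℤ) = 1 := by omega
    rw [this]; norm_num
  unfold Lf
  rw [Finset.sum_congr rfl fun i _ => lam_nd h Nat.prime_three (by norm_num) hn]
  exact (sum_sign (Or.inl hJ) _).1 hJ

/-- the product away from `3` and `7` -/
def R37 (n m : ℕ) : ℤ := ∏ l ∈ m.primeFactors \ {3, 7}, Lf n m l

theorem prod7 {n m : ℕ} (h : Fd n) (h3 : n % 3 = 2) (hm : m ≠ 0) :
    ∏ l ∈ m.primeFactors \ {7}, Lf n m l = (m.factorization 3 + 1) * R37 n m := by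
  unfold R37
  have e : m.primeFactors \ {3, 7} = (m.primeFactors \ {7}).erase 3 := by
    ext l
    simp only [Finset.mem_sdiff, Finset.mem_insert, Finset.mem_singleton, Finset.mem_erase]
    tauto
  rw [e]
  by_cases h1 : 3 ∈ m.primeFactors \ {7}
  · rw [← Finset.mul_prod_erase _ _ h1, Lf_three h h3]
  · rw [Finset.erase_eq_of_notMem h1]
    have : ¬ 3 ∣ m := by
      intro h2
      exact h1 (Finset.mem_sdiff.2 ⟨Nat.mem_primeFactors.2 ⟨Nat.prime_three, h2, hm⟩,
        by decide⟩)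
    rw [Nat.factorization_eq_zero_of_not_dvd this]
    push_cast
    ring

theorem R37_nine {n x : ℕ} (hx : x ≠ 0) : R37 n (9 * x) = R37 n x := by
  unfold R37
  have e : (9 * x).primeFactors \ {3, 7} = x.primeFactors \ {3, 7} := by
    ext l
    simp only [Finset.mem_sdiff, Finset.mem_insert, Finset.mem_singleton, Nat.mem_primeFactors]
    constructor
    · rintro ⟨⟨h1, h2, _⟩, h4⟩
      refine ⟨⟨h1, ?_, hx⟩, h4⟩
      rcases h1.dvd_mul.1 h2 with h5 | h5
      · exfalso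
        rw [show 9 = 3 * 3 from rfl] at h5
        rcases h1.dvd_mul.1 h5 with h6 | h6 <;>
          exact h4 (Or.inl ((Nat.prime_dvd_prime_iff_eq h1 Nat.prime_three).1 h6))
      · exact h5
    · rintro ⟨⟨h1, h2, _⟩, h4⟩
      exact ⟨⟨h1, h2.mul_left 9, by positivity⟩, h4⟩
  rw [e]
  refine Finset.prod_congr rfl fun l hl => ?_
  have h1 := Finset.mem_sdiff.1 hl
  refine Lf_nine hx (Nat.prime_of_mem_primeFactors h1.1) ?_
  rintro rfl
  exact h1.2 (by simp)

/-- the divisor sum at `7` by the local product -/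
theorem WS7 {n n2 m : ℕ} {t : ℤ} (h : Fd n) (hm : m ≠ 0)
    (hD : ((4 * m : ℕ) : ℤ) = n * n2 - t ^ 2) (h7 : 7 ∣ m) :
    WS n m {7} = - ∏ l ∈ m.primeFactors \ {7}, Lf n m l := by
  have p7 : Nat.Prime 7 := by norm_num
  have hW := WS_eq h hm {7} (by
    intro l hl
    rw [Finset.mem_singleton] at hl
    subst hl
    exact ⟨p7, h7⟩)
  rw [Finset.prod_singleton] at hW
  have h0 := full_zero h hm (Hyp h hD)
  rw [prod_split hm p7 h7] at h0
  rw [hW]; linear_combination h0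

/-- the pairs with a common line modulo `3` and the divisor sum -/
theorem cp3_WS {n n2 m : ℕ} {t : ℤ} (h : Fd n) (hm : m ≠ 0)
    (hD : ((4 * m : ℕ) : ℤ) = n * n2 - t ^ 2) (h3 : n % 3 = 2) (h3m : 3 ∣ m) :
    ((cpp n t n2 : ℤ) + cp3 n t n2) = -8 * WS n m {3, 7} := by
  have p7 : Nat.Prime 7 := by norm_num
  have hcp := cp_WS h hm hD
  by_cases h7 : 7 ∣ m
  · have hW7 := WS7 h hm hD h7
    have hP := prod7 h h3 hm
    -- the number of pairs
    have h1 : (cpp n t n2 : ℤ) = 4 * ((m.factorization 3 + 1) * R37 n m) := by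
      rw [hcp, hW7, hP]; ring
    -- the number of proportional pairs
    have h2 : (cp3 n t n2 : ℤ) = 4 * ((m.factorization 3 - 1) * R37 n m) := by
      obtain ⟨y, rfl⟩ := h3m
      have hy : y ≠ 0 := right_ne_zero_of_mul hm
      by_cases h9 : 3 ∣ y
      · obtain ⟨x, rfl⟩ := h9
        have hx : x ≠ 0 := right_ne_zero_of_mul hy
        have e9 : 3 * (3 * x) = 9 * x := by ring
        rw [e9] at *
        obtain ⟨c, hc⟩ : ∃ c, 3 * c = n + 1 := ⟨(n + 1) / 3, by omega⟩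
        have hcZ : 3 * (c : ℤ) = n + 1 := by exact_mod_cast hc
        have hA : (9 : ℤ) ∣ (n2 : ℤ) + t ^ 2 * (n + 2) := by
          have hco : IsCoprime (9 : ℤ) (n : ℤ) := by
            have : Nat.Coprime 9 n := by
              have h0 : Nat.Coprime 3 n := (Nat.Prime.coprime_iff_not_dvd Nat.prime_three).2 (by omega)
              exact Nat.Coprime.pow_left 2 h0
            exact_mod_cast Nat.isCoprime_iff_coprime.2 this
          apply hco.dvd_of_dvd_mul_left
          refine ⟨4 * x + c ^ 2 * t ^ 2, ?_⟩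
          push_cast at hD
          linear_combination -hD - t ^ 2 * (3 * c + (n + 1)) * hcZ
        obtain ⟨q, hq⟩ := hA
        have hq0 : 0 ≤ q := by
          have : 0 ≤ (n2 : ℤ) + t ^ 2 * (n + 2) := by positivity
          omega
        obtain ⟨n2', hn2'⟩ : ∃ k : ℕ, (k : ℤ) = q := ⟨q.toNat, Int.toNat_of_nonneg hq0⟩
        rw [cp3_eq hc (n2' := n2') (by rw [hn2']; exact hq.symm)]
        have hD2 : ((4 * x : ℕ) : ℤ) = n * n2' - (t * c) ^ 2 := by
          rw [hn2']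
          push_cast at hD ⊢
          have : (9 : ℤ) * (4 * x) = 9 * (n * q - (t * c) ^ 2) := by
            linear_combination hD + (n : ℤ) * hq + t ^ 2 * (3 * c + (n + 1)) * hcZ
          exact mul_left_cancel₀ (by norm_num) this
        have h7x : 7 ∣ x := by omega
        rw [cp_WS h hx hD2, WS7 h hx hD2 h7x, prod7 h h3 hx, R37_nine hx]
        have e3 : (9 * x).factorization 3 = x.factorization 3 + 2 := by
          rw [Nat.factorization_mul (by norm_num) hx, Finsupp.add_apply, show (9 : ℕ) = 3 ^ 2 from rfl,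
            Nat.prime_three.factorization_pow, Finsupp.single_eq_same]
          ring
        rw [e3]
        push_cast
        ring
      · have h4 : ¬ (9 : ℤ) ∣ (n : ℤ) * n2 - t ^ 2 := by
          intro h5
          rw [← hD] at h5
          have h6 : 9 ∣ 4 * (3 * y) := by exact_mod_cast h5
          apply h9
          omega
        rw [cp3_zero h4]
        have e3 : (3 * y).factorization 3 = 1 := by
          rw [Nat.factorization_mul (by norm_num) hy, Finsupp.add_apply,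
            Nat.Prime.factorization_self Nat.prime_three, Nat.factorization_eq_zero_of_not_dvd h9]
        rw [e3]
        simp
    -- the divisor sum
    have hW := WS_eq h hm {3, 7} (by
      intro l hl
      rw [Finset.mem_insert, Finset.mem_singleton] at hl
      rcases hl with rfl | rfl
      · exact ⟨Nat.prime_three, h3m⟩
      · exact ⟨p7, h7⟩)
    rw [Finset.prod_pair (by norm_num)] at hW
    have h0 := full_zero h hm (Hyp h hD)
    rw [prod_split hm p7 h7, hP] at h0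
    have h5 : Lf n m 7 * R37 n m = 0 := by
      have h6 : ((m.factorization 3 : ℤ) + 1) * (Lf n m 7 * R37 n m) = 0 := by
        linear_combination h0
      rcases mul_eq_zero.1 h6 with h8 | h8
      · exfalso
        have : (m.factorization 3 + 1 : ℕ) = 0 := by exact_mod_cast h8
        omega
      · exact h8
    have h6 : WS n m {3, 7} = -(m.factorization 3 * R37 n m) := by
      rw [hW, Lf_three h h3]
      have : ∏ l ∈ m.primeFactors \ {3, 7}, Lf n m l = R37 n m := rfl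
      rw [this]
      linear_combination (m.factorization 3 : ℤ) * h5
    rw [h1, h2, h6]
    ring
  · rw [WS_none (l := 7) (by simp) h7] at hcp ⊢
    have h1 : cpp n t n2 = 0 := by
      have : (cpp n t n2 : ℤ) = 0 := by rw [hcp]; ring
      exact_mod_cast this
    have h2 : cp3 n t n2 = 0 := by
      have : cp3 n t n2 ≤ cpp n t n2 := by
        unfold cp3 cpp
        apply Finset.card_le_card
        intro q hq
        have hq := Finset.mem_filter.1 hq
        exact Finset.mem_filter.2 ⟨hq.1, hq.2.1⟩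
      omega
    rw [h1, h2]
    simp

/-- `X21`: the sum of the divisor sums over all the inner products -/
theorem sum_X21 {n n2 : ℕ} (h : Fd n) (h3 : n % 3 = 2) (h3' : n2 % 3 = 2)
    (hns : ¬ IsSquare (n * n2)) :
    8 * ∑ t ∈ Tr (n * n2), WS n (mt (n * n2) t) {3, 7} = - (rr7 n * rr7 n2) := by
  rw [← sum_rel h3 h3' hns, Finset.mul_sum, ← Finset.sum_neg_distrib]
  rw [← Finset.sum_filter_add_sum_filter_not (Tr (n * n2))
    (fun t : ℤ => (3 : ℤ) ∣ ((n * n2 : ℕ) : ℤ) - t ^ 2)]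
  have e1 : ∑ t ∈ (Tr (n * n2)).filter (fun t : ℤ => ¬ (3 : ℤ) ∣ ((n * n2 : ℕ) : ℤ) - t ^ 2),
      8 * WS n (mt (n * n2) t) {3, 7} = 0 := by
    refine Finset.sum_eq_zero fun t ht => ?_
    have ht := Finset.mem_filter.1 ht
    obtain ⟨h1, h2⟩ := mt_spec ht.1
    rw [WS_none (l := 3) (by simp), mul_zero]
    intro h4
    apply ht.2
    rw [← h1]
    have : 3 ∣ 4 * mt (n * n2) t := h4.mul_left 4
    exact_mod_cast this
  rw [e1, add_zero]
  refine Finset.sum_congr rfl fun t ht => ?_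
  have ht := Finset.mem_filter.1 ht
  obtain ⟨h1, h2⟩ := mt_spec ht.1
  rw [cp3_WS h h2 (n2 := n2) (t := t) (by rw [h1]; push_cast; ring) h3]
  · ring
  · have h4 := ht.2
    rw [← h1] at h4
    have h5 : 3 ∣ 4 * mt (n * n2) t := by exact_mod_cast h4
    exact (by norm_num : Nat.Coprime 3 4).dvd_of_dvd_mul_left h5

end Pool.Agent.N970.RQ
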