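import Pool.Agent.N970.RQ.E7
import Pool.Agent.N970.RQ.X21
import Pool.Agent.N970.P21G.CP3

/-!
# Signed sums over pairs of vectors with a common isotropic line modulo `3`, `l ∣ t`
-/

set_option autoImplicit false

namespace Pool.Agent.N970.RQ

open Finset
open Pool.Agent.N969.P15 (V3 tw)
open Pool.Agent.N969.RQ (ip7 vec7 c7)
open Pool.Agent.N844.P17G (Iso sig)
open Pool.Agent.N970.Sgn
open Pool.Agent.N970.P21G (mem7 t_CP3)
open Pool.Agent.N877.P21G (Fn I7 L37 S_CP3)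

/-- the number of common lines -/
def cl (v w : V3) : ℤ :=
  ∑ i : Fin 4, (if (3 : ℤ) ∣ L3 i v then 1 else 0) * (if (3 : ℤ) ∣ L3 i w then 1 else 0)

theorem cl_comm (v w : V3) : cl v w = cl w v := by
  unfold cl
  exact sum_congr rfl fun i _ => mul_comm _ _

theorem cl_eq {n1 n2 : ℕ} {v w : V3} (h1 : n1 % 3 = 2) (h2 : n2 % 3 = 2)
    (hv : ip7 v v = n1) (hw : ip7 w w = n2) :
    cl v w = if (3 : ℤ) ∣ n1 * n2 - ip7 v w ^ 2 then
      1 + (if ∀ i, (3 : ℤ) ∣ n2 * v i - ip7 v w * w i then 1 else 0) else 0 := by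
  have e1 : b3 (v 0) (v 1) (v 2) (v 0) (v 1) (v 2) = 2 := by
    rw [← b3_cast, ← ip7_eq, hv, Int.cast_natCast, cast_two h1]
  have e2 : b3 (w 0) (w 1) (w 2) (w 0) (w 1) (w 2) = 2 := by
    rw [← b3_cast, ← ip7_eq, hw, Int.cast_natCast, cast_two h2]
  have key := com_lines _ _ _ _ _ _ e1 e2
  have e3 : cl v w = ∑ i : Fin 4, (if M3 i (v 0) (v 1) (v 2) = 0 then (1 : ℤ) else 0) *
      (if M3 i (w 0) (w 1) (w 2) = 0 then 1 else 0) := by
    unfold cl
    refine sum_congr rfl fun i _ => ?_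
    rw [← L3_cast, ← L3_cast]
    simp only [dvd3_iff]
  rw [e3, key]
  have hb : b3 (v 0) (v 1) (v 2) (w 0) (w 1) (w 2) = ((ip7 v w : ℤ) : ZMod 3) := by
    rw [ip7_eq, b3_cast]
  rw [hb]
  have c1 : (1 - ((ip7 v w : ℤ) : ZMod 3) ^ 2 = 0) ↔ (3 : ℤ) ∣ n1 * n2 - ip7 v w ^ 2 := by
    rw [dvd3_iff]
    push_cast
    rw [cast_two h1, cast_two h2]
    have : (2 : ZMod 3) * 2 = 1 := by decide
    rw [this]
  by_cases h3 : (3 : ℤ) ∣ n1 * n2 - ip7 v w ^ 2
  · rw [if_pos (c1.2 h3), if_pos h3]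
    have h4 := c1.2 h3
    congr 1
    have c2 : ((w 0 : ZMod 3) + ((ip7 v w : ℤ) : ZMod 3) * (v 0 : ZMod 3) = 0 ∧
        (w 1 : ZMod 3) + ((ip7 v w : ℤ) : ZMod 3) * (v 1 : ZMod 3) = 0 ∧
        (w 2 : ZMod 3) + ((ip7 v w : ℤ) : ZMod 3) * (v 2 : ZMod 3) = 0) ↔
        ∀ i, (3 : ℤ) ∣ n2 * v i - ip7 v w * w i := by
      have h5 : ∀ i, ((w i : ZMod 3) + ((ip7 v w : ℤ) : ZMod 3) * (v i : ZMod 3) = 0) ↔
          (3 : ℤ) ∣ n2 * v i - ip7 v w * w i := by
        intro i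
        rw [dvd3_iff]
        push_cast
        rw [cast_two h2]
        generalize ((ip7 v w : ℤ) : ZMod 3) = b at h4 ⊢
        generalize (v i : ZMod 3) = x
        generalize (w i : ZMod 3) = y
        revert b x y
        decide
      rw [h5 0, h5 1, h5 2]
      constructor
      · rintro ⟨a, b, c⟩ i
        fin_cases i
        · exact a
        · exact b
        · exact c
      · intro h
        exact ⟨h 0, h 1, h 2⟩
    by_cases h6 : ∀ i, (3 : ℤ) ∣ n2 * v i - ip7 v w * w i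
    · rw [if_pos (c2.2 h6), if_pos h6]
    · rw [if_neg (fun h => h6 (c2.1 h)), if_neg h6]
  · rw [if_neg (fun h => h3 (c1.1 h)), if_neg h3]

/-- the total number of common lines of the pairs with given Gram matrix -/
theorem sum_cl {n1 n2 : ℕ} {b : ℤ} (h1 : n1 % 3 = 2) (h2 : n2 % 3 = 2) :
    ∑ q ∈ (vec7 n1 ×ˢ vec7 n2).filter (fun q => ip7 q.1 q.2 = b), cl q.1 q.2 =
      if (3 : ℤ) ∣ n1 * n2 - b ^ 2 then
        (c7 n1 b n2 : ℤ) + Pool.Agent.N877.P21G.cp3 n1 b n2 else 0 := by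
  have e : ∀ q ∈ (vec7 n1 ×ˢ vec7 n2).filter (fun q => ip7 q.1 q.2 = b), cl q.1 q.2 =
      if (3 : ℤ) ∣ n1 * n2 - b ^ 2 then
      1 + (if ∀ i, (3 : ℤ) ∣ n2 * q.1 i - b * q.2 i then 1 else 0) else 0 := by
    intro q hq
    rw [mem_filter, mem_product, mem7, mem7] at hq
    rw [cl_eq h1 h2 hq.1.1 hq.1.2, hq.2]
  rw [sum_congr rfl e]
  split_ifs with h
  · rw [sum_add_distrib, sum_const, nsmul_eq_mul, mul_one, ← sum_filter, sum_const, nsmul_eq_mul,
      mul_one, filter_filter]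
    rfl
  · exact sum_const_zero

section

variable {l : ℕ} [hl : Fact l.Prime] (h2 : l ≠ 2) (h7 : l ≠ 7)

/-- isotropic modulo `l` -/
theorem iso7 {n : ℕ} (hn : ¬ l ∣ n) {v : V3} (hv : ip7 v v = (n * l : ℕ)) : Iso ip7 l v := by
  refine iso_of frm7 (p := l) hv (by push_cast; exact dvd_mul_left _ _) ?_
  intro h
  have h' : l ^ 2 ∣ n * l := by exact_mod_cast h
  rw [pow_two] at h'
  exact hn (Nat.dvd_of_mul_dvd_mul_right hl.out.pos h')

include h2 h7

/-- proportional vectors -/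
theorem prop7 {v w : V3} (hv : Iso ip7 l v) (hw : Iso ip7 l w) (h : (l : ℤ) ∣ ip7 v w) :
    ∃ c : ℤ, ¬ (l : ℤ) ∣ c ∧ ∀ i, (l : ℤ) ∣ v i - c * w i := by
  have hK := nK h2 h7
  have pr := par frm7 h2 hK hv.1 hw.1 h
  obtain ⟨j, hj⟩ := iso_ne hw
  -- an integer representing `v j / w j`
  obtain ⟨c, hc⟩ : ∃ c : ℤ, (c : ZMod l) = (v j : ZMod l) * (w j : ZMod l)⁻¹ :=
    ⟨((v j : ZMod l) * (w j : ZMod l)⁻¹).val, by simp⟩
  have hall : ∀ i, (v i : ZMod l) = c * w i := by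
    intro i
    rw [hc]
    field_simp
    exact pr i j
  refine ⟨c, ?_, fun i => ?_⟩
  · intro h0
    rw [dvd_cast] at h0
    obtain ⟨i, hi⟩ := iso_ne hv
    apply hi
    rw [hall i, h0, zero_mul]
  · rw [dvd_cast]
    push_cast
    rw [hall i, sub_self]

/-- the sign of proportional vectors -/
theorem sig_prop {v w : V3} (hv : Iso ip7 l v) (hw : Iso ip7 l w) (h : (l : ℤ) ∣ ip7 v w) {c : ℤ}
    (hc : ∀ i, (l : ℤ) ∣ v i - c * w i) : sig ip7 l v w = jacobiSym c l := by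
  have hK := nK h2 h7
  obtain ⟨i, hi⟩ := iso_ne hv
  obtain ⟨h1, h3⟩ := sig_par frm7 h2 hK hv hw ((dvd_cast _).1 h) hi
  have e : (v i : ZMod l) = c * w i := by
    have := (dvd_cast _).1 (hc i)
    push_cast at this
    linear_combination this
  have hc0 : (c : ZMod l) ≠ 0 := by
    intro h0
    rw [h0, zero_mul] at e
    exact hi e
  rw [h3, jac_eq]
  refine qc_eq (s := (c : ZMod l) * w i) ?_ (mul_ne_zero hi h1) hc0
  rw [e]
  ring

omit h2 h7 in
/-- the coefficient is a root -/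
theorem root7o {d e : ℕ} {t c : ℤ} {v w : V3} (hv : ip7 v v = (d * l : ℕ))
    (hw : ip7 w w = (e * l : ℕ)) (hvw : ip7 v w = l * t) (hc : ∀ i, (l : ℤ) ∣ v i - c * w i) :
    (l : ℤ) ∣ e * c ^ 2 - 2 * t * c + d := by
  have hl0 : (l : ℤ) ≠ 0 := by exact_mod_cast hl.out.ne_zero
  have h1 : (l : ℤ) ^ 2 ∣ ip7 ((1 : ℤ) • v + (-c) • w) ((1 : ℤ) • v + (-c) • w) := by
    apply sq_dvd frm7
    intro i
    simp only [Pi.add_apply, Pi.smul_apply, smul_eq_mul]
    have : 1 * v i + -c * w i = v i - c * w i := by ring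
    rw [this]
    exact hc i
  have h3 : ip7 ((1 : ℤ) • v + (-c) • w) ((1 : ℤ) • v + (-c) • w) =
      l * (e * c ^ 2 - 2 * t * c + d) := by
    rw [frm7.lin, frm7.symm _ v, frm7.symm _ w, frm7.lin, frm7.lin, frm7.symm w v, hv, hw, hvw]
    push_cast
    ring
  rw [h3, pow_two] at h1
  exact (mul_dvd_mul_iff_left hl0).1 h1

omit h2 h7 in
theorem L3_comb (i : Fin 4) {c m : ℤ} (hc : (3 : ℤ) ∣ c) (hm : m % 3 = 1) (w x : V3) :
    (3 : ℤ) ∣ L3 i (fun j => c * w j + m * x j) ↔ (3 : ℤ) ∣ L3 i x := by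
  obtain ⟨k, rfl⟩ := hc
  obtain ⟨r, rfl⟩ : ∃ r, m = 3 * r + 1 := ⟨m / 3, by omega⟩
  have e : ∃ z : ℤ, L3 i (fun j => 3 * k * w j + (3 * r + 1) * x j) = 3 * z + L3 i x := by
    match i with
    | 0 => exact ⟨k * (w 0 + w 1) + r * (x 0 + x 1), by simp only [L3]; ring⟩
    | 1 => exact ⟨k * (w 0 + w 1 + w 2) + r * (x 0 + x 1 + x 2), by simp only [L3]; ring⟩
    | 2 => exact ⟨k * (w 0 - w 1 - w 2) + r * (x 0 - x 1 - x 2), by simp only [L3]; ring⟩
    | 3 => exact ⟨k * (w 0 - w 1) + r * (x 0 - x 1), by simp only [L3]; ring⟩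
  obtain ⟨z, hz⟩ := e
  rw [hz]
  omega

omit h2 h7 in
theorem cl_comb {c m : ℤ} (hc : (3 : ℤ) ∣ c) (hm : m % 3 = 1) (w x : V3) :
    cl (fun j => c * w j + m * x j) w = cl w x := by
  rw [cl_comm w x]
  unfold cl
  refine sum_congr rfl fun i _ => ?_
  simp only [L3_comb i hc hm]

/-- the pairs with `v = c w` modulo `l` -/
noncomputable def PP (l n1 n2 : ℕ) (t c : ℤ) : Finset (V3 × V3) :=
  (vec7 n1 ×ˢ vec7 n2).filter fun q => ip7 q.1 q.2 = t ∧ ∀ i, (l : ℤ) ∣ q.1 i - c * q.2 i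

omit h2 h7 in
theorem PP_mod {n1 n2 : ℕ} {t c c' : ℤ} (h : (l : ℤ) ∣ c - c') :
    PP l n1 n2 t c = PP l n1 n2 t c' := by
  unfold PP
  refine filter_congr fun q _ => and_congr_right fun _ => forall_congr' fun i => ?_
  have e : q.1 i - c' * q.2 i = (q.1 i - c * q.2 i) + (c - c') * q.2 i := by ring
  rw [e]
  exact (dvd_add_left (h.mul_right _)).symm

omit h2 h7 in
/-- the number of common lines of the pairs with `v = c w` modulo `l` -/
theorem NN {d e m : ℕ} {t c : ℤ} (h3c : (3 : ℤ) ∣ c) (hr : (l : ℤ) ∣ e * c ^ 2 - 2 * t * c + d)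
    (hl3 : l % 3 = 1) (hd3 : d % 3 = 2) (he3 : e % 3 = 2) (hF : Fn (e * l)) (h2e : ¬ 2 ∣ e * l)
    (hI : I7 (e * l)) (hm0 : 0 < m) (h3m : 3 ∣ m) (hm : (m : ℤ) = d * e - t ^ 2) :
    ∑ q ∈ PP l (d * l) (e * l) (l * t) c, cl q.1 q.2 = 8 * L37 (e * l) 0 m := by
  have hl0 : (l : ℤ) ≠ 0 := by exact_mod_cast hl.out.ne_zero
  have hlp : (0 : ℤ) < l := by exact_mod_cast hl.out.pos
  obtain ⟨nx, hnx⟩ := hr
  have hdet : (e : ℤ) * l * nx - (t - c * e) ^ 2 = m := by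
    rw [hm]
    linear_combination (-(e : ℤ)) * hnx
  have he0 : (0 : ℤ) < e := by
    have : 0 < e := by omega
    exact_mod_cast this
  have hx0 : 0 < nx := by
    have h1 : 0 < (e : ℤ) * l * nx := by
      have h4 : (0 : ℤ) < m := by exact_mod_cast hm0
      nlinarith [sq_nonneg (t - c * e)]
    exact (pos_iff_pos_of_mul_pos h1).1 (mul_pos he0 hlp)
  obtain ⟨n, rfl⟩ := Int.eq_ofNat_of_zero_le hx0.le
  have hn3 : n % 3 = 2 := by
    obtain ⟨k, rfl⟩ := h3c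
    obtain ⟨r, hr⟩ : ∃ r : ℤ, (l : ℤ) = 3 * r + 1 := ⟨(l : ℤ) / 3, by omega⟩
    have h5 : (d : ℤ) = n + 3 * (r * n - 3 * e * k ^ 2 + 2 * t * k) := by
      rw [hr] at hnx
      linear_combination hnx
    generalize r * (n : ℤ) - 3 * e * k ^ 2 + 2 * t * k = z at h5
    omega
  have hel3 : (e * l) % 3 = 2 := by rw [Nat.mul_mod, hl3, he3]
  have key : ∑ q ∈ PP l (d * l) (e * l) (l * t) c, cl q.1 q.2 =
      ∑ q ∈ (vec7 ((e * l : ℕ) : ℤ) ×ˢ vec7 (n : ℤ)).filter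
        (fun q => ip7 q.1 q.2 = t - c * e), cl q.1 q.2 := by
    symm
    refine sum_bij (fun q _ => ((fun j => c * q.1 j + l * q.2 j), q.1)) ?_ ?_ ?_ ?_
    · rintro ⟨w, x⟩ hq
      rw [mem_filter, mem_product, mem7, mem7] at hq
      obtain ⟨⟨hw, hx⟩, hwx⟩ := hq
      simp only at hw hx hwx
      unfold PP
      rw [mem_filter, mem_product, mem7, mem7]
      refine ⟨⟨?_, hw⟩, ?_, fun i => ?_⟩
      · show ip7 (fun j => c * w j + l * x j) (fun j => c * w j + l * x j) = (d * l : ℕ)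
        have e1 : ip7 (fun j => c * w j + l * x j) (fun j => c * w j + l * x j) =
            c ^ 2 * ip7 w w + 2 * (c * l) * ip7 w x + l ^ 2 * ip7 x x := by
          unfold ip7; ring
        rw [e1, hw, hx, hwx]
        push_cast
        linear_combination (-(l : ℤ)) * hnx
      · show ip7 (fun j => c * w j + l * x j) w = l * t
        have e1 : ip7 (fun j => c * w j + l * x j) w = c * ip7 w w + l * ip7 w x := by
          unfold ip7; ring
        rw [e1, hw, hwx]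
        push_cast
        ring
      · show (l : ℤ) ∣ c * w i + l * x i - c * w i
        exact ⟨x i, by ring⟩
    · rintro ⟨w, x⟩ _ ⟨w', x'⟩ _ h
      simp only [Prod.mk.injEq] at h
      obtain ⟨h1, rfl⟩ := h
      have : x = x' := by
        funext i
        have h3 : c * w i + l * x i = c * w i + l * x' i := congrFun h1 i
        exact mul_left_cancel₀ hl0 (by linarith)
      rw [this]
    · rintro ⟨v, w⟩ hq
      unfold PP at hq
      rw [mem_filter, mem_product, mem7, mem7] at hq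
      obtain ⟨⟨hv, hw⟩, hvw, hc⟩ := hq
      simp only at hv hw hvw hc
      have h4 : ∀ i, ∃ x : ℤ, v i = c * w i + l * x := by
        intro i
        obtain ⟨x, hx⟩ := hc i
        exact ⟨x, by linarith⟩
      choose x hx using h4
      have hvx : v = fun j => c * w j + l * x j := funext hx
      refine ⟨(w, x), ?_, ?_⟩
      · rw [mem_filter, mem_product, mem7, mem7]
        have e1 : ip7 v w = c * ip7 w w + l * ip7 w x := by
          rw [hvx]; unfold ip7; ring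
        have e2 : ip7 v v = c ^ 2 * ip7 w w + 2 * (c * l) * ip7 w x + l ^ 2 * ip7 x x := by
          rw [hvx]; unfold ip7; ring
        have h5 : ip7 w x = t - c * e := by
          apply mul_left_cancel₀ hl0
          rw [hvw, hw] at e1
          push_cast at e1
          linear_combination -e1
        refine ⟨⟨hw, ?_⟩, h5⟩
        show ip7 x x = n
        apply mul_left_cancel₀ (pow_ne_zero 2 hl0)
        rw [hv, hw, h5] at e2
        push_cast at e2
        linear_combination (l : ℤ) * hnx - e2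
      · rw [hvx]
    · rintro ⟨w, x⟩ _
      exact (cl_comb h3c (by omega) w x).symm
  rw [key, sum_cl hel3 hn3, if_pos]
  · rw [t_CP3 (e * l) n (t - c * e) m hF (fun h => absurd h h2e) hel3 hI hn3 hm0 h3m (by
      rw [← hdet]; push_cast; ring)]
    congr 1
    unfold Pool.Agent.N877.P21G.L37 Pool.Agent.N877.P21G.dt
    rw [if_neg h2e, if_neg h2e]
  · have : ((e * l : ℕ) : ℤ) * n - (t - c * e) ^ 2 = m := by rw [← hdet]; push_cast; ring
    rw [this]
    exact_mod_cast h3m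

/-- the signed sum over the pairs with `l ∣ t` vanishes if `(D / l) = -1` -/
theorem orth7 (hl4 : l % 4 = 3) {d e m : ℕ} {t : ℤ} (hld : ¬ l ∣ d) (hle : ¬ l ∣ e)
    (hl3 : l % 3 = 1) (hd3 : d % 3 = 2) (he3 : e % 3 = 2) (hF : Fn (e * l)) (h2e : ¬ 2 ∣ e * l)
    (hI : I7 (e * l)) (hm0 : 0 < m) (h3m : 3 ∣ m) (hm : (m : ℤ) = d * e - t ^ 2)
    (hDl : jacobiSym ((d * e : ℕ) : ℤ) l = -1) :
    ∑ q ∈ (vec7 ((d * l : ℕ) : ℤ) ×ˢ vec7 ((e * l : ℕ) : ℤ)).filter
      (fun q => ip7 q.1 q.2 = l * t), psi ip7 l q.1 * psi ip7 l q.2 * cl q.1 q.2 = 0 := by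
  have hK := nK (l := l) h2 h7
  have hlp : Prime (l : ℤ) := Nat.prime_iff_prime_int.1 hl.out
  by_cases hne : ((vec7 ((d * l : ℕ) : ℤ) ×ˢ vec7 ((e * l : ℕ) : ℤ)).filter
      (fun q => ip7 q.1 q.2 = l * t)).Nonempty
  swap
  · rw [not_nonempty_iff_eq_empty.1 hne, sum_empty]
  obtain ⟨⟨v0, w0⟩, hq⟩ := hne
  rw [mem_filter, mem_product, mem7, mem7] at hq
  obtain ⟨⟨hv0, hw0⟩, hvw0⟩ := hq
  simp only at hv0 hw0 hvw0
  have iv : ∀ {v : V3}, ip7 v v = (d * l : ℕ) → Iso ip7 l v := fun h => iso7 hld h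
  have iw : ∀ {w : V3}, ip7 w w = (e * l : ℕ) → Iso ip7 l w := fun h => iso7 hle h
  obtain ⟨c1, hc1, hp1⟩ := prop7 h2 h7 (iv hv0) (iw hw0) (by rw [hvw0]; exact dvd_mul_right _ _)
  have r1 := root7o hv0 hw0 hvw0 hp1
  -- the other root
  have hleZ : ¬ (l : ℤ) ∣ e := fun h => hle (by exact_mod_cast h)
  obtain ⟨a, b, hab⟩ : IsCoprime (e : ℤ) (l : ℤ) :=
    ((Prime.coprime_iff_not_dvd hlp).2 hleZ).symm
  obtain ⟨c2, hc2⟩ : ∃ c2 : ℤ, c2 = 2 * t * a - c1 := ⟨_, rfl⟩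
  have hs : (l : ℤ) ∣ e * (c1 + c2) - 2 * t := by
    rw [hc2]
    exact ⟨-(2 * t * b), by linear_combination (2 * t) * hab⟩
  have r2 : (l : ℤ) ∣ e * c2 ^ 2 - 2 * t * c2 + d := by
    have e1 : e * c2 ^ 2 - 2 * t * c2 + d = (e * c1 ^ 2 - 2 * t * c1 + d) +
        (c2 - c1) * (e * (c1 + c2) - 2 * t) := by ring
    rw [e1]
    exact dvd_add r1 (hs.mul_left _)
  have hpr : (l : ℤ) ∣ (e : ℤ) ^ 2 * (c1 * c2) - (d * e : ℕ) := by
    have e1 : (e : ℤ) ^ 2 * (c1 * c2) - (d * e : ℕ) =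
        (e : ℤ) * (c1 * (e * (c1 + c2) - 2 * t)) - e * (e * c1 ^ 2 - 2 * t * c1 + d) := by
      push_cast; ring
    rw [e1]
    exact dvd_sub ((hs.mul_left _).mul_left _) (r1.mul_left _)
  have hJ : jacobiSym c1 l * jacobiSym c2 l = -1 := by
    have e1 : jacobiSym ((e : ℤ) ^ 2 * (c1 * c2)) l = jacobiSym ((d * e : ℕ) : ℤ) l := by
      apply jacobiSym.mod_left'
      exact (Int.modEq_iff_dvd.2 (by
        have := (dvd_neg.2 hpr)
        have e2 : ((d * e : ℕ) : ℤ) - (e : ℤ) ^ 2 * (c1 * c2) =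
          -((e : ℤ) ^ 2 * (c1 * c2) - (d * e : ℕ)) := by ring
        rw [e2]; exact this))
    rw [hDl, jacobiSym.mul_left, jacobiSym.mul_left, jacobiSym.sq_one', one_mul] at e1
    · exact e1
    · rw [Int.gcd_natCast_natCast]
      exact ((Nat.Prime.coprime_iff_not_dvd hl.out).2 hle).symm
  have hne12 : ¬ (l : ℤ) ∣ c1 - c2 := by
    intro h
    have e1 : jacobiSym c1 l = jacobiSym c2 l := by
      apply jacobiSym.mod_left'
      exact (Int.modEq_iff_dvd.2 (by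
        have := dvd_neg.2 h
        rwa [neg_sub] at this))
    rw [e1] at hJ
    nlinarith [mul_self_nonneg (jacobiSym c2 l)]
  -- splitting
  have hsplit : (vec7 ((d * l : ℕ) : ℤ) ×ˢ vec7 ((e * l : ℕ) : ℤ)).filter
      (fun q => ip7 q.1 q.2 = l * t) =
      PP l (d * l) (e * l) (l * t) c1 ∪ PP l (d * l) (e * l) (l * t) c2 := by
    ext ⟨v, w⟩
    unfold PP
    rw [mem_union, mem_filter, mem_filter, mem_filter, mem_product, mem7, mem7]
    constructor
    · rintro ⟨⟨hv, hw⟩, hvw⟩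
      obtain ⟨c, -, hp⟩ := prop7 h2 h7 (iv hv) (iw hw) (by
        simp only at hvw
        rw [hvw]; exact dvd_mul_right _ _)
      have r := root7o hv hw hvw hp
      have e1 : (l : ℤ) ∣ (c - c1) * (c - c2) := by
        have e2 : (l : ℤ) ∣ e * ((c - c1) * (c - c2)) := by
          have e3 : e * ((c - c1) * (c - c2)) = (e * c ^ 2 - 2 * t * c + d) -
              (c - c1) * (e * (c1 + c2) - 2 * t) - (e * c1 ^ 2 - 2 * t * c1 + d) := by ring
          rw [e3]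
          exact dvd_sub (dvd_sub r (hs.mul_left _)) r1
        rcases hlp.dvd_or_dvd e2 with h | h
        · exact absurd h hleZ
        · exact h
      rcases hlp.dvd_or_dvd e1 with h | h
      · left
        refine ⟨⟨hv, hw⟩, hvw, fun i => ?_⟩
        have e4 : v i - c1 * w i = (v i - c * w i) + (c - c1) * w i := by ring
        show (l : ℤ) ∣ v i - c1 * w i
        rw [e4]
        exact dvd_add (hp i) (h.mul_right _)
      · right
        refine ⟨⟨hv, hw⟩, hvw, fun i => ?_⟩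
        have e4 : v i - c2 * w i = (v i - c * w i) + (c - c2) * w i := by ring
        show (l : ℤ) ∣ v i - c2 * w i
        rw [e4]
        exact dvd_add (hp i) (h.mul_right _)
    · rintro (h | h)
      · exact ⟨h.1, h.2.1⟩
      · exact ⟨h.1, h.2.1⟩
  have hdisj : Disjoint (PP l (d * l) (e * l) (l * t) c1) (PP l (d * l) (e * l) (l * t) c2) := by
    rw [disjoint_left]
    rintro ⟨v, w⟩ ha hb
    unfold PP at ha hb
    rw [mem_filter, mem_product, mem7, mem7] at ha hb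
    obtain ⟨j, hj⟩ := (iw ha.1.2).2
    have h5 : (l : ℤ) ∣ (c1 - c2) * w j := by
      have e4 : (c1 - c2) * w j = (v j - c2 * w j) - (v j - c1 * w j) := by ring
      rw [e4]
      exact dvd_sub (hb.2.2 j) (ha.2.2 j)
    rcases hlp.dvd_or_dvd h5 with h | h
    · exact hne12 h
    · exact hj h
  have hpart : ∀ c : ℤ, (l : ℤ) ∣ e * c ^ 2 - 2 * t * c + d →
      ∑ q ∈ PP l (d * l) (e * l) (l * t) c, psi ip7 l q.1 * psi ip7 l q.2 * cl q.1 q.2 =
        jacobiSym c l * (8 * L37 (e * l) 0 m) := by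
    intro c hr
    have e5 : ∀ q ∈ PP l (d * l) (e * l) (l * t) c,
        psi ip7 l q.1 * psi ip7 l q.2 * cl q.1 q.2 = jacobiSym c l * cl q.1 q.2 := by
      rintro ⟨v, w⟩ hq
      unfold PP at hq
      rw [mem_filter, mem_product, mem7, mem7] at hq
      obtain ⟨⟨hv, hw⟩, hvw, hc⟩ := hq
      simp only at hv hw hvw hc ⊢
      rw [psi_mul frm7 h2 hK (iv hv) (iw hw), sig_prop h2 h7 (iv hv) (iw hw) (by
        rw [hvw]; exact dvd_mul_right _ _) hc]
    rw [sum_congr rfl e5, ← mul_sum]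
    congr 1
    -- a representative divisible by `3`
    obtain ⟨k, hk⟩ : ∃ k : ℤ, (3 : ℤ) ∣ c + l * k := by
      obtain ⟨r, hr⟩ : ∃ r : ℤ, (l : ℤ) = 3 * r + 1 := ⟨(l : ℤ) / 3, by omega⟩
      exact ⟨-c, -(r * c), by rw [hr]; ring⟩
    rw [PP_mod (c' := c + l * k) ⟨-k, by ring⟩]
    refine NN hk ?_ hl3 hd3 he3 hF h2e hI hm0 h3m hm
    have e6 : e * (c + l * k) ^ 2 - 2 * t * (c + l * k) + d = (e * c ^ 2 - 2 * t * c + d) +
        l * (2 * e * c * k + e * l * k ^ 2 - 2 * t * k) := by ring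
    rw [e6]
    exact dvd_add hr (dvd_mul_right _ _)
  rw [hsplit, sum_union hdisj, hpart c1 r1, hpart c2 r2]
  have hsum : jacobiSym c1 l + jacobiSym c2 l = 0 := by
    rcases jacobiSym.trichotomy c1 l with h | h | h
    · rw [h, zero_mul] at hJ; norm_num at hJ
    · rw [h] at hJ ⊢; linarith
    · rw [h] at hJ ⊢; linarith
  rw [← add_mul, hsum, zero_mul]

end

end Pool.Agent.N970.RQ
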