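import Pool.Agent.N970.RQ.X7
import Pool.Agent.N969.RQ.Defs2

/-!
# PC7: the pair count of the lattice of discriminant `7` (project RQ)
-/

set_option autoImplicit false

namespace Pool.Agent.N970.RQ

open Finset
open Pool.Agent.N816.P17 (bi)
open Pool.Agent.N970.PC
open Pool.Agent.N969.RQ (ip7 vec7 c7 lcp S_PC7)

theorem ip7_eq (v w : Fin 3 → ℤ) : ip7 v w = bi G7 v w := by
  rw [biG7]
  unfold ip7
  ring

theorem vec7_eq (n : ℕ) : vec7 (n : ℤ) = vv n := by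
  ext v
  rw [mem_vv, vec7, Finset.mem_filter, Fintype.mem_piFinset, ip7_eq]
  refine ⟨fun h => h.2, fun h => ⟨fun i => ?_, h⟩⟩
  have h1 := L7.bd v i
  rw [h] at h1
  exact Finset.mem_Icc.2 (abs_le.1 h1)

theorem c7_eq (n1 n2 : ℕ) (b : ℤ) : c7 (n1 : ℤ) b (n2 : ℤ) = cpp n1 b n2 := by
  unfold c7 cpp
  rw [vec7_eq, vec7_eq]
  congr 1
  refine filter_congr fun q _ => ?_
  rw [ip7_eq]

/-- the pair count -/
theorem pc7' {n1 n2 : ℕ} {b : ℤ} {m : ℕ} (hs : Squarefree n1) (h3 : n1 % 4 = 3)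
    (h7 : ¬ 7 ∣ n1) (hm : 0 < m) (hmm : (m : ℤ) = n1 * n2 - b ^ 2) :
    (c7 n1 b n2 : ℤ) = 4 * lcp n1 m 7 := by
  rw [c7_eq, ← card_pairs7, pc7 hs h3 h7 hm hmm]
  rfl

/-- **PC7** -/
theorem t_PC7 : S_PC7 := fun _ _ _ _ hs h3 h7 hm hmm _ => pc7' hs h3 h7 hm hmm

theorem c7_symm (a b c : ℤ) : c7 a b c = c7 c b a := by
  unfold c7
  refine card_bij (fun q _ => (q.2, q.1)) ?_ ?_ ?_
  · rintro ⟨v, w⟩ h
    rw [mem_filter, mem_product] at h ⊢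
    refine ⟨⟨h.1.2, h.1.1⟩, ?_⟩
    rw [← h.2]
    unfold ip7
    ring
  · rintro ⟨v, w⟩ _ ⟨v', w'⟩ _ h
    simp only [Prod.mk.injEq] at h
    rw [h.1, h.2]
  · rintro ⟨v, w⟩ h
    rw [mem_filter, mem_product] at h
    refine ⟨(w, v), ?_, rfl⟩
    rw [mem_filter, mem_product]
    refine ⟨⟨h.1.2, h.1.1⟩, ?_⟩
    rw [← h.2]
    unfold ip7
    ring

end Pool.Agent.N970.RQ
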