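import Pool.Agent.N969.RQ.Defs
import Pool.Agent.N295.P15.C2

/-!
# The signs of the divisors of a fundamental discriminant (project RQ)
-/

set_option autoImplicit false

namespace Pool.Agent.N970.RQ

open Finset
open Pool.Agent.N969.RQ (sgd Un)
open Pool.Agent.N969.P17G (starP)

/-- the sign of the prime discriminant of an odd prime -/
theorem sign_starP (D : ℕ) {p : ℕ} (hp : p.Prime) (h2 : p ≠ 2) :
    Int.sign (starP D p) = ZMod.χ₄ (p : ZMod 4) := by
  have hodd := hp.odd_of_ne_two h2
  have hp0 : (0 : ℤ) < p := by exact_mod_cast hp.pos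
  unfold starP
  rw [if_neg h2]
  have : p % 4 = 1 ∨ p % 4 = 3 := by rw [Nat.odd_iff] at hodd; omega
  rcases this with h | h
  · rw [if_pos h, ZMod.χ₄_nat_one_mod_four h]
    exact Int.sign_eq_one_of_pos hp0
  · rw [if_neg (by omega), ZMod.χ₄_nat_three_mod_four h]
    exact Int.sign_eq_neg_one_of_neg (by linarith)

/-- the product of the signs over the primes of an odd squarefree number -/
theorem prod_sign (D : ℕ) {d : ℕ} (hs : Squarefree d) (h2 : ¬ 2 ∣ d) :
    ∏ p ∈ d.primeFactors, Int.sign (starP D p) = ZMod.χ₄ (d : ZMod 4) := by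
  have e : ∏ p ∈ d.primeFactors, Int.sign (starP D p) =
      ∏ p ∈ d.primeFactors, ZMod.χ₄ (p : ZMod 4) := by
    refine Finset.prod_congr rfl fun p hp => sign_starP D (Nat.prime_of_mem_primeFactors hp) ?_
    rintro rfl
    exact h2 (Nat.dvd_of_mem_primeFactors hp)
  rw [e, ← map_prod, ← Nat.cast_prod, Nat.prod_primeFactors_of_squarefree hs]

theorem sq_of_odd {D d : ℕ} (hD : Pool.Agent.N969.RQ.Fd D) (hd : d ∣ D) (h2 : ¬ 2 ∣ d) :
    Squarefree d := by
  obtain ⟨-, h | ⟨M, rfl, hM, -⟩⟩ := hD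
  · exact h.1.squarefree_of_dvd hd
  · have h4 : Nat.Coprime d 4 := by
      have : Nat.Coprime 2 d := (Nat.Prime.coprime_iff_not_dvd Nat.prime_two).2 h2
      exact (this.pow_left 2).symm
    exact hM.squarefree_of_dvd (h4.dvd_of_dvd_mul_left hd)

theorem chi_pm {n : ℕ} (h : ¬ 2 ∣ n) : ZMod.χ₄ (n : ZMod 4) = if n % 4 = 1 then 1 else -1 := by
  split_ifs with h1
  · exact ZMod.χ₄_nat_one_mod_four h1
  · exact ZMod.χ₄_nat_three_mod_four (by omega)

/-- an odd divisor with sign `-1` -/
theorem mod_of_sgd {D d : ℕ} (hD : Pool.Agent.N969.RQ.Fd D) (hd : d ∣ D) (h2 : ¬ 2 ∣ d)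
    (hs : sgd D d = -1) : d % 4 = 3 := by
  have h := prod_sign D (sq_of_odd hD hd h2) h2
  unfold sgd at hs
  rw [h, chi_pm h2] at hs
  split_ifs at hs with h1
  omega

/-- the product of all the signs -/
theorem sgd_self {D : ℕ} (hD : Pool.Agent.N969.RQ.Fd D) :
    ∏ p ∈ D.primeFactors, Int.sign (starP D p) = 1 := by
  obtain ⟨h0, h | ⟨M, rfl, hM, hm⟩⟩ := hD
  · have h2 : ¬ 2 ∣ D := by omega
    rw [prod_sign D h.1 h2, chi_pm h2, if_pos h.2]
  · have hM0 : M ≠ 0 := hM.ne_zero
    have h2 : 2 ∈ (4 * M).primeFactors :=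
      Nat.mem_primeFactors.2 ⟨Nat.prime_two, ⟨2 * M, by ring⟩, by omega⟩
    rw [← Finset.mul_prod_erase _ _ h2]
    rcases hm with hm | hm
    · obtain ⟨K, rfl⟩ : ∃ K, M = 2 * K := ⟨M / 2, by omega⟩
      have hK2 : ¬ 2 ∣ K := by omega
      have hKs : Squarefree K := hM.squarefree_of_dvd (Dvd.intro_left 2 rfl)
      have e : (4 * (2 * K)).primeFactors.erase 2 = K.primeFactors := by
        ext p
        simp only [Finset.mem_erase, Nat.mem_primeFactors]
        constructor
        · rintro ⟨h1, h3, h4, _⟩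
          refine ⟨h3, ?_, by rintro rfl; simp at hM0⟩
          have h5 : Nat.Coprime p 8 := by
            have : Nat.Coprime p 2 := (Nat.Prime.coprime_iff_not_dvd h3).2 fun h =>
              h1 ((Nat.prime_dvd_prime_iff_eq h3 Nat.prime_two).1 h)
            exact this.pow_right 3
          have e8 : 4 * (2 * K) = 8 * K := by ring
          rw [e8] at h4
          exact h5.dvd_of_dvd_mul_left h4
        · rintro ⟨h3, h4, _⟩
          refine ⟨?_, h3, (h4.mul_left 2).mul_left 4, by omega⟩
          rintro rfl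
          exact hK2 h4
      rw [e, prod_sign _ hKs hK2, chi_pm hK2]
      unfold starP
      rw [if_pos rfl, if_neg (by omega)]
      by_cases h3 : K % 4 = 1
      · rw [if_pos h3, if_pos (by omega)]; rfl
      · rw [if_neg h3, if_neg (by omega)]; rfl
    · have hK2 : ¬ 2 ∣ M := by omega
      have e : (4 * M).primeFactors.erase 2 = M.primeFactors := by
        ext p
        simp only [Finset.mem_erase, Nat.mem_primeFactors]
        constructor
        · rintro ⟨h1, h3, h4, _⟩
          refine ⟨h3, ?_, hM0⟩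
          have h5 : Nat.Coprime p 4 := by
            have : Nat.Coprime p 2 := (Nat.Prime.coprime_iff_not_dvd h3).2 fun h =>
              h1 ((Nat.prime_dvd_prime_iff_eq h3 Nat.prime_two).1 h)
            exact this.pow_right 2
          exact h5.dvd_of_dvd_mul_left h4
        · rintro ⟨h3, h4, _⟩
          refine ⟨?_, h3, h4.mul_left 4, by omega⟩
          rintro rfl
          exact hK2 h4
      rw [e, prod_sign _ hM hK2, chi_pm hK2]
      unfold starP
      rw [if_pos rfl, if_pos (by omega), if_neg (by omega)]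
      rfl

/-- the signs of a unitary divisor and of its cofactor -/
theorem sgd_co {D d : ℕ} (hD : Pool.Agent.N969.RQ.Fd D) (hU : Un D d) :
    sgd D d * sgd D (D / d) = 1 := by
  obtain ⟨h1, h2⟩ := hU
  have e : D = d * (D / d) := (Nat.mul_div_cancel' h1).symm
  have h := sgd_self hD
  have hp : D.primeFactors = d.primeFactors ∪ (D / d).primeFactors := by
    conv_lhs => rw [e]
    exact h2.primeFactors_mul
  rw [hp, Finset.prod_union h2.disjoint_primeFactors] at h
  exact h

theorem Un_co {D d : ℕ} (hD : Pool.Agent.N969.RQ.Fd D) (hU : Un D d) :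
    Un D (D / d) ∧ D / (D / d) = d := by
  obtain ⟨h1, h2⟩ := hU
  have hD0 : D ≠ 0 := by have := hD.1; omega
  have e := Nat.div_div_self h1 hD0
  exact ⟨⟨Nat.div_dvd_of_dvd h1, by rw [e]; exact h2.symm⟩, e⟩

end Pool.Agent.N970.RQ
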