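import Pool.Agent.N970.RQ.Neg
import Pool.Agent.N975.RQ.SW

/-!
# NEG21, unconditional (project RQ)
-/

set_option autoImplicit false

namespace Pool.Agent.N970.RQ

open Pool.Agent.N969.RQ

/-- **NEG21** -/
theorem t_NEG21 : S_NEG21 := s_NEG21 Pool.Agent.N975.RQ.t_SW

end Pool.Agent.N970.RQ
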