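import Pool.Agent.N970.RQ.B21d

/-!
# BILJ21: the sign is constant on the vectors of norm `l`; the result
-/

set_option autoImplicit false
set_option linter.unusedSectionVars false

namespace Pool.Agent.N970.RQ3

open Finset
open Pool.Agent.N969.P15 (V3 Ev)
open Pool.Agent.N969.RQ (Fd R21 R21r sl ld21 ld21r S_BILJ21)
open Pool.Agent.N969.P17G (sgp sgnE)
open Pool.Agent.N877.P21 (ip vec cp cp7 Sp7 loc cc rr rr0 Cls0)
open Pool.Agent.N877.P21G (Fn dt)
open Pool.Agent.N218.P21 (mem_vec)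
open Pool.Agent.N973.P21 (Vi mem_Vi)
open Pool.Agent.N871.G21 (FF FF_of Fn_mul Fn_two Fn_odd Fs Fs_eq dl dl_sq hl main_2 R1_four M2_dt)
open Pool.Agent.N833.P21 (L2 M2 R1)
open Pool.Agent.N295.P15.E (Ps)
open Pool.Agent.N970.Sgn

/-- the factors of the divisor sums do not vanish, lattice ramified at `3` -/
theorem ne_of_loc {n S T : ℕ} (hn : Fn n) (h2 : ¬ 2 ∣ n) (h3 : n % 3 = 1) (h7 : Sp7 n) (hS : S ≠ 0)
    (hT : T ≠ 0) (hST : S + T = n) (hL : loc n (4 * S * T) ≠ 0) :
    L2 n S T * Fs n S T ≠ 0 ∧ Odd ((S * T).factorization 3) ∧ dl n T = (-1) ^ T.factorization 3 := by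
  have hFF := FF_of hn
  have h37 : ¬ 3 ∣ n := by omega
  have h77 : ¬ 7 ∣ n := by unfold Sp7 at h7; omega
  have p3 : Nat.Prime 3 := Nat.prime_three
  have p7 : Nat.Prime 7 := by norm_num
  have m3 : 3 ∉ n.primeFactors := fun h => h37 (Nat.dvd_of_mem_primeFactors h)
  have m7 : 7 ∉ n.primeFactors := fun h => h77 (Nat.dvd_of_mem_primeFactors h)
  have hST0 : S * T ≠ 0 := mul_ne_zero hS hT
  have h4ST : 4 * S * T ≠ 0 := by positivity
  have hodd : Odd ((4 * S * T).factorization 3) := by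
    by_contra h
    exact hL (by unfold loc; rw [if_neg h])
  have hL' := hL
  unfold loc at hL'
  rw [if_pos hodd, Pool.Agent.N871.G21.prod3 h4ST] at hL'
  have e4 : (4 * S * T).factorization 3 = (S * T).factorization 3 := by
    rw [mul_assoc]
    exact Pool.Agent.N970.RQ.fac4' hST0 p3 (by norm_num)
  rw [e4] at hodd
  have hR : R1 n (S * T) ≠ 0 := by
    have h1 := right_ne_zero_of_mul (right_ne_zero_of_mul hL')
    rw [mul_assoc, R1_four hFF hST0] at h1
    exact h1
  have hM : M2 n S T ≠ 0 := by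
    rw [M2_dt hn hS hT (by rw [one_mul]; exact hST)]
    unfold dt
    rw [if_neg h2]
    exact left_ne_zero_of_mul hL'
  have hMF : M2 n S T * Fs n S T ≠ 0 := by
    rw [Fs_eq]
    exact mul_ne_zero hM hR
  have key := main_2 hn (c := 1) (Or.inl rfl) hS hT (by rw [one_mul]; exact hST)
  have h3' : hl n S T 3 = 1 := if_neg m3
  have h7' : hl n S T 7 = 1 := if_neg m7
  have P3 : Ps n 3 = -1 := by
    rw [hFF.Ps_l 3 p3 (by norm_num) m3, jacobiSym.mod_left]
    have : (-(n : ℤ)) % ((3 : ℕ) : ℤ) = 2 := by push_cast; omega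
    rw [this]
    norm_num
  have P7' : Ps n 7 = 1 := by
    rw [hFF.Ps_l 7 p7 (by norm_num) m7, jacobiSym.mod_left]
    unfold Sp7 at h7
    rcases h7 with h | h | h
    · have : (-(n : ℤ)) % ((7 : ℕ) : ℤ) = 4 := by push_cast; omega
      rw [this]; norm_num
    · have : (-(n : ℤ)) % ((7 : ℕ) : ℤ) = 2 := by push_cast; omega
      rw [this]; norm_num
    · have : (-(n : ℤ)) % ((7 : ℕ) : ℤ) = 1 := by push_cast; omega
      rw [this]; norm_num
  have hd : ∀ U : ℕ, dl n U = (-1) ^ U.factorization 3 := by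
    intro U
    unfold dl
    rw [if_neg m3, if_neg m7, P3, P7', one_pow, mul_one]
  have hdl : dl n S * dl n T = -1 := by
    rw [hd, hd, ← pow_add]
    have e5 : S.factorization 3 + T.factorization 3 = (S * T).factorization 3 := by
      rw [Nat.factorization_mul hS hT, Finsupp.add_apply]
    rw [e5]
    exact hodd.neg_one_pow
  rw [h3', h7', hdl] at key
  refine ⟨fun h0 => hMF ?_, hodd, hd T⟩
  rw [h0] at key
  linarith

section

variable {l : ℕ} (h : HA 1 l)

include h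

theorem E_const {v w : V3} (hv : ip v v = (1 * l : ℕ)) (hw : ip w w = (1 * l : ℕ)) :
    E l v * E l w = 1 := by
  have hFl : Fact l.Prime := ⟨h.pl⟩
  obtain ⟨T, hTn, hT⟩ := h.ex_T hv hw
  have hpp := h.pp hv hw hT
  have hE : E l v * E l w = sgp 1 (1 * l) l T * jacobiSym (2 * T - (1 * l : ℕ)) 3 := by
    have e1 : E l v * E l w = (psi ip l v * psi ip l w) * (o v * o w) := by
      unfold E; ring
    rw [e1, o_mul, hpp, hT]
  rw [hE]
  have hn3 := h.n3
  have l4 := h.l4
  have hll : l ∣ 1 * l := dvd_mul_left _ _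
  have hlpos := h.pl.pos
  rcases Nat.eq_zero_or_pos T with hU0 | hU0
  · subst hU0
    have e5 : jacobiSym (2 * ((0 : ℕ) : ℤ) - (1 * l : ℕ)) 3 = -1 := by
      rw [jacobiSym.mod_left]
      have : (2 * ((0 : ℕ) : ℤ) - (1 * l : ℕ)) % ((3 : ℕ) : ℤ) = 2 := by
        push_cast at hn3 ⊢; omega
      rw [this]
      norm_num
    rw [e5]
    unfold sgp
    rw [Nat.cast_zero, if_pos (dvd_zero _), Int.zero_ediv, if_pos (dvd_zero _)]
    have e4 : (-((1 : ℕ) : ℤ)) = -1 := by norm_num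
    rw [e4, h.jm1]
    norm_num
  rcases Nat.eq_or_lt_of_le hTn with hUn | hUn
  · subst hUn
    have e5 : (2 * ((1 * l : ℕ) : ℤ) - (1 * l : ℕ)) = (1 * l : ℕ) := by ring
    have e6 : jacobiSym ((1 * l : ℕ) : ℤ) 3 = 1 := by
      rw [jacobiSym.mod_left]
      have : ((1 * l : ℕ) : ℤ) % ((3 : ℕ) : ℤ) = 1 := by push_cast at hn3 ⊢; omega
      rw [this, jacobiSym.one_left]
    rw [e5, e6]
    unfold sgp
    have e7 : 1 * l / l = 1 := by rw [one_mul, Nat.div_self hlpos]
    have e8 : ((1 * l : ℕ) : ℤ) / l = 1 := by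
      rw [one_mul]
      exact Int.ediv_self (by exact_mod_cast hlpos.ne')
    have e9 : ¬ (l : ℤ) ∣ 1 := by
      intro h1
      have h2 : l ∣ 1 := by exact_mod_cast h1
      exact h.pl.one_lt.ne' (Nat.dvd_one.1 h2)
    rw [if_pos (by rw [one_mul]), e8, if_neg e9, e7]
    norm_num
  -- the main case
  obtain ⟨S, hS⟩ : ∃ S, S + T = 1 * l := ⟨1 * l - T, by omega⟩
  have hS0 : S ≠ 0 := by omega
  have hT' : T ≠ 0 := by omega
  have hsq : Squarefree (1 * l) := by rw [one_mul]; exact h.pl.squarefree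
  have h4 : 1 * l % 4 = 3 := by rw [one_mul]; exact l4
  have hdet : ((4 * S * T : ℕ) : ℤ) = (1 * l : ℕ) * (1 * l : ℕ) - (2 * T - (1 * l : ℕ)) ^ 2 := by
    rw [← hS]; push_cast; ring
  have hcount := Pool.Agent.N878.PC21.t_PC (1 * l) (1 * l) (2 * T - (1 * l : ℕ)) (4 * S * T) hsq h4
    (by omega) (by positivity) hdet
  have hLne : loc (1 * l) (4 * S * T) ≠ 0 := by
    intro h0
    rw [h0, mul_zero] at hcount
    have hc : cp (1 * l : ℕ) (2 * T - (1 * l : ℕ)) (1 * l : ℕ) = 0 := by exact_mod_cast hcount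
    unfold cp at hc
    rw [card_eq_zero] at hc
    have : ((v, w) : V3 × V3) ∈ (∅ : Finset (V3 × V3)) := by
      rw [← hc, mem_filter, mem_product, mem_vec, mem_vec]
      exact ⟨⟨hv, hw⟩, hT⟩
    exact absurd this (notMem_empty _)
  have hS7 : Sp7 (1 * l) := by
    apply Sp7_of; rw [one_mul]; exact h.l7
  obtain ⟨hLF, hodd, hdlT⟩ := ne_of_loc h.Fnn (by omega) hn3 hS7 hS0 hT' hS hLne
  have hl7 : l ≠ 7 := by
    rintro rfl
    have := h.l7
    norm_num at this
  have e1 := sgnE_sgp h.Aor h.pl l4 h.cop hS0 hT' hS (by omega) (by omega) hLF h.l3 hl7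
  have e2 : sgnE 1 1 (1 * l) T = 1 := by
    unfold sgnE
    rw [Nat.primeFactors_one, prod_empty]
  rw [e2] at e1
  have e3 := dl_sq (1 * l) T
  have e4 : sgp 1 (1 * l) l T = dl (1 * l) T := by
    linear_combination (-(dl (1 * l) T)) * e1 - (sgp 1 (1 * l) l T) * e3
  rw [e4, hdlT]
  have p3 : Nat.Prime 3 := Nat.prime_three
  have h3n : ¬ 3 ∣ 1 * l := by omega
  by_cases h3T : 3 ∣ T
  · have h3S : S.factorization 3 = 0 := Nat.factorization_eq_zero_of_not_dvd (by
      intro h5; exact h3n (by rw [← hS]; exact dvd_add h5 h3T))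
    rw [Nat.factorization_mul hS0 hT', Finsupp.add_apply, h3S, zero_add] at hodd
    have e5 : jacobiSym (2 * (T : ℤ) - (1 * l : ℕ)) 3 = -1 := by
      rw [jacobiSym.mod_left]
      have : (2 * (T : ℤ) - (1 * l : ℕ)) % ((3 : ℕ) : ℤ) = 2 := by push_cast at hn3 ⊢; omega
      rw [this]
      norm_num
    rw [hodd.neg_one_pow, e5]
    norm_num
  · have h3T' : T.factorization 3 = 0 := Nat.factorization_eq_zero_of_not_dvd h3T
    rw [h3T', pow_zero]
    have h3S : 3 ∣ S := by
      have h1 : 0 < S.factorization 3 := by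
        rw [Nat.factorization_mul hS0 hT', Finsupp.add_apply, h3T', add_zero] at hodd
        exact hodd.pos
      exact Nat.dvd_of_factorization_pos h1.ne'
    have e5 : jacobiSym (2 * (T : ℤ) - (1 * l : ℕ)) 3 = 1 := by
      rw [jacobiSym.mod_left]
      have : (2 * (T : ℤ) - (1 * l : ℕ)) % ((3 : ℕ) : ℤ) = 1 := by push_cast at hn3 ⊢; omega
      rw [this, jacobiSym.one_left]
    rw [e5]
    norm_num

/-- the constant sign -/
theorem ex_eps : ∃ ε : ℤ, ε * ε = 1 ∧ ∀ v : V3, ip v v = (1 * l : ℕ) → E l v = ε := by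
  by_cases hne : ∃ v : V3, ip v v = (1 * l : ℕ)
  · obtain ⟨v0, hv0⟩ := hne
    have h1 := E_const h hv0 hv0
    refine ⟨E l v0, h1, fun v hv => ?_⟩
    have h2 := E_const h hv hv0
    linear_combination (E l v0) * h2 - (E l v) * h1
  · exact ⟨1, by norm_num, fun v hv => absurd ⟨v, hv⟩ hne⟩

end

/-- **BILJ21** -/
theorem t_BILJ21 : S_BILJ21 := by
  intro l hl hC
  obtain ⟨hls, hl4, hl3, hl7⟩ := hC
  have hj : jacobiSym l 7 = -1 := by
    rw [jacobiSym.mod_left]
    unfold Sp7 at hl7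
    rcases hl7 with h | h | h
    · have : (l : ℤ) % ((7 : ℕ) : ℤ) = 3 := by push_cast; omega
      rw [this]; norm_num
    · have : (l : ℤ) % ((7 : ℕ) : ℤ) = 5 := by push_cast; omega
      rw [this]; norm_num
    · have : (l : ℤ) % ((7 : ℕ) : ℤ) = 6 := by push_cast; omega
      rw [this]; norm_num
  have h2 : l ≠ 2 := by rintro rfl; omega
  have h3 : l ≠ 3 := by rintro rfl; omega
  have hA1 : HA 1 l := ⟨hl, h2, h3, hl4, hl3, hj, fun h => hl.one_lt.ne' (Nat.dvd_one.1 h),
    Or.inl rfl, rfl⟩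
  obtain ⟨ε, hε, hc⟩ := ex_eps hA1
  have h7l : ¬ 7 ∣ l := by unfold Sp7 at hl7; omega
  have hjac0 : ∀ k : ℕ, 7 ∣ k → jacobiSym k 7 = 0 := by
    intro k hk
    rw [jacobiSym.mod_left]
    have : (k : ℤ) % ((7 : ℕ) : ℤ) = 0 := by push_cast; omega
    rw [this]
    norm_num
  have h49 : ∀ D : ℕ, Fd D → ¬ 49 ∣ D := by
    intro D hD h
    have p7 : Nat.Prime 7 := by norm_num
    rcases hD.2 with ⟨h1, -⟩ | ⟨M, h1, h4, -⟩
    · have := h1 7 (by simpa using h)
      exact p7.one_lt.ne' (Nat.isUnit_iff.1 this)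
    · have h5 : Nat.Coprime 49 4 := by norm_num
      have h6 : 49 ∣ M := by rw [h1] at h; exact h5.dvd_of_dvd_mul_left h
      have := h4 7 (by simpa using h6)
      exact p7.one_lt.ne' (Nat.isUnit_iff.1 this)
  refine ⟨fun k => ε * Zr l (k * l), fun k => ε * Rr l (k * l : ℕ), ?_, ?_, ?_, ?_⟩
  · show ε * Zr l (1 * l) = cc l
    have e1 : Rr l (1 * l : ℕ) = ε * rr l := by
      unfold Rr rr
      rw [sum_congr rfl fun v hv => hc v (mem_vec.1 hv), sum_const, nsmul_eq_mul, one_mul]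
      ring
    have e2 : Ni l 6 (1 * l : ℕ) = ε * rr0 l := by
      unfold Ni
      rw [sum_congr rfl fun v hv => hc v (mem_Vi.1 hv).1, sum_const, nsmul_eq_mul, mul_comm,
        one_mul]
      rfl
    unfold Zr cc
    rw [if_neg (by rw [one_mul]; exact h7l), e1, e2, if_neg (by omega)]
    linear_combination (rr l - 4 * rr0 l) * hε
  · show ε * Rr l (1 * l : ℕ) = rr l
    have e1 : Rr l (1 * l : ℕ) = ε * rr l := by
      unfold Rr rr
      rw [sum_congr rfl fun v hv => hc v (mem_vec.1 hv), sum_const, nsmul_eq_mul, one_mul]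
      ring
    rw [e1]
    linear_combination (rr l) * hε
  · intro D d hD hlD hun hsg hd3
    have hFd : Fd D := by rcases hD with h | h <;> exact h.1
    have hD3 : D % 3 = 1 := by rcases hD with h | h <;> exact h.2.1
    have hH : H3 D d l := ⟨hl, h2, h3, hl4, hl3, hFd, hlD, hun, hsg⟩
    have h33 : ¬ 3 ∣ D * l := by
      intro h
      rcases (Nat.Prime.dvd_mul Nat.prime_three).1 h with h | h <;> omega
    have hprod : d * (D / d) = D := Nat.mul_div_cancel' hun.1
    refine ⟨?_, ?_, ?_⟩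
    · rw [id1 hH h33]
      linear_combination (-(Rr l (d * l : ℕ) * Rr l (D / d * l : ℕ))) * hε
    · intro hR hd7
      have he7 : jacobiSym (D / d : ℕ) 7 = 1 := by
        have h1 : jacobiSym (d * (D / d) : ℕ) 7 = 1 := by rw [hprod]; exact hR.2.2
        rw [Nat.cast_mul, jacobiSym.mul_left, hd7, one_mul] at h1
        exact h1
      rw [id2 hH hj h33 hd7 he7]
      linear_combination (-(3 * (Rr l (d * l : ℕ) * Rr l (D / d * l : ℕ)) +
        Zr l (d * l) * Zr l (D / d * l))) * hε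
    · intro hR hd7
      rw [id3 hH hj h33 hR.2.2 (h49 D hFd) hd7]
      linear_combination (-(3 * (Rr l (d * l : ℕ) * Rr l (D / d * l : ℕ)) +
        Zr l (d * l) * Zr l (D / d * l))) * hε
  · intro A hlA
    constructor
    · intro hR
      have hHA : HA A l := ⟨hl, h2, h3, hl4, hl3, hj, hlA, Or.inr hR.1, hR.2.1⟩
      rw [same hHA hR.2.2]
      linear_combination (-(3 * Rr l (A * l : ℕ) ^ 2 + Zr l (A * l) ^ 2)) * hε
    · intro hR
      have hHA : HA A l := ⟨hl, h2, h3, hl4, hl3, hj, hlA, Or.inr hR.1, hR.2.1⟩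
      rw [same7 hHA hR.2.2 (h49 A hR.1)]
      linear_combination (-(21 * Rr l (A * l : ℕ) ^ 2 - Zr l (A * l) ^ 2)) * hε

end Pool.Agent.N970.RQ3
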