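import Pool.Agent.N970.PCE.R
import Pool.Agent.N970.P17.PC
import Pool.Agent.N969.RQ.Defs

/-!
# The ternary lattice of the maximal order of the quaternion algebra ramified at `7` and `∞`:
# the number of pairs with given Gram matrix (project RQ)

Adapted from `N816/P17/Red`, `N816/P17/Tors` and `N970/P17/PC`, `PCR`.
-/

set_option autoImplicit false
set_option linter.all false

namespace Pool.Agent.N970.RQ

open Finset Matrix
open Pool.Agent.Z700 (hh fac)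
open Pool.Agent.Y288.Z7 (exists_round cols dd3 det_cols cols_eq dt crs crs0 crs1 crs2)
open Pool.Agent.N816.P17 (bi bi_eq Sy bi_comm bi_add_smul add_smul_bi bi_neg neg_bi RepF sq_mod4
  conj_apply gram_iff card_rot vec_eta exists_adj quot card_same)
open Pool.Agent.N970.PC
open Pool.Agent.N970.PCE
open Pool.Agent.N969.P15 (tw)

/-- the form of determinant `14` -/
def F7 : Matrix (Fin 3) (Fin 3) ℤ := !![2, 0, 0; 0, 4, -1; 0, -1, 2]

/-- its adjugate -/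
def G7 : Matrix (Fin 3) (Fin 3) ℤ := !![7, 0, 0; 0, 4, 2; 0, 2, 8]

theorem syF7 : Sy F7 := ⟨rfl, rfl, rfl⟩
theorem syG7 : Sy G7 := ⟨rfl, rfl, rfl⟩

theorem biF7 (v w : Fin 3 → ℤ) : bi F7 v w = 2 * (v 0 * w 0) + 4 * (v 1 * w 1) +
    2 * (v 2 * w 2) - (v 1 * w 2 + v 2 * w 1) := by
  have e00 : F7 0 0 = 2 := rfl
  have e01 : F7 0 1 = 0 := rfl
  have e02 : F7 0 2 = 0 := rfl
  have e10 : F7 1 0 = 0 := rfl
  have e11 : F7 1 1 = 4 := rfl
  have e12 : F7 1 2 = -1 := rfl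
  have e20 : F7 2 0 = 0 := rfl
  have e21 : F7 2 1 = -1 := rfl
  have e22 : F7 2 2 = 2 := rfl
  simp only [bi, e00, e01, e02, e10, e11, e12, e20, e21, e22]; ring

theorem biG7 (v w : Fin 3 → ℤ) : bi G7 v w = 7 * (v 0 * w 0) + 4 * (v 1 * w 1) +
    8 * (v 2 * w 2) + 2 * (v 1 * w 2 + v 2 * w 1) := by
  have e00 : G7 0 0 = 7 := rfl
  have e01 : G7 0 1 = 0 := rfl
  have e02 : G7 0 2 = 0 := rfl
  have e10 : G7 1 0 = 0 := rfl
  have e11 : G7 1 1 = 4 := rfl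
  have e12 : G7 1 2 = 2 := rfl
  have e20 : G7 2 0 = 0 := rfl
  have e21 : G7 2 1 = 2 := rfl
  have e22 : G7 2 2 = 8 := rfl
  simp only [bi, e00, e01, e02, e10, e11, e12, e20, e21, e22]; ring

/-! ### reduction -/

/-- the last step of the reduction -/
theorem rep_base {c e f f3 : ℤ} (hf3 : f = 2 * f3) (he : e = -1 ∨ e = 0 ∨ e = 1)
    (hf : 2 * f - c ^ 2 = e ^ 2 + 7) : RepF F7 2 0 c 2 e f := by
  have hc : c % 2 = 0 ∨ c % 2 = 1 := by omega
  rcases he with rfl | rfl | rfl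
  · rcases hc with hc | hc
    · obtain ⟨x, rfl⟩ : ∃ x, c = 2 * x := ⟨c / 2, by omega⟩
      refine ⟨![1, 0, 0], ![0, 0, 1], ![x, 1, 0], ?_, ?_, ?_, ?_, ?_, ?_⟩ <;>
        simp [biF7] <;> nlinarith [hf]
    · exfalso
      obtain ⟨x, rfl⟩ : ∃ x, c = 2 * x + 1 := ⟨c / 2, by omega⟩
      have : 2 * f = 4 * (x ^ 2 + x) + 9 := by linarith
      omega
  · rcases hc with hc | hc
    · exfalso
      obtain ⟨x, rfl⟩ : ∃ x, c = 2 * x := ⟨c / 2, by omega⟩
      have : 2 * f = 4 * x ^ 2 + 7 := by linarith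
      omega
    · obtain ⟨x, rfl⟩ : ∃ x, c = 2 * x + 1 := ⟨c / 2, by omega⟩
      refine ⟨![0, 0, 1], ![1, 0, 0], ![0, -1, x], ?_, ?_, ?_, ?_, ?_, ?_⟩ <;>
        simp [biF7] <;> nlinarith [hf]
  · rcases hc with hc | hc
    · obtain ⟨x, rfl⟩ : ∃ x, c = 2 * x := ⟨c / 2, by omega⟩
      refine ⟨![1, 0, 0], ![0, 0, 1], ![x, -1, 0], ?_, ?_, ?_, ?_, ?_, ?_⟩ <;>
        simp [biF7] <;> nlinarith [hf]
    · exfalso
      obtain ⟨x, rfl⟩ : ∃ x, c = 2 * x + 1 := ⟨c / 2, by omega⟩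
      have : 2 * f = 4 * (x ^ 2 + x) + 9 := by linarith
      omega

theorem rep_of (N : ℕ) : ∀ a b c d e f : ℤ, 0 < a → 0 < a * d - b ^ 2 →
    a * d * f + 2 * b * c * e - a * e ^ 2 - d * c ^ 2 - f * b ^ 2 = 14 →
    2 ∣ a → 2 ∣ d → 2 ∣ f →
    a + (a * d - b ^ 2) ≤ N → RepF F7 a b c d e f := by
  induction N with
  | zero =>
    intro a b c d e f ha hD _ _ _ _ hN
    exfalso
    push_cast at hN
    linarith
  | succ N ih =>
    intro a b c d e f ha hD hdet hea hed hef hN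
    push_cast at hN
    obtain ⟨t, ht1, ht2⟩ := exists_round b a ha
    apply RepF.shear12 syF7 t
    obtain ⟨b', hb'⟩ : ∃ b', b' = b - t * a := ⟨_, rfl⟩
    obtain ⟨d', hd'⟩ : ∃ d', d' = d - 2 * t * b + t ^ 2 * a := ⟨_, rfl⟩
    obtain ⟨e', he'⟩ : ∃ e', e' = e - t * c := ⟨_, rfl⟩
    rw [← hb', ← hd', ← he']
    rw [← hb'] at ht1 ht2
    have hD' : a * d' - b' ^ 2 = a * d - b ^ 2 := by rw [hd', hb']; ring
    have hdet' : a * d' * f + 2 * b' * c * e' - a * e' ^ 2 - d' * c ^ 2 - f * b' ^ 2 = 14 := by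
      rw [← hdet, hd', hb', he']; ring
    have hed' : 2 ∣ d' := by
      rw [hd']
      exact dvd_add (dvd_sub hed ⟨t * b, by ring⟩) (Dvd.dvd.mul_left hea _)
    rw [← hD'] at hD hN
    have hd'0 : 0 < d' := by
      by_contra hcon
      push Not at hcon
      nlinarith [sq_nonneg b']
    have hb2 : 4 * b' ^ 2 ≤ a ^ 2 := by nlinarith
    by_cases hlt : d' < a
    · apply RepF.swap12 syF7
      apply ih d' b' e' a c f hd'0 (by linarith) (by linarith) hed' hea hef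
      have : d' * a - b' ^ 2 = a * d' - b' ^ 2 := by ring
      rw [this]
      linarith
    push Not at hlt
    obtain ⟨D2, hD2⟩ : ∃ D2, D2 = a * d' - b' ^ 2 := ⟨_, rfl⟩
    rw [← hD2] at hD hN
    have h34 : 3 * a ^ 2 ≤ 4 * D2 := by nlinarith
    obtain ⟨s, hs1, hs2⟩ := exists_round (a * e' - b' * c) D2 hD
    apply RepF.shear23 syF7 s
    obtain ⟨c2, hc2⟩ : ∃ c2, c2 = c - s * b' := ⟨_, rfl⟩
    obtain ⟨e2, he2⟩ : ∃ e2, e2 = e' - s * d' := ⟨_, rfl⟩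
    obtain ⟨f2, hf2⟩ : ∃ f2, f2 = f - 2 * s * e' + s ^ 2 * d' := ⟨_, rfl⟩
    rw [← hc2, ← he2, ← hf2]
    have hef2 : 2 ∣ f2 := by
      rw [hf2]
      exact dvd_add (dvd_sub hef ⟨s * e', by ring⟩) (Dvd.dvd.mul_left hed' _)
    have hdet2 : a * d' * f2 + 2 * b' * c2 * e2 - a * e2 ^ 2 - d' * c2 ^ 2 - f2 * b' ^ 2 = 14 := by
      rw [← hdet', hc2, he2, hf2]; ring
    obtain ⟨K, hK⟩ : ∃ K, K = a * e2 - b' * c2 := ⟨_, rfl⟩
    have hK2 : K = a * e' - b' * c - s * D2 := by rw [hK, he2, hc2, hD2]; ring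
    rw [← hK2] at hs1 hs2
    have hKK : 4 * K ^ 2 ≤ D2 ^ 2 := by nlinarith
    have hid : D2 * (a * f2 - c2 ^ 2) = K ^ 2 + 14 * a := by
      have : K ^ 2 + a * (a * d' * f2 + 2 * b' * c2 * e2 - a * e2 ^ 2 - d' * c2 ^ 2 - f2 * b' ^ 2) =
          D2 * (a * f2 - c2 ^ 2) := by
        rw [hK, hD2]; ring
      rw [← this, hdet2]; ring
    have hD3 : 0 < a * f2 - c2 ^ 2 := by
      by_contra hcon
      push Not at hcon
      nlinarith [sq_nonneg K]
    by_cases hlt2 : a * f2 - c2 ^ 2 < D2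
    · apply RepF.swap23 syF7
      apply ih a c2 b' f2 e2 d' ha hD3 (by linarith) hea hef2 hed'
      linarith
    push Not at hlt2
    have h36 : D2 * D2 ≤ K ^ 2 + 14 * a := by
      rw [← hid]
      exact mul_le_mul_of_nonneg_left hlt2 hD.le
    have h35 : 3 * (D2 * D2) ≤ 56 * a := by
      rw [pow_two D2] at hKK
      linarith
    have ha2 : a = 2 := by
      obtain ⟨a1, ha1⟩ := hea
      by_contra hne
      have ha4 : 4 ≤ a := by omega
      have h37 : 4 * a ≤ a ^ 2 := by nlinarith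
      have h38 : 3 * a ≤ D2 := by linarith
      have h39 : (3 * a) * (3 * a) ≤ D2 * D2 := mul_self_le_mul_self (by linarith) h38
      nlinarith
    obtain ⟨d1, hd1⟩ := hed'
    obtain ⟨f3, hf3⟩ := hef2
    subst ha2
    have hD2b : D2 ≤ 6 := by
      by_contra hcon
      push Not at hcon
      nlinarith
    have hb1 : b' = -1 ∨ b' = 0 ∨ b' = 1 := by omega
    have hd2 : d' = 2 := by
      rcases hb1 with h | h | h <;> rw [h] at hD2 <;> omega
    have hq := sq_mod4 c2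
    rcases hb1 with h | h | h
    · exfalso
      rw [h, hd2] at hD2
      have hD2' : D2 = 3 := by rw [hD2]; norm_num
      rw [hD2'] at hid hs1 hs2
      have hK3 : K = -1 ∨ K = 0 ∨ K = 1 := by omega
      generalize 2 * f2 - c2 ^ 2 = z at hid
      rcases hK3 with h1 | h1 | h1 <;> rw [h1] at hid <;> omega
    · rw [h] at hD2 hK
      rw [hd2] at hD2
      have hK3 : K = 2 * e2 := by rw [hK]; ring
      have hD2' : D2 = 4 := by rw [hD2]; norm_num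
      rw [hD2'] at hid hs1 hs2
      have he3 : e2 = -1 ∨ e2 = 0 ∨ e2 = 1 := by omega
      rw [h, hd2]
      apply rep_base hf3 he3
      rw [hK3] at hid
      linarith
    · exfalso
      rw [h, hd2] at hD2
      have hD2' : D2 = 3 := by rw [hD2]; norm_num
      rw [hD2'] at hid hs1 hs2
      have hK3 : K = -1 ∨ K = 0 ∨ K = 1 := by omega
      generalize 2 * f2 - c2 ^ 2 = z at hid
      rcases hK3 with h1 | h1 | h1 <;> rw [h1] at hid <;> omega

/-! ### rotations -/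

theorem small7 {x y z n : ℤ} (hn : n ≤ 8) (h : 7 * (x * x) + 4 * (y * y) + 8 * (z * z) +
    2 * (y * z + z * y) = n) : (-1 ≤ x ∧ x ≤ 1) ∧ (-1 ≤ y ∧ y ≤ 1) ∧ -1 ≤ z ∧ z ≤ 1 := by
  have h1 : n = 7 * (x * x) + (2 * y + z) ^ 2 + 7 * (z * z) := by rw [← h]; ring
  have hx : 7 * (x * x) ≤ 8 := by nlinarith [sq_nonneg (2 * y + z), mul_self_nonneg z]
  have hz : 7 * (z * z) ≤ 8 := by nlinarith [sq_nonneg (2 * y + z), mul_self_nonneg x]
  have h2 : 2 * n = 14 * (x * x) + (y + 4 * z) ^ 2 + 7 * (y * y) := by rw [← h]; ring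
  have hy : 7 * (y * y) ≤ 16 := by nlinarith [sq_nonneg (y + 4 * z), mul_self_nonneg x]
  refine ⟨⟨?_, ?_⟩, ⟨?_, ?_⟩, ⟨?_, ?_⟩⟩ <;> nlinarith

def a7 : Fin 2 → Fin 3 → ℤ := ![![1, 0, 0], ![-1, 0, 0]]
def a4 : Fin 2 → Fin 3 → ℤ := ![![0, 1, 0], ![0, -1, 0]]
def a8 : Fin 4 → Fin 3 → ℤ := ![![0, 0, 1], ![0, 0, -1], ![0, 1, -1], ![0, -1, 1]]

theorem a7_surj (v : Fin 3 → ℤ) (h : bi G7 v v = 7) : ∃ i, a7 i = v := by
  rw [biG7] at h
  obtain ⟨⟨x1, x2⟩, ⟨y1, y2⟩, z1, z2⟩ := small7 (by norm_num) h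
  rw [vec_eta v]
  generalize v 0 = x at *
  generalize v 1 = y at *
  generalize v 2 = z at *
  interval_cases x <;> interval_cases y <;> interval_cases z <;>
    first
    | exact ⟨0, rfl⟩
    | exact ⟨1, rfl⟩
    | (exfalso; revert h; decide)

theorem a4_surj (v : Fin 3 → ℤ) (h : bi G7 v v = 4) : ∃ i, a4 i = v := by
  rw [biG7] at h
  obtain ⟨⟨x1, x2⟩, ⟨y1, y2⟩, z1, z2⟩ := small7 (by norm_num) h
  rw [vec_eta v]
  generalize v 0 = x at *
  generalize v 1 = y at *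
  generalize v 2 = z at *
  interval_cases x <;> interval_cases y <;> interval_cases z <;>
    first
    | exact ⟨0, rfl⟩
    | exact ⟨1, rfl⟩
    | (exfalso; revert h; decide)

theorem a8_surj (v : Fin 3 → ℤ) (h : bi G7 v v = 8) : ∃ i, a8 i = v := by
  rw [biG7] at h
  obtain ⟨⟨x1, x2⟩, ⟨y1, y2⟩, z1, z2⟩ := small7 (by norm_num) h
  rw [vec_eta v]
  generalize v 0 = x at *
  generalize v 1 = y at *
  generalize v 2 = z at *
  interval_cases x <;> interval_cases y <;> interval_cases z <;>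
    first
    | exact ⟨0, rfl⟩
    | exact ⟨1, rfl⟩
    | exact ⟨2, rfl⟩
    | exact ⟨3, rfl⟩
    | (exfalso; revert h; decide)

theorem card_rot7 :
    Nat.card {R : Matrix (Fin 3) (Fin 3) ℤ // Rᵀ * G7 * R = G7 ∧ R.det = 1} = 4 := by
  rw [card_rot syG7 a7 a4 a8 (by decide) (by decide) (by decide) (by decide) (by decide)
    (by decide) a7_surj a4_surj a8_surj]
  decide +kernel

theorem adj7 : F7.adjugate = G7 := by decide

/-- TORS: the mass formula -/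
theorem tors7 {M : Matrix (Fin 3) (Fin 3) ℤ} (hM : PosH 7 M) :
    Nat.card {A : Matrix (Fin 3) (Fin 3) ℤ // Aᵀ * G7 * A = M.adjugate ∧ A.det = 1} = 4 := by
  obtain ⟨hs, h0, hD, hdet, e0, e1, e2⟩ := hM
  have h10 : M 1 0 = M 0 1 := congrFun (congrFun hs 0) 1
  have h20 : M 2 0 = M 0 2 := congrFun (congrFun hs 0) 2
  have h21 : M 2 1 = M 1 2 := congrFun (congrFun hs 1) 2
  have hdet' := hdet
  rw [det_fin_three, h10, h20, h21] at hdet'
  push_cast at hdet' hdet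
  obtain ⟨v, w, z, h1⟩ := rep_of
    (M 0 0 + (M 0 0 * M 1 1 - M 0 1 ^ 2)).toNat (M 0 0) (M 0 1) (M 0 2) (M 1 1) (M 1 2) (M 2 2)
    h0 hD (by linarith) e0 e1 e2 (by rw [Int.toNat_of_nonneg (by linarith)])
  have hA : (cols v w z)ᵀ * F7 * (cols v w z) = M :=
    (gram_iff syF7 v w z M ⟨h10, h20, h21⟩).2 h1
  have hB : ∃ B : Matrix (Fin 3) (Fin 3) ℤ, Bᵀ * F7 * B = M ∧ B.det = 1 := by
    have hFd : F7.det = 14 := by decide
    have hd2 : (cols v w z).det * (cols v w z).det = 1 := by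
      have := congrArg det hA
      rw [det_mul, det_mul, det_transpose, hdet, hFd] at this
      linarith
    rcases mul_self_eq_one_iff.1 hd2 with h | h
    · exact ⟨_, hA, h⟩
    · refine ⟨-(cols v w z), ?_, ?_⟩
      · rw [transpose_neg, Matrix.neg_mul, Matrix.neg_mul, Matrix.mul_neg, neg_neg, hA]
      · rw [det_neg, h]
        simp
  obtain ⟨B, hB1, hB2⟩ := hB
  obtain ⟨A, hA1, hA2⟩ := exists_adj adj7 hB1 hB2
  rw [card_same hA1 hA2, card_rot7]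

/-! ### the lattice -/

theorem L7 : Lat 7 F7 G7 where
  sG := syG7
  lag := by
    intro v w z
    simp only [biG7, biF7, crs0, crs1, crs2]
    push_cast
    ring
  dual := by
    intro v w z
    simp only [biG7, biF7, crs0, crs1, crs2, dd3]
    ring
  ev := by
    intro v
    rw [biF7]
    exact ⟨v 0 ^ 2 + 2 * v 1 ^ 2 + v 2 ^ 2 - v 1 * v 2, by ring⟩
  pos := by
    intro v
    rw [biF7]
    nlinarith [sq_nonneg (v 1 - v 2), sq_nonneg (v 0), sq_nonneg (v 1), sq_nonneg (v 2)]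
  bd := by
    intro v i
    apply Pool.Agent.N970.P17.abs_le_of_sq
    rw [biG7]
    fin_cases i
    · show v 0 ^ 2 ≤ _
      nlinarith [sq_nonneg (v 1 + v 2), sq_nonneg (v 0), sq_nonneg (v 1), sq_nonneg (v 2)]
    · show v 1 ^ 2 ≤ _
      nlinarith [sq_nonneg (v 1 + v 2), sq_nonneg (v 0), sq_nonneg (v 1), sq_nonneg (v 2)]
    · show v 2 ^ 2 ≤ _
      nlinarith [sq_nonneg (v 1 + v 2), sq_nonneg (v 0), sq_nonneg (v 1), sq_nonneg (v 2)]

theorem LE7 : LatE 7 F7 G7 where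
  toLat := L7
  d1 := by
    intro v w z
    simp only [biG7, biF7, crs0, crs1, crs2]
    ring
  d2 := by
    intro v w z
    simp only [biG7, biF7, crs0, crs1, crs2]
    ring
  d3 := by
    intro v w z
    simp only [biG7, biF7, crs0, crs1, crs2, dd3]
    push_cast
    ring
  m4 := by
    intro u
    have h : bi G7 u u = -(u 0) ^ 2 + 4 * (2 * u 0 ^ 2 + u 1 ^ 2 + 2 * u 2 ^ 2 + u 1 * u 2) := by
      rw [biG7]; ring
    rw [h]
    obtain ⟨k, hk⟩ := Int.even_or_odd' (u 0)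
    generalize 2 * u 0 ^ 2 + u 1 ^ 2 + 2 * u 2 ^ 2 + u 1 * u 2 = q
    rcases hk with hk | hk
    · left
      rw [hk]
      have : -(2 * k) ^ 2 + 4 * q = 4 * (q - k ^ 2) := by ring
      rw [this]; omega
    · right
      rw [hk]
      have : -(2 * k + 1) ^ 2 + 4 * q = 4 * (q - k ^ 2 - k - 1) + 3 := by ring
      rw [this]; omega

theorem an7 : ∀ X Y : ZMod 7, X ^ 2 + Y ^ 2 = 0 → X = 0 ∧ Y = 0 := by
  decide +kernel

/-- seven divides a sum of two squares -/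
theorem two_sq {X Y : ℤ} (h : (7 : ℤ) ∣ X ^ 2 + Y ^ 2) : (7 : ℤ) ∣ X ∧ (7 : ℤ) ∣ Y := by
  have h4 := an7 (X : ZMod 7) (Y : ZMod 7) (by
    have := (ZMod.intCast_zmod_eq_zero_iff_dvd _ 7).2 h
    push_cast at this
    exact this)
  exact ⟨(ZMod.intCast_zmod_eq_zero_iff_dvd _ 7).1 h4.1,
    (ZMod.intCast_zmod_eq_zero_iff_dvd _ 7).1 h4.2⟩

theorem LR7 : LatR 7 F7 G7 ![0, 1, 4] 2 where
  iso := by
    intro x hx
    rw [biF7] at hx
    have h2 : (7 : ℤ) ∣ (x 0) ^ 2 + (x 2 - 4 * x 1) ^ 2 := by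
      have h3 : (7 : ℤ) ∣ 2 * ((x 0) ^ 2 + (x 2 - 4 * x 1) ^ 2) := by
        obtain ⟨q, hq⟩ := hx
        push_cast at hq
        refine ⟨q + 4 * x 1 ^ 2 - 2 * x 1 * x 2, ?_⟩
        linear_combination hq
      exact (by norm_num : IsCoprime (7 : ℤ) 2).dvd_of_dvd_mul_left h3
    obtain ⟨⟨a, ha⟩, ⟨c, hc⟩⟩ := two_sq h2
    refine ⟨x 1, ![a, 0, c], ?_⟩
    funext i
    fin_cases i
    · show x 0 = x 1 * 0 + ((7 : ℕ) : ℤ) * a
      push_cast
      linear_combination ha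
    · show x 1 = x 1 * 1 + ((7 : ℕ) : ℤ) * 0
      push_cast
      ring
    · show x 2 = x 1 * 4 + ((7 : ℕ) : ℤ) * c
      push_cast
      linear_combination hc
  ker := by
    intro y
    rw [biF7]
    refine ⟨y 2, ?_⟩
    simp
    ring
  rr := by
    rw [biF7]
    simp
  jk := by norm_num
  gv := by
    intro v hv
    rw [biG7] at hv
    have h1 : (7 : ℤ) ∣ 2 * v 1 + v 2 := by
      obtain ⟨q, hq⟩ := hv
      push_cast at hq
      have p : Prime (7 : ℤ) := by norm_num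
      apply p.dvd_of_dvd_pow (n := 2)
      refine ⟨q - v 0 ^ 2 - v 2 ^ 2, ?_⟩
      linear_combination hq
    obtain ⟨b, hb⟩ := h1
    have key : ∀ x : Fin 3 → ℤ, bi F7 x ![v 0, 2 * b, b + v 2] = 2 * dt v x := by
      intro x
      have e0 : (![v 0, 2 * b, b + v 2] : Fin 3 → ℤ) 0 = v 0 := rfl
      have e1 : (![v 0, 2 * b, b + v 2] : Fin 3 → ℤ) 1 = 2 * b := rfl
      have e2 : (![v 0, 2 * b, b + v 2] : Fin 3 → ℤ) 2 = b + v 2 := rfl
      rw [biF7, e0, e1, e2]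
      simp only [dt]
      linear_combination (-(x 1)) * hb
    refine ⟨![v 0, 2 * b, b + v 2], key, ?_⟩
    rw [key, biG7]
    show ((7 : ℕ) : ℤ) * (2 * (v 0 * v 0 + v 1 * (2 * b) + v 2 * (b + v 2))) = _
    push_cast
    linear_combination (-(4 * v 1 + 2 * v 2)) * hb
  sF := fun x y => bi_comm syF7 x y

/-! ### the number of pairs -/

theorem fin7 (M : Matrix (Fin 3) (Fin 3) ℤ) :
    Finite {A : Matrix (Fin 3) (Fin 3) ℤ // Aᵀ * G7 * A = M ∧ A.det = 1} := by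
  classical
  let B : Fin 3 → Fin 3 → Finset ℤ := fun _ j => Finset.Icc (-(M j j)) (M j j)
  have hfin : (Set.Finite {A : Matrix (Fin 3) (Fin 3) ℤ | ∀ i j, A i j ∈ B i j}) := by
    have h1 : Set.Finite (Set.pi Set.univ fun i : Fin 3 =>
        Set.pi Set.univ fun j : Fin 3 => (B i j : Set ℤ)) :=
      Set.Finite.pi fun i => Set.Finite.pi fun j => (B i j).finite_toSet
    refine h1.subset ?_
    intro A hA i _ j _
    exact hA i j
  refine Set.Finite.subset hfin ?_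
  rintro A ⟨hA, -⟩ i j
  have h2 : bi G7 (fun k => A k j) (fun k => A k j) = M j j := by
    rw [← conj_apply, hA]
  have h1 := L7.bd (fun k => A k j) i
  rw [h2] at h1
  exact Finset.mem_Icc.2 (abs_le.1 h1)

theorem card_fr7 {n1 : ℕ} (hs : Squarefree n1) (h10 : Nat.Coprime n1 (2 * 7)) (b : ℤ) (Q : ℕ) :
    Nat.card (Fr 7 G7 n1 b Q) = 4 * (XX 7 n1 b Q).card := by
  have h1 : ∀ x : {x : ℕ × ℕ × ℕ × ℕ // x ∈ XX 7 n1 b Q},
      Finite {A : Matrix (Fin 3) (Fin 3) ℤ // Aᵀ * G7 * A = mm 7 n1 Q x.1 ∧ A.det = 1} :=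
    fun x => fin7 _
  have h3 : ∀ x : {x : ℕ × ℕ × ℕ × ℕ // x ∈ XX 7 n1 b Q},
      Nat.card {A : Matrix (Fin 3) (Fin 3) ℤ // Aᵀ * G7 * A = mm 7 n1 Q x.1 ∧ A.det = 1} = 4 := by
    rintro ⟨⟨e, μ, β, ν⟩, hx⟩
    obtain ⟨M, hM, hM2⟩ := mm_pos (by norm_num) hs h10 hx
    rw [← hM2]
    exact tors7 hM
  rw [Nat.card_sigma, Finset.sum_congr rfl (fun x _ => h3 x), Finset.sum_const, smul_eq_mul,
    Finset.card_univ, Fintype.card_coe, mul_comm]

theorem card_frE7 (n1 : ℕ) (b : ℤ) (Q : ℕ) :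
    Nat.card (FrE 7 G7 n1 b Q) = 4 * (XE 7 n1 b Q).card := by
  have h1 : ∀ x : {x : ℕ × ℕ × ℕ × ℕ // x ∈ XE 7 n1 b Q},
      Finite {A : Matrix (Fin 3) (Fin 3) ℤ // Aᵀ * G7 * A = mm 7 n1 Q x.1 ∧ A.det = 1} :=
    fun x => fin7 _
  have h3 : ∀ x : {x : ℕ × ℕ × ℕ × ℕ // x ∈ XE 7 n1 b Q},
      Nat.card {A : Matrix (Fin 3) (Fin 3) ℤ // Aᵀ * G7 * A = mm 7 n1 Q x.1 ∧ A.det = 1} = 4 := by
    rintro ⟨⟨e, μ, β, ν⟩, hx⟩
    obtain ⟨M, hM, hM2⟩ := mm_posE (by norm_num) hx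
    rw [← hM2]
    exact tors7 hM
  rw [Nat.card_sigma, Finset.sum_congr rfl (fun x _ => h3 x), Finset.sum_const, smul_eq_mul,
    Finset.card_univ, Fintype.card_coe, mul_comm]

/-- the product of the local densities away from `7` -/
def R7 (n1 D : ℕ) : ℤ := tw n1 D * ∏ l ∈ (D.primeFactors.erase 2).erase 7, fac n1 D l

theorem tw_zero {n1 D : ℕ} (hD : 0 < D) (h4 : ¬ 4 ∣ D) : tw n1 D = 0 := by
  have h2 : D.factorization 2 - 1 = 0 := by
    have : ¬ 2 ≤ D.factorization 2 := by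
      intro h2
      exact h4 ((Nat.Prime.pow_dvd_iff_le_factorization Nat.prime_two hD.ne').2 h2)
    omega
  unfold tw
  rw [h2]
  simp

theorem no_vec7 {n1 : ℕ} {v : Fin 3 → ℤ} (hv : bi G7 v v = n1) :
    jacobiSym (-(n1 : ℤ)) 7 ≠ 1 := by
  intro hj
  have h : (n1 : ℤ) = 7 * (v 0 * v 0 + v 2 * v 2) + (2 * v 1 + v 2) ^ 2 := by
    rw [← hv, biG7]; ring
  have h1 : (n1 : ℤ) % 7 = ((2 * v 1 + v 2) ^ 2) % 7 := by omega
  generalize 2 * v 1 + v 2 = u at h1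
  have h3 : u % 7 = 0 ∨ u % 7 = 1 ∨ u % 7 = 2 ∨ u % 7 = 3 ∨ u % 7 = 4 ∨ u % 7 = 5 ∨
    u % 7 = 6 := by omega
  have h2 : u ^ 2 % 7 = 0 ∨ u ^ 2 % 7 = 1 ∨ u ^ 2 % 7 = 2 ∨ u ^ 2 % 7 = 4 := by
    rcases h3 with h3 | h3 | h3 | h3 | h3 | h3 | h3 <;> simp [pow_two, Int.mul_emod, h3]
  rw [jacobiSym.mod_left] at hj
  have h4 : (-(n1 : ℤ)) % ((7 : ℕ) : ℤ) = 0 ∨ (-(n1 : ℤ)) % ((7 : ℕ) : ℤ) = 6 ∨
    (-(n1 : ℤ)) % ((7 : ℕ) : ℤ) = 5 ∨ (-(n1 : ℤ)) % ((7 : ℕ) : ℤ) = 3 := by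
    push_cast
    omega
  rcases h4 with h4 | h4 | h4 | h4 <;> rw [h4] at hj <;> revert hj <;> norm_num

/-- PC: the number of pairs, `7 ∤ n1` -/
theorem pc7 {n1 n2 : ℕ} {b : ℤ} {D : ℕ} (hs : Squarefree n1) (h3 : n1 % 4 = 3) (h5 : ¬ 7 ∣ n1)
    (hD : 0 < D) (hDD : (D : ℤ) = n1 * n2 - b ^ 2) :
    (Nat.card (Pairs G7 n1 n2 b) : ℤ) = 4 * (if Odd (D.factorization 7) then R7 n1 D else 0) := by
  have p7 : Nat.Prime 7 := by norm_num
  by_cases h20 : 4 * 7 ∣ D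
  · obtain ⟨Q, rfl⟩ := h20
    have hQ : 0 < Q := by omega
    have hDD' : 4 * ((7 : ℕ) : ℤ) * (Q : ℤ) = n1 * n2 - b ^ 2 := by
      rw [← hDD]; push_cast; ring
    have h10 : Nat.Coprime n1 (2 * 7) := by
      have h2 : Nat.Coprime n1 2 :=
        ((Nat.Prime.coprime_iff_not_dvd Nat.prime_two).2 (by omega)).symm
      have h5' : Nat.Coprime n1 7 := ((Nat.Prime.coprime_iff_not_dvd p7).2 h5).symm
      exact Nat.Coprime.mul_right h2 h5'
    have hX := card_XX p7 (by norm_num) hs h3 h5 hQ hDD'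
    have hv7 := fact_c0 p7 (by norm_num) hQ
    have hcnt : Nat.card (Pairs G7 n1 n2 b) = 4 * (XX 7 n1 b Q).card := by
      rw [t_CNT L7 (by norm_num) hs hQ hDD']
      exact card_fr7 hs h10 b Q
    have hcnt' : (Nat.card (Pairs G7 n1 n2 b) : ℤ) = 4 * (XX 7 n1 b Q).card := by
      exact_mod_cast hcnt
    have hJ : jacobiSym (-(n1 : ℤ)) 7 = 1 ∨ jacobiSym (-(n1 : ℤ)) 7 = -1 := by
      apply jacobiSym.eq_one_or_neg_one
      rw [Int.neg_gcd, Int.gcd_natCast_natCast]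
      exact ((Nat.Prime.coprime_iff_not_dvd p7).2 h5).symm
    rcases hJ with hJ | hJ
    · have z1 : Nat.card (Pairs G7 n1 n2 b) = 0 := by
        have : IsEmpty (Pairs G7 n1 n2 b) := ⟨fun q => no_vec7 q.2.1 hJ⟩
        exact Nat.card_of_isEmpty
      rw [z1] at hcnt'
      have hX0 : ((XX 7 n1 b Q).card : ℤ) = 0 := by
        push_cast at hcnt'
        linarith
      rw [hX0, (sum_sign (Or.inl hJ) _).1 hJ] at hX
      have h6 : R7 n1 (4 * 7 * Q) = 0 := by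
        rcases mul_eq_zero.1 hX.symm with h8 | h8
        · exfalso
          have : (Q.factorization 7 + 1 : ℕ) = 0 := by exact_mod_cast h8
          omega
        · exact h8
      rw [z1, h6]
      simp
    · rw [hcnt', hX, (sum_sign (Or.inr hJ) _).2 hJ]
      rw [hv7]
      unfold R7
      by_cases hm : Odd (Q.factorization 7)
      · rw [if_pos hm, if_neg (by rw [Nat.not_odd_iff_even]; exact hm.add_one)]
        ring
      · rw [if_neg hm, if_pos (by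
          rw [Nat.not_odd_iff_even] at hm; exact hm.add_one)]
        ring
  · rw [no_pairs L7 hDD h20]
    split_ifs with h
    · have h5D : 7 ∣ D := by
        by_contra hc
        rw [Nat.factorization_eq_zero_of_not_dvd hc] at h
        exact absurd h (by decide)
      have h4D : ¬ 4 ∣ D := by
        intro h4
        exact h20 (Nat.Coprime.mul_dvd_of_dvd_of_dvd (by norm_num : Nat.Coprime 4 7) h4 h5D)
      unfold R7
      rw [tw_zero hD h4D]
      simp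
    · simp

/-- PCR: the number of pairs, `7 ∣ n1` -/
theorem pcr7 {n1 n2 : ℕ} {b : ℤ} {D : ℕ} (hs : Squarefree n1) (h3 : n1 % 4 = 3) (h5 : 7 ∣ n1)
    (hD : 0 < D) (hDD : (D : ℤ) = n1 * n2 - b ^ 2) :
    (Nat.card (Pairs G7 n1 n2 b) : ℤ) =
      4 * (if 7 ∣ D ∧ hh n1 D 7 = -1 then R7 n1 D else 0) := by
  have p7 : Nat.Prime 7 := by norm_num
  have h25 : ¬ 7 * 7 ∣ n1 := fun h => p7.one_lt.ne' (Nat.isUnit_iff.1 (hs 7 h))
  by_cases h20 : 4 * 7 ∣ D
  · obtain ⟨Q, rfl⟩ := h20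
    have hQ : 0 < Q := by omega
    have hDD' : 4 * ((7 : ℕ) : ℤ) * (Q : ℤ) = n1 * n2 - b ^ 2 := by
      rw [← hDD]; push_cast; ring
    have hX := card_XXR p7 (by norm_num) hs h3 h5 hQ hDD'
    have hcnt : Nat.card (Pairs G7 n1 n2 b) = 4 * (XE 7 n1 b Q).card := by
      rw [t_CNTE LE7 (by norm_num) (by omega) (fun v hv => prim_of_sqfree hs hv) hQ hDD']
      exact card_frE7 n1 b Q
    rw [XE_eq_XX p7 (by norm_num) hs (by omega)] at hcnt
    have hcnt' : (Nat.card (Pairs G7 n1 n2 b) : ℤ) = 4 * (XX 7 n1 b Q).card := by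
      exact_mod_cast hcnt
    have h5D : 7 ∣ 4 * 7 * Q := ⟨4 * Q, by ring⟩
    rcases hh_pm p7 h25 h5 hD with hp | hp
    · have z1 : Nat.card (Pairs G7 n1 n2 b) = 0 := by
        have : IsEmpty (Pairs G7 n1 n2 b) := ⟨fun q => by
          have h := hh_ram L7 LR7 (by norm_num) (by norm_num) h25 h5 hD hDD q.2.1 q.2.2.1 q.2.2.2
          rw [hp] at h
          norm_num at h⟩
        exact Nat.card_of_isEmpty
      rw [z1, hp]
      simp
    · rw [if_pos ⟨h5D, hp⟩, hcnt', hX]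
      rfl
  · rw [no_pairs L7 hDD h20]
    split_ifs with h
    · have h4D : ¬ 4 ∣ D := by
        intro h4
        exact h20 (Nat.Coprime.mul_dvd_of_dvd_of_dvd (by norm_num : Nat.Coprime 4 7) h4 h.1)
      unfold R7
      rw [tw_zero hD h4D]
      simp
    · simp

end Pool.Agent.N970.RQ
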