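import Pool.Agent.N970.RQ.Bil7
import Pool.Agent.N970.Sgn.Prop
import Pool.Agent.N816.RQ.Plus3
import Pool.Agent.N975.RQ.Ps

/-!
# BILJ21n: the signed pair sums of the norms `d l` and `(D / d) l`
-/

set_option autoImplicit false
set_option linter.unusedSectionVars false

namespace Pool.Agent.N970.RQ

open Finset
open Pool.Agent.N969.P15 (V3 tw)
open Pool.Agent.N969.RQ (ip7 vec7 c7 R21 Un sgd sj o7 Fd nn S_EISJ7p)
open Pool.Agent.N218.RQ (odd_part nn')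
open Pool.Agent.N844.P17G (Iso sig)
open Pool.Agent.N970.Sgn
open Pool.Agent.N970.P21G (mem7)
open Pool.Agent.N877.P21G (Fn I7 L37 w7)

/-- **EISJ7p** -/
theorem t_EISJ7p : S_EISJ7p := s_EISJ7p Pool.Agent.N816.RQ.t_C2Jpp

/-! ### auxiliary facts -/

theorem ips7 (v w : V3) : ip7 v w = ip7 w v := by unfold ip7; ring

theorem ipn7 (v w : V3) : ip7 v (-w) = - ip7 v w := by
  unfold ip7
  simp only [Pi.neg_apply]
  ring

theorem mem7n {n : ℕ} {v : V3} (h : v ∈ vec7 (n : ℤ)) : -v ∈ vec7 (n : ℤ) := by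
  rw [mem7] at h ⊢
  rw [ipn7, ips7, ipn7, neg_neg, h]

theorem cq3_neg (a : ℕ) (b : ℤ) (c : ℕ) : Pool.Agent.N877.P21G.cp3 a (-b) c = Pool.Agent.N877.P21G.cp3 a b c := by
  unfold Pool.Agent.N877.P21G.cp3
  refine card_nbij' (fun q => (-q.1, q.2)) (fun q => (-q.1, q.2)) ?_ ?_ ?_ ?_
  · rintro ⟨v, w⟩ hq
    rw [mem_coe, mem_filter, mem_product] at hq ⊢
    refine ⟨⟨mem7n hq.1.1, hq.1.2⟩, ?_, fun i => ?_⟩
    · show ip7 (-v) w = b
      rw [ips7, ipn7, ips7, hq.2.1, neg_neg]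
    · have := hq.2.2 i
      show (3 : ℤ) ∣ c * (-v) i - b * w i
      rw [Pi.neg_apply]
      have e : (c : ℤ) * -v i - b * w i = -(c * v i - -b * w i) := by ring
      rw [e, dvd_neg]
      exact this
  · rintro ⟨v, w⟩ hq
    rw [mem_coe, mem_filter, mem_product] at hq ⊢
    refine ⟨⟨mem7n hq.1.1, hq.1.2⟩, ?_, fun i => ?_⟩
    · show ip7 (-v) w = -b
      rw [ips7, ipn7, ips7, hq.2.1]
    · have := hq.2.2 i
      show (3 : ℤ) ∣ c * (-v) i - -b * w i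
      rw [Pi.neg_apply]
      have e : (c : ℤ) * -v i - -b * w i = -(c * v i - b * w i) := by ring
      rw [e, dvd_neg]
      exact this
  · rintro ⟨v, w⟩ _
    simp
  · rintro ⟨v, w⟩ _
    simp

/-- the determinant is divisible by `28` -/
theorem dvd28 (v w : V3) : (28 : ℤ) ∣ ip7 v v * ip7 w w - ip7 v w ^ 2 := by
  have h := L7.lag2 v w
  rw [ip7_eq, ip7_eq, ip7_eq]
  exact ⟨_, by rw [h]; push_cast; ring⟩

theorem cl_dvd {n1 n2 : ℕ} {v w : V3} (h1 : n1 % 3 = 2) (h2 : n2 % 3 = 2)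
    (hv : ip7 v v = n1) (hw : ip7 w w = n2) (h : cl v w ≠ 0) :
    (3 : ℤ) ∣ n1 * n2 - ip7 v w ^ 2 := by
  by_contra h3
  apply h
  rw [cl_eq h1 h2 hv hw, if_neg h3]

theorem swap_sum {l n1 n2 : ℕ} {t : ℤ} :
    ∑ q ∈ (vec7 (n1 : ℤ) ×ˢ vec7 (n2 : ℤ)).filter (fun q => ip7 q.1 q.2 = t),
      psi ip7 l q.1 * psi ip7 l q.2 * cl q.1 q.2 =
    ∑ q ∈ (vec7 (n2 : ℤ) ×ˢ vec7 (n1 : ℤ)).filter (fun q => ip7 q.1 q.2 = t),
      psi ip7 l q.1 * psi ip7 l q.2 * cl q.1 q.2 := by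
  refine sum_nbij' Prod.swap Prod.swap ?_ ?_ (fun _ _ => rfl) (fun _ _ => rfl) ?_
  · rintro ⟨v, w⟩ h
    rw [mem_filter, mem_product] at h ⊢
    exact ⟨⟨h.1.2, h.1.1⟩, by rw [← h.2]; exact ips7 _ _⟩
  · rintro ⟨v, w⟩ h
    rw [mem_filter, mem_product] at h ⊢
    exact ⟨⟨h.1.2, h.1.1⟩, by rw [← h.2]; exact ips7 _ _⟩
  · rintro ⟨v, w⟩ _
    show psi ip7 l v * psi ip7 l w * cl v w = psi ip7 l w * psi ip7 l v * cl w v
    rw [cl_comm]
    ring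

/-! ### the sums -/

/-- the hypotheses -/
structure HH (D d l : ℕ) : Prop where
  pl : l.Prime
  l2 : l ≠ 2
  l7 : l ≠ 7
  l4 : l % 4 = 3
  l3 : l % 3 = 1
  jl : jacobiSym l 7 = -1
  D0 : R21 D
  lD : ¬ l ∣ D
  un : Un D d
  sg : sgd D d = 1
  d3 : d % 3 = 2
  e3 : D / d % 3 = 2
  jd : jacobiSym d 7 = -1
  je : jacobiSym (D / d : ℕ) 7 = -1

theorem I7_of {n : ℕ} (h : jacobiSym n 7 = 1) : I7 n := by
  unfold I7
  rw [jacobiSym.mod_left] at h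
  have e : (n : ℤ) % ((7 : ℕ) : ℤ) = ((n % 7 : ℕ) : ℤ) := by push_cast; rfl
  rw [e] at h
  have hn : n % 7 < 7 := Nat.mod_lt _ (by norm_num)
  interval_cases h' : n % 7
  · norm_num at h
  · left; rfl
  · right; left; rfl
  · norm_num at h
  · right; right; rfl
  · norm_num at h
  · norm_num at h

theorem HH.swap_facts {D d l : ℕ} (h : HH D d l) :
    (2 ∣ d → Fn (D / d * l) ∧ ¬ 2 ∣ D / d * l) ∧ (¬ 2 ∣ d → Fn (d * l) ∧ ¬ 2 ∣ d * l) := by
  obtain ⟨f1, f2, -⟩ := nn_facts' h.D0.1 h.un h.sg h.pl h.l4 h.lD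
  unfold nn at f1 f2
  constructor
  · intro h2
    rw [if_pos h2] at f1 f2
    exact ⟨Or.inl ⟨f1, f2⟩, by omega⟩
  · intro h2
    rw [if_neg h2] at f1 f2
    exact ⟨Or.inl ⟨f1, f2⟩, by omega⟩

/-- the sum over the pairs with inner product `l s`, `(D / l) = -1` -/
theorem inner_bad {D d l : ℕ} (h : HH D d l) {t : ℤ} (hlt : (l : ℤ) ∣ t)
    (hDl : jacobiSym D l = -1) (ht : t ^ 2 < (D * l ^ 2 : ℕ))
    (h84 : ((4 * 21 : ℕ) : ℤ) ∣ (D * l ^ 2 : ℕ) - t ^ 2) :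
    ∑ q ∈ (vec7 ((d * l : ℕ) : ℤ) ×ˢ vec7 ((D / d * l : ℕ) : ℤ)).filter
      (fun q => ip7 q.1 q.2 = t), psi ip7 l q.1 * psi ip7 l q.2 * cl q.1 q.2 = 0 := by
  have : Fact l.Prime := ⟨h.pl⟩
  have hprod : d * (D / d) = D := Nat.mul_div_cancel' h.un.1
  obtain ⟨s, rfl⟩ := hlt
  have hl0 : (0 : ℤ) < l := by exact_mod_cast h.pl.pos
  have e1 : ((D * l ^ 2 : ℕ) : ℤ) - (l * s) ^ 2 = l ^ 2 * (D - s ^ 2) := by push_cast; ring
  have hm0 : (0 : ℤ) < D - s ^ 2 := by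
    have h1 : 0 < (l : ℤ) ^ 2 * (D - s ^ 2) := by rw [← e1]; linarith
    exact (pos_iff_pos_of_mul_pos h1).1 (by positivity)
  obtain ⟨m, hm⟩ := Int.eq_ofNat_of_zero_le hm0.le
  have hm0' : 0 < m := by rw [hm] at hm0; exact_mod_cast hm0
  have h3m : 3 ∣ m := by
    have h1 : (3 : ℤ) ∣ l ^ 2 * (D - s ^ 2) := by
      rw [← e1]
      exact Dvd.dvd.trans (by norm_num) h84
    rcases Int.prime_three.dvd_or_dvd h1 with h2 | h2
    · exfalso
      have h5 := Int.prime_three.dvd_of_dvd_pow h2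
      have h6 : 3 ∣ l := by exact_mod_cast h5
      have := h.l3
      omega
    · rw [hm] at h2
      exact_mod_cast h2
  have hI : ∀ n : ℕ, jacobiSym n 7 = -1 → I7 (n * l) := by
    intro n hn
    apply I7_of
    push_cast
    rw [jacobiSym.mul_left, hn, h.jl]
    norm_num
  have hl37 := h.l3
  by_cases h2 : 2 ∣ d
  · obtain ⟨hF, h2e⟩ := h.swap_facts.1 h2
    refine orth7 h.l2 h.l7 h.l4 (fun h1 => h.lD (h1.trans h.un.1))
      (fun h1 => h.lD (h1.trans (Nat.div_dvd_of_dvd h.un.1))) h.l3 h.d3 h.e3 hF h2e (hI _ h.je)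
      hm0' h3m ?_ (by rw [hprod]; exact hDl)
    rw [← Int.natCast_mul, hprod, ← hm]
  · obtain ⟨hF, h2e⟩ := h.swap_facts.2 h2
    rw [swap_sum]
    refine orth7 h.l2 h.l7 h.l4 (fun h1 => h.lD (h1.trans (Nat.div_dvd_of_dvd h.un.1)))
      (fun h1 => h.lD (h1.trans h.un.1)) h.l3 h.e3 h.d3 hF h2e (hI _ h.jd)
      hm0' h3m ?_ (by rw [mul_comm (D / d) d, hprod]; exact hDl)
    rw [← Int.natCast_mul, mul_comm (D / d) d, hprod, ← hm]

/-- the sum over the pairs with inner product `t`, `l ∤ t` or `(D / l) = 1` -/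
theorem inner_good {D d l : ℕ} (h : HH D d l) {t : ℤ} (hlt : ¬ (l : ℤ) ∣ t ∨ jacobiSym D l = 1)
    (h84 : ((4 * 21 : ℕ) : ℤ) ∣ (D * l ^ 2 : ℕ) - t ^ 2) :
    ∑ q ∈ (vec7 ((d * l : ℕ) : ℤ) ×ˢ vec7 ((D / d * l : ℕ) : ℤ)).filter
      (fun q => ip7 q.1 q.2 = t), psi ip7 l q.1 * psi ip7 l q.2 * cl q.1 q.2 =
      sj D d l t * ((c7 (d * l : ℕ) t (D / d * l : ℕ) : ℤ) +
        Pool.Agent.N877.P21G.cp3 (d * l : ℕ) t (D / d * l : ℕ)) := by
  have : Fact l.Prime := ⟨h.pl⟩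
  have hprod : d * (D / d) = D := Nat.mul_div_cancel' h.un.1
  have e1 : ∀ q ∈ (vec7 ((d * l : ℕ) : ℤ) ×ˢ vec7 ((D / d * l : ℕ) : ℤ)).filter
      (fun q => ip7 q.1 q.2 = t), psi ip7 l q.1 * psi ip7 l q.2 * cl q.1 q.2 =
      sj D d l t * cl q.1 q.2 := by
    rintro ⟨v, w⟩ hq
    rw [mem_filter, mem_product, mem7, mem7] at hq
    rw [psi_sj frm7 h.l2 (nK h.l2 h.l7) h.un h.lD hq.1.1 hq.1.2 hq.2 hlt]
  have d3 := h.d3
  have e3 := h.e3
  have l3 := h.l3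
  rw [sum_congr rfl e1, ← mul_sum, sum_cl (by rw [Nat.mul_mod, d3, l3])
    (by rw [Nat.mul_mod, e3, l3]), if_pos]
  have e2 : ((d * l : ℕ) : ℤ) * (D / d * l : ℕ) = (D * l ^ 2 : ℕ) := by
    have : (d * l) * (D / d * l) = D * l ^ 2 := by
      calc (d * l) * (D / d * l) = (d * (D / d)) * l ^ 2 := by ring
        _ = _ := by rw [hprod]
    rw [← this]
    push_cast
    ring
  rw [e2]
  exact Dvd.dvd.trans (by norm_num) h84

/-- **the signed pair sum** -/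
theorem main7 {D d l : ℕ} (h : HH D d l) :
    Pool.Agent.N969.RQ.ST 21 D l (fun t _ => o7 (t * l ^ 5) * sj D d l t *
      ((c7 (d * l : ℕ) t (D / d * l : ℕ) : ℤ) + Pool.Agent.N877.P21G.cp3 (d * l : ℕ) t (D / d * l : ℕ))) =
      - (Zn l d * Zn l (D / d)) := by
  have : Fact l.Prime := ⟨h.pl⟩
  have hprod : d * (D / d) = D := Nat.mul_div_cancel' h.un.1
  have hDn : (d * l) * (D / d * l) = D * l ^ 2 := by
    calc (d * l) * (D / d * l) = (d * (D / d)) * l ^ 2 := by ring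
      _ = _ := by rw [hprod]
  have hDz : ((d * l : ℕ) : ℤ) * (D / d * l : ℕ) = (D * l ^ 2 : ℕ) := by
    rw [← hDn]; push_cast; ring
  have hld : ¬ l ∣ d := fun h1 => h.lD (h1.trans h.un.1)
  have hle : ¬ l ∣ D / d := fun h1 => h.lD (h1.trans (Nat.div_dvd_of_dvd h.un.1))
  have hlo : Odd l := by rw [Nat.odd_iff]; have := h.l4; omega
  have h7l : jacobiSym 7 l = 1 := by
    have h1 : jacobiSym (7 : ℕ) l = - jacobiSym l 7 :=
      jacobiSym.quadratic_reciprocity_three_mod_four (by norm_num) h.l4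
    rw [h.jl] at h1
    push_cast at h1
    linarith
  have d3 := h.d3
  have e3 := h.e3
  have l3 := h.l3
  have hn1 : (d * l) % 3 = 2 := by rw [Nat.mul_mod, d3, l3]
  have hn2 : (D / d * l) % 3 = 2 := by rw [Nat.mul_mod, e3, l3]
  have hl0 : (0 : ℤ) < l := by exact_mod_cast h.pl.pos
  have hD1 : (1 : ℤ) < D := by exact_mod_cast h.D0.1.1
  set s : Finset ℤ := (Ioo (-((D * l : ℕ) : ℤ)) (D * l : ℕ)).filter (fun t : ℤ =>
    t ^ 2 < (D * l ^ 2 : ℕ) ∧ ((4 * 21 : ℕ) : ℤ) ∣ (D * l ^ 2 : ℕ) - t ^ 2) with hs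
  have hfp := Fi_pairs (l := l) (n1 := d * l) (n2 := D / d * l) (s := s) (by
    intro v w hv hw hc
    have g1 : ip7 v w ^ 2 < (D * l ^ 2 : ℕ) := by
      have g2 := cs7 v w
      rw [← ip7_eq, ← ip7_eq, ← ip7_eq, hv, hw, hDz] at g2
      rcases lt_or_eq_of_le g2 with g3 | g3
      · exact g3
      · exfalso
        apply Pool.Agent.N975.RQ.fd_nsq h.D0.1
        push_cast at g3
        have hd : (l : ℤ) ∣ ip7 v w := by
          have : (l : ℤ) ^ 2 ∣ ip7 v w ^ 2 := ⟨D, by rw [g3]; ring⟩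
          exact (Int.pow_dvd_pow_iff two_ne_zero).1 this
        obtain ⟨k, hk⟩ := hd
        refine ⟨k, ?_⟩
        rw [hk] at g3
        apply mul_left_cancel₀ (pow_ne_zero 2 hl0.ne')
        linear_combination -g3
    rw [hs, mem_filter, mem_Ioo]
    have g4 : |ip7 v w| < (D * l : ℕ) := by
      apply abs_lt_of_sq_lt_sq _ (by positivity)
      refine lt_of_lt_of_le g1 ?_
      push_cast
      nlinarith [pow_pos hl0 2]
    refine ⟨abs_lt.1 g4, g1, ?_⟩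
    have g5 := dvd28 v w
    have g6 := cl_dvd hn1 hn2 hv hw hc
    rw [hv, hw, hDz] at g5
    rw [hDz] at g6
    have : ((4 * 21 : ℕ) : ℤ) = 28 * 3 := by norm_num
    rw [this]
    exact IsCoprime.mul_dvd (by norm_num) g5 g6)
  rw [sum_Fi h.l2 h.l7 (fun v hv => iso7 hld hv) (fun v hv => iso7 hle hv) h7l
    (by omega) (by omega)] at hfp
  rw [hfp]
  have ho : ∀ t : ℤ, o7 (t * l ^ 5) = - jacobiSym t 7 := by
    intro t
    unfold o7
    rw [jacobiSym.mul_left, jacobiSym.pow_left, h.jl]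
    norm_num
  have key : Pool.Agent.N969.RQ.ST 21 D l (fun t _ => (fun t => jacobiSym t 7 * (if (l : ℤ) ∣ t ∧
      jacobiSym D l = -1 then sj D d l t * ((c7 (d * l : ℕ) t (D / d * l : ℕ) : ℤ) +
        Pool.Agent.N877.P21G.cp3 (d * l : ℕ) t (D / d * l : ℕ)) else 0)) t) = 0 := by
    apply ST_odd
    intro t
    have e1 : jacobiSym (-t) 7 = - jacobiSym t 7 := o7_neg t
    rw [e1]
    by_cases hb : (l : ℤ) ∣ t ∧ jacobiSym D l = -1
    · rw [if_pos hb, if_pos ⟨dvd_neg.2 hb.1, hb.2⟩, sj_neg h.un h.pl h.l4 hb.1 hb.2, c7_neg,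
        cq3_neg]
      ring
    · rw [if_neg hb, if_neg (fun h' => hb ⟨dvd_neg.1 h'.1, h'.2⟩)]
      ring
  have hjpm : jacobiSym D l = 1 ∨ jacobiSym D l = -1 := by
    rcases jacobiSym.trichotomy D l with h1 | h1 | h1
    · exfalso
      have : NeZero l := ⟨h.pl.ne_zero⟩
      rw [jacobiSym.eq_zero_iff_not_coprime, Int.gcd_natCast_natCast] at h1
      exact h1 ((Nat.Prime.coprime_iff_not_dvd h.pl).2 h.lD).symm
    · exact Or.inl h1
    · exact Or.inr h1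
  unfold Pool.Agent.N969.RQ.ST at key ⊢
  rw [← hs] at key ⊢
  have e5 : ∀ t ∈ s, o7 (t * l ^ 5) * sj D d l t *
      ((c7 (d * l : ℕ) t (D / d * l : ℕ) : ℤ) + Pool.Agent.N877.P21G.cp3 (d * l : ℕ) t (D / d * l : ℕ)) =
      -(jacobiSym t 7 * ∑ q ∈ (vec7 ((d * l : ℕ) : ℤ) ×ˢ vec7 ((D / d * l : ℕ) : ℤ)).filter
        (fun q => ip7 q.1 q.2 = t), psi ip7 l q.1 * psi ip7 l q.2 * cl q.1 q.2) -
      jacobiSym t 7 * (if (l : ℤ) ∣ t ∧
      jacobiSym D l = -1 then sj D d l t * ((c7 (d * l : ℕ) t (D / d * l : ℕ) : ℤ) +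
        Pool.Agent.N877.P21G.cp3 (d * l : ℕ) t (D / d * l : ℕ)) else 0) := by
    intro t ht
    rw [hs, mem_filter] at ht
    rw [ho]
    by_cases hb : (l : ℤ) ∣ t ∧ jacobiSym D l = -1
    · rw [if_pos hb, inner_bad h hb.1 hb.2 ht.2.1 ht.2.2]
      ring
    · rw [if_neg hb, inner_good h (by
        by_cases hlt : (l : ℤ) ∣ t
        · right
          rcases hjpm with h1 | h1
          · exact h1
          · exact absurd ⟨hlt, h1⟩ hb
        · exact Or.inl hlt) ht.2.2]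
      ring
  rw [sum_congr rfl e5, sum_sub_distrib, key, sub_zero, sum_neg_distrib]

end Pool.Agent.N970.RQ
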