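import Pool.Agent.N970.RQ.E3

/-!
# BILJ21: the signed sums over the vectors orthogonal to an isotropic line modulo `7`
-/

set_option autoImplicit false
set_option linter.unusedSectionVars false

namespace Pool.Agent.N970.RQ3

open Finset
open Pool.Agent.N969.P15 (V3)
open Pool.Agent.N877.P21 (ip vec cp cp7 Sp7)
open Pool.Agent.N218.P21 (sg sg' ta mem_vec sg_sg' sg'_sg ta_ta ip_ta2 ip_sg2 ip_sg ip_sg' LL Ot
  ne_zero_of ipR_self_zero ipR_self_Sp7 sum_fin0 sum_fin2 dvd7_iff LL_cast)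
open Pool.Agent.N973.P21 (Vi mem_Vi)
open Pool.Agent.N844.P17G (Iso sig)
open Pool.Agent.N970.Sgn

/-- the signed sum over the vectors orthogonal to a line -/
noncomputable def Ni (l : ℕ) (i : Fin 8) (n : ℤ) : ℤ := ∑ v ∈ Vi i n, E l v

/-- the signed sum over the vectors -/
noncomputable def Rr (l : ℕ) (n : ℤ) : ℤ := ∑ v ∈ vec n, E l v

section

variable {l : ℕ} [hl : Fact l.Prime] (h2 : l ≠ 2) (h3 : l ≠ 3) (h3l : jacobiSym 3 l = -1) {n : ℤ}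
  (hn : ∀ v : V3, ip v v = n → Iso ip l v)

include h2 h3 h3l hn

theorem Ni_rot {i j : Fin 8} (h : ∀ v : V3, LL i (sg v 1) (sg v 0) (sg v 2) =
    LL j (v 1) (v 0) (v 2)) : Ni l j n = Ni l i n := by
  unfold Ni
  refine Finset.sum_nbij' sg sg' ?_ ?_ (fun v _ => sg'_sg v) (fun v _ => sg_sg' v) ?_
  · intro v hv
    rw [mem_Vi] at hv ⊢
    refine ⟨by rw [ip_sg]; exact hv.1, ?_⟩
    have := hv.2
    unfold Ot at this ⊢
    rw [h]
    exact this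
  · intro v hv
    rw [mem_Vi] at hv ⊢
    refine ⟨by rw [ip_sg']; exact hv.1, ?_⟩
    have := hv.2
    unfold Ot at this ⊢
    rw [← h (sg' v), sg_sg']
    exact this
  · intro v hv
    rw [mem_Vi] at hv
    exact (E_sg h2 h3 h3l (hn v hv.1)).symm

theorem N1 : Ni l 1 n = Ni l 0 n := by
  refine (Ni_rot h2 h3 h3l hn (fun v => ?_)).symm
  simp only [LL, sg, Matrix.cons_val_zero, Matrix.cons_val_one, Matrix.cons_val]
  ring

theorem N2 : Ni l 2 n = Ni l 0 n := by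
  rw [← N1 h2 h3 h3l hn]
  refine (Ni_rot h2 h3 h3l hn (fun v => ?_)).symm
  simp only [LL, sg, Matrix.cons_val_zero, Matrix.cons_val_one, Matrix.cons_val]
  ring

theorem N3 : Ni l 3 n = Ni l 0 n := by
  rw [← N2 h2 h3 h3l hn]
  refine (Ni_rot h2 h3 h3l hn (fun v => ?_)).symm
  simp only [LL, sg, Matrix.cons_val_zero, Matrix.cons_val_one, Matrix.cons_val]
  ring

theorem N4 : Ni l 4 n = Ni l 0 n := by
  rw [← N3 h2 h3 h3l hn]
  refine (Ni_rot h2 h3 h3l hn (fun v => ?_)).symm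
  simp only [LL, sg, Matrix.cons_val_zero, Matrix.cons_val_one, Matrix.cons_val]
  ring

theorem N5 : Ni l 5 n = Ni l 0 n := by
  rw [← N4 h2 h3 h3l hn]
  refine (Ni_rot h2 h3 h3l hn (fun v => ?_)).symm
  simp only [LL, sg, Matrix.cons_val_zero, Matrix.cons_val_one, Matrix.cons_val]
  ring

omit h3l in
theorem N7 : Ni l 7 n = Ni l 6 n := by
  unfold Ni
  have h : ∀ v : V3, Ot 6 (ta v) ↔ Ot 7 v := by
    intro v
    unfold Ot
    simp only [LL, ta, Matrix.cons_val_zero, Matrix.cons_val_one, Matrix.cons_val]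
    rw [show 3 * (v 1 + v 2) + -v 2 = 3 * v 1 + 2 * v 2 by ring]
  refine Finset.sum_nbij' ta ta ?_ ?_ (fun v _ => ta_ta v) (fun v _ => ta_ta v) ?_
  · intro v hv
    rw [mem_Vi] at hv ⊢
    exact ⟨by rw [ip_ta2]; exact hv.1, (h v).2 hv.2⟩
  · intro v hv
    rw [mem_Vi] at hv ⊢
    refine ⟨by rw [ip_ta2]; exact hv.1, (h (ta v)).1 ?_⟩
    rw [ta_ta]
    exact hv.2
  · intro v hv
    rw [mem_Vi] at hv
    exact (E_ta h2 h3 (hn v hv.1)).symm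

theorem sum_N : ∑ i : Fin 8, Ni l i n = 2 * Ni l 6 n + 6 * Ni l 0 n := by
  rw [Fin.sum_univ_eight, N1 h2 h3 h3l hn, N2 h2 h3 h3l hn, N3 h2 h3 h3l hn, N4 h2 h3 h3l hn,
    N5 h2 h3 h3l hn, N7 h2 h3 hn]
  ring

theorem sum_NR {k : ℤ} (h : ∀ v : V3, ip v v = n →
    ∑ i : Fin 8, (if Ot i v then (1 : ℤ) else 0) = k) :
    2 * Ni l 6 n + 6 * Ni l 0 n = k * Rr l n := by
  rw [← sum_N h2 h3 h3l hn]
  have e : ∀ i : Fin 8, Ni l i n = ∑ v ∈ vec n, (if Ot i v then (1 : ℤ) else 0) * E l v := by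
    intro i
    unfold Ni Vi
    rw [sum_filter]
    refine sum_congr rfl fun v _ => ?_
    split_ifs
    · rw [one_mul]
    · rw [zero_mul]
  simp only [e]
  rw [sum_comm]
  unfold Rr
  rw [mul_sum]
  refine sum_congr rfl fun v hv => ?_
  rw [← sum_mul, h v (mem_vec.1 hv)]

end

/-- the signed Gross sum -/
noncomputable def Zr (l : ℕ) (n : ℕ) : ℤ := if 7 ∣ n then Rr l n - 8 * Ni l 6 n
  else Rr l n - 4 * Ni l 6 n

section

variable {l : ℕ} [hl : Fact l.Prime] (h2 : l ≠ 2) (h3 : l ≠ 3) (h3l : jacobiSym 3 l = -1)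

include h2 h3 h3l

theorem rel_S {n : ℕ} (hn : ∀ v : V3, ip v v = n → Iso ip l v) (h7 : Sp7 n) :
    4 * Ni l 6 n = Rr l n - Zr l n ∧ 12 * Ni l 0 n = 3 * Rr l n + Zr l n := by
  have h := sum_NR h2 h3 h3l hn (k := 2) (fun v hv => by
    have := sum_fin2 (v 1) (v 0) (v 2) (ipR_self_Sp7 h7 hv)
    simp only [dvd7_iff, Ot, LL_cast]
    exact this)
  have h7' : ¬ 7 ∣ n := by unfold Sp7 at h7; omega
  unfold Zr
  rw [if_neg h7']
  constructor <;> linarith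

theorem rel_7 {n : ℕ} (hn : ∀ v : V3, ip v v = n → Iso ip l v) (h7 : 7 ∣ n) (h49 : ¬ 49 ∣ n) :
    8 * Ni l 6 n = Rr l n - Zr l n ∧ 24 * Ni l 0 n = 3 * Rr l n + Zr l n := by
  have h := sum_NR h2 h3 h3l hn (k := 1) (fun v hv => by
    have := sum_fin0 (v 1) (v 0) (v 2) (ne_zero_of h49 hv) (ipR_self_zero h7 hv)
    simp only [dvd7_iff, Ot, LL_cast]
    exact this)
  unfold Zr
  rw [if_pos h7]
  constructor <;> linarith

theorem sum_NN {n1 n2 : ℤ} (hn1 : ∀ v : V3, ip v v = n1 → Iso ip l v)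
    (hn2 : ∀ v : V3, ip v v = n2 → Iso ip l v) :
    ∑ i : Fin 8, Ni l i n1 * Ni l i n2 = 2 * (Ni l 6 n1 * Ni l 6 n2) +
      6 * (Ni l 0 n1 * Ni l 0 n2) := by
  rw [Fin.sum_univ_eight, N1 h2 h3 h3l hn1, N2 h2 h3 h3l hn1, N3 h2 h3 h3l hn1,
    N4 h2 h3 h3l hn1, N5 h2 h3 h3l hn1, N7 h2 h3 hn1, N1 h2 h3 h3l hn2, N2 h2 h3 h3l hn2,
    N3 h2 h3 h3l hn2, N4 h2 h3 h3l hn2, N5 h2 h3 h3l hn2, N7 h2 h3 hn2]
  ring

theorem sum_SS {n1 n2 : ℕ} (hn1 : ∀ v : V3, ip v v = n1 → Iso ip l v)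
    (hn2 : ∀ v : V3, ip v v = n2 → Iso ip l v) (h1 : Sp7 n1) (h4 : Sp7 n2) :
    6 * ∑ i : Fin 8, Ni l i n1 * Ni l i n2 = 3 * (Rr l n1 * Rr l n2) + Zr l n1 * Zr l n2 := by
  obtain ⟨a1, a2⟩ := rel_S h2 h3 h3l hn1 h1
  obtain ⟨b1, b2⟩ := rel_S h2 h3 h3l hn2 h4
  rw [sum_NN h2 h3 h3l hn1 hn2]
  have e1 : Rr l n1 = Ni l 6 n1 + 3 * Ni l 0 n1 := by linarith
  have e2 : Rr l n2 = Ni l 6 n2 + 3 * Ni l 0 n2 := by linarith
  have e3 : Zr l n1 = Rr l n1 - 4 * Ni l 6 n1 := by linarith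
  have e4 : Zr l n2 = Rr l n2 - 4 * Ni l 6 n2 := by linarith
  rw [e3, e4, e1, e2]
  ring

theorem sum_7S {n1 n2 : ℕ} (hn1 : ∀ v : V3, ip v v = n1 → Iso ip l v)
    (hn2 : ∀ v : V3, ip v v = n2 → Iso ip l v) (h1 : 7 ∣ n1) (h1' : ¬ 49 ∣ n1) (h4 : Sp7 n2) :
    12 * ∑ i : Fin 8, Ni l i n1 * Ni l i n2 = 3 * (Rr l n1 * Rr l n2) + Zr l n1 * Zr l n2 := by
  obtain ⟨a1, a2⟩ := rel_7 h2 h3 h3l hn1 h1 h1'
  obtain ⟨b1, b2⟩ := rel_S h2 h3 h3l hn2 h4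
  rw [sum_NN h2 h3 h3l hn1 hn2]
  have e1 : Rr l n1 = 2 * Ni l 6 n1 + 6 * Ni l 0 n1 := by linarith
  have e2 : Rr l n2 = Ni l 6 n2 + 3 * Ni l 0 n2 := by linarith
  have e3 : Zr l n1 = Rr l n1 - 8 * Ni l 6 n1 := by linarith
  have e4 : Zr l n2 = Rr l n2 - 4 * Ni l 6 n2 := by linarith
  rw [e3, e4, e1, e2]
  ring

theorem sum_77 {n1 n2 : ℕ} (hn1 : ∀ v : V3, ip v v = n1 → Iso ip l v)
    (hn2 : ∀ v : V3, ip v v = n2 → Iso ip l v) (h1 : 7 ∣ n1) (h1' : ¬ 49 ∣ n1) (h4 : 7 ∣ n2)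
    (h4' : ¬ 49 ∣ n2) :
    24 * ∑ i : Fin 8, Ni l i n1 * Ni l i n2 = 3 * (Rr l n1 * Rr l n2) + Zr l n1 * Zr l n2 := by
  obtain ⟨a1, a2⟩ := rel_7 h2 h3 h3l hn1 h1 h1'
  obtain ⟨b1, b2⟩ := rel_7 h2 h3 h3l hn2 h4 h4'
  rw [sum_NN h2 h3 h3l hn1 hn2]
  have e1 : Rr l n1 = 2 * Ni l 6 n1 + 6 * Ni l 0 n1 := by linarith
  have e2 : Rr l n2 = 2 * Ni l 6 n2 + 6 * Ni l 0 n2 := by linarith
  have e3 : Zr l n1 = Rr l n1 - 8 * Ni l 6 n1 := by linarith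
  have e4 : Zr l n2 = Rr l n2 - 8 * Ni l 6 n2 := by linarith
  rw [e3, e4, e1, e2]
  ring

end

/-- the number of common lines -/
def cl (v w : V3) : ℤ :=
  ∑ i : Fin 8, (if Ot i v then 1 else 0) * (if Ot i w then 1 else 0)

theorem cl_comm (v w : V3) : cl v w = cl w v := by
  unfold cl
  exact sum_congr rfl fun i _ => mul_comm _ _

theorem N_pairs {l : ℕ} (n1 n2 : ℤ) : ∑ i : Fin 8, Ni l i n1 * Ni l i n2 =
    ∑ q ∈ vec n1 ×ˢ vec n2, E l q.1 * E l q.2 * cl q.1 q.2 := by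
  have e : ∀ (n : ℤ) (i : Fin 8), Ni l i n =
      ∑ v ∈ vec n, (if Ot i v then (1 : ℤ) else 0) * E l v := by
    intro n i
    unfold Ni Vi
    rw [sum_filter]
    refine sum_congr rfl fun v _ => ?_
    split_ifs
    · rw [one_mul]
    · rw [zero_mul]
  simp only [e, sum_mul_sum]
  rw [sum_product, sum_comm]
  refine sum_congr rfl fun v _ => ?_
  rw [sum_comm]
  refine sum_congr rfl fun w _ => ?_
  unfold cl
  rw [mul_sum]
  refine sum_congr rfl fun i _ => ?_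
  ring

theorem R_pairs {l : ℕ} (n1 n2 : ℤ) : Rr l n1 * Rr l n2 =
    ∑ q ∈ vec n1 ×ˢ vec n2, E l q.1 * E l q.2 * 1 := by
  unfold Rr
  rw [sum_mul_sum, sum_product]
  simp only [mul_one]

end Pool.Agent.N970.RQ3
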