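import Pool.Agent.N970.RQ.B21a
import Pool.Agent.N970.RQ.Eis7
import Pool.Agent.N970.Sgn.Prop
import Pool.Agent.N973.P21.CP7
import Pool.Agent.N975.RQ.Ps

/-!
# BILJ21: signed pair sums with a weight, orthogonality for the multiples of `l`
-/

set_option autoImplicit false
set_option linter.unusedSectionVars false

namespace Pool.Agent.N970.RQ3

open Finset
open Pool.Agent.N969.P15 (V3)
open Pool.Agent.N969.RQ (Un sgd sj o3 Fd nn)
open Pool.Agent.N877.P21 (ip vec cp cp7 Sp7 loc loc7)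
open Pool.Agent.N218.P21 (mem_vec)
open Pool.Agent.N844.P17G (Iso sig)
open Pool.Agent.N970.Sgn
open Pool.Agent.N970.RQ (nn_facts' sj_neg ST_odd)

/-- the pairs with `v = c w` modulo `l` -/
noncomputable def PP (l : ℕ) (n1 n2 : ℕ) (t c : ℤ) : Finset (V3 × V3) :=
  (vec n1 ×ˢ vec n2).filter fun q => ip q.1 q.2 = t ∧ ∀ i, (l : ℤ) ∣ q.1 i - c * q.2 i

theorem PP_mod {l n1 n2 : ℕ} {t c c' : ℤ} (h : (l : ℤ) ∣ c - c') :
    PP l n1 n2 t c = PP l n1 n2 t c' := by
  unfold PP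
  refine filter_congr fun q _ => and_congr_right fun _ => forall_congr' fun i => ?_
  have e : q.1 i - c' * q.2 i = (q.1 i - c * q.2 i) + (c - c') * q.2 i := by ring
  rw [e]
  exact (dvd_add_left (h.mul_right _)).symm

/-- the substitution `v = c w + l x` -/
theorem PP_sum {l d e : ℕ} (hl : 0 < l) {t c : ℤ} {n : ℕ}
    (hr : (e : ℤ) * c ^ 2 - 2 * t * c + d = l * n) (g : V3 → V3 → ℤ)
    (hg : ∀ w x : V3, g (fun j => c * w j + l * x j) w = g w x) :
    ∑ q ∈ PP l (d * l) (e * l) (l * t) c, g q.1 q.2 =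
      ∑ q ∈ (vec ((e * l : ℕ) : ℤ) ×ˢ vec (n : ℤ)).filter
        (fun q => ip q.1 q.2 = t - c * e), g q.1 q.2 := by
  have hl0 : (l : ℤ) ≠ 0 := by exact_mod_cast hl.ne'
  symm
  refine sum_bij (fun q _ => ((fun j => c * q.1 j + l * q.2 j), q.1)) ?_ ?_ ?_ ?_
  · rintro ⟨w, x⟩ hq
    rw [mem_filter, mem_product, mem_vec, mem_vec] at hq
    obtain ⟨⟨hw, hx⟩, hwx⟩ := hq
    simp only at hw hx hwx
    unfold PP
    rw [mem_filter, mem_product, mem_vec, mem_vec]
    refine ⟨⟨?_, hw⟩, ?_, fun i => ?_⟩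
    · show ip (fun j => c * w j + l * x j) (fun j => c * w j + l * x j) = (d * l : ℕ)
      have e1 : ip (fun j => c * w j + l * x j) (fun j => c * w j + l * x j) =
          c ^ 2 * ip w w + 2 * (c * l) * ip w x + l ^ 2 * ip x x := by
        unfold ip; ring
      rw [e1, hw, hx, hwx]
      push_cast
      linear_combination (-(l : ℤ)) * hr
    · show ip (fun j => c * w j + l * x j) w = l * t
      have e1 : ip (fun j => c * w j + l * x j) w = c * ip w w + l * ip w x := by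
        unfold ip; ring
      rw [e1, hw, hwx]
      push_cast
      ring
    · show (l : ℤ) ∣ c * w i + l * x i - c * w i
      exact ⟨x i, by ring⟩
  · rintro ⟨w, x⟩ _ ⟨w', x'⟩ _ h
    simp only [Prod.mk.injEq] at h
    obtain ⟨h1, rfl⟩ := h
    have : x = x' := by
      funext i
      have h3 : c * w i + l * x i = c * w i + l * x' i := congrFun h1 i
      exact mul_left_cancel₀ hl0 (by linarith)
    rw [this]
  · rintro ⟨v, w⟩ hq
    unfold PP at hq
    rw [mem_filter, mem_product, mem_vec, mem_vec] at hq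
    obtain ⟨⟨hv, hw⟩, hvw, hc⟩ := hq
    simp only at hv hw hvw hc
    have h4 : ∀ i, ∃ x : ℤ, v i = c * w i + l * x := by
      intro i
      obtain ⟨x, hx⟩ := hc i
      exact ⟨x, by linarith⟩
    choose x hx using h4
    have hvx : v = fun j => c * w j + l * x j := funext hx
    refine ⟨(w, x), ?_, ?_⟩
    · rw [mem_filter, mem_product, mem_vec, mem_vec]
      have e1 : ip v w = c * ip w w + l * ip w x := by
        rw [hvx]; unfold ip; ring
      have e2 : ip v v = c ^ 2 * ip w w + 2 * (c * l) * ip w x + l ^ 2 * ip x x := by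
        rw [hvx]; unfold ip; ring
      have h5 : ip w x = t - c * e := by
        apply mul_left_cancel₀ hl0
        rw [hvw, hw] at e1
        push_cast at e1
        linear_combination -e1
      refine ⟨⟨hw, ?_⟩, h5⟩
      show ip x x = n
      apply mul_left_cancel₀ (pow_ne_zero 2 hl0)
      rw [hv, hw, h5] at e2
      push_cast at e2
      linear_combination (l : ℤ) * hr - e2
    · rw [hvx]
  · rintro ⟨w, x⟩ _
    exact (hg w x).symm

section

variable {l : ℕ} [hl : Fact l.Prime] (h2 : l ≠ 2) (h3 : l ≠ 3)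

include h2 h3

/-- orthogonality: if the number of pairs is the same for both roots -/
theorem orth3 {g : V3 → V3 → ℤ} {d e : ℕ} {t : ℤ} (hld : ¬ l ∣ d) (hle : ¬ l ∣ e)
    (hDl : jacobiSym ((d * e : ℕ) : ℤ) l = -1) {C : ℤ}
    (hC : ∀ c : ℤ, (l : ℤ) ∣ e * c ^ 2 - 2 * t * c + d →
      ∑ q ∈ PP l (d * l) (e * l) (l * t) c, g q.1 q.2 = C) :
    ∑ q ∈ (vec ((d * l : ℕ) : ℤ) ×ˢ vec ((e * l : ℕ) : ℤ)).filter
      (fun q => ip q.1 q.2 = l * t), psi ip l q.1 * psi ip l q.2 * g q.1 q.2 = 0 := by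
  have hK := nK (l := l) h2 h3
  have hlp : Prime (l : ℤ) := Nat.prime_iff_prime_int.1 hl.out
  by_cases hne : ((vec ((d * l : ℕ) : ℤ) ×ˢ vec ((e * l : ℕ) : ℤ)).filter
      (fun q => ip q.1 q.2 = l * t)).Nonempty
  swap
  · rw [not_nonempty_iff_eq_empty.1 hne, sum_empty]
  obtain ⟨⟨v0, w0⟩, hq⟩ := hne
  rw [mem_filter, mem_product, mem_vec, mem_vec] at hq
  obtain ⟨⟨hv0, hw0⟩, hvw0⟩ := hq
  simp only at hv0 hw0 hvw0
  have iv : ∀ {v : V3}, ip v v = (d * l : ℕ) → Iso ip l v := fun h => iso_mul frm3 hld h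
  have iw : ∀ {w : V3}, ip w w = (e * l : ℕ) → Iso ip l w := fun h => iso_mul frm3 hle h
  obtain ⟨c1, hc1, hp1⟩ := prop_ex frm3 h2 hK (iv hv0) (iw hw0) (by rw [hvw0]; exact dvd_mul_right _ _)
  have r1 := root_of frm3 hv0 hw0 hvw0 hp1
  have hleZ : ¬ (l : ℤ) ∣ e := fun h => hle (by exact_mod_cast h)
  obtain ⟨a, b, hab⟩ : IsCoprime (e : ℤ) (l : ℤ) :=
    ((Prime.coprime_iff_not_dvd hlp).2 hleZ).symm
  obtain ⟨c2, hc2⟩ : ∃ c2 : ℤ, c2 = 2 * t * a - c1 := ⟨_, rfl⟩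
  have hs : (l : ℤ) ∣ e * (c1 + c2) - 2 * t := by
    rw [hc2]
    exact ⟨-(2 * t * b), by linear_combination (2 * t) * hab⟩
  have r2 : (l : ℤ) ∣ e * c2 ^ 2 - 2 * t * c2 + d := by
    have e1 : e * c2 ^ 2 - 2 * t * c2 + d = (e * c1 ^ 2 - 2 * t * c1 + d) +
        (c2 - c1) * (e * (c1 + c2) - 2 * t) := by ring
    rw [e1]
    exact dvd_add r1 (hs.mul_left _)
  have hpr : (l : ℤ) ∣ (e : ℤ) ^ 2 * (c1 * c2) - (d * e : ℕ) := by
    have e1 : (e : ℤ) ^ 2 * (c1 * c2) - (d * e : ℕ) =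
        (e : ℤ) * (c1 * (e * (c1 + c2) - 2 * t)) - e * (e * c1 ^ 2 - 2 * t * c1 + d) := by
      push_cast; ring
    rw [e1]
    exact dvd_sub ((hs.mul_left _).mul_left _) (r1.mul_left _)
  have hJ : jacobiSym c1 l * jacobiSym c2 l = -1 := by
    have e1 := jac_of_mod hpr
    rw [hDl, jacobiSym.mul_left, jacobiSym.mul_left, jacobiSym.sq_one', one_mul] at e1
    · exact e1
    · rw [Int.gcd_natCast_natCast]
      exact ((Nat.Prime.coprime_iff_not_dvd hl.out).2 hle).symm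
  have hne12 : ¬ (l : ℤ) ∣ c1 - c2 := by
    intro h
    have e1 : jacobiSym c1 l = jacobiSym c2 l := jac_of_mod h
    rw [e1] at hJ
    nlinarith [mul_self_nonneg (jacobiSym c2 l)]
  have hsplit : (vec ((d * l : ℕ) : ℤ) ×ˢ vec ((e * l : ℕ) : ℤ)).filter
      (fun q => ip q.1 q.2 = l * t) =
      PP l (d * l) (e * l) (l * t) c1 ∪ PP l (d * l) (e * l) (l * t) c2 := by
    ext ⟨v, w⟩
    unfold PP
    rw [mem_union, mem_filter, mem_filter, mem_filter, mem_product, mem_vec, mem_vec]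
    constructor
    · rintro ⟨⟨hv, hw⟩, hvw⟩
      obtain ⟨c, -, hp⟩ := prop_ex frm3 h2 hK (iv hv) (iw hw) (by
        simp only at hvw
        rw [hvw]; exact dvd_mul_right _ _)
      have r := root_of frm3 hv hw hvw hp
      have e1 : (l : ℤ) ∣ (c - c1) * (c - c2) := by
        have e2 : (l : ℤ) ∣ e * ((c - c1) * (c - c2)) := by
          have e3 : e * ((c - c1) * (c - c2)) = (e * c ^ 2 - 2 * t * c + d) -
              (c - c1) * (e * (c1 + c2) - 2 * t) - (e * c1 ^ 2 - 2 * t * c1 + d) := by ring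
          rw [e3]
          exact dvd_sub (dvd_sub r (hs.mul_left _)) r1
        rcases hlp.dvd_or_dvd e2 with h | h
        · exact absurd h hleZ
        · exact h
      rcases hlp.dvd_or_dvd e1 with h | h
      · left
        refine ⟨⟨hv, hw⟩, hvw, fun i => ?_⟩
        have e4 : v i - c1 * w i = (v i - c * w i) + (c - c1) * w i := by ring
        show (l : ℤ) ∣ v i - c1 * w i
        rw [e4]
        exact dvd_add (hp i) (h.mul_right _)
      · right
        refine ⟨⟨hv, hw⟩, hvw, fun i => ?_⟩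
        have e4 : v i - c2 * w i = (v i - c * w i) + (c - c2) * w i := by ring
        show (l : ℤ) ∣ v i - c2 * w i
        rw [e4]
        exact dvd_add (hp i) (h.mul_right _)
    · rintro (h | h)
      · exact ⟨h.1, h.2.1⟩
      · exact ⟨h.1, h.2.1⟩
  have hdisj : Disjoint (PP l (d * l) (e * l) (l * t) c1) (PP l (d * l) (e * l) (l * t) c2) := by
    rw [disjoint_left]
    rintro ⟨v, w⟩ ha hb
    unfold PP at ha hb
    rw [mem_filter, mem_product, mem_vec, mem_vec] at ha hb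
    obtain ⟨j, hj⟩ := (iw ha.1.2).2
    have h5 : (l : ℤ) ∣ (c1 - c2) * w j := by
      have e4 : (c1 - c2) * w j = (v j - c2 * w j) - (v j - c1 * w j) := by ring
      rw [e4]
      exact dvd_sub (hb.2.2 j) (ha.2.2 j)
    rcases hlp.dvd_or_dvd h5 with h | h
    · exact hne12 h
    · exact hj h
  have hpart : ∀ c : ℤ, (l : ℤ) ∣ e * c ^ 2 - 2 * t * c + d →
      ∑ q ∈ PP l (d * l) (e * l) (l * t) c, psi ip l q.1 * psi ip l q.2 * g q.1 q.2 =
        jacobiSym c l * C := by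
    intro c hr
    have e5 : ∀ q ∈ PP l (d * l) (e * l) (l * t) c,
        psi ip l q.1 * psi ip l q.2 * g q.1 q.2 = jacobiSym c l * g q.1 q.2 := by
      rintro ⟨v, w⟩ hq
      unfold PP at hq
      rw [mem_filter, mem_product, mem_vec, mem_vec] at hq
      obtain ⟨⟨hv, hw⟩, hvw, hc⟩ := hq
      simp only at hv hw hvw hc ⊢
      rw [psi_mul frm3 h2 hK (iv hv) (iw hw), sig_prp frm3 h2 hK (iv hv) (iw hw) (by
        rw [hvw]; exact dvd_mul_right _ _) hc]
    rw [sum_congr rfl e5, ← mul_sum, hC c hr]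
  rw [hsplit, sum_union hdisj, hpart c1 r1, hpart c2 r2]
  have hsum : jacobiSym c1 l + jacobiSym c2 l = 0 := by
    rcases jacobiSym.trichotomy c1 l with h | h | h
    · rw [h, zero_mul] at hJ; norm_num at hJ
    · rw [h] at hJ ⊢; linarith
    · rw [h] at hJ ⊢; linarith
  rw [← add_mul, hsum, zero_mul]

end

/-! ### the sums over the inner products -/

/-- the signed weighted sum over the pairs with given inner product -/
noncomputable def Sg (l : ℕ) (g : V3 → V3 → ℤ) (n1 n2 : ℕ) (t : ℤ) : ℤ :=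
  ∑ q ∈ (vec (n1 : ℤ) ×ˢ vec (n2 : ℤ)).filter (fun q => ip q.1 q.2 = t),
    psi ip l q.1 * psi ip l q.2 * g q.1 q.2

theorem ips (v w : V3) : ip v w = ip w v := by unfold ip; ring

theorem Sg_swap {l n1 n2 : ℕ} {g : V3 → V3 → ℤ} (hg : ∀ v w, g v w = g w v) {t : ℤ} :
    Sg l g n1 n2 t = Sg l g n2 n1 t := by
  unfold Sg
  refine sum_nbij' Prod.swap Prod.swap ?_ ?_ (fun _ _ => rfl) (fun _ _ => rfl) ?_
  · rintro ⟨v, w⟩ h
    rw [mem_filter, mem_product] at h ⊢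
    exact ⟨⟨h.1.2, h.1.1⟩, by rw [← h.2]; exact ips _ _⟩
  · rintro ⟨v, w⟩ h
    rw [mem_filter, mem_product] at h ⊢
    exact ⟨⟨h.1.2, h.1.1⟩, by rw [← h.2]; exact ips _ _⟩
  · rintro ⟨v, w⟩ _
    show psi ip l v * psi ip l w * g v w = psi ip l w * psi ip l v * g w v
    rw [hg v w]
    ring

/-- the weighted pair sum as a sum over the inner products -/
theorem E_sum {l n1 n2 : ℕ} {g : V3 → V3 → ℤ} {s : Finset ℤ}
    (hs : ∀ v w : V3, ip v v = n1 → ip w w = n2 → g v w ≠ 0 → ip v w ∈ s) :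
    ∑ q ∈ vec (n1 : ℤ) ×ˢ vec (n2 : ℤ), E l q.1 * E l q.2 * g q.1 q.2 =
      ∑ t ∈ s, jacobiSym t 3 * Sg l g n1 n2 t := by
  have e2 : ∑ q ∈ vec (n1 : ℤ) ×ˢ vec (n2 : ℤ), E l q.1 * E l q.2 * g q.1 q.2 =
      ∑ q ∈ (vec (n1 : ℤ) ×ˢ vec (n2 : ℤ)).filter (fun q => ip q.1 q.2 ∈ s),
        E l q.1 * E l q.2 * g q.1 q.2 := by
    symm
    apply sum_subset (filter_subset _ _)
    intro q hq hq'
    rw [mem_product, mem_vec, mem_vec] at hq
    rw [mem_filter, mem_product, mem_vec, mem_vec] at hq'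
    have : g q.1 q.2 = 0 := by
      by_contra h
      exact hq' ⟨hq, hs _ _ hq.1 hq.2 h⟩
    rw [this, mul_zero]
  rw [e2]
  rw [← sum_fiberwise_of_maps_to (t := s) (g := fun q : V3 × V3 => ip q.1 q.2)
    (fun q hq => (mem_filter.1 hq).2)]
  refine sum_congr rfl fun t ht => ?_
  unfold Sg
  rw [mul_sum, filter_filter]
  have e3 : (vec (n1 : ℤ) ×ˢ vec (n2 : ℤ)).filter (fun q => ip q.1 q.2 ∈ s ∧ ip q.1 q.2 = t) =
      (vec (n1 : ℤ) ×ˢ vec (n2 : ℤ)).filter (fun q => ip q.1 q.2 = t) := by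
    refine filter_congr fun q _ => ⟨fun h => h.2, fun h => ⟨by rw [h]; exact ht, h⟩⟩
  rw [e3]
  refine sum_congr rfl fun q hq => ?_
  rw [← (mem_filter.1 hq).2, ← o_mul]
  unfold E
  ring

/-- the hypotheses -/
structure H3 (D d l : ℕ) : Prop where
  pl : l.Prime
  l2 : l ≠ 2
  l3 : l ≠ 3
  l4 : l % 4 = 3
  l31 : l % 3 = 1
  D0 : Fd D
  lD : ¬ l ∣ D
  un : Un D d
  sg : sgd D d = 1

theorem H3.j3 {D d l : ℕ} (h : H3 D d l) : jacobiSym l 3 = 1 := by
  have h1 := h.l31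
  rw [jacobiSym.mod_left]
  have : (l : ℤ) % ((3 : ℕ) : ℤ) = 1 := by push_cast; omega
  rw [this, jacobiSym.one_left]

theorem H3.j3l {D d l : ℕ} (h : H3 D d l) : jacobiSym 3 l = -1 := by
  have h1 : jacobiSym (3 : ℕ) l = - jacobiSym l 3 :=
    jacobiSym.quadratic_reciprocity_three_mod_four (by norm_num) h.l4
  rw [h.j3] at h1
  push_cast at h1
  exact h1

/-- the sum over `t` is the signed pair sum -/
theorem main_gen {D d l : ℕ} (h : H3 D d l) {N : ℕ} {g : V3 → V3 → ℤ} {C : ℤ → ℤ}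
    (hs : ∀ v w : V3, ip v v = (d * l : ℕ) → ip w w = (D / d * l : ℕ) → g v w ≠ 0 →
      ((4 * N : ℕ) : ℤ) ∣ (D * l ^ 2 : ℕ) - ip v w ^ 2)
    (hC : ∀ t : ℤ, t ^ 2 < (D * l ^ 2 : ℕ) → ((4 * N : ℕ) : ℤ) ∣ (D * l ^ 2 : ℕ) - t ^ 2 →
      ∑ q ∈ (vec ((d * l : ℕ) : ℤ) ×ˢ vec ((D / d * l : ℕ) : ℤ)).filter
        (fun q => ip q.1 q.2 = t), g q.1 q.2 = C t)
    (hCn : ∀ t, C (-t) = C t)
    (hbad : ∀ t : ℤ, t ^ 2 < (D * l ^ 2 : ℕ) → ((4 * N : ℕ) : ℤ) ∣ (D * l ^ 2 : ℕ) - t ^ 2 →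
      (l : ℤ) ∣ t → jacobiSym D l = -1 → Sg l g (d * l) (D / d * l) t = 0) :
    Pool.Agent.N969.RQ.ST N D l (fun t _ => o3 (t * l) * sj D d l t * C t) =
      ∑ q ∈ vec ((d * l : ℕ) : ℤ) ×ˢ vec ((D / d * l : ℕ) : ℤ), E l q.1 * E l q.2 * g q.1 q.2 := by
  have : Fact l.Prime := ⟨h.pl⟩
  have hprod : d * (D / d) = D := Nat.mul_div_cancel' h.un.1
  have hDn : (d * l) * (D / d * l) = D * l ^ 2 := by
    calc (d * l) * (D / d * l) = (d * (D / d)) * l ^ 2 := by ring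
      _ = _ := by rw [hprod]
  have hDz : ((d * l : ℕ) : ℤ) * (D / d * l : ℕ) = (D * l ^ 2 : ℕ) := by
    rw [← hDn]; push_cast; ring
  have hl0 : (0 : ℤ) < l := by exact_mod_cast h.pl.pos
  have hD1 : (1 : ℤ) < D := by exact_mod_cast h.D0.1
  set s : Finset ℤ := (Ioo (-((D * l : ℕ) : ℤ)) (D * l : ℕ)).filter (fun t : ℤ =>
    t ^ 2 < (D * l ^ 2 : ℕ) ∧ ((4 * N : ℕ) : ℤ) ∣ (D * l ^ 2 : ℕ) - t ^ 2) with hsdef
  rw [E_sum (s := s) (by
    intro v w hv hw hc
    have g1 : ip v w ^ 2 < (D * l ^ 2 : ℕ) := by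
      have g2 := Pool.Agent.N218.P21.cs v w
      rw [hv, hw, hDz] at g2
      rcases lt_or_eq_of_le g2 with g3 | g3
      · exact g3
      · exfalso
        apply Pool.Agent.N975.RQ.fd_nsq h.D0
        push_cast at g3
        have hd : (l : ℤ) ∣ ip v w := by
          have : (l : ℤ) ^ 2 ∣ ip v w ^ 2 := ⟨D, by rw [g3]; ring⟩
          exact (Int.pow_dvd_pow_iff two_ne_zero).1 this
        obtain ⟨k, hk⟩ := hd
        refine ⟨k, ?_⟩
        rw [hk] at g3
        apply mul_left_cancel₀ (pow_ne_zero 2 hl0.ne')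
        linear_combination -g3
    rw [hsdef, mem_filter, mem_Ioo]
    have g4 : |ip v w| < (D * l : ℕ) := by
      apply abs_lt_of_sq_lt_sq _ (by positivity)
      refine lt_of_lt_of_le g1 ?_
      push_cast
      nlinarith [pow_pos hl0 2]
    exact ⟨abs_lt.1 g4, g1, hs v w hv hw hc⟩)]
  have ho : ∀ t : ℤ, o3 (t * l) = jacobiSym t 3 := by
    intro t
    unfold o3
    rw [jacobiSym.mul_left, h.j3, mul_one]
  have key : Pool.Agent.N969.RQ.ST N D l (fun t _ => (fun t => jacobiSym t 3 * (if (l : ℤ) ∣ t ∧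
      jacobiSym D l = -1 then sj D d l t * C t else 0)) t) = 0 := by
    apply ST_odd
    intro t
    rw [jneg]
    by_cases hb : (l : ℤ) ∣ t ∧ jacobiSym D l = -1
    · rw [if_pos hb, if_pos ⟨dvd_neg.2 hb.1, hb.2⟩, sj_neg h.un h.pl h.l4 hb.1 hb.2, hCn]
      ring
    · rw [if_neg hb, if_neg (fun h' => hb ⟨dvd_neg.1 h'.1, h'.2⟩)]
      ring
  have hjpm : jacobiSym D l = 1 ∨ jacobiSym D l = -1 := by
    rcases jacobiSym.trichotomy D l with h1 | h1 | h1
    · exfalso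
      have : NeZero l := ⟨h.pl.ne_zero⟩
      rw [jacobiSym.eq_zero_iff_not_coprime, Int.gcd_natCast_natCast] at h1
      exact h1 ((Nat.Prime.coprime_iff_not_dvd h.pl).2 h.lD).symm
    · exact Or.inl h1
    · exact Or.inr h1
  unfold Pool.Agent.N969.RQ.ST at key ⊢
  rw [← hsdef] at key ⊢
  have e5 : ∀ t ∈ s, o3 (t * l) * sj D d l t * C t =
      jacobiSym t 3 * Sg l g (d * l) (D / d * l) t +
      jacobiSym t 3 * (if (l : ℤ) ∣ t ∧ jacobiSym D l = -1 then sj D d l t * C t else 0) := by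
    intro t ht
    rw [hsdef, mem_filter] at ht
    rw [ho]
    by_cases hb : (l : ℤ) ∣ t ∧ jacobiSym D l = -1
    · rw [if_pos hb, hbad t ht.2.1 ht.2.2 hb.1 hb.2]
      ring
    · have hgood : ¬ (l : ℤ) ∣ t ∨ jacobiSym D l = 1 := by
        by_cases hlt : (l : ℤ) ∣ t
        · right
          rcases hjpm with h1 | h1
          · exact h1
          · exact absurd ⟨hlt, h1⟩ hb
        · exact Or.inl hlt
      have e6 : Sg l g (d * l) (D / d * l) t = sj D d l t * C t := by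
        rw [← hC t ht.2.1 ht.2.2, mul_sum]
        unfold Sg
        refine sum_congr rfl fun q hq => ?_
        rw [mem_filter, mem_product, mem_vec, mem_vec] at hq
        rw [psi_sj frm3 h.l2 (nK h.l2 h.l3) h.un h.lD hq.1.1 hq.1.2 hq.2 hgood]
      rw [if_neg hb, e6]
      ring
  rw [sum_congr rfl e5, sum_add_distrib, key, add_zero]

end Pool.Agent.N970.RQ3
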