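import Pool.Agent.N970.RQ.B21b
import Pool.Agent.N878.PC21.XC

/-!
# BILJ21: the identities for the pairs of norms `d l`, `(D / d) l`
-/

set_option autoImplicit false
set_option linter.unusedSectionVars false

namespace Pool.Agent.N970.RQ3

open Finset
open Pool.Agent.N969.P15 (V3)
open Pool.Agent.N969.RQ (Un sgd sj o3 Fd nn R21 R21r)
open Pool.Agent.N877.P21 (ip vec cp cp7 Sp7 loc loc7)
open Pool.Agent.N218.P21 (mem_vec LL Ot ind_ip)
open Pool.Agent.N973.P21 (ip_neg_right ip_neg_neg ind_pair ld sq7 Ot_neg)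
open Pool.Agent.N844.P17G (Iso sig)
open Pool.Agent.N970.Sgn
open Pool.Agent.N970.RQ (nn_facts' sj_neg ST_odd)

theorem memn {n : ℤ} {v : V3} (h : v ∈ vec n) : -v ∈ vec n := by
  rw [mem_vec] at h ⊢
  rw [ip_neg_neg, h]

theorem cp_neg (a b c : ℤ) : cp a (-b) c = cp a b c := by
  unfold cp
  refine card_nbij' (fun q => (q.1, -q.2)) (fun q => (q.1, -q.2)) ?_ ?_ ?_ ?_
  · rintro ⟨v, w⟩ hq
    rw [mem_coe, mem_filter, mem_product] at hq ⊢
    exact ⟨⟨hq.1.1, memn hq.1.2⟩, by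
      show ip v (-w) = b
      rw [ip_neg_right, hq.2, neg_neg]⟩
  · rintro ⟨v, w⟩ hq
    rw [mem_coe, mem_filter, mem_product] at hq ⊢
    exact ⟨⟨hq.1.1, memn hq.1.2⟩, by
      show ip v (-w) = -b
      rw [ip_neg_right, hq.2]⟩
  · rintro ⟨v, w⟩ _
    simp
  · rintro ⟨v, w⟩ _
    simp

theorem cp7_neg (a b c : ℤ) : cp7 a (-b) c = cp7 a b c := by
  unfold cp7
  refine card_nbij' (fun q => (q.1, -q.2)) (fun q => (q.1, -q.2)) ?_ ?_ ?_ ?_
  · rintro ⟨v, w⟩ hq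
    rw [mem_coe, mem_filter, mem_product] at hq ⊢
    refine ⟨⟨hq.1.1, memn hq.1.2⟩, ?_, fun i => ?_⟩
    · show ip v (-w) = b
      rw [ip_neg_right, hq.2.1, neg_neg]
    · have := hq.2.2 i
      show (7 : ℤ) ∣ c * v i - b * (-w) i
      rw [Pi.neg_apply]
      have e : c * v i - b * -w i = c * v i - -b * w i := by ring
      rw [e]
      exact this
  · rintro ⟨v, w⟩ hq
    rw [mem_coe, mem_filter, mem_product] at hq ⊢
    refine ⟨⟨hq.1.1, memn hq.1.2⟩, ?_, fun i => ?_⟩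
    · show ip v (-w) = -b
      rw [ip_neg_right, hq.2.1]
    · have := hq.2.2 i
      show (7 : ℤ) ∣ c * v i - -b * (-w) i
      rw [Pi.neg_apply]
      have e : c * v i - -b * -w i = c * v i - b * w i := by ring
      rw [e]
      exact this
  · rintro ⟨v, w⟩ _
    simp
  · rintro ⟨v, w⟩ _
    simp

theorem dvd12 (v w : V3) : (12 : ℤ) ∣ ip v v * ip w w - ip v w ^ 2 := by
  have key : ip v v * ip w w - ip v w ^ 2 =
      12 * ((v 1 * w 0 - v 0 * w 1) ^ 2 + (v 1 * w 2 - v 2 * w 1) ^ 2 +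
        (v 0 * w 2 - v 2 * w 0) ^ 2 -
        (v 1 * w 0 - v 0 * w 1) * (v 0 * w 2 - v 2 * w 0)) := by
    unfold ip
    ring
  exact ⟨_, key⟩

theorem cl_dvd {v w : V3} (h : cl v w ≠ 0) : (7 : ℤ) ∣ ip v w ^ 2 - ip v v * ip w w := by
  unfold cl at h
  obtain ⟨i, -, hi⟩ := exists_ne_zero_of_sum_ne_zero h
  have h1 : Ot i v := by
    by_contra hc
    exact hi (by rw [if_neg hc, zero_mul])
  have h2 : Ot i w := by
    by_contra hc
    exact hi (by rw [if_neg hc, mul_zero])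
  obtain ⟨d⟩ := ld i
  exact sq7 d h1 h2

/-- the count with weight `1` -/
theorem cnt_one (n1 n2 : ℕ) (t : ℤ) : ∑ q ∈ (vec (n1 : ℤ) ×ˢ vec (n2 : ℤ)).filter
    (fun q => ip q.1 q.2 = t), (1 : ℤ) = cp n1 t n2 := by
  rw [sum_const, nsmul_eq_mul, mul_one]
  rfl

/-- the count of the common lines -/
theorem cnt_cl {n1 n2 : ℕ} (h2 : Sp7 n2) {t : ℤ} (h7 : (7 : ℤ) ∣ n1 * n2 - t ^ 2) :
    ∑ q ∈ (vec (n1 : ℤ) ×ˢ vec (n2 : ℤ)).filter (fun q => ip q.1 q.2 = t), cl q.1 q.2 =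
      (cp n1 t n2 : ℤ) + cp7 n1 t n2 := by
  have e : ∀ q ∈ (vec (n1 : ℤ) ×ˢ vec (n2 : ℤ)).filter (fun q => ip q.1 q.2 = t), cl q.1 q.2 =
      1 + (if ∀ i, (7 : ℤ) ∣ n2 * q.1 i - t * q.2 i then 1 else 0) := by
    intro q hq
    rw [mem_filter, mem_product, mem_vec, mem_vec] at hq
    unfold cl
    rw [ind_pair h2 hq.1.1 hq.1.2 (by
      rw [hq.2]
      have e1 : t ^ 2 - (n1 : ℤ) * n2 = -(n1 * n2 - t ^ 2) := by ring
      rw [e1, dvd_neg]
      exact h7), hq.2]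
  rw [sum_congr rfl e, sum_add_distrib, sum_const, nsmul_eq_mul, mul_one, ← sum_filter, sum_const,
    nsmul_eq_mul, mul_one, filter_filter]
  rfl

/-- the data of a root -/
theorem root_data {d e l : ℕ} (hl : l.Prime) {s c : ℤ} {m : ℕ} (hm0 : 0 < m)
    (hm : (m : ℤ) = d * e - s ^ 2) (he : 0 < e)
    (hr : (l : ℤ) ∣ e * c ^ 2 - 2 * s * c + d) :
    ∃ n : ℕ, (e : ℤ) * c ^ 2 - 2 * s * c + d = l * n ∧
      (m : ℤ) = (e * l : ℕ) * n - (s - c * e) ^ 2 := by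
  obtain ⟨nx, hnx⟩ := hr
  have hlp : (0 : ℤ) < l := by exact_mod_cast hl.pos
  have he0 : (0 : ℤ) < e := by exact_mod_cast he
  have hdet : (e : ℤ) * l * nx - (s - c * e) ^ 2 = m := by
    rw [hm]
    linear_combination (-(e : ℤ)) * hnx
  have hx0 : 0 < nx := by
    have h1 : 0 < (e : ℤ) * l * nx := by
      have h4 : (0 : ℤ) < m := by exact_mod_cast hm0
      nlinarith [sq_nonneg (s - c * e)]
    exact (pos_iff_pos_of_mul_pos h1).1 (mul_pos he0 hlp)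
  obtain ⟨n, rfl⟩ := Int.eq_ofNat_of_zero_le hx0.le
  exact ⟨n, hnx, by rw [← hdet]; push_cast; ring⟩

/-- orthogonality, weight `1` -/
theorem bad_one {d e l : ℕ} (hl : l.Prime) (h2 : l ≠ 2) (h3 : l ≠ 3) (hld : ¬ l ∣ d)
    (hle : ¬ l ∣ e) {s : ℤ} {m : ℕ} (hm0 : 0 < m) (hm : (m : ℤ) = d * e - s ^ 2)
    (hDl : jacobiSym ((d * e : ℕ) : ℤ) l = -1) (hsq : Squarefree (e * l)) (h4 : e * l % 4 = 3)
    (h33 : ¬ 3 ∣ e * l) : Sg l (fun _ _ => 1) (d * l) (e * l) (l * s) = 0 := by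
  have : Fact l.Prime := ⟨hl⟩
  have he : 0 < e := Nat.pos_of_ne_zero (by rintro rfl; rw [zero_mul] at h4; omega)
  refine orth3 h2 h3 (g := fun _ _ => (1 : ℤ)) (t := s) hld hle hDl (C := 12 * loc (e * l) m)
    fun c hr => ?_
  obtain ⟨n, hn, hdet⟩ := root_data hl hm0 hm he hr
  rw [PP_sum hl.pos hn (fun _ _ => (1 : ℤ)) (fun _ _ => rfl), cnt_one]
  exact Pool.Agent.N878.PC21.t_PC (e * l) n (s - c * e) m hsq h4 h33 hm0 hdet

theorem cl_comb {c l : ℤ} (hc : (7 : ℤ) ∣ c) (hl : ¬ (7 : ℤ) ∣ l) (w x : V3) :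
    cl (fun j => c * w j + l * x j) w = cl w x := by
  rw [cl_comm w x]
  unfold cl
  refine sum_congr rfl fun i _ => ?_
  have key : Ot i (fun j => c * w j + l * x j) ↔ Ot i x := by
    unfold Ot
    have e : LL i (c * w 1 + l * x 1) (c * w 0 + l * x 0) (c * w 2 + l * x 2) =
        c * LL i (w 1) (w 0) (w 2) + l * LL i (x 1) (x 0) (x 2) := by
      match i with
      | 0 => simp [LL]; ring
      | 1 => simp [LL]; ring
      | 2 => simp [LL]; ring
      | 3 => simp [LL]; ring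
      | 4 => simp [LL]; ring
      | 5 => simp [LL]; ring
      | 6 => simp [LL]; ring
      | 7 => simp [LL]; ring
    show (7 : ℤ) ∣ LL i (c * w 1 + l * x 1) (c * w 0 + l * x 0) (c * w 2 + l * x 2) ↔ _
    rw [e]
    have p7 : Prime (7 : ℤ) := by norm_num
    constructor
    · intro h
      have h1 := (dvd_add_right (hc.mul_right (LL i (w 1) (w 0) (w 2)))).1 h
      exact (p7.dvd_or_dvd h1).resolve_left hl
    · intro h
      exact dvd_add (hc.mul_right _) (h.mul_left _)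
  simp only [key]

theorem Sp7_of {n : ℕ} (h : jacobiSym n 7 = -1) : Sp7 n := by
  unfold Sp7
  rw [jacobiSym.mod_left] at h
  have e : (n : ℤ) % ((7 : ℕ) : ℤ) = ((n % 7 : ℕ) : ℤ) := by push_cast; rfl
  rw [e] at h
  have hn : n % 7 < 7 := Nat.mod_lt _ (by norm_num)
  interval_cases h' : n % 7
  · norm_num at h
  · norm_num at h
  · norm_num at h
  · left; rfl
  · norm_num at h
  · right; left; rfl
  · right; right; rfl

/-- orthogonality, the common lines -/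
theorem bad_cl {d e l : ℕ} (hl : l.Prime) (h2 : l ≠ 2) (h3 : l ≠ 3) (hld : ¬ l ∣ d)
    (hle : ¬ l ∣ e) {s : ℤ} {m : ℕ} (hm0 : 0 < m) (hm : (m : ℤ) = d * e - s ^ 2) (h7m : 7 ∣ m)
    (hDl : jacobiSym ((d * e : ℕ) : ℤ) l = -1) (hsq : Squarefree (e * l)) (h4 : e * l % 4 = 3)
    (h33 : ¬ 3 ∣ e * l) (hl7 : jacobiSym l 7 = -1) (hd7 : jacobiSym d 7 = 1)
    (he7 : jacobiSym e 7 = 1) : Sg l cl (d * l) (e * l) (l * s) = 0 := by
  have : Fact l.Prime := ⟨hl⟩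
  have he : 0 < e := Nat.pos_of_ne_zero (by rintro rfl; rw [zero_mul] at h4; omega)
  have h7l : ¬ (7 : ℤ) ∣ l := by
    intro h
    rw [jacobiSym.mod_left] at hl7
    have e1 : (l : ℤ) % ((7 : ℕ) : ℤ) = 0 := by push_cast; omega
    rw [e1] at hl7
    norm_num at hl7
  refine orth3 h2 h3 (g := cl) (t := s) hld hle hDl (C := 24 * loc7 (e * l) m) fun c hr => ?_
  -- a representative divisible by `7`
  obtain ⟨a, b, hab⟩ : IsCoprime (l : ℤ) (7 : ℤ) :=
    ((Prime.coprime_iff_not_dvd (by norm_num : Prime (7 : ℤ))).2 h7l).symm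
  obtain ⟨k, hk⟩ : ∃ k : ℤ, (7 : ℤ) ∣ c + l * k :=
    ⟨-(c * a), b * c, by linear_combination (-c) * hab⟩
  rw [PP_mod (c' := c + l * k) ⟨-k, by ring⟩]
  have hr' : (l : ℤ) ∣ e * (c + l * k) ^ 2 - 2 * s * (c + l * k) + d := by
    have e6 : e * (c + l * k) ^ 2 - 2 * s * (c + l * k) + d = (e * c ^ 2 - 2 * s * c + d) +
        l * (2 * e * c * k + e * l * k ^ 2 - 2 * s * k) := by ring
    rw [e6]
    exact dvd_add hr (dvd_mul_right _ _)
  generalize c + l * k = c' at hk hr'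
  obtain ⟨n, hn, hdet⟩ := root_data hl hm0 hm he hr'
  have hn7 : Sp7 n := by
    apply Sp7_of
    have h1 : jacobiSym ((l : ℤ) * n) 7 = 1 := by
      rw [← hd7]
      apply jacobiSym.mod_left'
      obtain ⟨r, rfl⟩ := hk
      rw [← hn]
      have e7 : (e : ℤ) * (7 * r) ^ 2 - 2 * s * (7 * r) + d =
          d + 7 * (7 * e * r ^ 2 - 2 * s * r) := by ring
      rw [e7]
      simp
    rw [jacobiSym.mul_left, hl7] at h1
    linarith
  have he7' : Sp7 (e * l) := by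
    apply Sp7_of
    push_cast
    rw [jacobiSym.mul_left, he7, hl7]
    norm_num
  rw [PP_sum hl.pos hn cl (fun w x => cl_comb hk h7l w x), cnt_cl hn7 (by
    rw [← hdet]; exact_mod_cast h7m)]
  exact Pool.Agent.N973.P21.t_CP7 Pool.Agent.N878.PC21.t_PC (e * l) n (s - c' * e) m hsq h4 he7' hn7
    h33 hm0 h7m hdet

/-! ### the three identities -/

section

variable {D d l : ℕ} (h : H3 D d l)

include h

theorem H3.iso_d {v : V3} (hv : ip v v = (d * l : ℕ)) : Iso ip l v := by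
  have : Fact l.Prime := ⟨h.pl⟩
  exact iso_mul frm3 (fun h1 => h.lD (h1.trans h.un.1)) hv

theorem H3.iso_e {v : V3} (hv : ip v v = (D / d * l : ℕ)) : Iso ip l v := by
  have : Fact l.Prime := ⟨h.pl⟩
  exact iso_mul frm3 (fun h1 => h.lD (h1.trans (Nat.div_dvd_of_dvd h.un.1))) hv

theorem H3.prod : ((d * l : ℕ) : ℤ) * (D / d * l : ℕ) = (D * l ^ 2 : ℕ) := by
  have hprod : d * (D / d) = D := Nat.mul_div_cancel' h.un.1
  have hDn : (d * l) * (D / d * l) = D * l ^ 2 := by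
    calc (d * l) * (D / d * l) = (d * (D / d)) * l ^ 2 := by ring
      _ = _ := by rw [hprod]
  rw [← hDn]; push_cast; ring

/-- the data for a multiple of `l` -/
theorem H3.bad {t : ℤ} (hlt : (l : ℤ) ∣ t) (ht : t ^ 2 < (D * l ^ 2 : ℕ)) :
    ∃ (s : ℤ) (m : ℕ), t = l * s ∧ 0 < m ∧ (m : ℤ) = d * (D / d : ℕ) - s ^ 2 ∧
      ((D * l ^ 2 : ℕ) : ℤ) - t ^ 2 = l ^ 2 * m := by
  have hprod : d * (D / d) = D := Nat.mul_div_cancel' h.un.1
  have hprodZ : (d : ℤ) * (D / d : ℕ) = D := by exact_mod_cast hprod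
  obtain ⟨s, rfl⟩ := hlt
  have hl0 : (0 : ℤ) < l := by exact_mod_cast h.pl.pos
  have e1 : ((D * l ^ 2 : ℕ) : ℤ) - (l * s) ^ 2 = l ^ 2 * (D - s ^ 2) := by push_cast; ring
  have hm0 : (0 : ℤ) < D - s ^ 2 := by
    have h1 : 0 < (l : ℤ) ^ 2 * (D - s ^ 2) := by rw [← e1]; linarith
    exact (pos_iff_pos_of_mul_pos h1).1 (by positivity)
  obtain ⟨m, hm⟩ := Int.eq_ofNat_of_zero_le hm0.le
  refine ⟨s, m, rfl, ?_, ?_, ?_⟩
  · rw [hm] at hm0
    exact_mod_cast hm0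
  · rw [hprodZ, hm]
  · rw [e1, hm]

/-- orthogonality without weight -/
theorem H3.bad1 (h33 : ¬ 3 ∣ D * l) {t : ℤ} (hlt : (l : ℤ) ∣ t) (ht : t ^ 2 < (D * l ^ 2 : ℕ))
    (hDl : jacobiSym D l = -1) : Sg l (fun _ _ => 1) (d * l) (D / d * l) t = 0 := by
  obtain ⟨s, m, rfl, hm0, hm, -⟩ := h.bad hlt ht
  have hprod : d * (D / d) = D := Nat.mul_div_cancel' h.un.1
  have hld : ¬ l ∣ d := fun h1 => h.lD (h1.trans h.un.1)
  have hle : ¬ l ∣ D / d := fun h1 => h.lD (h1.trans (Nat.div_dvd_of_dvd h.un.1))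
  obtain ⟨f1, f2, -⟩ := nn_facts' h.D0 h.un h.sg h.pl h.l4 h.lD
  unfold nn at f1 f2
  by_cases h2 : 2 ∣ d
  · rw [if_pos h2] at f1 f2
    exact bad_one h.pl h.l2 h.l3 hld hle hm0 hm (by rw [hprod]; exact hDl) f1 f2
      (fun h1 => h33 (h1.trans (Nat.mul_dvd_mul_right (Nat.div_dvd_of_dvd h.un.1) l)))
  · rw [if_neg h2] at f1 f2
    rw [Sg_swap (fun _ _ => rfl)]
    exact bad_one h.pl h.l2 h.l3 hle hld hm0 (by rw [hm]; ring)
      (by rw [mul_comm (D / d) d, hprod]; exact hDl) f1 f2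
      (fun h1 => h33 (h1.trans (Nat.mul_dvd_mul_right h.un.1 l)))

/-- the first identity -/
theorem id1 (h33 : ¬ 3 ∣ D * l) : Pool.Agent.N969.RQ.ST 3 D l (fun t _ => o3 (t * l) * sj D d l t *
      (cp (d * l : ℕ) t (D / d * l : ℕ) : ℤ)) = Rr l (d * l : ℕ) * Rr l (D / d * l : ℕ) := by
  rw [R_pairs]
  refine main_gen h (g := fun _ _ => 1) ?_ ?_ ?_ ?_
  · intro v w hv hw _
    have := dvd12 v w
    rw [hv, hw, h.prod] at this
    exact this
  · intro t _ _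
    exact cnt_one _ _ _
  · intro t
    rw [cp_neg]
  · intro t ht _ hlt hDl
    exact h.bad1 h33 hlt ht hDl

variable (h7l : jacobiSym l 7 = -1)

include h7l

/-- the second identity -/
theorem id2 (h33 : ¬ 3 ∣ D * l) (hd7 : jacobiSym d 7 = 1) (he7 : jacobiSym (D / d : ℕ) 7 = 1) :
    6 * Pool.Agent.N969.RQ.ST 21 D l (fun t _ => o3 (t * l) * sj D d l t *
      ((cp (d * l : ℕ) t (D / d * l : ℕ) : ℤ) + cp7 (d * l : ℕ) t (D / d * l : ℕ))) =
      3 * (Rr l (d * l : ℕ) * Rr l (D / d * l : ℕ)) + Zr l (d * l) * Zr l (D / d * l) := by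
  have : Fact l.Prime := ⟨h.pl⟩
  have hprod : d * (D / d) = D := Nat.mul_div_cancel' h.un.1
  have s1 : Sp7 (d * l) := by
    apply Sp7_of; push_cast; rw [jacobiSym.mul_left, hd7, h7l]; norm_num
  have s2 : Sp7 (D / d * l) := by
    apply Sp7_of
    rw [Nat.cast_mul, jacobiSym.mul_left, he7, h7l]; norm_num
  rw [← sum_SS h.l2 h.l3 h.j3l (fun v hv => h.iso_d hv) (fun v hv => h.iso_e hv) s1 s2, N_pairs]
  congr 1
  refine main_gen h (g := cl) ?_ ?_ ?_ ?_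
  · intro v w hv hw hc
    have g5 := dvd12 v w
    have g6 := cl_dvd hc
    rw [hv, hw, h.prod] at g5
    rw [hv, hw, h.prod] at g6
    have e1 : ((4 * 21 : ℕ) : ℤ) = 12 * 7 := by norm_num
    rw [e1]
    refine IsCoprime.mul_dvd (by norm_num) g5 ?_
    have e2 : ((D * l ^ 2 : ℕ) : ℤ) - ip v w ^ 2 = -(ip v w ^ 2 - (D * l ^ 2 : ℕ)) := by ring
    rw [e2, dvd_neg]
    exact g6
  · intro t _ h84
    apply cnt_cl s2
    rw [h.prod]
    exact Dvd.dvd.trans (by norm_num) h84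
  · intro t
    rw [cp_neg, cp7_neg]
  · intro t ht h84 hlt hDl
    obtain ⟨s, m, rfl, hm0, hm, hm2⟩ := h.bad hlt ht
    have h7m : 7 ∣ m := by
      rw [hm2] at h84
      have h1 : (7 : ℤ) ∣ l ^ 2 * m := Dvd.dvd.trans (by norm_num) h84
      have p7 : Prime (7 : ℤ) := by norm_num
      rcases p7.dvd_or_dvd h1 with h2 | h2
      · exfalso
        have h3 := p7.dvd_of_dvd_pow h2
        rw [jacobiSym.mod_left] at h7l
        have e1 : (l : ℤ) % ((7 : ℕ) : ℤ) = 0 := by push_cast; omega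
        rw [e1] at h7l
        norm_num at h7l
      · exact_mod_cast h2
    have hld : ¬ l ∣ d := fun h1 => h.lD (h1.trans h.un.1)
    have hle : ¬ l ∣ D / d := fun h1 => h.lD (h1.trans (Nat.div_dvd_of_dvd h.un.1))
    obtain ⟨f1, f2, -⟩ := nn_facts' h.D0 h.un h.sg h.pl h.l4 h.lD
    unfold nn at f1 f2
    by_cases h2 : 2 ∣ d
    · rw [if_pos h2] at f1 f2
      exact bad_cl h.pl h.l2 h.l3 hld hle hm0 hm h7m (by rw [hprod]; exact hDl) f1 f2
        (fun h1 => h33 (h1.trans (Nat.mul_dvd_mul_right (Nat.div_dvd_of_dvd h.un.1) l)))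
        h7l hd7 he7
    · rw [if_neg h2] at f1 f2
      rw [Sg_swap cl_comm]
      exact bad_cl h.pl h.l2 h.l3 hle hld hm0 (by rw [hm]; ring) h7m
        (by rw [mul_comm (D / d) d, hprod]; exact hDl) f1 f2
        (fun h1 => h33 (h1.trans (Nat.mul_dvd_mul_right h.un.1 l))) h7l he7 hd7

/-- the third identity -/
theorem id3 (h33 : ¬ 3 ∣ D * l) (h7D : 7 ∣ D) (h49 : ¬ 49 ∣ D)
    (hd7 : jacobiSym d 7 = 1 ∨ jacobiSym (D / d : ℕ) 7 = 1) :
    12 * Pool.Agent.N969.RQ.ST 21 D l (fun t _ => o3 (t * l) * sj D d l t *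
      (cp (d * l : ℕ) t (D / d * l : ℕ) : ℤ)) =
      3 * (Rr l (d * l : ℕ) * Rr l (D / d * l : ℕ)) + Zr l (d * l) * Zr l (D / d * l) := by
  have : Fact l.Prime := ⟨h.pl⟩
  have hprod : d * (D / d) = D := Nat.mul_div_cancel' h.un.1
  have p7 : Nat.Prime 7 := by norm_num
  have h7l' : ¬ 7 ∣ l := by
    intro h1
    rw [jacobiSym.mod_left] at h7l
    have e1 : (l : ℤ) % ((7 : ℕ) : ℤ) = 0 := by push_cast; omega
    rw [e1] at h7l
    norm_num at h7l
  have j0 : ∀ k : ℕ, jacobiSym k 7 = 1 → ¬ 7 ∣ k := by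
    intro k hk h1
    rw [jacobiSym.mod_left] at hk
    have e1 : (k : ℤ) % ((7 : ℕ) : ℤ) = 0 := by push_cast; omega
    rw [e1] at hk
    norm_num at hk
  have hD49 : ¬ 49 ∣ D * l := by
    intro h1
    have h3 : Nat.Coprime 49 l := by
      have : Nat.Coprime (7 ^ 2) l :=
        Nat.Coprime.pow_left 2 ((Nat.Prime.coprime_iff_not_dvd p7).2 h7l')
      exact this
    exact h49 (h3.dvd_of_dvd_mul_right h1)
  have hcase : (7 ∣ d ∧ jacobiSym (D / d : ℕ) 7 = 1) ∨ (7 ∣ D / d ∧ jacobiSym d 7 = 1) := by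
    have h1 : 7 ∣ d * (D / d) := by rw [hprod]; exact h7D
    rcases hd7 with h2 | h2
    · right
      exact ⟨((Nat.Prime.dvd_mul p7).1 h1).resolve_left (j0 _ h2), h2⟩
    · left
      exact ⟨((Nat.Prime.dvd_mul p7).1 h1).resolve_right (j0 _ h2), h2⟩
  have h49d : ¬ 49 ∣ d * l := fun h1 => hD49 (h1.trans (Nat.mul_dvd_mul_right h.un.1 l))
  have h49e : ¬ 49 ∣ D / d * l := fun h1 =>
    hD49 (h1.trans (Nat.mul_dvd_mul_right (Nat.div_dvd_of_dvd h.un.1) l))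
  -- the number of common lines
  have hcl : ∀ v w : V3, ip v v = (d * l : ℕ) → ip w w = (D / d * l : ℕ) →
      cl v w = if (7 : ℤ) ∣ ip v w then 1 else 0 := by
    intro v w hv hw
    rcases hcase with ⟨h1, -⟩ | ⟨h1, -⟩
    · exact (ind_ip (h1.mul_right l) h49d hv).symm
    · rw [cl_comm, ips v w]
      exact (ind_ip (h1.mul_right l) h49e hw).symm
  have h7t : ∀ t : ℤ, (7 : ℤ) ∣ (D * l ^ 2 : ℕ) - t ^ 2 → (7 : ℤ) ∣ t := by
    intro t ht
    have h1 : (7 : ℤ) ∣ (D * l ^ 2 : ℕ) := by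
      exact_mod_cast h7D.mul_right _
    have h3 : (7 : ℤ) ∣ t ^ 2 := by
      have e : t ^ 2 = (D * l ^ 2 : ℕ) - ((D * l ^ 2 : ℕ) - t ^ 2) := by ring
      rw [e]
      exact dvd_sub h1 ht
    exact (by norm_num : Prime (7 : ℤ)).dvd_of_dvd_pow h3
  have key : 12 * ∑ i : Fin 8, Ni l i (d * l : ℕ) * Ni l i (D / d * l : ℕ) =
      3 * (Rr l (d * l : ℕ) * Rr l (D / d * l : ℕ)) + Zr l (d * l) * Zr l (D / d * l) := by
    rcases hcase with ⟨h1, hj⟩ | ⟨h1, hj⟩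
    · have s2 : Sp7 (D / d * l) := by
        apply Sp7_of
        rw [Nat.cast_mul, jacobiSym.mul_left, hj, h7l]; norm_num
      exact sum_7S h.l2 h.l3 h.j3l (fun v hv => h.iso_d hv) (fun v hv => h.iso_e hv)
        (h1.mul_right l) h49d s2
    · have s2 : Sp7 (d * l) := by
        apply Sp7_of
        rw [Nat.cast_mul, jacobiSym.mul_left, hj, h7l]; norm_num
      have := sum_7S h.l2 h.l3 h.j3l (fun v hv => h.iso_e hv) (fun v hv => h.iso_d hv)
        (h1.mul_right l) h49e s2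
      have e1 : ∑ i : Fin 8, Ni l i (d * l : ℕ) * Ni l i (D / d * l : ℕ) =
          ∑ i : Fin 8, Ni l i (D / d * l : ℕ) * Ni l i (d * l : ℕ) :=
        sum_congr rfl fun i _ => mul_comm _ _
      rw [e1, this]
      ring
  rw [← key, N_pairs]
  congr 1
  refine main_gen h (g := cl) ?_ ?_ ?_ ?_
  · intro v w hv hw hc
    have g5 := dvd12 v w
    have g6 := cl_dvd hc
    rw [hv, hw, h.prod] at g5
    rw [hv, hw, h.prod] at g6
    have e1 : ((4 * 21 : ℕ) : ℤ) = 12 * 7 := by norm_num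
    rw [e1]
    refine IsCoprime.mul_dvd (by norm_num) g5 ?_
    have e2 : ((D * l ^ 2 : ℕ) : ℤ) - ip v w ^ 2 = -(ip v w ^ 2 - (D * l ^ 2 : ℕ)) := by ring
    rw [e2, dvd_neg]
    exact g6
  · intro t _ h84
    have h7 := h7t t (Dvd.dvd.trans (by norm_num) h84)
    rw [← cnt_one]
    refine sum_congr rfl fun q hq => ?_
    rw [mem_filter, mem_product, mem_vec, mem_vec] at hq
    rw [hcl _ _ hq.1.1 hq.1.2, hq.2, if_pos h7]
  · intro t
    rw [cp_neg]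
  · intro t ht h84 hlt hDl
    have h7 := h7t t (Dvd.dvd.trans (by norm_num) h84)
    rw [← h.bad1 h33 hlt ht hDl]
    unfold Sg
    refine sum_congr rfl fun q hq => ?_
    rw [mem_filter, mem_product, mem_vec, mem_vec] at hq
    rw [hcl _ _ hq.1.1 hq.1.2, hq.2, if_pos h7]

end

end Pool.Agent.N970.RQ3
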