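import Pool.Agent.N970.RQ.B21c
import Pool.Agent.N970.Sgn.Sgp
import Pool.Agent.N878.PC21.PE

/-!
# BILJ21: the pairs of vectors of the same norm `A l`
-/

set_option autoImplicit false
set_option linter.unusedSectionVars false

namespace Pool.Agent.N970.RQ3

open Finset
open Pool.Agent.N969.P15 (V3 Ev)
open Pool.Agent.N969.RQ (Fd R21 R21r sl ld21 ld21r)
open Pool.Agent.N969.P17G (sgp sgnE)
open Pool.Agent.N877.P21 (ip vec cp cp7 Sp7 loc loc7 locE loc7E)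
open Pool.Agent.N877.P21G (Fn)
open Pool.Agent.N218.P21 (mem_vec LL Ot ind_ip sg)
open Pool.Agent.N973.P21 (ip_neg_right ip_neg_neg ind_pair ld sq7 sq3 t7 Ot_neg Ld Vi mem_Vi d0 d1 d2
  d3 d4 d5 d6 d7 res7 res3)
open Pool.Agent.N844.P17G (Iso sig)
open Pool.Agent.N871.G21 (Fn_mul Fn_two Fn_odd)
open Pool.Agent.N970.Sgn

/-- an isometry fixing the line, changing the orientation at `3`, not changing the sign -/
theorem ldE {l : ℕ} [hl : Fact l.Prime] (h2 : l ≠ 2) (h3 : l ≠ 3) (h3l : jacobiSym 3 l = -1)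
    (i : Fin 8) : ∃ d : Ld i, ∀ v : V3, Iso ip l v → E l (d.t v) = E l v := by
  match i with
  | 0 => exact ⟨d0, fun v hv => E_ha h2 h3 h3l hv⟩
  | 1 => exact ⟨d1, fun v hv => E_hb h2 h3 h3l hv⟩
  | 2 => exact ⟨d2, fun v hv => E_hc h2 h3 h3l hv⟩
  | 3 => exact ⟨d3, fun v hv => E_ha h2 h3 h3l hv⟩
  | 4 => exact ⟨d4, fun v hv => E_hb h2 h3 h3l hv⟩
  | 5 => exact ⟨d5, fun v hv => E_hc h2 h3 h3l hv⟩
  | 6 => exact ⟨d6, fun v hv => E_sg h2 h3 h3l hv⟩
  | 7 => exact ⟨d7, fun v hv => E_sg h2 h3 h3l hv⟩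

section

variable {l : ℕ} [hl : Fact l.Prime] (h2 : l ≠ 2) (h3 : l ≠ 3) (h3l : jacobiSym 3 l = -1)
  (hm1 : jacobiSym (-1) l = -1) {n : ℕ} (hn : ∀ v : V3, ip v v = n → Iso ip l v)

include h2 h3 hm1 hn

theorem sum_n (i : Fin 8) (f : V3 → ℤ) :
    ∑ w ∈ Vi i n, E l w * f (-w) = ∑ w ∈ Vi i n, E l w * f w := by
  refine sum_nbij' (fun w => -w) (fun w => -w) ?_ ?_ (fun v _ => neg_neg v)
    (fun v _ => neg_neg v) ?_
  · intro v hv
    rw [mem_Vi] at hv ⊢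
    exact ⟨by rw [ip_neg_neg, hv.1], (Ot_neg i v).2 hv.2⟩
  · intro v hv
    rw [mem_Vi] at hv ⊢
    exact ⟨by rw [ip_neg_neg, hv.1], (Ot_neg i v).2 hv.2⟩
  · intro v hv
    rw [mem_Vi] at hv
    show E l v * f (-v) = E l (-v) * f (-v)
    rw [E_neg h2 h3 hm1 (hn v hv.1)]

omit hm1 in
theorem sum_t {i : Fin 8} (d : Ld i) (hd : ∀ v : V3, Iso ip l v → E l (d.t v) = E l v)
    (f : V3 → ℤ) : ∑ w ∈ Vi i n, E l w * f (d.t w) = ∑ w ∈ Vi i n, E l w * f w := by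
  refine sum_nbij' d.t d.t' ?_ ?_ (fun v _ => d.h2 v) (fun v _ => d.h1 v) ?_
  · intro v hv
    rw [mem_Vi] at hv ⊢
    exact ⟨by rw [d.h3, hv.1], (d.h4 v).2 hv.2⟩
  · intro v hv
    rw [mem_Vi] at hv ⊢
    refine ⟨by rw [← d.h3, d.h1, hv.1], (d.h4 _).1 ?_⟩
    rw [d.h1]
    exact hv.2
  · intro v hv
    rw [mem_Vi] at hv
    show E l v * f (d.t v) = E l (d.t v) * f (d.t v)
    rw [hd v (hn v hv.1)]

include h3l

/-- the signed pairs with given signs at `7` and `3` -/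
theorem line4 (i : Fin 8) {r7 r3 : ℤ} (h7 : 0 < r7) (h7' : r7 < 7)
    (hr7 : (7 : ℤ) ∣ r7 ^ 2 - n * n) (h3' : 0 < r3) (h3'' : r3 < 3)
    (hr3 : (3 : ℤ) ∣ r3 ^ 2 - n * n) :
    4 * ∑ v ∈ Vi i n, ∑ w ∈ Vi i n, E l v * E l w *
      (if ip v w % 7 = r7 ∧ ip v w % 3 = r3 then (1 : ℤ) else 0) = Ni l i n * Ni l i n := by
  obtain ⟨d, hd⟩ := ldE h2 h3 h3l i
  unfold Ni
  rw [sum_mul_sum, mul_sum]
  refine sum_congr rfl fun v hv => ?_
  have k1 := sum_n h2 h3 hm1 hn i (fun w => if ip v w % 7 = r7 ∧ ip v w % 3 = r3 then (1 : ℤ) else 0)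
  have k2 := sum_t h2 h3 hn d hd
    (fun w => if ip v w % 7 = r7 ∧ ip v w % 3 = r3 then (1 : ℤ) else 0)
  have k3 := sum_t h2 h3 hn d hd
    (fun w => if ip v (-w) % 7 = r7 ∧ ip v (-w) % 3 = r3 then (1 : ℤ) else 0)
  rw [k1] at k3
  have e0 : ∑ w ∈ Vi i n, E l v * E l w *
      (if ip v w % 7 = r7 ∧ ip v w % 3 = r3 then (1 : ℤ) else 0) =
      E l v * ∑ w ∈ Vi i n, E l w *
        (if ip v w % 7 = r7 ∧ ip v w % 3 = r3 then (1 : ℤ) else 0) := by
    rw [mul_sum]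
    exact sum_congr rfl fun w _ => by ring
  have e : 4 * ∑ w ∈ Vi i n, E l v * E l w *
        (if ip v w % 7 = r7 ∧ ip v w % 3 = r3 then (1 : ℤ) else 0) =
      E l v * ∑ w ∈ Vi i n, (E l w * (if ip v w % 7 = r7 ∧ ip v w % 3 = r3 then (1 : ℤ) else 0) +
        E l w * (if ip v (-w) % 7 = r7 ∧ ip v (-w) % 3 = r3 then (1 : ℤ) else 0) +
        E l w * (if ip v (d.t w) % 7 = r7 ∧ ip v (d.t w) % 3 = r3 then (1 : ℤ) else 0) +
        E l w * (if ip v (-d.t w) % 7 = r7 ∧ ip v (-d.t w) % 3 = r3 then (1 : ℤ) else 0)) := by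
    rw [sum_add_distrib, sum_add_distrib, sum_add_distrib, k1, k2, k3, e0]
    ring
  rw [e, mul_sum]
  refine sum_congr rfl fun w hw => ?_
  rw [mem_Vi] at hv hw
  have q1 := sq7 d hv.2 hw.2
  have q2 := sq3 v w
  rw [hv.1, hw.1] at q1 q2
  have q3 := t7 d hv.2 hw.2
  have q4 := d.h6 v w
  rw [ip_neg_right, ip_neg_right]
  generalize ip v (d.t w) = b' at q3 q4 ⊢
  generalize ip v w = b at q1 q2 q3 q4 ⊢
  rcases res7 h7 h7' q1 hr7 with ⟨a1, a2⟩ | ⟨a1, a2⟩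
  · rcases res3 h3' h3'' q2 hr3 with ⟨a3, a4⟩ | ⟨a3, a4⟩
    · rw [if_pos ⟨a1, a3⟩, if_neg (by tauto), if_neg (by rintro ⟨-, h⟩; omega),
        if_neg (by rintro ⟨h, -⟩; omega)]
      ring
    · rw [if_neg (by tauto), if_neg (by tauto), if_pos (by omega),
        if_neg (by rintro ⟨h, -⟩; omega)]
      ring
  · rcases res3 h3' h3'' q2 hr3 with ⟨a3, a4⟩ | ⟨a3, a4⟩
    · rw [if_neg (by tauto), if_neg (by tauto), if_neg (by rintro ⟨h, -⟩; omega),
        if_pos (by omega)]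
      ring
    · rw [if_neg (by tauto), if_pos ⟨a2, a4⟩, if_neg (by rintro ⟨h, -⟩; omega),
        if_neg (by rintro ⟨-, h⟩; omega)]
      ring

omit h3l in
/-- the signed pairs with given sign at `3` -/
theorem all2 {g : V3 → V3 → ℤ} (hg : ∀ v w, g v (-w) = g v w) {r3 : ℤ} (h3' : 0 < r3)
    (h3'' : r3 < 3) (hr3 : (3 : ℤ) ∣ r3 ^ 2 - n * n) :
    2 * ∑ q ∈ vec (n : ℤ) ×ˢ vec (n : ℤ), E l q.1 * E l q.2 *
      (g q.1 q.2 * (if ip q.1 q.2 % 3 = r3 then (1 : ℤ) else 0)) =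
      ∑ q ∈ vec (n : ℤ) ×ˢ vec (n : ℤ), E l q.1 * E l q.2 * g q.1 q.2 := by
  have k1 : ∑ q ∈ vec (n : ℤ) ×ˢ vec (n : ℤ), E l q.1 * E l q.2 *
      (g q.1 q.2 * (if (-ip q.1 q.2) % 3 = r3 then (1 : ℤ) else 0)) =
      ∑ q ∈ vec (n : ℤ) ×ˢ vec (n : ℤ), E l q.1 * E l q.2 *
      (g q.1 q.2 * (if ip q.1 q.2 % 3 = r3 then (1 : ℤ) else 0)) := by
    refine sum_nbij' (fun q => (q.1, -q.2)) (fun q => (q.1, -q.2)) ?_ ?_
      (fun q _ => by simp) (fun q _ => by simp) ?_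
    · rintro ⟨v, w⟩ hq
      rw [mem_product] at hq ⊢
      exact ⟨hq.1, memn hq.2⟩
    · rintro ⟨v, w⟩ hq
      rw [mem_product] at hq ⊢
      exact ⟨hq.1, memn hq.2⟩
    · rintro ⟨v, w⟩ hq
      rw [mem_product, mem_vec, mem_vec] at hq
      show E l v * E l w * (g v w * (if (-ip v w) % 3 = r3 then (1 : ℤ) else 0)) =
        E l v * E l (-w) * (g v (-w) * (if ip v (-w) % 3 = r3 then (1 : ℤ) else 0))
      rw [E_neg h2 h3 hm1 (hn w hq.2), hg, ip_neg_right]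
  have e : 2 * ∑ q ∈ vec (n : ℤ) ×ˢ vec (n : ℤ), E l q.1 * E l q.2 *
      (g q.1 q.2 * (if ip q.1 q.2 % 3 = r3 then (1 : ℤ) else 0)) =
      ∑ q ∈ vec (n : ℤ) ×ˢ vec (n : ℤ), (E l q.1 * E l q.2 *
        (g q.1 q.2 * (if ip q.1 q.2 % 3 = r3 then (1 : ℤ) else 0)) + E l q.1 * E l q.2 *
        (g q.1 q.2 * (if (-ip q.1 q.2) % 3 = r3 then (1 : ℤ) else 0))) := by
    rw [sum_add_distrib, k1]
    ring
  rw [e]
  refine sum_congr rfl fun q hq => ?_
  rw [mem_product, mem_vec, mem_vec] at hq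
  have q2 := sq3 q.1 q.2
  rw [hq.1, hq.2] at q2
  generalize ip q.1 q.2 = b at q2 ⊢
  rcases res3 h3' h3'' q2 hr3 with ⟨a3, a4⟩ | ⟨a3, a4⟩
  · rw [if_pos a3, if_neg a4]
    ring
  · rw [if_neg a3, if_pos a4]
    ring

end

/-- the pairs orthogonal to a line as pairs with weight -/
theorem Vi_pairs {l : ℕ} (n : ℤ) (f : V3 → V3 → ℤ) :
    ∑ i : Fin 8, ∑ v ∈ Vi i n, ∑ w ∈ Vi i n, E l v * E l w * f v w =
      ∑ q ∈ vec n ×ˢ vec n, E l q.1 * E l q.2 * (cl q.1 q.2 * f q.1 q.2) := by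
  have e : ∀ i : Fin 8, ∑ v ∈ Vi i n, ∑ w ∈ Vi i n, E l v * E l w * f v w =
      ∑ v ∈ vec n, ∑ w ∈ vec n, E l v * E l w *
        (((if Ot i v then (1 : ℤ) else 0) * (if Ot i w then 1 else 0)) * f v w) := by
    intro i
    unfold Vi
    rw [sum_filter]
    refine sum_congr rfl fun v _ => ?_
    by_cases h : Ot i v
    · rw [if_pos h, sum_filter]
      refine sum_congr rfl fun w _ => ?_
      by_cases h' : Ot i w
      · rw [if_pos h', if_pos h, if_pos h']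
        ring
      · rw [if_neg h', if_neg h']
        ring
    · rw [if_neg h]
      symm
      refine sum_eq_zero fun w _ => ?_
      rw [if_neg h]
      ring
  simp only [e]
  rw [sum_product, sum_comm]
  refine sum_congr rfl fun v _ => ?_
  rw [sum_comm]
  refine sum_congr rfl fun w _ => ?_
  unfold cl
  rw [sum_mul, mul_sum]

/-! ### sums over `T` -/

/-- the hypotheses -/
structure HA (A l : ℕ) : Prop where
  pl : l.Prime
  l2 : l ≠ 2
  l3 : l ≠ 3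
  l4 : l % 4 = 3
  l31 : l % 3 = 1
  l7 : jacobiSym l 7 = -1
  lA : ¬ l ∣ A
  Aor : A = 1 ∨ Fd A
  A3 : A % 3 = 1

section

variable {A l : ℕ} (h : HA A l)

include h

theorem HA.j3l : jacobiSym 3 l = -1 := by
  have h1 : jacobiSym (3 : ℕ) l = - jacobiSym l 3 :=
    jacobiSym.quadratic_reciprocity_three_mod_four (by norm_num) h.l4
  have h2 := h.l31
  have h3 : jacobiSym l 3 = 1 := by
    rw [jacobiSym.mod_left]
    have : (l : ℤ) % ((3 : ℕ) : ℤ) = 1 := by push_cast; omega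
    rw [this, jacobiSym.one_left]
  rw [h3] at h1
  push_cast at h1
  exact h1

theorem HA.jm1 : jacobiSym (-1) l = -1 := by
  have := h.l4
  rw [jacobiSym.at_neg_one (by rw [Nat.odd_iff]; omega), ZMod.χ₄_nat_three_mod_four h.l4]

theorem HA.Fnl : Fn l := Or.inl ⟨h.pl.squarefree, h.l4⟩

theorem HA.cop : Nat.Coprime A l := ((Nat.Prime.coprime_iff_not_dvd h.pl).2 h.lA).symm

theorem HA.Fnn : Fn (A * l) := (Fn_mul h.Aor h.Fnl h.cop).1

theorem HA.n3 : (A * l) % 3 = 1 := by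
  have h1 := h.A3
  have h2 := h.l31
  rw [Nat.mul_mod, h1, h2]

theorem HA.iso {v : V3} (hv : ip v v = (A * l : ℕ)) : Iso ip l v := by
  have : Fact l.Prime := ⟨h.pl⟩
  exact iso_mul frm3 h.lA hv

theorem HA.pp {v w : V3} (hv : ip v v = (A * l : ℕ)) (hw : ip w w = (A * l : ℕ)) {T : ℤ}
    (hT : ip v w = 2 * T - (A * l : ℕ)) : psi ip l v * psi ip l w = sgp 1 (A * l) l T := by
  have : Fact l.Prime := ⟨h.pl⟩
  have hll : l ∣ A * l := dvd_mul_left _ _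
  have hln2 : ¬ l ^ 2 ∣ A * l := by
    intro h1
    rw [pow_two] at h1
    exact h.lA (Nat.dvd_of_mul_dvd_mul_right h.pl.pos h1)
  rw [psi_mul frm3 h.l2 (nK h.l2 h.l3) (h.iso hv) (h.iso hw),
    sgp_sig frm3 h.l2 (nK h.l2 h.l3) (k := 1) hll hln2 h.pl.not_dvd_one hv
      (by rw [hw]; push_cast; ring) (h.iso hv) (h.iso hw) (T := T)
      (by rw [hT]; push_cast; ring)]

/-- the signed pair sum as a sum over `T` -/
theorem T_sum {g : V3 → V3 → ℤ} {S : Finset ℕ} (hS : ∀ T ∈ S, 3 ∣ T)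
    (hs : ∀ v w : V3, ip v v = (A * l : ℕ) → ip w w = (A * l : ℕ) → g v w ≠ 0 →
      ∃ T ∈ S, ip v w = 2 * T - (A * l : ℕ)) {κ : ℤ} {L : ℕ → ℤ}
    (hL : ∀ T ∈ S, ∑ q ∈ (vec ((A * l : ℕ) : ℤ) ×ˢ vec ((A * l : ℕ) : ℤ)).filter
        (fun q => ip q.1 q.2 = 2 * T - (A * l : ℕ)), g q.1 q.2 = κ * L T) :
    ∑ q ∈ vec ((A * l : ℕ) : ℤ) ×ˢ vec ((A * l : ℕ) : ℤ), E l q.1 * E l q.2 * g q.1 q.2 =
      κ * ∑ T ∈ S, sl A l T * L T := by
  rw [E_sum (s := S.image (fun T : ℕ => 2 * (T : ℤ) - (A * l : ℕ))) (by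
    intro v w hv hw hg
    obtain ⟨T, hT, e⟩ := hs v w hv hw hg
    rw [mem_image]
    exact ⟨T, hT, e.symm⟩), sum_image (by
    intro a _ b _ hab
    simp only at hab
    have : (a : ℤ) = b := by linarith
    exact_mod_cast this), mul_sum]
  refine sum_congr rfl fun T hT => ?_
  have h3T := hS T hT
  have hj : jacobiSym (2 * (T : ℤ) - (A * l : ℕ)) 3 = -1 := by
    have h4 := h.n3
    rw [jacobiSym.mod_left]
    have : (2 * (T : ℤ) - (A * l : ℕ)) % ((3 : ℕ) : ℤ) = 2 := by push_cast at h4 ⊢; omega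
    rw [this]
    norm_num
  have e : Sg l g (A * l) (A * l) (2 * (T : ℤ) - (A * l : ℕ)) = sgp 1 (A * l) l T * (κ * L T) := by
    rw [← hL T hT, mul_sum]
    unfold Sg
    refine sum_congr rfl fun q hq => ?_
    rw [mem_filter, mem_product, mem_vec, mem_vec] at hq
    rw [h.pp hq.1.1 hq.1.2 hq.2]
  rw [hj, e]
  unfold sl
  ring

/-- `T` for a pair of vectors -/
theorem HA.ex_T {v w : V3} (hv : ip v v = (A * l : ℕ)) (hw : ip w w = (A * l : ℕ)) :
    ∃ T : ℕ, T ≤ A * l ∧ ip v w = 2 * T - (A * l : ℕ) := by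
  have hcs := Pool.Agent.N218.P21.cs v w
  rw [hv, hw] at hcs
  have hn0 : (0 : ℤ) ≤ (A * l : ℕ) := Int.natCast_nonneg _
  have habs : |ip v w| ≤ (A * l : ℕ) := by
    apply abs_le_of_sq_le_sq _ hn0
    rw [pow_two ((A * l : ℕ) : ℤ)]
    exact hcs
  obtain ⟨hb1, hb2⟩ := abs_le.1 habs
  have h28 := dvd12 v w
  rw [hv, hw] at h28
  have hpar : (2 : ℤ) ∣ (A * l : ℕ) + ip v w := by
    have e1 : ((A * l : ℕ) : ℤ) * (A * l : ℕ) - ip v w ^ 2 =
        ((A * l : ℕ) + ip v w) * ((A * l : ℕ) - ip v w) := by ring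
    rw [e1] at h28
    have h5 : (2 : ℤ) ∣ ((A * l : ℕ) + ip v w) * ((A * l : ℕ) - ip v w) :=
      Dvd.dvd.trans (by norm_num) h28
    rcases Int.prime_two.dvd_or_dvd h5 with h | h
    · exact h
    · have e2 : ((A * l : ℕ) : ℤ) + ip v w = ((A * l : ℕ) - ip v w) + 2 * ip v w := by ring
      rw [e2]
      exact dvd_add h (dvd_mul_right _ _)
  obtain ⟨T, hT⟩ := hpar
  have hT0 : 0 ≤ T := by linarith
  obtain ⟨U, rfl⟩ := Int.eq_ofNat_of_zero_le hT0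
  refine ⟨U, ?_, by linarith⟩
  have : (U : ℤ) ≤ (A * l : ℕ) := by linarith
  exact_mod_cast this

omit h in
theorem det_T {n T : ℕ} (hT : T < n) : ((4 * (n - T) * T : ℕ) : ℤ) = n * n - (2 * T - n) ^ 2 := by
  push_cast [Nat.cast_sub hT.le]
  ring

/-- the same norms, `7 ∤ A` -/
theorem same (h7 : jacobiSym A 7 = 1) :
    576 * ∑ T ∈ (range (A * l)).filter (fun T => 3 ∣ T ∧ 7 ∣ A * l - T),
      sl A l T * ld21 (A * l) T = 3 * Rr l (A * l : ℕ) ^ 2 + Zr l (A * l) ^ 2 := by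
  have hFl : Fact l.Prime := ⟨h.pl⟩
  have hS7 : Sp7 (A * l) := by
    apply Sp7_of; push_cast; rw [jacobiSym.mul_left, h7, h.l7]; norm_num
  have hn3 := h.n3
  have hn7 : ¬ 7 ∣ A * l := by unfold Sp7 at hS7; omega
  set n := A * l with hnd
  have key : 4 * ∑ q ∈ vec (n : ℤ) ×ˢ vec (n : ℤ), E l q.1 * E l q.2 * (cl q.1 q.2 *
      (if ip q.1 q.2 % 7 = (n : ℤ) % 7 ∧ ip q.1 q.2 % 3 = (-(n : ℤ)) % 3 then (1 : ℤ) else 0)) =
      ∑ i : Fin 8, Ni l i n * Ni l i n := by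
    rw [← Vi_pairs (l := l) (n : ℤ) (fun v w => if ip v w % 7 = (n : ℤ) % 7 ∧
      ip v w % 3 = (-(n : ℤ)) % 3 then (1 : ℤ) else 0), mul_sum]
    refine sum_congr rfl fun i _ => ?_
    refine line4 h.l2 h.l3 h.j3l h.jm1 (fun v hv => h.iso hv) i (by omega) (by omega) ?_ (by omega)
      (by omega) ?_
    · have e : ((n : ℤ) % 7) ^ 2 - n * n = ((n : ℤ) % 7 - n) * ((n : ℤ) % 7 + n) := by ring
      rw [e]
      exact Dvd.dvd.mul_right (by omega) _
    · have e : ((-(n : ℤ)) % 3) ^ 2 - n * n = ((-(n : ℤ)) % 3 - (-n)) * ((-(n : ℤ)) % 3 + (-n)) := by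
        ring
      rw [e]
      exact Dvd.dvd.mul_right (by omega) _
  have h1 := T_sum h (g := fun v w => cl v w * (if ip v w % 7 = (n : ℤ) % 7 ∧
      ip v w % 3 = (-(n : ℤ)) % 3 then (1 : ℤ) else 0))
    (S := (range n).filter (fun T => 3 ∣ T ∧ 7 ∣ n - T)) (κ := 24) (L := ld21 n)
    (fun T hT => (mem_filter.1 hT).2.1) (by
      intro v w hv hw hg
      obtain ⟨T, hT, e⟩ := h.ex_T hv hw
      rw [← hnd] at hT e
      refine ⟨T, ?_, e⟩
      have hc : ip v w % 7 = (n : ℤ) % 7 ∧ ip v w % 3 = (-(n : ℤ)) % 3 := by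
        by_contra hc
        exact hg (by simp only [if_neg hc, mul_zero])
      obtain ⟨c1, c2⟩ := hc
      rw [e] at c1 c2
      rw [mem_filter, mem_range]
      have hTn : T ≠ n := by rintro rfl; omega
      refine ⟨by omega, by omega, by omega⟩) (by
      intro T hT
      rw [mem_filter, mem_range] at hT
      obtain ⟨hTn, hT3, hT7⟩ := hT
      have hT0 : T ≠ 0 := by
        rintro rfl
        rw [Nat.sub_zero] at hT7
        exact hn7 hT7
      rw [← hnd]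
      have e1 : ∀ q ∈ (vec (n : ℤ) ×ˢ vec (n : ℤ)).filter
          (fun q => ip q.1 q.2 = 2 * (T : ℤ) - n), cl q.1 q.2 * (if ip q.1 q.2 % 7 = (n : ℤ) % 7 ∧
          ip q.1 q.2 % 3 = (-(n : ℤ)) % 3 then (1 : ℤ) else 0) = cl q.1 q.2 := by
        intro q hq
        rw [mem_filter] at hq
        rw [hq.2, if_pos (by constructor <;> omega), mul_one]
      have h7D : 7 ∣ 4 * (n - T) * T := (hT7.mul_left 4).mul_right T
      have hdet := det_T hTn
      have hD0 : 0 < 4 * (n - T) * T := by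
        have : 0 < n - T := by omega
        positivity
      rw [sum_congr rfl e1, cnt_cl hS7 (by rw [← hdet]; exact_mod_cast h7D)]
      unfold ld21
      by_cases h2 : 2 ∣ n
      · rw [if_pos h2]
        have hE := Fn_two h.Fnn h2
        have h4 : 4 ∣ n := by
          obtain ⟨m, hm, -⟩ := hE
          exact ⟨m, hm⟩
        have hb : ((T : ℤ) - ((n - T : ℕ) : ℤ)) = 2 * T - n := by
          rw [Nat.cast_sub hTn.le]; ring
        rw [hb]
        exact Pool.Agent.N973.P21.t_CP7E Pool.Agent.N878.PC21.t_PCE n n (2 * T - n) _ hE hn3 hS7 h4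
          hS7 hD0 h7D hdet
      · rw [if_neg h2]
        have hO := Fn_odd h.Fnn h2
        exact Pool.Agent.N973.P21.t_CP7 Pool.Agent.N878.PC21.t_PC n n (2 * T - n) _ hO.sq hO.m4 hS7
          hS7 (by omega) hD0 h7D hdet)
  rw [← hnd] at h1
  have h4 := sum_SS h.l2 h.l3 h.j3l (n1 := n) (n2 := n) (fun v hv => h.iso hv)
    (fun v hv => h.iso hv) hS7 hS7
  rw [← key, h1] at h4
  linear_combination h4

/-- the same norms, `7 ∣ A` -/
theorem same7 (h7 : 7 ∣ A) (h49 : ¬ 49 ∣ A) :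
    576 * ∑ T ∈ (range (A * l)).filter (fun T => 3 ∣ T ∧ ¬ 7 ∣ T),
      sl A l T * ld21r (A * l) T = 21 * Rr l (A * l : ℕ) ^ 2 - Zr l (A * l) ^ 2 := by
  have hFl : Fact l.Prime := ⟨h.pl⟩
  have p7 : Nat.Prime 7 := by norm_num
  have h7l' : ¬ 7 ∣ l := by
    intro h1
    have h7l := h.l7
    rw [jacobiSym.mod_left] at h7l
    have e1 : (l : ℤ) % ((7 : ℕ) : ℤ) = 0 := by push_cast; omega
    rw [e1] at h7l
    norm_num at h7l
  have hn49 : ¬ 49 ∣ A * l := by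
    intro h1
    have h3 : Nat.Coprime 49 l := by
      have : Nat.Coprime (7 ^ 2) l :=
        Nat.Coprime.pow_left 2 ((Nat.Prime.coprime_iff_not_dvd p7).2 h7l')
      exact this
    exact h49 (h3.dvd_of_dvd_mul_right h1)
  have hn3 := h.n3
  have hn7 : 7 ∣ A * l := h7.mul_right l
  set n := A * l with hnd
  have hr3 : (3 : ℤ) ∣ ((-(n : ℤ)) % 3) ^ 2 - n * n := by
    have e : ((-(n : ℤ)) % 3) ^ 2 - n * n = ((-(n : ℤ)) % 3 - (-n)) * ((-(n : ℤ)) % 3 + (-n)) := by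
      ring
    rw [e]
    exact Dvd.dvd.mul_right (by omega) _
  have hcl : ∀ v w : V3, ip v v = n → cl v w = if (7 : ℤ) ∣ ip v w then 1 else 0 := fun v w hv =>
    (ind_ip hn7 hn49 hv).symm
  have k1 := all2 h.l2 h.l3 h.jm1 (n := n) (fun v hv => h.iso hv) (g := fun _ _ => 1)
    (fun _ _ => rfl) (r3 := (-(n : ℤ)) % 3) (by omega) (by omega) hr3
  have k2 := all2 h.l2 h.l3 h.jm1 (n := n) (fun v hv => h.iso hv) (g := cl)
    (fun v w => by
      unfold cl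
      refine sum_congr rfl fun i _ => ?_
      simp only [Ot_neg]) (r3 := (-(n : ℤ)) % 3) (by omega) (by omega) hr3
  rw [← R_pairs] at k1
  rw [← N_pairs] at k2
  have h4 := sum_77 h.l2 h.l3 h.j3l (n1 := n) (n2 := n) (fun v hv => h.iso hv)
    (fun v hv => h.iso hv) hn7 hn49 hn7 hn49
  have h1 := T_sum h (g := fun v w => (1 - cl v w) *
      (if ip v w % 3 = (-(n : ℤ)) % 3 then (1 : ℤ) else 0))
    (S := (range n).filter (fun T => 3 ∣ T ∧ ¬ 7 ∣ T)) (κ := 12) (L := ld21r n)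
    (fun T hT => (mem_filter.1 hT).2.1) (by
      intro v w hv hw hg
      obtain ⟨T, hT, e⟩ := h.ex_T hv hw
      rw [← hnd] at hT e hv
      refine ⟨T, ?_, e⟩
      have hc : ip v w % 3 = (-(n : ℤ)) % 3 := by
        by_contra hc
        exact hg (by simp only [if_neg hc, mul_zero])
      have h7' : ¬ (7 : ℤ) ∣ ip v w := by
        intro h8
        apply hg
        show (1 - cl v w) * _ = 0
        rw [hcl v w hv, if_pos h8]
        norm_num
      rw [e] at hc h7'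
      rw [mem_filter, mem_range]
      have hTn : T ≠ n := by rintro rfl; omega
      refine ⟨by omega, by omega, by omega⟩) (by
      intro T hT
      rw [mem_filter, mem_range] at hT
      obtain ⟨hTn, hT3, hT7⟩ := hT
      have hT0 : T ≠ 0 := by
        rintro rfl
        exact hT7 (dvd_zero 7)
      rw [← hnd]
      have e1 : ∀ q ∈ (vec (n : ℤ) ×ˢ vec (n : ℤ)).filter
          (fun q => ip q.1 q.2 = 2 * (T : ℤ) - n), (1 - cl q.1 q.2) *
          (if ip q.1 q.2 % 3 = (-(n : ℤ)) % 3 then (1 : ℤ) else 0) = 1 := by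
        intro q hq
        rw [mem_filter, mem_product, mem_vec, mem_vec] at hq
        rw [hcl _ _ hq.1.1, hq.2, if_neg (by omega), if_pos (by omega)]
        norm_num
      have hdet := det_T hTn
      have hD0 : 0 < 4 * (n - T) * T := by
        have : 0 < n - T := by omega
        positivity
      rw [sum_congr rfl e1, cnt_one]
      unfold ld21r
      by_cases h2 : 2 ∣ n
      · rw [if_pos h2]
        have hE := Fn_two h.Fnn h2
        have h4 : 4 ∣ n := by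
          obtain ⟨m, hm, -⟩ := hE
          exact ⟨m, hm⟩
        have hb : ((T : ℤ) - ((n - T : ℕ) : ℤ)) = 2 * T - n := by
          rw [Nat.cast_sub hTn.le]; ring
        rw [hb]
        exact Pool.Agent.N878.PC21.t_PCE n n (2 * T - n) _ hE hn3 h4 hD0 hdet
      · rw [if_neg h2]
        have hO := Fn_odd h.Fnn h2
        exact Pool.Agent.N878.PC21.t_PC n n (2 * T - n) _ hO.sq hO.m4 (by omega) hD0 hdet)
  rw [← hnd] at h1
  have e5 : ∑ q ∈ vec (n : ℤ) ×ˢ vec (n : ℤ), E l q.1 * E l q.2 * ((1 - cl q.1 q.2) *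
      (if ip q.1 q.2 % 3 = (-(n : ℤ)) % 3 then (1 : ℤ) else 0)) =
      (∑ q ∈ vec (n : ℤ) ×ˢ vec (n : ℤ), E l q.1 * E l q.2 * (1 *
      (if ip q.1 q.2 % 3 = (-(n : ℤ)) % 3 then (1 : ℤ) else 0))) -
      ∑ q ∈ vec (n : ℤ) ×ˢ vec (n : ℤ), E l q.1 * E l q.2 * (cl q.1 q.2 *
      (if ip q.1 q.2 % 3 = (-(n : ℤ)) % 3 then (1 : ℤ) else 0)) := by
    rw [← sum_sub_distrib]
    exact sum_congr rfl fun q _ => by ring
  rw [e5] at h1
  linear_combination (-48) * h1 + 24 * k1 - 24 * k2 - h4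

end

end Pool.Agent.N970.RQ3
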