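import Mathlib
import Pool.Agent.N295.P15.C2

/-!
# Sums of a genus character over the divisors of a number (project RQ)

`n` is squarefree, `n ≡ 3 mod 4`; for a divisor `a` of `m` the value of the genus character at the
form `[a, t, - m / a]` is the product over the primes of `n` of the symbols of `a` or `- m / a`.
The sum over the divisors with any weights at the primes is a product of local sums.
-/

set_option autoImplicit false

namespace Pool.Agent.N970.RQ

open Finset
open Pool.Agent.Z700 (hh fac)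
open Pool.Agent.Y574.Z7 (chp chp_mul chp_one chp_self chp_nd chp_sq chp_pm jac_eq sum_local dvd_fac
  nd4)
open Pool.Agent.N295.P15 (Ps Ps_fac Ps_pm Fd pf_prime pf_dvd fac4 chp4)
open Pool.Agent.N969.P15 (tw ep2)

variable {n m : ℕ}

/-- the weight of a divisor -/
def Gd (n m a : ℕ) : ℤ := ∏ p ∈ n.primeFactors,
  if p ∣ a then jacobiSym (-((m / a : ℕ) : ℤ)) p else jacobiSym a p

/-- the local weight -/
def lam (n m l i : ℕ) : ℤ := Ps n.primeFactors l ^ i *
  (if l ∣ n then (if i = 0 then 1 else if i = m.factorization l then ZMod.χ₄ l * chp l m else 0)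
    else 1)

theorem lam_zero (l : ℕ) : lam n m l 0 = 1 := by
  unfold lam
  rw [if_pos rfl, pow_zero, one_mul, ite_self]

/-- the local weight in terms of the symbols -/
theorem fac_wt (h : Fd n) (hm : m ≠ 0) {p a : ℕ} (hp : p ∈ n.primeFactors) (ha : a ∣ m) :
    (if p ∣ a then jacobiSym (-((m / a : ℕ) : ℤ)) p else jacobiSym a p) =
      chp p a * (if a.factorization p = 0 then 1 else if a.factorization p = m.factorization p then
        ZMod.χ₄ p * chp p m else 0) := by
  obtain ⟨b, rfl⟩ := ha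
  have a0 : a ≠ 0 := left_ne_zero_of_mul hm
  have b0 : b ≠ 0 := right_ne_zero_of_mul hm
  have hpp := pf_prime hp
  rw [Nat.mul_div_cancel_left _ (Nat.pos_of_ne_zero a0), jacobiSym.neg _ (h.podd hp), jac_eq hpp,
    jac_eq hpp]
  simp only [dvd_fac hpp a0, dvd_fac hpp b0, Nat.factorization_mul a0 b0, Finsupp.add_apply, chp_mul]
  have s1 := chp_sq hpp a0
  generalize a.factorization p = i at *
  generalize b.factorization p = j at *
  generalize chp p a = α at *
  generalize chp p b = β at *
  generalize ZMod.χ₄ p = κ at *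
  by_cases h1 : i = 0
  · have h2 : ¬ 1 ≤ i := by omega
    simp only [if_neg h2, if_pos h1, mul_one]
  · have h2 : 1 ≤ i := by omega
    simp only [if_pos h2, if_neg h1]
    by_cases h3 : j = 0
    · have h4 : ¬ 1 ≤ j := by omega
      have h5 : i = i + j := by omega
      rw [if_neg h4, if_pos h5]
      linear_combination (-(κ * β)) * s1
    · have h4 : 1 ≤ j := by omega
      have h5 : ¬ i = i + j := by omega
      rw [if_pos h4, if_neg h5]
      ring

/-- the weight as a product of local weights -/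
theorem Gd_eq (h : Fd n) (hm : m ≠ 0) {a : ℕ} (ha : a ∣ m) :
    Gd n m a = ∏ l ∈ m.primeFactors, lam n m l (a.factorization l) := by
  classical
  have a0 : a ≠ 0 := by rintro rfl; exact hm (zero_dvd_iff.1 ha)
  unfold Gd lam
  rw [Finset.prod_congr rfl fun p hp => fac_wt h hm hp ha, Finset.prod_mul_distrib,
    Finset.prod_mul_distrib]
  have e1 : ∏ p ∈ n.primeFactors, chp p a = Ps n.primeFactors a := rfl
  rw [e1, Ps_fac n.primeFactors m.primeFactors a a0 (Nat.primeFactors_mono ha hm)]
  congr 1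
  have e2 : ∀ l ∈ m.primeFactors, (if l ∣ n then (if a.factorization l = 0 then (1 : ℤ) else
      if a.factorization l = m.factorization l then ZMod.χ₄ l * chp l m else 0) else 1) =
      (if l ∈ n.primeFactors then (if a.factorization l = 0 then (1 : ℤ) else
      if a.factorization l = m.factorization l then ZMod.χ₄ l * chp l m else 0) else 1) := by
    intro l hl
    have := h.mem (Nat.prime_of_mem_primeFactors hl)
    simp only [this]
  rw [Finset.prod_congr rfl e2, Finset.prod_ite_mem]
  symm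
  refine Finset.prod_subset Finset.inter_subset_right fun l hl hl' => ?_
  have : ¬ l ∣ m := by
    intro h1
    exact hl' (Finset.mem_inter.2 ⟨Nat.mem_primeFactors.2 ⟨pf_prime hl, h1, hm⟩, hl⟩)
  rw [if_pos (Nat.factorization_eq_zero_of_not_dvd fun h1 => this (h1.trans ha))]

/-- the local sum with weights -/
def Lc (n m : ℕ) (c : ℕ → ℕ → ℤ) (l : ℕ) : ℤ :=
  ∑ i ∈ range (m.factorization l + 1), c l i * lam n m l i

/-- the sum over the divisors with weights -/
theorem sum_c (h : Fd n) (hm : m ≠ 0) (c : ℕ → ℕ → ℤ) :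
    ∑ a ∈ m.divisors, (∏ l ∈ m.primeFactors, c l (a.factorization l)) * Gd n m a =
      ∏ l ∈ m.primeFactors, Lc n m c l := by
  have h1 := sum_local (fun l i _ => c l i * lam n m l i) m.primeFactors
    (fun l hl => Nat.prime_of_mem_primeFactors hl) m 1 hm one_ne_zero
    (fun l hl hd => Nat.mem_primeFactors.2 ⟨hl, hd, hm⟩)
    (fun l hl hd => absurd (Nat.dvd_one.1 hd) hl.one_lt.ne')
  simp only [Nat.divisors_one, Finset.sum_singleton, Nat.factorization_one, Finsupp.zero_apply,
    zero_add, Finset.sum_range_one] at h1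
  unfold Lc
  rw [← h1]
  refine Finset.sum_congr rfl fun a ha => ?_
  rw [Gd_eq h hm (Nat.dvd_of_mem_divisors ha), Finset.prod_mul_distrib]

/-- the involution -/
theorem Gd_inv (h : Fd n) (hm : m ≠ 0)
    (H : ∀ p ∈ n.primeFactors, ¬ p ∣ m → jacobiSym (m : ℤ) p = ZMod.χ₄ p) {a : ℕ} (ha : a ∣ m) :
    Gd n m (m / a) = - Gd n m a := by
  have hkey : Gd n m (m / a) = (∏ p ∈ n.primeFactors, ZMod.χ₄ (p : ZMod 4)) * Gd n m a := by
    unfold Gd
    rw [← Finset.prod_mul_distrib]
    refine Finset.prod_congr rfl fun p hp => ?_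
    obtain ⟨b, rfl⟩ := ha
    have a0 : a ≠ 0 := left_ne_zero_of_mul hm
    have b0 : b ≠ 0 := right_ne_zero_of_mul hm
    have hpp := pf_prime hp
    have hodd := h.podd hp
    have e1 : a * b / a = b := Nat.mul_div_cancel_left _ (Nat.pos_of_ne_zero a0)
    have e2 : a * b / b = a := Nat.mul_div_cancel _ (Nat.pos_of_ne_zero b0)
    rw [e1, e2]
    have hχ : ZMod.χ₄ (p : ZMod 4) * ZMod.χ₄ (p : ZMod 4) = 1 := by
      have : p % 4 = 1 ∨ p % 4 = 3 := by rw [Nat.odd_iff] at hodd; omega
      rcases this with h1 | h1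
      · rw [ZMod.χ₄_nat_one_mod_four h1]; norm_num
      · rw [ZMod.χ₄_nat_three_mod_four h1]; norm_num
    by_cases h1 : p ∣ b
    · by_cases h2 : p ∣ a
      · rw [if_pos h1, if_pos h2, jacobiSym.neg _ hodd, jacobiSym.neg _ hodd, jac_eq hpp, jac_eq hpp,
          if_pos h1, if_pos h2]
        simp
      · rw [if_pos h1, if_neg h2, jacobiSym.neg _ hodd]
    · by_cases h2 : p ∣ a
      · rw [if_neg h1, if_pos h2, jacobiSym.neg _ hodd, ← mul_assoc, hχ, one_mul]
      · rw [if_neg h1, if_neg h2]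
        have h3 := H p hp (by
          intro h4
          rcases hpp.dvd_mul.1 h4 with h5 | h5
          · exact h2 h5
          · exact h1 h5)
        rw [← h3]
        push_cast
        rw [jacobiSym.mul_left]
        have h4 : jacobiSym (a : ℤ) p * jacobiSym (a : ℤ) p = 1 := by
          rw [jac_eq hpp, if_neg h2]
          exact chp_sq hpp a0
        linear_combination (-jacobiSym (b : ℤ) p) * h4
  rw [hkey, ← map_prod, ← Nat.cast_prod, h.prod, ZMod.χ₄_nat_three_mod_four h.m4]
  ring

/-- the product formula for the local sums and the involution -/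
theorem sum_inv (h : Fd n) (hm : m ≠ 0)
    (H : ∀ p ∈ n.primeFactors, ¬ p ∣ m → jacobiSym (m : ℤ) p = ZMod.χ₄ p) (c : ℕ → ℕ → ℤ) :
    ∏ l ∈ m.primeFactors, Lc n m c l =
      - ∏ l ∈ m.primeFactors, Lc n m (fun l i => c l (m.factorization l - i)) l := by
  rw [← sum_c h hm, ← sum_c h hm, ← Finset.sum_neg_distrib]
  refine Finset.sum_nbij' (fun a => m / a) (fun a => m / a) ?_ ?_ ?_ ?_ ?_
  · intro a ha
    exact Nat.mem_divisors.2 ⟨Nat.div_dvd_of_dvd (Nat.dvd_of_mem_divisors ha), hm⟩
  · intro a ha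
    exact Nat.mem_divisors.2 ⟨Nat.div_dvd_of_dvd (Nat.dvd_of_mem_divisors ha), hm⟩
  · intro a ha
    exact Nat.div_div_self (Nat.dvd_of_mem_divisors ha) hm
  · intro a ha
    exact Nat.div_div_self (Nat.dvd_of_mem_divisors ha) hm
  · intro a ha
    have hd := Nat.dvd_of_mem_divisors ha
    rw [Gd_inv h hm H hd]
    have e : ∀ l ∈ m.primeFactors, c l (a.factorization l) =
        c l (m.factorization l - (m / a).factorization l) := by
      intro l _
      rw [Nat.factorization_div hd, Finsupp.tsub_apply]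
      have : a.factorization l ≤ m.factorization l :=
        (Nat.factorization_le_iff_dvd (by rintro rfl; exact hm (zero_dvd_iff.1 hd)) hm).2 hd l
      congr 1
      omega
    rw [Finset.prod_congr rfl e]
    ring

/-- the full local sum -/
def Lf (n m l : ℕ) : ℤ := ∑ i ∈ range (m.factorization l + 1), lam n m l i

theorem hh_fd (h : Fd n) {D l : ℕ} (hl : l ∈ n.primeFactors) :
    hh n D l = ZMod.χ₄ l * (chp l n) ^ D.factorization l * chp l D := by
  have hp := pf_prime hl
  have hodd := h.podd hl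
  have hsq : chp l n * chp l n = 1 := chp_sq hp h.n0
  have e1 : jacobiSym ((n / l : ℕ) : ℤ) l = chp l n := by
    unfold chp
    rw [h.fac1 hl, pow_one]
  unfold hh
  rw [jacobiSym.neg _ hodd, jacobiSym.neg _ hodd, Nat.cast_mul, jacobiSym.mul_left, e1]
  have e2 : jacobiSym ((D / l ^ D.factorization l : ℕ) : ℤ) l = chp l D := rfl
  rw [e2]
  split_ifs with h
  · obtain ⟨k, hk⟩ := h
    rw [hk, ← two_mul, pow_mul, sq, hsq, one_pow]
    ring
  · rw [Nat.not_even_iff_odd] at h
    obtain ⟨k, hk⟩ := h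
    rw [hk, pow_succ, pow_mul, sq, hsq, one_pow]
    ring

/-- the local weight at the end, at a prime of `n` -/
theorem lam_top (h : Fd n) (hm : m ≠ 0) {l : ℕ} (hl : l ∈ n.primeFactors) (hlm : l ∣ m) :
    lam n m l (m.factorization l) = hh n m l := by
  have h1 := (dvd_fac (pf_prime hl) hm).1 hlm
  unfold lam
  rw [if_pos (pf_dvd hl), if_neg (by omega), if_pos rfl, hh_fd h hl, h.Ps_p hl]
  ring

/-- the local weight away from `n` -/
theorem lam_nd (h : Fd n) {l i : ℕ} (hl : l.Prime) (h2 : l ≠ 2) (hn : ¬ l ∣ n) :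
    lam n m l i = jacobiSym (-(n : ℤ)) l ^ i := by
  unfold lam
  rw [if_neg hn, mul_one, h.Ps_l hl h2 fun h1 => hn (pf_dvd h1)]

theorem sum_two {v : ℕ} (hv : 1 ≤ v) (f : ℕ → ℤ) (hf : ∀ i, i ≠ 0 → i ≠ v → f i = 0) :
    ∑ i ∈ range (v + 1), f i = f 0 + f v := by
  rw [Finset.sum_eq_add_of_mem 0 v (by simp) (by simp) (by omega)]
  rintro i - ⟨h1, h2⟩
  exact hf i h1 h2

/-- the full local sum at a prime of `n` -/
theorem Lf_pf (h : Fd n) (hm : m ≠ 0) {l : ℕ} (hl : l ∈ n.primeFactors) (hlm : l ∣ m) :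
    Lf n m l = 1 + hh n m l := by
  have h1 := (dvd_fac (pf_prime hl) hm).1 hlm
  unfold Lf
  rw [sum_two h1, lam_zero, lam_top h hm hl hlm]
  intro i hi hi'
  unfold lam
  rw [if_pos (pf_dvd hl), if_neg hi, if_neg hi', mul_zero]

theorem hh_four (h : Fd n) {D l : ℕ} (hD : D ≠ 0) (hl : l ∈ n.primeFactors) :
    hh n (4 * D) l = hh n D l := by
  rw [hh_fd h hl, hh_fd h hl, fac4 hD (pf_prime hl) (h.ne2 hl), chp4 (pf_prime hl)]

/-- the full local sum is the local density -/
theorem Lf_fac (h : Fd n) (hm : m ≠ 0) {l : ℕ} (hl : l.Prime) (h2 : l ≠ 2) (hlm : l ∣ m) :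
    Lf n m l = fac n (4 * m) l := by
  unfold fac
  by_cases hn : l ∣ n
  · have hl' := (h.mem hl).2 hn
    rw [if_pos hn, Lf_pf h hm hl' hlm, hh_four h hm hl']
  · rw [if_neg hn, fac4 hm hl h2]
    unfold Lf
    exact Finset.sum_congr rfl fun i _ => lam_nd h hl h2 hn

/-- the full local sum at `2` -/
theorem Lf_two (h : Fd n) (hm : m ≠ 0) : Lf n m 2 = tw n (4 * m) := by
  unfold Lf tw
  have e : (4 * m).factorization 2 = m.factorization 2 + 2 := by
    rw [Nat.factorization_mul (by norm_num) hm, Finsupp.add_apply, show (4 : ℕ) = 2 ^ 2 from rfl,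
      Nat.prime_two.factorization_pow, Finsupp.single_eq_same]
    ring
  rw [e]
  have e2 : m.factorization 2 + 2 - 1 = m.factorization 2 + 1 := by omega
  rw [e2]
  refine Finset.sum_congr rfl fun i _ => ?_
  unfold lam
  rw [if_neg h.nd2, mul_one, h.Ps_two]
  rfl

/-- the product of the local densities away from a set of odd primes -/
theorem prod_Lf (h : Fd n) (hm : m ≠ 0) (S : Finset ℕ) (hS : 2 ∉ S) :
    tw n (4 * m) * ∏ l ∈ ((4 * m).primeFactors.erase 2) \ S, fac n (4 * m) l =
      ∏ l ∈ m.primeFactors \ S, Lf n m l := by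
  have e1 : ((4 * m).primeFactors.erase 2) \ S = (m.primeFactors \ S).erase 2 := by
    ext l
    simp only [Finset.mem_sdiff, Finset.mem_erase, Nat.mem_primeFactors]
    constructor
    · rintro ⟨⟨h1, h2, h3, _⟩, h4⟩
      refine ⟨h1, ⟨h2, ?_, hm⟩, h4⟩
      rcases h2.dvd_mul.1 h3 with h5 | h5
      · exact absurd h5 (nd4 h2 h1)
      · exact h5
    · rintro ⟨h1, ⟨h2, h3, _⟩, h4⟩
      exact ⟨⟨h1, h2, h3.mul_left 4, by positivity⟩, h4⟩
  rw [e1]
  have e2 : ∏ l ∈ (m.primeFactors \ S).erase 2, fac n (4 * m) l =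
      ∏ l ∈ (m.primeFactors \ S).erase 2, Lf n m l := by
    refine Finset.prod_congr rfl fun l hl => ?_
    have h1 := Finset.mem_erase.1 hl
    have h2 := (Finset.mem_sdiff.1 h1.2).1
    exact (Lf_fac h hm (Nat.prime_of_mem_primeFactors h2) h1.1 (Nat.dvd_of_mem_primeFactors h2)).symm
  rw [e2, ← Lf_two h hm]
  by_cases h2 : 2 ∈ m.primeFactors \ S
  · exact Finset.mul_prod_erase _ _ h2
  · rw [Finset.erase_eq_of_notMem h2]
    have h3 : ¬ 2 ∣ m := by
      intro h4
      exact h2 (Finset.mem_sdiff.2 ⟨Nat.mem_primeFactors.2 ⟨Nat.prime_two, h4, hm⟩, hS⟩)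
    unfold Lf
    rw [Nat.factorization_eq_zero_of_not_dvd h3]
    simp [lam_zero]

/-! ### weights on a set of primes -/

/-- the weight on exponents: positive exponents at the primes of `S` -/
def cS (S : Finset ℕ) (l i : ℕ) : ℤ := if l ∈ S then (if 1 ≤ i then 1 else 0) else 1

/-- the sum over the divisors which are divisible by all the primes of `S` -/
def WS (n m : ℕ) (S : Finset ℕ) : ℤ := ∑ a ∈ m.divisors.filter (fun a => ∀ l ∈ S, l ∣ a), Gd n m a

theorem WS_eq (h : Fd n) (hm : m ≠ 0) (S : Finset ℕ) (hS : ∀ l ∈ S, l.Prime ∧ l ∣ m) :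
    WS n m S = (∏ l ∈ S, (Lf n m l - 1)) * ∏ l ∈ m.primeFactors \ S, Lf n m l := by
  classical
  have hsub : S ⊆ m.primeFactors := fun l hl => Nat.mem_primeFactors.2 ⟨(hS l hl).1, (hS l hl).2, hm⟩
  have e1 : WS n m S = ∑ a ∈ m.divisors, (∏ l ∈ m.primeFactors, cS S l (a.factorization l)) *
      Gd n m a := by
    unfold WS
    rw [Finset.sum_filter]
    refine Finset.sum_congr rfl fun a ha => ?_
    have a0 : a ≠ 0 := (Nat.pos_of_mem_divisors ha).ne'
    have e2 : ∏ l ∈ m.primeFactors, cS S l (a.factorization l) =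
        if (∀ l ∈ S, l ∣ a) then 1 else 0 := by
      unfold cS
      rw [Finset.prod_ite_mem, Finset.inter_eq_right.2 hsub, Finset.prod_ite_zero]
      simp only [Finset.prod_const_one]
      congr 1
      apply propext
      exact forall₂_congr fun l hl => (dvd_fac (hS l hl).1 a0).symm
    rw [e2]
    split_ifs <;> simp
  rw [e1, sum_c h hm, ← Finset.prod_sdiff hsub, mul_comm]
  congr 1
  · refine Finset.prod_congr rfl fun l hl => ?_
    unfold Lc Lf cS
    rw [Finset.sum_range_succ', Finset.sum_range_succ' (fun i => lam n m l i), lam_zero]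
    simp [hl]
  · refine Finset.prod_congr rfl fun l hl => ?_
    have := (Finset.mem_sdiff.1 hl).2
    unfold Lc Lf cS
    simp [this]

/-- the full sum vanishes -/
theorem full_zero (h : Fd n) (hm : m ≠ 0)
    (H : ∀ p ∈ n.primeFactors, ¬ p ∣ m → jacobiSym (m : ℤ) p = ZMod.χ₄ p) :
    ∏ l ∈ m.primeFactors, Lf n m l = 0 := by
  have h1 := sum_inv h hm H (fun _ _ => 1)
  have e : ∀ l, Lc n m (fun _ _ => 1) l = Lf n m l := by
    intro l
    unfold Lc Lf
    simp
  simp only [e] at h1
  linarith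

/-- the product away from a set of primes and the weights at the ends -/
theorem part_zero (h : Fd n) (hm : m ≠ 0)
    (H : ∀ p ∈ n.primeFactors, ¬ p ∣ m → jacobiSym (m : ℤ) p = ZMod.χ₄ p) (S : Finset ℕ)
    (hS : ∀ l ∈ S, l.Prime ∧ l ∣ m) :
    (1 + ∏ l ∈ S, lam n m l (m.factorization l)) * ∏ l ∈ m.primeFactors \ S, Lf n m l = 0 := by
  classical
  have hsub : S ⊆ m.primeFactors := fun l hl => Nat.mem_primeFactors.2 ⟨(hS l hl).1, (hS l hl).2, hm⟩
  have h1 := sum_inv h hm H (fun l i => if l ∈ S then (if i = 0 then 1 else 0) else 1)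
  have e1 : ∏ l ∈ m.primeFactors, Lc n m (fun l i => if l ∈ S then (if i = 0 then 1 else 0) else 1) l =
      ∏ l ∈ m.primeFactors \ S, Lf n m l := by
    rw [← Finset.prod_sdiff hsub]
    have e2 : ∏ l ∈ S, Lc n m (fun l i => if l ∈ S then (if i = 0 then 1 else 0) else 1) l = 1 := by
      refine Finset.prod_eq_one fun l hl => ?_
      unfold Lc
      simp only [hl, if_true, ite_mul, one_mul, zero_mul]
      rw [Finset.sum_ite_eq' (range (m.factorization l + 1)) 0, if_pos (by simp), lam_zero]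
    rw [e2, mul_one]
    refine Finset.prod_congr rfl fun l hl => ?_
    have := (Finset.mem_sdiff.1 hl).2
    unfold Lc Lf
    simp [this]
  have e3 : ∏ l ∈ m.primeFactors, Lc n m (fun l i => (fun l i => if l ∈ S then
      (if i = 0 then (1 : ℤ) else 0) else 1) l (m.factorization l - i)) l =
      (∏ l ∈ S, lam n m l (m.factorization l)) * ∏ l ∈ m.primeFactors \ S, Lf n m l := by
    rw [← Finset.prod_sdiff hsub, mul_comm]
    congr 1
    · refine Finset.prod_congr rfl fun l hl => ?_
      unfold Lc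
      simp only [hl, if_true, ite_mul, one_mul, zero_mul]
      rw [Finset.sum_eq_single (m.factorization l)]
      · simp
      · intro i hi hi'
        rw [if_neg]
        have := Finset.mem_range.1 hi
        omega
      · intro hi
        exact absurd (by simp) hi
    · refine Finset.prod_congr rfl fun l hl => ?_
      have := (Finset.mem_sdiff.1 hl).2
      unfold Lc Lf
      simp [this]
  rw [e1, e3] at h1
  linarith

end Pool.Agent.N970.RQ
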