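import Pool.Agent.N970.Sgn.Psi
import Pool.Agent.N973.P21.REL

/-!
# The signs of the vectors of the lattice ramified at `3`: the prime `l` and the prime `3`
-/

set_option autoImplicit false

namespace Pool.Agent.N970.RQ3

open Finset
open Pool.Agent.N969.P15 (V3)
open Pool.Agent.N877.P21 (ip vec)
open Pool.Agent.N218.P21 (sg sg' ta mem_vec sg_sg' sg'_sg ta_ta ip_ta2 ip_sg2)
open Pool.Agent.N973.P21 (ha hb hc ha_ha hb_hb hc_hc ip_ha ip_hb ip_hc)
open Pool.Agent.N844.P17G (Iso sig)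
open Pool.Agent.N970.Sgn

theorem frm3 : Frm ip 6 where
  symm := by intro v w; unfold ip; ring
  lin := by
    intro u v w x y
    simp only [ip, Pi.add_apply, Pi.smul_apply, smul_eq_mul]
    ring
  gram := by
    intro u v w
    simp only [ip, det3]
    ring

theorem sim_ta : Sim ip ip 1 ta where
  iso := by intro v w; rw [ip_ta2]; ring
  lin := by
    intro x y v w
    funext i
    fin_cases i <;> simp [ta] <;> ring

theorem sim_ha : Sim ip ip 1 ha where
  iso := by intro v w; rw [ip_ha]; ring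
  lin := by
    intro x y v w
    funext i
    fin_cases i <;> simp [ha] <;> ring

theorem sim_hb : Sim ip ip 1 hb where
  iso := by intro v w; rw [ip_hb]; ring
  lin := by
    intro x y v w
    funext i
    fin_cases i <;> simp [hb] <;> ring

theorem sim_hc : Sim ip ip 1 hc where
  iso := by intro v w; rw [ip_hc]; ring
  lin := by
    intro x y v w
    funext i
    fin_cases i <;> simp [hc] <;> ring

/-- the sign at `3` -/
def o (v : V3) : ℤ := jacobiSym (v 1 - v 2) 3

theorem o_mul (v w : V3) : o v * o w = jacobiSym (ip v w) 3 := by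
  unfold o
  rw [← jacobiSym.mul_left]
  apply jacobiSym.mod_left'
  have e : (v 1 - v 2) * (w 1 - w 2) = ip v w + 3 * (-(v 0 * w 0) - v 1 * w 1 - v 2 * w 2
    - v 1 * w 2 - v 2 * w 1) := by
    unfold ip
    ring
  rw [e]
  simp

theorem jm {a b : ℤ} (h : (3 : ℤ) ∣ a - b) : jacobiSym a 3 = jacobiSym b 3 := by
  apply jacobiSym.mod_left'
  omega

theorem jneg (a : ℤ) : jacobiSym (-a) 3 = - jacobiSym a 3 := by
  have e : -a = (-1) * a := by ring
  rw [e, jacobiSym.mul_left, show jacobiSym (-1) 3 = -1 by norm_num]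
  ring

theorem o_ta (v : V3) : o (ta v) = o v := by
  unfold o
  apply jm
  simp only [ta, Matrix.cons_val_one, Matrix.cons_val]
  exact ⟨v 2, by ring⟩

theorem o_ha (v : V3) : o (ha v) = - o v := by
  unfold o
  rw [← jneg]
  apply jm
  simp only [ha, Matrix.cons_val_one, Matrix.cons_val]
  exact ⟨- v 2, by ring⟩

theorem o_hb (v : V3) : o (hb v) = - o v := by
  unfold o
  rw [← jneg]
  apply jm
  simp only [hb, Matrix.cons_val_one, Matrix.cons_val]
  exact ⟨v 1, by ring⟩

theorem o_hc (v : V3) : o (hc v) = - o v := by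
  unfold o
  rw [← jneg]
  apply jm
  simp only [hc, Matrix.cons_val_one, Matrix.cons_val]
  exact ⟨0, by ring⟩

theorem o_neg (v : V3) : o (-v) = - o v := by
  unfold o
  rw [← jneg]
  congr 1
  simp only [Pi.neg_apply]
  ring

theorem sg_eq (v : V3) : sg v = ta (hb v) := by
  funext i
  fin_cases i <;> simp [sg, ta, hb] <;> ring

section

variable {l : ℕ} [hl : Fact l.Prime] (h2 : l ≠ 2) (h3 : l ≠ 3)

include h2 h3 in
theorem nK : ¬ (l : ℤ) ∣ 6 := by
  intro h
  have h' : l ∣ 2 * 3 := by exact_mod_cast h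
  rcases hl.out.dvd_mul.1 h' with h | h
  · exact h2 ((Nat.prime_dvd_prime_iff_eq hl.out Nat.prime_two).1 h)
  · exact h3 ((Nat.prime_dvd_prime_iff_eq hl.out Nat.prime_three).1 h)

theorem one_ne : ((1 : ℤ) : ZMod l) ≠ 0 := by simp

include h2 in
theorem two_ne : ((2 : ℤ) : ZMod l) ≠ 0 := by
  have := c2 (p := l) h2
  simpa using this

include h3 in
theorem three_ne : ((3 : ℤ) : ZMod l) ≠ 0 := by
  rw [Ne, ← dvd_cast]
  intro h
  have h' : l ∣ 3 := by exact_mod_cast h
  exact h3 ((Nat.prime_dvd_prime_iff_eq hl.out Nat.prime_three).1 h')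

include h2 h3

theorem psi_ta {v : V3} (hv : Iso ip l v) : psi ip l (ta v) = psi ip l v := by
  rw [psi_sim frm3 h2 (nK h2 h3) sim_ta one_ne hv]
  have h20 := two_ne (l := l) h2
  have h := sim_sign frm3 sim_ta h2 (nK h2 h3) one_ne (l := ![0, 2, 1]) (k := 2) (m := -1)
    ⟨2, by simp⟩ h20 (fun v => by
      simp [ta, ip]
      ring) hv
  rw [h]
  have e : (2 * ((2 : ℤ) : ZMod l)) = ((2 : ℤ) : ZMod l) ^ 2 := by push_cast; ring
  rw [e, quadraticChar_sq_one' h20, one_mul]

theorem six_ne : ((6 : ℤ) : ZMod l) ≠ 0 := by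
  rw [Ne, ← dvd_cast]
  exact nK h2 h3

theorem qc6 : quadraticChar (ZMod l) (2 * ((6 : ℤ) : ZMod l)) = jacobiSym 3 l := by
  rw [jac_eq]
  refine qc_eq (s := 2 * 3) ?_ (mul_ne_zero (c2 h2) (six_ne h2 h3)) (three_ne h3)
  push_cast
  ring

theorem psi_ha {v : V3} (hv : Iso ip l v) : psi ip l (ha v) = jacobiSym 3 l * psi ip l v := by
  rw [psi_sim frm3 h2 (nK h2 h3) sim_ha one_ne hv]
  have h := sim_sign frm3 sim_ha h2 (nK h2 h3) one_ne (l := ![0, 0, 1]) (k := 6) (m := -1)
    ⟨2, by simp⟩ (six_ne h2 h3) (fun v => by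
      simp [ha, ip]
      ring) hv
  rw [h, qc6 h2 h3]

theorem psi_hb {v : V3} (hv : Iso ip l v) : psi ip l (hb v) = jacobiSym 3 l * psi ip l v := by
  rw [psi_sim frm3 h2 (nK h2 h3) sim_hb one_ne hv]
  have h := sim_sign frm3 sim_hb h2 (nK h2 h3) one_ne (l := ![0, 1, 0]) (k := 6) (m := -1)
    ⟨1, by simp⟩ (six_ne h2 h3) (fun v => by
      simp [hb, ip]
      ring) hv
  rw [h, qc6 h2 h3]

theorem psi_hc {v : V3} (hv : Iso ip l v) : psi ip l (hc v) = jacobiSym 3 l * psi ip l v := by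
  rw [psi_sim frm3 h2 (nK h2 h3) sim_hc one_ne hv]
  have h := sim_sign frm3 sim_hc h2 (nK h2 h3) one_ne (l := ![0, 1, 1]) (k := 6) (m := -1)
    ⟨2, by simp⟩ (six_ne h2 h3) (fun v => by
      simp [hc, ip]
      ring) hv
  rw [h, qc6 h2 h3]

end

/-- the sign of a vector -/
noncomputable def E (l : ℕ) (v : V3) : ℤ := psi ip l v * o v

section

variable {l : ℕ} [hl : Fact l.Prime] (h2 : l ≠ 2) (h3 : l ≠ 3)

include h2 h3

theorem E_ta {v : V3} (hv : Iso ip l v) : E l (ta v) = E l v := by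
  unfold E
  rw [psi_ta h2 h3 hv, o_ta]

variable (h3l : jacobiSym 3 l = -1)

include h3l

theorem E_ha {v : V3} (hv : Iso ip l v) : E l (ha v) = E l v := by
  unfold E
  rw [psi_ha h2 h3 hv, o_ha, h3l]
  ring

theorem E_hb {v : V3} (hv : Iso ip l v) : E l (hb v) = E l v := by
  unfold E
  rw [psi_hb h2 h3 hv, o_hb, h3l]
  ring

theorem E_hc {v : V3} (hv : Iso ip l v) : E l (hc v) = E l v := by
  unfold E
  rw [psi_hc h2 h3 hv, o_hc, h3l]
  ring

theorem E_sg {v : V3} (hv : Iso ip l v) : E l (sg v) = E l v := by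
  rw [sg_eq, E_ta h2 h3 (sim_iso frm3 frm3 sim_hb h2 (nK h2 h3) one_ne hv), E_hb h2 h3 h3l hv]

omit h3l in
theorem E_neg (hl1 : jacobiSym (-1) l = -1) {v : V3} (hv : Iso ip l v) : E l (-v) = E l v := by
  unfold E
  have e : -v = (-1 : ℤ) • v := by
    funext i
    simp
  have h1 : psi ip l (-v) = - psi ip l v := by
    rw [e, psi_smul frm3 h2 (nK h2 h3) (by simp) hv, hl1]
    ring
  rw [h1, o_neg]
  ring

end

end Pool.Agent.N970.RQ3
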