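import Pool.Agent.N970.Sgn.Psi
import Pool.Agent.N970.RQ.PC7

/-!
# The signs of the vectors of the lattice ramified at `7`: the prime `l` and the prime `7`
-/

set_option autoImplicit false

namespace Pool.Agent.N970.RQ

open Finset
open Pool.Agent.N969.P15 (V3)
open Pool.Agent.N969.RQ (ip7 vec7)
open Pool.Agent.N844.P17G (Iso sig)
open Pool.Agent.N970.Sgn

theorem frm7 : Frm ip7 14 where
  symm := by intro v w; unfold ip7; ring
  lin := by
    intro u v w x y
    simp only [ip7, Pi.add_apply, Pi.smul_apply, smul_eq_mul]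
    ring
  gram := by
    intro u v w
    simp only [ip7, det3]
    ring

/-- rotation of norm `1` -/
def rot7 (v : V3) : V3 := ![-v 0, v 1 + v 2, -v 2]

/-- rotation of norm `7` -/
def wot7 (v : V3) : V3 := ![v 0, -v 1, -v 2]

theorem rot7_rot7 (v : V3) : rot7 (rot7 v) = v := by
  funext i
  fin_cases i <;> simp [rot7]

theorem wot7_wot7 (v : V3) : wot7 (wot7 v) = v := by
  funext i
  fin_cases i <;> simp [wot7]

theorem sim_rot7 : Sim ip7 ip7 1 rot7 where
  iso := by intro v w; simp [rot7, ip7]; ring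
  lin := by
    intro x y v w
    funext i
    fin_cases i <;> simp [rot7] <;> ring

theorem sim_wot7 : Sim ip7 ip7 1 wot7 where
  iso := by intro v w; simp [wot7, ip7]
  lin := by
    intro x y v w
    funext i
    fin_cases i <;> simp [wot7] <;> ring

/-- the sign at `7` -/
def oo (v : V3) : ℤ := jacobiSym (2 * v 1 + v 2) 7

theorem oo_mul (v w : V3) : oo v * oo w = jacobiSym (ip7 v w) 7 := by
  unfold oo
  rw [← jacobiSym.mul_left]
  apply jacobiSym.mod_left'
  have e : (2 * v 1 + v 2) * (2 * w 1 + w 2) = ip7 v w + 7 * (-(v 0 * w 0) - v 2 * w 2) := by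
    unfold ip7
    ring
  rw [e]
  simp

theorem oo_rot (v : V3) : oo (rot7 v) = oo v := by
  unfold oo
  have e : 2 * rot7 v 1 + rot7 v 2 = 2 * v 1 + v 2 := by
    simp only [rot7, Matrix.cons_val_one, Matrix.cons_val]
    ring
  rw [e]

theorem oo_wot (v : V3) : oo (wot7 v) = - oo v := by
  unfold oo
  have e : 2 * wot7 v 1 + wot7 v 2 = (-1) * (2 * v 1 + v 2) := by
    simp [wot7]
    ring
  rw [e, jacobiSym.mul_left, show jacobiSym (-1) 7 = -1 by norm_num]
  ring

theorem oo_neg (v : V3) : oo (-v) = - oo v := by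
  unfold oo
  have e : 2 * (-v) 1 + (-v) 2 = (-1) * (2 * v 1 + v 2) := by
    simp only [Pi.neg_apply]
    ring
  rw [e, jacobiSym.mul_left, show jacobiSym (-1) 7 = -1 by norm_num]
  ring

section

variable {l : ℕ} [hl : Fact l.Prime] (h2 : l ≠ 2) (h7 : l ≠ 7)

include h2 h7 in
theorem nK : ¬ (l : ℤ) ∣ 14 := by
  intro h
  have h' : l ∣ 2 * 7 := by exact_mod_cast h
  rcases hl.out.dvd_mul.1 h' with h | h
  · exact h2 ((Nat.prime_dvd_prime_iff_eq hl.out Nat.prime_two).1 h)
  · exact h7 ((Nat.prime_dvd_prime_iff_eq hl.out (by norm_num)).1 h)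

theorem one_ne : ((1 : ℤ) : ZMod l) ≠ 0 := by simp

include h2 in
theorem two_ne : ((2 : ℤ) : ZMod l) ≠ 0 := by
  have := c2 (p := l) h2
  simpa using this

include h7 in
theorem seven_ne : ((7 : ℤ) : ZMod l) ≠ 0 := by
  rw [Ne, ← dvd_cast]
  intro h
  have h' : l ∣ 7 := by exact_mod_cast h
  exact h7 ((Nat.prime_dvd_prime_iff_eq hl.out (by norm_num)).1 h')

include h2 h7

/-- the rotation of norm `1` does not change the sign -/
theorem psi_rot7 {v : V3} (hv : Iso ip7 l v) : psi ip7 l (rot7 v) = psi ip7 l v := by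
  rw [psi_sim frm7 h2 (nK h2 h7) sim_rot7 one_ne hv]
  have h20 := two_ne (l := l) h2
  have h := sim_sign frm7 sim_rot7 h2 (nK h2 h7) one_ne (l := ![0, 2, 1]) (k := 2) (m := -1)
    ⟨2, by simp⟩ h20 (fun v => by
      simp [rot7, ip7]
      ring) hv
  rw [h]
  have e : (2 * ((2 : ℤ) : ZMod l)) = ((2 : ℤ) : ZMod l) ^ 2 := by push_cast; ring
  rw [e, quadraticChar_sq_one' h20, one_mul]

/-- the rotation of norm `7` -/
theorem psi_wot7 {v : V3} (hv : Iso ip7 l v) :
    psi ip7 l (wot7 v) = jacobiSym 7 l * psi ip7 l v := by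
  rw [psi_sim frm7 h2 (nK h2 h7) sim_wot7 one_ne hv]
  have h20 := two_ne (l := l) h2
  have h70 := seven_ne (l := l) h7
  have h14 : ((14 : ℤ) : ZMod l) ≠ 0 := by
    rw [Ne, ← dvd_cast]
    exact nK h2 h7
  have h := sim_sign frm7 sim_wot7 h2 (nK h2 h7) one_ne (l := ![1, 0, 0]) (k := 14) (m := -1)
    ⟨0, by simp⟩ h14 (fun v => by
      simp [wot7, ip7]
      ring) hv
  rw [h, jac_eq]
  congr 1
  refine qc_eq (s := 2 * 7) ?_ (mul_ne_zero (c2 h2) h14) h70
  push_cast
  ring

end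

end Pool.Agent.N970.RQ
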