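import Mathlib

/-!
# The inner products of discriminant `D` (project RQ)
-/

set_option autoImplicit false

namespace Pool.Agent.N970.RQ

open Finset

/-- the inner products `t` of discriminant `D = n1 n2` -/
noncomputable def Tr (D : ℕ) : Finset ℤ :=
  (Ioo (-(D : ℤ)) D).filter fun t : ℤ => t ^ 2 < (D : ℤ) ∧ (4 : ℤ) ∣ (D : ℤ) - t ^ 2

/-- the natural number `(D - t²) / 4` -/
def mt (D : ℕ) (t : ℤ) : ℕ := (((D : ℤ) - t ^ 2) / 4).toNat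

theorem mem_Tr {D : ℕ} {t : ℤ} : t ∈ Tr D ↔ t ^ 2 < (D : ℤ) ∧ (4 : ℤ) ∣ (D : ℤ) - t ^ 2 := by
  unfold Tr
  rw [Finset.mem_filter, Finset.mem_Ioo]
  refine ⟨fun h => h.2, fun h => ⟨?_, h⟩⟩
  have h1 : |t| < D := by
    have h2 : |t| ≤ t ^ 2 := by
      rw [← sq_abs]
      nlinarith [abs_nonneg t, Int.le_self_sq |t|]
    linarith [h.1]
  exact abs_lt.1 h1

theorem mt_spec {D : ℕ} {t : ℤ} (ht : t ∈ Tr D) :
    ((4 * mt D t : ℕ) : ℤ) = (D : ℤ) - t ^ 2 ∧ mt D t ≠ 0 := by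
  obtain ⟨h1, q, hq⟩ := mem_Tr.1 ht
  have h2 : ((D : ℤ) - t ^ 2) / 4 = q := by rw [hq]; exact Int.mul_ediv_cancel_left _ (by norm_num)
  have h3 : 0 < q := by omega
  have h4 : ((mt D t : ℕ) : ℤ) = q := by
    unfold mt
    rw [h2]
    exact Int.toNat_of_nonneg h3.le
  refine ⟨?_, ?_⟩
  · push_cast
    rw [h4, hq]
  · intro h5
    rw [h5] at h4
    have : q = 0 := by exact_mod_cast h4.symm
    omega

theorem Tr_neg {D : ℕ} {t : ℤ} : -t ∈ Tr D ↔ t ∈ Tr D := by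
  rw [mem_Tr, mem_Tr, neg_sq]

theorem mt_neg (D : ℕ) (t : ℤ) : mt D (-t) = mt D t := by
  unfold mt
  rw [neg_sq]


end Pool.Agent.N970.RQ
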