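import Pool.Agent.N970.RQ.Div
import Pool.Agent.N970.RQ.Tr

/-!
# The hypothesis of the involution on the divisors (project RQ)
-/

set_option autoImplicit false

namespace Pool.Agent.N970.RQ

open Finset
open Pool.Agent.Y574.Z7 (nd4)
open Pool.Agent.N295.P15 (Fd pf_prime pf_dvd)

/-! ### the hypothesis of the involution -/

theorem Hyp {n n2 m : ℕ} {t : ℤ} (h : Fd n) (hD : ((4 * m : ℕ) : ℤ) = n * n2 - t ^ 2) :
    ∀ p ∈ n.primeFactors, ¬ p ∣ m → jacobiSym (m : ℤ) p = ZMod.χ₄ p := by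
  intro p hp hpm
  have hpp := pf_prime hp
  have hodd := h.podd hp
  have h2 := h.ne2 hp
  have hpt : ¬ (p : ℤ) ∣ t := by
    intro h1
    have h3 : (p : ℤ) ∣ ((4 * m : ℕ) : ℤ) := by
      rw [hD]
      exact dvd_sub (Dvd.dvd.mul_right (by exact_mod_cast pf_dvd hp) _)
        (Dvd.dvd.pow h1 two_ne_zero)
    have h4 : p ∣ 4 * m := by exact_mod_cast h3
    rcases hpp.dvd_mul.1 h4 with h5 | h5
    · exact nd4 hpp h2 h5
    · exact hpm h5
  have hg : Int.gcd t p = 1 := by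
    have : IsCoprime (p : ℤ) t := (Nat.prime_iff_prime_int.1 hpp).coprime_iff_not_dvd.2 hpt
    exact Int.isCoprime_iff_gcd_eq_one.1 this.symm
  have e1 : jacobiSym ((4 * m : ℕ) : ℤ) p = jacobiSym (-(t ^ 2)) p := by
    rw [hD]
    apply jacobiSym.mod_left'
    have : (p : ℤ) ∣ (n : ℤ) * n2 - t ^ 2 - -(t ^ 2) := by
      have e : (n : ℤ) * n2 - t ^ 2 - -(t ^ 2) = n * n2 := by ring
      rw [e]
      exact Dvd.dvd.mul_right (by exact_mod_cast pf_dvd hp) _
    exact (Int.modEq_iff_dvd.2 this).symm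
  have e2 : jacobiSym (-(t ^ 2)) p = ZMod.χ₄ p := by
    rw [jacobiSym.neg _ hodd, pow_two, jacobiSym.mul_left, ← pow_two, jacobiSym.sq_one hg, mul_one]
  have e3 : jacobiSym ((4 * m : ℕ) : ℤ) p = jacobiSym (m : ℤ) p := by
    push_cast
    rw [jacobiSym.mul_left]
    have : jacobiSym 4 p = 1 := by
      have h4 : (4 : ℤ) = 2 ^ 2 := by norm_num
      rw [h4]
      exact jacobiSym.sq_one' (by
        rw [show (2 : ℤ) = ((2 : ℕ) : ℤ) from rfl, Int.gcd_natCast_natCast]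
        exact ((Nat.Prime.coprime_iff_not_dvd Nat.prime_two).2 (by
          rw [Nat.odd_iff] at hodd; omega)))
    rw [this, one_mul]
  rw [← e3, e1, e2]

theorem WS_none {n m : ℕ} {S : Finset ℕ} {l : ℕ} (hl : l ∈ S) (h : ¬ l ∣ m) : WS n m S = 0 := by
  unfold WS
  rw [Finset.filter_false_of_mem, Finset.sum_empty]
  intro a ha h1
  exact h ((h1 l hl).trans (Nat.dvd_of_mem_divisors ha))

end Pool.Agent.N970.RQ
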