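import Pool.Agent.N969.RQ.Defs
import Pool.Agent.N970.RQ.Tr
import Pool.Agent.N970.RQ.Div

/-!
# The crossing number between infinity and `1 / 3` as a finite sum (project RQ)
-/

set_option autoImplicit false

namespace Pool.Agent.N970.RQ

open Finset
open Pool.Agent.Y574.Z7 (chp chp_sq jac_eq)
open Pool.Agent.N295.P15 (Fd pf_prime pf_dvd)
open Pool.Agent.N969.RQ (J ps)
open Pool.Agent.N969.P17G (gen)

/-- the divisors entering the sum for `1 / 3` -/
def dv (c : ℕ) (m : ℕ) (t : ℤ) : Finset ℕ :=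
  m.divisors.filter fun a => c ∣ a ∧ (3 : ℤ) ∣ (a : ℤ) - t - ((m / a : ℕ) : ℤ)

/-- the form attached to a divisor -/
def fm (m : ℕ) (t : ℤ) (a : ℕ) : ℤ × ℤ × ℤ :=
  (3 * (a : ℤ), t - 2 * (a : ℤ), ((a : ℤ) - t - ((m / a : ℕ) : ℤ)) / 3)

/-- the finite sum -/
theorem J_fin (c : ℕ) (w : ℤ → ℤ) (D d : ℕ) :
    J (3 * c) w D d 1 3 = ∑ t ∈ Tr D, ∑ a ∈ dv c (mt D t) t,
      w (t - 2 * (a : ℤ)) * ps D d (fm (mt D t) t a) := by
  classical
  set A : Finset (Σ _ : ℤ, ℕ) := (Tr D).sigma fun t => dv c (mt D t) t with hA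
  set φ : (Σ _ : ℤ, ℕ) → ℤ × ℤ × ℤ := fun x => fm (mt D x.1) x.1 x.2 with hφ
  have hinj : Set.InjOn φ (A : Set (Σ _ : ℤ, ℕ)) := by
    rintro ⟨t, a⟩ _ ⟨t', a'⟩ _ h
    simp only [hφ, fm, Prod.mk.injEq] at h
    obtain ⟨h1, h2, -⟩ := h
    have h3 : (a : ℤ) = a' := by linarith
    have h4 : a = a' := by exact_mod_cast h3
    subst h4
    have h5 : t = t' := by linarith
    subst h5
    rfl
  have hmem : ∀ x ∈ A, (φ x).2.1 ^ 2 - 4 * (φ x).1 * (φ x).2.2 = (D : ℤ) ∧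
      ((3 * c : ℕ) : ℤ) ∣ (φ x).1 ∧ 0 < (φ x).1 ∧
      (φ x).1 * 1 ^ 2 + (φ x).2.1 * 1 * 3 + (φ x).2.2 * 3 ^ 2 < 0 := by
    rintro ⟨t, a⟩ hx
    have hx := Finset.mem_sigma.1 hx
    obtain ⟨ht, ha⟩ := hx
    simp only at ht ha
    unfold dv at ha
    obtain ⟨ha1, ha2, ha3⟩ := Finset.mem_filter.1 ha
    obtain ⟨hm1, hm2⟩ := mt_spec ht
    have hd := Nat.dvd_of_mem_divisors ha1
    simp only [hφ, fm]
    generalize mt D t = m at hm1 hm2 ha1 ha3 hd ⊢
    obtain ⟨b, rfl⟩ := hd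
    have a0 : 0 < a := Nat.pos_of_ne_zero (left_ne_zero_of_mul hm2)
    have b0 : 0 < b := Nat.pos_of_ne_zero (right_ne_zero_of_mul hm2)
    rw [Nat.mul_div_cancel_left _ a0] at ha3 ⊢
    obtain ⟨k, hk⟩ := ha3
    rw [hk, Int.mul_ediv_cancel_left _ (by norm_num)]
    have a0' : (0 : ℤ) < a := by exact_mod_cast a0
    have b0' : (0 : ℤ) < b := by exact_mod_cast b0
    push_cast at hm1
    refine ⟨?_, ?_, by linarith, ?_⟩
    · have e1 : (t - 2 * (a : ℤ)) ^ 2 - 4 * (3 * (a : ℤ)) * k =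
          t ^ 2 - 4 * (a * t) + 4 * a ^ 2 - 4 * a * (3 * k) := by ring
      rw [e1, ← hk]
      linarith
    · push_cast
      exact mul_dvd_mul_left 3 (by exact_mod_cast ha2)
    · have e1 : 3 * (a : ℤ) * 1 ^ 2 + (t - 2 * (a : ℤ)) * 1 * 3 + k * 3 ^ 2 =
          3 * a + 3 * t - 6 * a + 3 * (3 * k) := by ring
      rw [e1, ← hk]
      linarith
  unfold J
  rw [finsum_eq_sum_of_support_subset _ (s := A.image φ), Finset.sum_image hinj, hA,
    Finset.sum_sigma]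
  · refine Finset.sum_congr rfl fun t ht => Finset.sum_congr rfl fun a ha => ?_
    have h1 := hmem ⟨t, a⟩ (Finset.mem_sigma.2 ⟨ht, ha⟩)
    rw [if_pos h1]
    rfl
  · intro q hq
    obtain ⟨x, y, z⟩ := q
    rw [Function.mem_support] at hq
    by_cases h : (x, y, z).2.1 ^ 2 - 4 * (x, y, z).1 * (x, y, z).2.2 = (D : ℤ) ∧
        ((3 * c : ℕ) : ℤ) ∣ (x, y, z).1 ∧ 0 < (x, y, z).1 ∧
        (x, y, z).1 * 1 ^ 2 + (x, y, z).2.1 * 1 * 3 + (x, y, z).2.2 * 3 ^ 2 < 0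
    · obtain ⟨h1, h2, h3, h4⟩ := h
      simp only at h1 h2 h3 h4
      obtain ⟨k, hk⟩ := h2
      push_cast at hk
      have ha0 : 0 < (c : ℤ) * k := by
        have : 0 < 3 * ((c : ℤ) * k) := by rw [← mul_assoc, ← hk]; exact h3
        linarith
      obtain ⟨a, ha⟩ : ∃ a : ℕ, (a : ℤ) = c * k := ⟨((c : ℤ) * k).toNat,
        Int.toNat_of_nonneg ha0.le⟩
      have hx : x = 3 * a := by rw [ha, hk]; ring
      obtain ⟨t, ht⟩ : ∃ t, t = y + 2 * a := ⟨_, rfl⟩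
      have hb0 : 0 < -((a : ℤ) + y + 3 * z) := by
        rw [hx] at h4
        linarith
      obtain ⟨b, hb⟩ : ∃ b : ℕ, (b : ℤ) = -((a : ℤ) + y + 3 * z) := ⟨_, Int.toNat_of_nonneg hb0.le⟩
      have a0 : 0 < a := by
        rw [← ha] at ha0
        exact_mod_cast ha0
      have b0 : 0 < b := by
        rw [← hb] at hb0
        exact_mod_cast hb0
      have hD : (D : ℤ) - t ^ 2 = 4 * (a * b) := by
        rw [← h1, hx, ht, hb]; ring
      have hab : (0 : ℤ) < a * b := by positivity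
      have htT : t ∈ Tr D := by
        rw [mem_Tr]
        exact ⟨by linarith, ⟨_, hD⟩⟩
      have hm : mt D t = a * b := by
        have h5 := (mt_spec htT).1
        rw [hD] at h5
        have h6 : 4 * mt D t = 4 * (a * b) := by exact_mod_cast h5
        omega
      have hdiv : a * b / a = b := Nat.mul_div_cancel_left _ a0
      rw [Finset.coe_image]
      refine ⟨⟨t, a⟩, Finset.mem_coe.2 (Finset.mem_sigma.2 ⟨htT, ?_⟩), ?_⟩
      · show a ∈ dv c (mt D t) t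
        unfold dv
        rw [hm, Finset.mem_filter, hdiv]
        refine ⟨Nat.mem_divisors.2 ⟨Dvd.intro b rfl, by positivity⟩, ?_, ?_⟩
        · have : (c : ℤ) ∣ (a : ℤ) := ⟨k, ha⟩
          exact_mod_cast this
        · exact ⟨z, by rw [hb, ht]; ring⟩
      · show fm (mt D t) t a = (x, y, z)
        unfold fm
        rw [hm, hdiv, Prod.mk.injEq, Prod.mk.injEq]
        refine ⟨hx.symm, by rw [ht]; ring, ?_⟩
        have : (a : ℤ) - t - b = 3 * z := by rw [hb, ht]; ring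
        rw [this]
        exact Int.mul_ediv_cancel_left _ (by norm_num)
    · exact absurd (if_neg h) hq

/-- the genus character of the form attached to a divisor -/
theorem ps_fm {D d : ℕ} (hd : Fd d) (hdD : d ∣ D) (h3 : ¬ 3 ∣ D) {c : ℕ} {t : ℤ} (ht : t ∈ Tr D)
    {a : ℕ} (ha : a ∈ dv c (mt D t) t) :
    ps D d (fm (mt D t) t a) = jacobiSym 3 d * Gd d (mt D t) a := by
  have h2 : ¬ 2 ∣ d := hd.nd2
  have h2' : 2 ∉ d.primeFactors := fun h => h2 (Nat.dvd_of_mem_primeFactors h)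
  obtain ⟨hm1, hm2⟩ := mt_spec ht
  unfold dv at ha
  obtain ⟨ha1, ha2, ha3⟩ := Finset.mem_filter.1 ha
  have had := Nat.dvd_of_mem_divisors ha1
  generalize mt D t = m at hm1 hm2 ha1 ha3 had ⊢
  unfold ps Gd fm
  rw [if_neg h2, one_mul, Finset.erase_eq_of_notMem h2']
  have e3 : jacobiSym 3 d = ∏ p ∈ d.primeFactors, jacobiSym 3 p := by
    conv_lhs => rw [← hd.prod]
    rw [Pool.Agent.Y574.Z7.jac_prod _ _ fun q hq => (pf_prime hq).ne_zero]
  rw [e3, ← Finset.prod_mul_distrib]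
  refine Finset.prod_congr rfl fun p hp => ?_
  have hpp := pf_prime hp
  have hpd : p ∣ D := (pf_dvd hp).trans hdD
  have hp3 : ¬ p ∣ 3 := by
    intro h
    have := (Nat.prime_dvd_prime_iff_eq hpp Nat.prime_three).1 h
    subst this
    exact h3 hpd
  have hs3 : jacobiSym 3 p * jacobiSym 3 p = 1 := by
    have h4 : jacobiSym ((3 : ℕ) : ℤ) p = chp p 3 := by rw [jac_eq hpp, if_neg hp3]
    push_cast at h4
    rw [h4]
    exact chp_sq hpp (by norm_num)
  have hdvd : ((p : ℤ) ∣ 3 * (a : ℤ)) ↔ p ∣ a := by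
    constructor
    · intro h
      have h5 : p ∣ 3 * a := by exact_mod_cast h
      rcases hpp.dvd_mul.1 h5 with h6 | h6
      · exact absurd h6 hp3
      · exact h6
    · intro h
      exact Dvd.dvd.mul_left (by exact_mod_cast h) 3
  unfold gen
  by_cases hpa : p ∣ a
  · rw [if_pos (hdvd.2 hpa), if_pos hpa]
    obtain ⟨k, hk⟩ := ha3
    rw [hk, Int.mul_ediv_cancel_left _ (by norm_num)]
    have hpt : (p : ℤ) ∣ t := by
      have h5 : (p : ℤ) ∣ t ^ 2 := by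
        have h6 : t ^ 2 = (D : ℤ) - ((4 * m : ℕ) : ℤ) := by linarith
        rw [h6]
        exact dvd_sub (by exact_mod_cast hpd) (by exact_mod_cast (hpa.trans had).mul_left 4)
      exact (Nat.prime_iff_prime_int.1 hpp).dvd_of_dvd_pow h5
    have e1 : jacobiSym (-((m / a : ℕ) : ℤ)) p = jacobiSym (3 * k) p := by
      apply jacobiSym.mod_left'
      have h7 : (p : ℤ) ∣ 3 * k - -((m / a : ℕ) : ℤ) := by
        rw [← hk]
        have e : (a : ℤ) - t - ((m / a : ℕ) : ℤ) - -((m / a : ℕ) : ℤ) = a - t := by ring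
        rw [e]
        exact dvd_sub (by exact_mod_cast hpa) hpt
      exact Int.modEq_iff_dvd.2 h7
    rw [e1, jacobiSym.mul_left, ← mul_assoc, hs3, one_mul]
  · rw [if_neg (fun h => hpa (hdvd.1 h)), if_neg hpa, jacobiSym.mul_left]

/-- the crossing number as a sum over the divisors -/
theorem J_third {D d : ℕ} (hd : Fd d) (hdD : d ∣ D) (h3 : ¬ 3 ∣ D) (c : ℕ) (w : ℤ → ℤ) :
    J (3 * c) w D d 1 3 = jacobiSym 3 d * ∑ t ∈ Tr D, ∑ a ∈ dv c (mt D t) t,
      w (t - 2 * (a : ℤ)) * Gd d (mt D t) a := by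
  rw [J_fin, Finset.mul_sum]
  refine Finset.sum_congr rfl fun t ht => ?_
  rw [Finset.mul_sum]
  refine Finset.sum_congr rfl fun a ha => ?_
  rw [ps_fm hd hdD h3 ht ha]
  ring

end Pool.Agent.N970.RQ
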