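import Pool.Agent.N970.RQ.Sym
import Pool.Agent.N970.RQ.Hyp
import Pool.Agent.N973.P21.CP7
import Pool.Agent.N878.PC21.XC
import Pool.Agent.N970.PC.XC

/-!
# The orientation at `3` and `7`: vanishing of the sum over the inner products (project RQ)
-/

set_option autoImplicit false

namespace Pool.Agent.N970.RQ

open Finset
open Pool.Agent.Z700 (hh fac)
open Pool.Agent.Y574.Z7 (chp chp_sq jac_eq)
open Pool.Agent.N295.P15 (Fd pf_prime pf_dvd fac4)
open Pool.Agent.N969.RQ (J ps o3 o7 one)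
open Pool.Agent.N969.P15 (tw V3)
open Pool.Agent.N877.P21 (Sp7 ip vec cp cp7 loc7 lrest S_PC S_CP7)
open Pool.Agent.N218.P21 (mem_vec)
open Pool.Agent.N970.PC (sum_sign)

/-- the local sum at an inert prime -/
theorem Lf_inert {n m l : ℕ} (h : Fd n) (hl : l.Prime) (h2 : l ≠ 2) (hn : ¬ l ∣ n)
    (hJ : jacobiSym (-(n : ℤ)) l = -1) :
    Lf n m l = if Odd (m.factorization l) then 0 else 1 := by
  unfold Lf
  rw [Finset.sum_congr rfl fun i _ => lam_nd h hl h2 hn]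
  exact (sum_sign (Or.inr hJ) _).2 hJ

/-- the local sum at a split prime -/
theorem Lf_split {n m l : ℕ} (h : Fd n) (hl : l.Prime) (h2 : l ≠ 2) (hn : ¬ l ∣ n)
    (hJ : jacobiSym (-(n : ℤ)) l = 1) :
    Lf n m l = m.factorization l + 1 := by
  unfold Lf
  rw [Finset.sum_congr rfl fun i _ => lam_nd h hl h2 hn]
  exact (sum_sign (Or.inl hJ) _).1 hJ

theorem js3 {n : ℕ} (h3 : n % 3 = 1) : jacobiSym (-(n : ℤ)) 3 = -1 := by
  rw [jacobiSym.mod_left]
  have h1 : (-(n : ℤ)) % ((3 : ℕ) : ℤ) = 2 := by omega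
  rw [h1]; norm_num

/-- both primes inert: the divisor sum vanishes -/
theorem WS_inert {n n2 m : ℕ} {t : ℤ} (h : Fd n) (hm : m ≠ 0)
    (hD : ((4 * m : ℕ) : ℤ) = n * n2 - t ^ 2) (h3 : n % 3 = 1) (hn7 : ¬ 7 ∣ n)
    (hJ : jacobiSym (-(n : ℤ)) 7 = -1) : WS n m {3, 7} = 0 := by
  have p7 : Nat.Prime 7 := by norm_num
  have hn3 : ¬ 3 ∣ n := by omega
  by_cases h3m : 3 ∣ m
  · by_cases h7m : 7 ∣ m
    · have hS : ∀ l ∈ ({3, 7} : Finset ℕ), l.Prime ∧ l ∣ m := by
        intro l hl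
        rw [Finset.mem_insert, Finset.mem_singleton] at hl
        rcases hl with rfl | rfl
        · exact ⟨Nat.prime_three, h3m⟩
        · exact ⟨p7, h7m⟩
      rw [WS_eq h hm {3, 7} hS, Finset.prod_pair (by norm_num),
        Lf_inert h Nat.prime_three (by norm_num) hn3 (js3 h3),
        Lf_inert h p7 (by norm_num) hn7 hJ]
      by_cases o3 : Odd (m.factorization 3)
      · by_cases o7 : Odd (m.factorization 7)
        · have hP := part_zero h hm (Hyp h hD) {3, 7} hS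
          rw [Finset.prod_pair (by norm_num), lam_nd h Nat.prime_three (by norm_num) hn3, js3 h3,
            lam_nd h p7 (by norm_num) hn7, hJ, o3.neg_one_pow, o7.neg_one_pow] at hP
          have : ∏ l ∈ m.primeFactors \ {3, 7}, Lf n m l = 0 := by
            rcases mul_eq_zero.1 hP with h1 | h1
            · norm_num at h1
            · exact h1
          rw [this, mul_zero]
        · rw [if_neg o7]; ring
      · rw [if_neg o3]; ring
    · exact WS_none (l := 7) (by simp) h7m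
  · exact WS_none (l := 3) (by simp) h3m

/-- `3` inert, `7` split: the divisor sum is the local density -/
theorem WS_loc7 {n m : ℕ} (h : Fd n) (hm : m ≠ 0) (h3 : n % 3 = 1) (hn7 : ¬ 7 ∣ n)
    (hJ : jacobiSym (-(n : ℤ)) 7 = 1) (h7m : 7 ∣ m) :
    WS n m {3, 7} = - loc7 n (4 * m) := by
  have p7 : Nat.Prime 7 := by norm_num
  have hn3 : ¬ 3 ∣ n := by omega
  have hR : tw n (4 * m) * ∏ l ∈ (((4 * m).primeFactors.erase 2).erase 3).erase 7, fac n (4 * m) l =
      ∏ l ∈ m.primeFactors \ {3, 7}, Lf n m l := by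
    rw [← prod_Lf h hm {3, 7} (by decide)]
    congr 1
    refine Finset.prod_congr ?_ fun _ _ => rfl
    ext l
    simp only [Finset.mem_sdiff, Finset.mem_insert, Finset.mem_singleton, Finset.mem_erase]
    tauto
  unfold loc7 lrest
  rw [hR, fac4 hm p7 (by norm_num), fac4 hm Nat.prime_three (by norm_num)]
  by_cases h3m : 3 ∣ m
  · have hS : ∀ l ∈ ({3, 7} : Finset ℕ), l.Prime ∧ l ∣ m := by
      intro l hl
      rw [Finset.mem_insert, Finset.mem_singleton] at hl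
      rcases hl with rfl | rfl
      · exact ⟨Nat.prime_three, h3m⟩
      · exact ⟨p7, h7m⟩
    rw [WS_eq h hm {3, 7} hS, Finset.prod_pair (by norm_num),
      Lf_inert h Nat.prime_three (by norm_num) hn3 (js3 h3),
      Lf_split h p7 (by norm_num) hn7 hJ]
    by_cases o3 : Odd (m.factorization 3)
    · rw [if_pos o3, if_pos o3]; ring
    · rw [if_neg o3, if_neg o3]; ring
  · rw [WS_none (l := 3) (by simp) h3m, Nat.factorization_eq_zero_of_not_dvd h3m,
      if_neg (by decide)]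
    ring

/-! ### the lattice of discriminant `3` -/

theorem key12 (v w : V3) : ip v v * ip w w - ip v w ^ 2 =
      12 * ((v 1 * w 0 - v 0 * w 1) ^ 2 + (v 1 * w 2 - v 2 * w 1) ^ 2 +
        (v 0 * w 2 - v 2 * w 0) ^ 2 -
        (v 1 * w 0 - v 0 * w 1) * (v 0 * w 2 - v 2 * w 0)) := by
  unfold ip
  ring

theorem cp_zero {n n2 : ℕ} {b : ℤ} (hns : ¬ IsSquare (n * n2)) (hb : b ∉ Tr (n * n2)) :
    cp n b n2 = 0 ∧ cp7 n b n2 = 0 := by
  have h0 : ∀ v w : V3, v ∈ vec (n : ℤ) → w ∈ vec (n2 : ℤ) → ip v w = b → False := by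
    intro v w hv hw hvw
    rw [mem_vec] at hv hw
    apply hb
    rw [mem_Tr]
    have h := key12 v w
    have h1 := Pool.Agent.N218.P21.cs v w
    rw [hv, hw, hvw] at h h1
    refine ⟨?_, ?_⟩
    · push_cast
      rcases lt_or_eq_of_le h1 with h2 | h2
      · exact h2
      · exfalso
        apply hns
        have h3 : IsSquare ((n * n2 : ℕ) : ℤ) := ⟨b, by push_cast; rw [← h2]; ring⟩
        exact_mod_cast h3
    · push_cast
      rw [h]
      exact ⟨3 * _, by rw [← mul_assoc]; norm_num; rfl⟩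
  constructor
  · unfold cp
    rw [Finset.card_eq_zero, Finset.filter_eq_empty_iff]
    rintro ⟨v, w⟩ hq h1
    have h2 := Finset.mem_product.1 hq
    exact h0 v w h2.1 h2.2 h1
  · unfold cp7
    rw [Finset.card_eq_zero, Finset.filter_eq_empty_iff]
    rintro ⟨v, w⟩ hq h1
    have h2 := Finset.mem_product.1 hq
    exact h0 v w h2.1 h2.2 h1.1

/-- the sum over one residue class modulo `7` -/
theorem sum_cls {n n2 : ℕ} (h1 : Sp7 n) (h2 : Sp7 n2) (h3 : n % 3 = 1) (h3' : n2 % 3 = 1)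
    (hD1 : 1 < n * n2) {r : ℤ} (hr : 0 < r) (hr' : r < 7) (hr7 : (7 : ℤ) ∣ r ^ 2 - n * n2) :
    ∑ b ∈ (Ioo (-((n * n2 : ℕ) : ℤ)) (n * n2 : ℕ)).filter (fun b : ℤ => b % 7 = r),
      o3 b * o7 b * ((cp n b n2 : ℤ) + cp7 n b n2) = 0 := by
  have hB : (n : ℤ) * n2 < ((n * n2 : ℕ) : ℤ) ^ 2 := by
    push_cast
    have : (1 : ℤ) < n * n2 := by exact_mod_cast hD1
    nlinarith
  have hB0 : (0 : ℤ) < ((n * n2 : ℕ) : ℤ) := by exact_mod_cast (by omega : 0 < n * n2)
  have hz : (n * n2) % 3 = 1 := by rw [Nat.mul_mod, h3, h3']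
  have hr3 : ∀ s : ℤ, s = 1 ∨ s = 2 → (3 : ℤ) ∣ s ^ 2 - n * n2 := by
    intro s hs
    have : ((n * n2 : ℕ) : ℤ) % 3 = 1 := by exact_mod_cast hz
    push_cast at this
    rcases hs with rfl | rfl <;> omega
  have k1 := Pool.Agent.N973.P21.t_REL55 n n2 h1 h2 (by omega) (by omega) r 1 hr hr' hr7
    (by norm_num) (by norm_num) (hr3 1 (Or.inl rfl)) _ hB hB0
  have k2 := Pool.Agent.N973.P21.t_REL55 n n2 h1 h2 (by omega) (by omega) r 2 hr hr' hr7
    (by norm_num) (by norm_num) (hr3 2 (Or.inr rfl)) _ hB hB0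
  have k3 := k1.trans k2.symm
  have k4 := mul_left_cancel₀ (by norm_num : (24 : ℤ) ≠ 0) k3
  rw [Finset.sum_filter, Finset.sum_filter] at k4
  rw [Finset.sum_filter]
  have e : ∀ b ∈ Ioo (-((n * n2 : ℕ) : ℤ)) (n * n2 : ℕ),
      (if b % 7 = r then o3 b * o7 b * ((cp n b n2 : ℤ) + cp7 n b n2) else 0) =
      o7 r * ((if b % 7 = r ∧ b % 3 = 1 then ((cp n b n2 : ℤ) + cp7 n b n2) else 0) -
        (if b % 7 = r ∧ b % 3 = 2 then ((cp n b n2 : ℤ) + cp7 n b n2) else 0)) := by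
    intro b _
    by_cases hb : b % 7 = r
    · have h7 : o7 b = o7 r := by
        unfold o7
        apply jacobiSym.mod_left'
        push_cast
        omega
      rw [if_pos hb, h7, o3_val]
      have hc : b % 3 = 0 ∨ b % 3 = 1 ∨ b % 3 = 2 := by omega
      rcases hc with hc | hc | hc
      · rw [if_pos hc, if_neg (by omega), if_neg (by omega)]; ring
      · rw [if_neg (by omega), if_pos hc, if_pos ⟨hb, hc⟩, if_neg (by omega)]; ring
      · rw [if_neg (by omega), if_neg (by omega), if_neg (by omega), if_pos ⟨hb, hc⟩]; ring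
    · rw [if_neg hb, if_neg (by tauto), if_neg (by tauto)]; ring
  rw [Finset.sum_congr rfl e, ← Finset.mul_sum, Finset.sum_sub_distrib, k4, sub_self, mul_zero]

theorem root7 {x : ℤ} (h : x % 7 = 1 ∨ x % 7 = 2 ∨ x % 7 = 4) :
    ∃ s : ℤ, 0 < s ∧ s < 7 ∧ (7 : ℤ) ∣ s ^ 2 - x := by
  rcases h with h | h | h
  · exact ⟨1, by norm_num, by norm_num, by omega⟩
  · exact ⟨3, by norm_num, by norm_num, by omega⟩
  · exact ⟨2, by norm_num, by norm_num, by omega⟩

/-- the sum over all inner products, `7` split -/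
theorem sum_split {n n2 : ℕ} (h1 : Sp7 n) (h2 : Sp7 n2) (h3 : n % 3 = 1) (h3' : n2 % 3 = 1)
    (hD1 : 1 < n * n2) :
    ∑ b ∈ (Ioo (-((n * n2 : ℕ) : ℤ)) (n * n2 : ℕ)).filter
      (fun b : ℤ => (7 : ℤ) ∣ ((n * n2 : ℕ) : ℤ) - b ^ 2),
      o3 b * o7 b * ((cp n b n2 : ℤ) + cp7 n b n2) = 0 := by
  have hx : ((n : ℤ) * n2) % 7 = 1 ∨ ((n : ℤ) * n2) % 7 = 2 ∨ ((n : ℤ) * n2) % 7 = 4 := by
    rw [Int.mul_emod]
    unfold Sp7 at h1 h2
    have g1 : (n : ℤ) % 7 = 3 ∨ (n : ℤ) % 7 = 5 ∨ (n : ℤ) % 7 = 6 := by omega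
    have g2 : (n2 : ℤ) % 7 = 3 ∨ (n2 : ℤ) % 7 = 5 ∨ (n2 : ℤ) % 7 = 6 := by omega
    rcases g1 with g1 | g1 | g1 <;> rcases g2 with g2 | g2 | g2 <;> rw [g1, g2] <;> norm_num
  obtain ⟨s, hs, hs', hs7⟩ := root7 hx
  have k1 := sum_cls h1 h2 h3 h3' hD1 hs hs' hs7
  have k2 := sum_cls h1 h2 h3 h3' hD1 (r := 7 - s) (by omega) (by omega) (by
    have e : (7 - s) ^ 2 - (n : ℤ) * n2 = 7 * (7 - 2 * s) + (s ^ 2 - n * n2) := by ring
    rw [e]
    exact dvd_add (Dvd.intro _ rfl) hs7)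
  rw [Finset.sum_filter] at k1 k2 ⊢
  have e : ∀ b ∈ Ioo (-((n * n2 : ℕ) : ℤ)) (n * n2 : ℕ),
      (if (7 : ℤ) ∣ ((n * n2 : ℕ) : ℤ) - b ^ 2 then
        o3 b * o7 b * ((cp n b n2 : ℤ) + cp7 n b n2) else 0) =
      (if b % 7 = s then o3 b * o7 b * ((cp n b n2 : ℤ) + cp7 n b n2) else 0) +
      (if b % 7 = 7 - s then o3 b * o7 b * ((cp n b n2 : ℤ) + cp7 n b n2) else 0) := by
    intro b _
    have hiff : (7 : ℤ) ∣ ((n * n2 : ℕ) : ℤ) - b ^ 2 ↔ (b % 7 = s ∨ b % 7 = 7 - s) := by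
      constructor
      · intro h
        have h4 : (7 : ℤ) ∣ (s - b) * (s + b) := by
          have e : (s - b) * (s + b) = (s ^ 2 - (n : ℤ) * n2) + (((n * n2 : ℕ) : ℤ) - b ^ 2) := by
            push_cast; ring
          rw [e]
          exact dvd_add hs7 h
        rcases Int.Prime.dvd_mul' (p := 7) (by norm_num) h4 with h5 | h5
        · push_cast at h5; left; omega
        · push_cast at h5; right; omega
      · intro h
        have h4 : (7 : ℤ) ∣ (s - b) * (s + b) := by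
          rcases h with h | h
          · exact Dvd.dvd.mul_right (by omega) _
          · exact Dvd.dvd.mul_left (by omega) _
        have e : ((n * n2 : ℕ) : ℤ) - b ^ 2 = (s - b) * (s + b) - (s ^ 2 - (n : ℤ) * n2) := by
          push_cast; ring
        rw [e]
        exact dvd_sub h4 hs7
    simp only [hiff]
    by_cases h5 : b % 7 = s
    · rw [if_pos (Or.inl h5), if_pos h5, if_neg (by omega), add_zero]
    · by_cases h6 : b % 7 = 7 - s
      · rw [if_pos (Or.inr h6), if_neg h5, if_pos h6, zero_add]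
      · rw [if_neg (by tauto), if_neg h5, if_neg h6, add_zero]
  rw [Finset.sum_congr rfl e, Finset.sum_add_distrib, k1, k2, add_zero]

theorem js7 {n : ℕ} (h : jacobiSym (n : ℤ) 7 = -1) : Sp7 n ∧ ¬ 7 ∣ n ∧
    jacobiSym (-(n : ℤ)) 7 = 1 := by
  have h3 : (n : ℤ) % (7 : ℕ) = ((n % 7 : ℕ) : ℤ) := by push_cast; rfl
  have h1 := h
  rw [jacobiSym.mod_left, h3] at h1
  have h2 : n % 7 < 7 := Nat.mod_lt _ (by norm_num)
  have h4 : n % 7 = 3 ∨ n % 7 = 5 ∨ n % 7 = 6 := by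
    generalize n % 7 = r at h1 h2 ⊢
    interval_cases r <;> first | omega | (exfalso; revert h1; norm_num)
  refine ⟨h4, by omega, ?_⟩
  rw [jacobiSym.neg _ (by decide), h]
  decide

theorem js7' {n : ℕ} (h : jacobiSym (n : ℤ) 7 = 1) : ¬ 7 ∣ n ∧ jacobiSym (-(n : ℤ)) 7 = -1 := by
  refine ⟨?_, ?_⟩
  · intro h1
    have h0 : jacobiSym (n : ℤ) 7 = 0 := by
      rw [jacobiSym.eq_zero_iff]
      refine ⟨by norm_num, ?_⟩
      rw [Int.gcd_natCast_natCast]
      intro h2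
      have := Nat.dvd_gcd h1 (dvd_refl 7)
      rw [h2] at this
      omega
    rw [h0] at h
    norm_num at h
  · rw [jacobiSym.neg _ (by decide), h]
    decide

/-- **K0**: the sum with orientation vanishes -/
theorem K0 {n n2 : ℕ} (h : Fd n) (h3 : n % 3 = 1) (h3' : n2 % 3 = 1)
    (hJ : jacobiSym ((n * n2 : ℕ) : ℤ) 7 = 1) (hns : ¬ IsSquare (n * n2)) :
    ∑ t ∈ Tr (n * n2), o3 t * o7 t * WS n (mt (n * n2) t) {3, 7} = 0 := by
  have hJ' : jacobiSym (n : ℤ) 7 * jacobiSym (n2 : ℤ) 7 = 1 := by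
    rw [← jacobiSym.mul_left]
    exact_mod_cast hJ
  have hpm : (jacobiSym (n : ℤ) 7 = 1 ∧ jacobiSym (n2 : ℤ) 7 = 1) ∨
      (jacobiSym (n : ℤ) 7 = -1 ∧ jacobiSym (n2 : ℤ) 7 = -1) := Int.eq_one_or_neg_one_of_mul_eq_one' hJ'
  rcases hpm with ⟨hp, -⟩ | ⟨hp, hp2⟩
  · obtain ⟨hn7, hneg⟩ := js7' hp
    refine Finset.sum_eq_zero fun t ht => ?_
    obtain ⟨h1, h2⟩ := mt_spec ht
    rw [WS_inert h h2 (n2 := n2) (t := t) (by rw [h1]; push_cast; ring) h3 hn7 hneg, mul_zero]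
  · obtain ⟨hs, hn7, hneg⟩ := js7 hp
    obtain ⟨hs2, -, -⟩ := js7 hp2
    have hn1 := h.m4
    have hD1 : 1 < n * n2 := by
      have : 0 < n2 := by omega
      have : 3 ≤ n := by omega
      nlinarith
    have hsum := sum_split hs hs2 h3 h3' hD1
    have hkey : ∑ t ∈ Tr (n * n2), (24 * (o3 t * o7 t * WS n (mt (n * n2) t) {3, 7}) +
        (if (7 : ℤ) ∣ ((n * n2 : ℕ) : ℤ) - t ^ 2 then
          o3 t * o7 t * ((cp n t n2 : ℤ) + cp7 n t n2) else 0)) = 0 := by
      refine Finset.sum_eq_zero fun t ht => ?_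
      obtain ⟨h1, h2⟩ := mt_spec ht
      by_cases h7 : (7 : ℤ) ∣ ((n * n2 : ℕ) : ℤ) - t ^ 2
      · rw [if_pos h7]
        rw [← h1] at h7
        have h8 : 7 ∣ 4 * mt (n * n2) t := by exact_mod_cast h7
        have h9 : 7 ∣ mt (n * n2) t := (by norm_num : Nat.Coprime 7 4).dvd_of_dvd_mul_left h8
        have hCP := Pool.Agent.N973.P21.t_CP7 Pool.Agent.N878.PC21.t_PC n n2 t
          (4 * mt (n * n2) t) h.sq h.m4 hs hs2 (by omega) (by omega) h8 (by
            rw [h1]; push_cast; ring)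
        rw [hCP, WS_loc7 h h2 h3 hn7 hneg h9]
        ring
      · rw [if_neg h7, WS_none (l := 7) (by simp)]
        · ring
        · intro h9
          apply h7
          rw [← h1]
          exact_mod_cast h9.mul_left 4
    rw [Finset.sum_add_distrib, ← Finset.mul_sum] at hkey
    have hext : ∑ t ∈ Tr (n * n2), (if (7 : ℤ) ∣ ((n * n2 : ℕ) : ℤ) - t ^ 2 then
          o3 t * o7 t * ((cp n t n2 : ℤ) + cp7 n t n2) else 0) = 0 := by
      refine Eq.trans ?_ hsum
      rw [Finset.sum_filter]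
      refine Finset.sum_subset ?_ fun b _ hb => ?_
      · unfold Tr
        exact Finset.filter_subset _ _
      · obtain ⟨z1, z2⟩ := cp_zero hns hb
        rw [z1, z2]
        simp
    rw [hext, add_zero] at hkey
    exact (mul_eq_zero.1 hkey).resolve_left (by norm_num)

end Pool.Agent.N970.RQ
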