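import Pool.Agent.N970.RQ.K0
import Pool.Agent.N970.RQ.X21
import Pool.Agent.N970.RQ.Sgd

/-!
# NEG21: evaluation of the crossing numbers for the negative divisors (project RQ)
-/

set_option autoImplicit false

namespace Pool.Agent.N970.RQ

open Finset
open Pool.Agent.N295.P15 (Fd pf_prime pf_dvd)
open Pool.Agent.N969.RQ (J ps o3 o7 one rr7 sgd Un R21 R21r S_NEG21 S_SW)
open Pool.Agent.N969.P17G (starP)

theorem sum_dv (c m : ℕ) (t : ℤ) (g : ℕ → ℤ) : ∑ a ∈ dv c m t, g a =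
    ∑ a ∈ m.divisors.filter (c ∣ ·),
      (if (3 : ℤ) ∣ (a : ℤ) - t - ((m / a : ℕ) : ℤ) then g a else 0) := by
  unfold dv
  rw [← Finset.sum_filter, Finset.filter_filter]

/-- the relation for a divisor -/
theorem cof {D m a : ℕ} {t : ℤ} (h1 : ((4 * m : ℕ) : ℤ) = (D : ℤ) - t ^ 2) (ha : a ∣ m) :
    (D : ℤ) - t ^ 2 = 4 * ((a : ℤ) * ((m / a : ℕ) : ℤ)) := by
  rw [← h1]
  have : a * (m / a) = m := Nat.mul_div_cancel' ha
  have h2 : (a : ℤ) * ((m / a : ℕ) : ℤ) = m := by exact_mod_cast this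
  rw [h2]
  push_cast
  ring

theorem term_one {D d : ℕ} (hd : Fd d) (h3 : ¬ 3 ∣ d) (hD : D % 3 = 1) {t : ℤ} (ht : t ∈ Tr D) :
    ∑ a ∈ dv 7 (mt D t) t, one (t - 2 * (a : ℤ)) * Gd d (mt D t) a +
      ∑ a ∈ dv 7 (mt D (-t)) (-t), one (-t - 2 * (a : ℤ)) * Gd d (mt D (-t)) a =
      2 * WS d (mt D t) {7} - (1 + jacobiSym 3 d) * WS d (mt D t) {3, 7} := by
  obtain ⟨h1, h2⟩ := mt_spec ht
  rw [mt_neg]
  generalize mt D t = m at h1 h2 ⊢
  rw [sum_dv, sum_dv, ← Finset.sum_add_distrib]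
  have e : ∀ a ∈ m.divisors.filter (7 ∣ ·),
      (if (3 : ℤ) ∣ (a : ℤ) - t - ((m / a : ℕ) : ℤ) then one (t - 2 * (a : ℤ)) * Gd d m a else 0) +
      (if (3 : ℤ) ∣ (a : ℤ) - -t - ((m / a : ℕ) : ℤ) then one (-t - 2 * (a : ℤ)) * Gd d m a
        else 0) = 2 * Gd d m a - (if 3 ∣ a then Gd d m a else 0) -
          (if 3 ∣ m / a then Gd d m a else 0) := by
    intro a ha
    have had := Nat.dvd_of_mem_divisors (Finset.mem_filter.1 ha).1
    have hb := br_one hD (cof h1 had)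
    have e1 : ∀ z : ℤ, one z = 1 := fun _ => rfl
    simp only [e1, one_mul]
    have e2 : (if (3 : ℤ) ∣ (a : ℤ) - t - ((m / a : ℕ) : ℤ) then Gd d m a else 0) +
      (if (3 : ℤ) ∣ (a : ℤ) - -t - ((m / a : ℕ) : ℤ) then Gd d m a else 0) =
      Gd d m a * ((if (3 : ℤ) ∣ (a : ℤ) - t - ((m / a : ℕ) : ℤ) then (1 : ℤ) else 0) +
      (if (3 : ℤ) ∣ (a : ℤ) - -t - ((m / a : ℕ) : ℤ) then 1 else 0)) := by
      split_ifs <;> ring
    rw [e2, hb]
    split_ifs <;> ring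
  rw [Finset.sum_congr rfl e, Finset.sum_sub_distrib, Finset.sum_sub_distrib, ← Finset.mul_sum,
    sum_seven, sum_div, sum_cof hd h3 h2]
  ring

theorem term_o37 {D d : ℕ} (hd : Fd d) (h3 : ¬ 3 ∣ d) (hD : D % 3 = 1) {t : ℤ} (ht : t ∈ Tr D) :
    ∑ a ∈ dv 7 (mt D t) t, (fun b => o3 b * o7 b) (t - 2 * (a : ℤ)) * Gd d (mt D t) a +
      ∑ a ∈ dv 7 (mt D (-t)) (-t), (fun b => o3 b * o7 b) (-t - 2 * (a : ℤ)) *
        Gd d (mt D (-t)) a =
      (1 - jacobiSym 3 d) * (o3 t * o7 t * WS d (mt D t) {3, 7}) := by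
  obtain ⟨h1, h2⟩ := mt_spec ht
  rw [mt_neg]
  generalize mt D t = m at h1 h2 ⊢
  rw [sum_dv, sum_dv, ← Finset.sum_add_distrib]
  have e : ∀ a ∈ m.divisors.filter (7 ∣ ·),
      (if (3 : ℤ) ∣ (a : ℤ) - t - ((m / a : ℕ) : ℤ) then
        (fun b => o3 b * o7 b) (t - 2 * (a : ℤ)) * Gd d m a else 0) +
      (if (3 : ℤ) ∣ (a : ℤ) - -t - ((m / a : ℕ) : ℤ) then
        (fun b => o3 b * o7 b) (-t - 2 * (a : ℤ)) * Gd d m a else 0) =
        o3 t * o7 t * ((if 3 ∣ a then Gd d m a else 0) -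
          (if 3 ∣ m / a then Gd d m a else 0)) := by
    intro a ha
    have ha' := Finset.mem_filter.1 ha
    have had := Nat.dvd_of_mem_divisors ha'.1
    have h7 := ha'.2
    have hb := br_o3 hD (cof h1 had)
    have k1 : o7 (t - 2 * (a : ℤ)) = o7 t := by
      unfold o7
      apply jacobiSym.mod_left'
      push_cast
      omega
    have k2 : o7 (-t - 2 * (a : ℤ)) = - o7 t := by
      have : o7 (-t) = - o7 t := by
        unfold o7
        rw [jacobiSym.neg _ (by decide)]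
        have : ZMod.χ₄ ((7 : ℕ) : ZMod 4) = -1 := by decide
        rw [this]; ring
      rw [← this]
      unfold o7
      apply jacobiSym.mod_left'
      push_cast
      omega
    simp only [k1, k2]
    have e2 : (if (3 : ℤ) ∣ (a : ℤ) - t - ((m / a : ℕ) : ℤ) then
        o3 (t - 2 * (a : ℤ)) * o7 t * Gd d m a else 0) +
      (if (3 : ℤ) ∣ (a : ℤ) - -t - ((m / a : ℕ) : ℤ) then
        o3 (-t - 2 * (a : ℤ)) * -o7 t * Gd d m a else 0) =
      o7 t * Gd d m a * ((if (3 : ℤ) ∣ (a : ℤ) - t - ((m / a : ℕ) : ℤ) then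
        o3 (t - 2 * (a : ℤ)) else 0) -
      (if (3 : ℤ) ∣ (a : ℤ) - -t - ((m / a : ℕ) : ℤ) then o3 (-t - 2 * (a : ℤ)) else 0)) := by
      split_ifs <;> ring
    rw [e2, hb]
    split_ifs <;> ring
  rw [Finset.sum_congr rfl e, ← Finset.mul_sum, Finset.sum_sub_distrib,
    sum_div, sum_cof hd h3 h2]
  ring

theorem jac3 {d : ℕ} (hd : Fd d) : jacobiSym 3 d = jacobiSym (-(d : ℤ)) 3 := by
  rw [hd.recip (by decide : Odd 3)]
  rfl

theorem jac3_one {d : ℕ} (hd : Fd d) (h : d % 3 = 1) : jacobiSym 3 d = -1 := by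
  rw [jac3 hd, js3 h]

theorem jac3_two {d : ℕ} (hd : Fd d) (h : d % 3 = 2) : jacobiSym 3 d = 1 := by
  rw [jac3 hd, jacobiSym.mod_left]
  have h1 : (-(d : ℤ)) % ((3 : ℕ) : ℤ) = 1 := by omega
  rw [h1]; norm_num

/-- an odd squarefree divisor prime to the cofactor: the product is not a square -/
theorem not_sq {n n2 : ℕ} (h : Fd n) (hco : Nat.Coprime n n2) : ¬ IsSquare (n * n2) := by
  rintro ⟨k, hk⟩
  have h4 := h.m4
  have hn1 : n ≠ 1 := by omega
  obtain ⟨p, hp, hpn⟩ := Nat.exists_prime_and_dvd hn1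
  have h1 : p ∣ k := by
    have : p ∣ k * k := by rw [← hk]; exact hpn.mul_right n2
    rcases hp.dvd_mul.1 this with h2 | h2 <;> exact h2
  have h2 : p * p ∣ n * n2 := by rw [hk]; exact mul_dvd_mul h1 h1
  have h3 : Nat.Coprime (p * p) n2 := by
    have : Nat.Coprime p n2 := Nat.Coprime.coprime_dvd_left hpn hco
    exact this.mul_left this
  have h5 : p * p ∣ n := h3.dvd_of_dvd_mul_right h2
  exact hp.one_lt.ne' (Nat.isUnit_iff.1 (h.sq p h5))

/-- the case of an odd divisor, trivial orientation -/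
theorem neg_one {n n2 : ℕ} (h : Fd n) (hco : Nat.Coprime n n2) (hD : (n * n2) % 3 = 1) :
    8 * J 21 one (n * n2) n 1 3 = (if n % 3 = 1 then 2 else -1) * (rr7 n * rr7 n2) := by
  have hns := not_sq h hco
  have h3D : ¬ 3 ∣ n * n2 := by omega
  have h3n : ¬ 3 ∣ n := fun h1 => h3D (h1.mul_right n2)
  have hJ := J_third h (Dvd.intro n2 rfl) h3D 7 one
  have hS : 2 * ∑ t ∈ Tr (n * n2), ∑ a ∈ dv 7 (mt (n * n2) t) t,
      one (t - 2 * (a : ℤ)) * Gd n (mt (n * n2) t) a =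
      2 * ∑ t ∈ Tr (n * n2), WS n (mt (n * n2) t) {7} -
        (1 + jacobiSym 3 n) * ∑ t ∈ Tr (n * n2), WS n (mt (n * n2) t) {3, 7} := by
    rw [sum_sym (fun t => ∑ a ∈ dv 7 (mt (n * n2) t) t,
      one (t - 2 * (a : ℤ)) * Gd n (mt (n * n2) t) a),
      Finset.sum_congr rfl fun t ht => term_one h h3n hD ht, Finset.sum_sub_distrib,
      ← Finset.mul_sum, ← Finset.mul_sum]
  have hX7 := sum_X7 h hns
  have hJ' : J 21 one (n * n2) n 1 3 = jacobiSym 3 n * ∑ t ∈ Tr (n * n2),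
      ∑ a ∈ dv 7 (mt (n * n2) t) t, one (t - 2 * (a : ℤ)) * Gd n (mt (n * n2) t) a := hJ
  rw [hJ']
  have hm3 : (n % 3 = 1 ∧ n2 % 3 = 1) ∨ (n % 3 = 2 ∧ n2 % 3 = 2) := by
    rw [Nat.mul_mod] at hD
    have a1 : n % 3 < 3 := Nat.mod_lt _ (by norm_num)
    have a2 : n2 % 3 < 3 := Nat.mod_lt _ (by norm_num)
    generalize n % 3 = x at *
    generalize n2 % 3 = y at *
    interval_cases x <;> interval_cases y <;> simp_all
  rcases hm3 with ⟨h1, h2⟩ | ⟨h1, h2⟩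
  · rw [jac3_one h h1] at hS ⊢
    rw [if_pos h1]
    linarith
  · rw [jac3_two h h1] at hS ⊢
    rw [if_neg (by omega)]
    have hX21 := sum_X21 h h1 h2 hns
    linarith

/-- the case of an odd divisor, orientation at `3` and `7` -/
theorem neg_o37 {n n2 : ℕ} (h : Fd n) (hco : Nat.Coprime n n2) (hD : (n * n2) % 3 = 1)
    (hJ7 : jacobiSym ((n * n2 : ℕ) : ℤ) 7 = 1) :
    J 21 (fun b => o3 b * o7 b) (n * n2) n 1 3 = 0 := by
  have hns := not_sq h hco
  have h3D : ¬ 3 ∣ n * n2 := by omega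
  have h3n : ¬ 3 ∣ n := fun h1 => h3D (h1.mul_right n2)
  have hJ : J 21 (fun b => o3 b * o7 b) (n * n2) n 1 3 = _ :=
    J_third h (Dvd.intro n2 rfl) h3D 7 (fun b => o3 b * o7 b)
  have hS : 2 * ∑ t ∈ Tr (n * n2), ∑ a ∈ dv 7 (mt (n * n2) t) t,
      (fun b => o3 b * o7 b) (t - 2 * (a : ℤ)) * Gd n (mt (n * n2) t) a =
      (1 - jacobiSym 3 n) * ∑ t ∈ Tr (n * n2), o3 t * o7 t * WS n (mt (n * n2) t) {3, 7} := by
    rw [sum_sym (fun t => ∑ a ∈ dv 7 (mt (n * n2) t) t,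
      (fun b => o3 b * o7 b) (t - 2 * (a : ℤ)) * Gd n (mt (n * n2) t) a),
      Finset.sum_congr rfl fun t ht => term_o37 h h3n hD ht, ← Finset.mul_sum]
  rw [hJ]
  have hm3 : (n % 3 = 1 ∧ n2 % 3 = 1) ∨ (n % 3 = 2 ∧ n2 % 3 = 2) := by
    rw [Nat.mul_mod] at hD
    have a1 : n % 3 < 3 := Nat.mod_lt _ (by norm_num)
    have a2 : n2 % 3 < 3 := Nat.mod_lt _ (by norm_num)
    generalize n % 3 = x at *
    generalize n2 % 3 = y at *
    interval_cases x <;> interval_cases y <;> simp_all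
  rcases hm3 with ⟨h1, h2⟩ | ⟨h1, h2⟩
  · rw [K0 h h1 h2 hJ7 hns, mul_zero] at hS
    have := (mul_eq_zero.1 hS).resolve_left (by norm_num)
    rw [this, mul_zero]
  · rw [jac3_two h h1, sub_self, zero_mul] at hS
    have := (mul_eq_zero.1 hS).resolve_left (by norm_num)
    rw [this, mul_zero]

/-- **NEG21** -/
theorem s_NEG21 (hSW : S_SW) : S_NEG21 := by
  intro D d hR hU hs
  have hF : Pool.Agent.N969.RQ.Fd D := by
    rcases hR with h | h
    · exact h.1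
    · exact h.1
  have hD3 : D % 3 = 1 := by
    rcases hR with h | h
    · exact h.2.1
    · exact h.2.1
  by_cases h2 : 2 ∣ d
  · obtain ⟨hU', he⟩ := Un_co hF hU
    have hs' : sgd D (D / d) = -1 := by
      have := sgd_co hF hU
      rw [hs] at this
      linarith
    have h2' : ¬ 2 ∣ D / d := by
      intro h
      have := Nat.dvd_gcd h2 h
      rw [hU.2] at this
      omega
    have hn : Fd (D / d) := ⟨sq_of_odd hF hU'.1 h2', mod_of_sgd hF hU'.1 h2' hs'⟩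
    have hmul : D / d * d = D := Nat.div_mul_cancel hU.1
    have k1 := neg_one hn (n2 := d) hU.2.symm (by rw [hmul]; exact hD3)
    rw [hmul] at k1
    have hm3 : (D / d) % 3 = 1 ↔ d % 3 = 1 := by
      have h3 := hD3
      rw [← hmul, Nat.mul_mod] at h3
      have a1 : (D / d) % 3 < 3 := Nat.mod_lt _ (by norm_num)
      have a2 : d % 3 < 3 := Nat.mod_lt _ (by norm_num)
      generalize (D / d) % 3 = x at *
      generalize d % 3 = y at *
      interval_cases x <;> interval_cases y <;> simp_all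
    refine ⟨?_, fun h => ?_⟩
    · rw [← hSW 21 one D d 1 3 hF hU, k1]
      simp only [hm3]
      ring
    · rw [← hSW 21 _ D d 1 3 hF hU]
      have k2 := neg_o37 hn (n2 := d) hU.2.symm (by rw [hmul]; exact hD3) (by
        rw [hmul]; exact h.2.2)
      rw [hmul] at k2
      exact k2
  · have hn : Fd d := ⟨sq_of_odd hF hU.1 h2, mod_of_sgd hF hU.1 h2 hs⟩
    have hmul : d * (D / d) = D := Nat.mul_div_cancel' hU.1
    refine ⟨?_, fun h => ?_⟩
    · have k1 := neg_one hn (n2 := D / d) hU.2 (by rw [hmul]; exact hD3)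
      rw [hmul] at k1
      exact k1
    · have k2 := neg_o37 hn (n2 := D / d) hU.2 (by rw [hmul]; exact hD3) (by
        rw [hmul]; exact h.2.2)
      rw [hmul] at k2
      exact k2

end Pool.Agent.N970.RQ
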