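import Pool.Agent.N970.RQ.Js

/-!
# Symmetrization of the sum for the crossing number at `1 / 3` (project RQ)
-/

set_option autoImplicit false

namespace Pool.Agent.N970.RQ

open Finset
open Pool.Agent.Y574.Z7 (chp chp_sq jac_eq)
open Pool.Agent.N295.P15 (Fd pf_prime pf_dvd)
open Pool.Agent.N969.RQ (J ps o3 o7 one)

/-- multiplication of the divisor by three -/
theorem Gd_three {d m a : ℕ} (hd : Fd d) (h3 : ¬ 3 ∣ d) (hm : m ≠ 0) (ha : 3 * a ∣ m) :
    Gd d m (3 * a) = jacobiSym 3 d * Gd d m a := by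
  have e3 : jacobiSym 3 d = ∏ p ∈ d.primeFactors, jacobiSym 3 p := by
    conv_lhs => rw [← hd.prod]
    rw [Pool.Agent.Y574.Z7.jac_prod _ _ fun q hq => (pf_prime hq).ne_zero]
  unfold Gd
  rw [e3, ← Finset.prod_mul_distrib]
  refine Finset.prod_congr rfl fun p hp => ?_
  have hpp := pf_prime hp
  have hp3 : ¬ p ∣ 3 := by
    intro h
    have := (Nat.prime_dvd_prime_iff_eq hpp Nat.prime_three).1 h
    subst this
    exact h3 (pf_dvd hp)
  have hs3 : jacobiSym 3 p * jacobiSym 3 p = 1 := by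
    have h4 : jacobiSym ((3 : ℕ) : ℤ) p = chp p 3 := by rw [jac_eq hpp, if_neg hp3]
    push_cast at h4
    rw [h4]
    exact chp_sq hpp (by norm_num)
  have hdvd : (p ∣ 3 * a) ↔ p ∣ a := by
    constructor
    · intro h
      exact (hpp.dvd_mul.1 h).resolve_left hp3
    · intro h
      exact h.mul_left 3
  simp only [hdvd]
  obtain ⟨b, rfl⟩ := ha
  have a0 : a ≠ 0 := by
    rintro rfl
    exact hm (by simp)
  have e1 : 3 * a * b / (3 * a) = b := Nat.mul_div_cancel_left _ (by omega)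
  have e2 : 3 * a * b / a = 3 * b := by
    have : 3 * a * b = a * (3 * b) := by ring
    rw [this]
    exact Nat.mul_div_cancel_left _ (by omega)
  rw [e1, e2]
  split_ifs with h
  · have e4 : (-((3 * b : ℕ) : ℤ)) = 3 * (-(b : ℤ)) := by push_cast; ring
    rw [e4, jacobiSym.mul_left, ← mul_assoc, hs3, one_mul]
  · push_cast
    rw [jacobiSym.mul_left]

/-- the sum over the divisors with cofactor divisible by `3` -/
theorem sum_cof {d m : ℕ} (hd : Fd d) (h3 : ¬ 3 ∣ d) (hm : m ≠ 0) :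
    ∑ a ∈ m.divisors.filter (7 ∣ ·), (if 3 ∣ m / a then Gd d m a else 0) =
      jacobiSym 3 d * WS d m {3, 7} := by
  have hs3 : jacobiSym 3 d * jacobiSym 3 d = 1 := by
    have h4 : Int.gcd 3 d = 1 := by
      rw [show (3 : ℤ) = ((3 : ℕ) : ℤ) from rfl, Int.gcd_natCast_natCast]
      exact (Nat.Prime.coprime_iff_not_dvd Nat.prime_three).2 h3
    rw [← pow_two]
    exact jacobiSym.sq_one h4
  unfold WS
  rw [← Finset.sum_filter, Finset.filter_filter, Finset.mul_sum]
  refine Finset.sum_nbij' (fun a => 3 * a) (fun a => a / 3) ?_ ?_ ?_ ?_ ?_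
  · intro a ha
    have ha := Finset.mem_filter.1 ha
    obtain ⟨h1, h2, h4⟩ := ha
    have h5 := Nat.dvd_of_mem_divisors h1
    refine Finset.mem_filter.2 ⟨Nat.mem_divisors.2 ⟨?_, hm⟩, ?_⟩
    · obtain ⟨b, rfl⟩ := h5
      have a0 : 0 < a := Nat.pos_of_ne_zero (left_ne_zero_of_mul hm)
      rw [Nat.mul_div_cancel_left _ a0] at h4
      rw [mul_comm]
      exact mul_dvd_mul_left a h4
    · intro l hl
      rw [Finset.mem_insert, Finset.mem_singleton] at hl
      rcases hl with rfl | rfl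
      · exact Dvd.intro a rfl
      · exact h2.mul_left 3
  · intro a ha
    have ha := Finset.mem_filter.1 ha
    obtain ⟨h1, h2⟩ := ha
    have h5 := Nat.dvd_of_mem_divisors h1
    obtain ⟨b, rfl⟩ := h2 3 (by simp)
    have h7 := h2 7 (by simp)
    have e : 3 * b / 3 = b := Nat.mul_div_cancel_left _ (by norm_num)
    simp only [e]
    refine Finset.mem_filter.2 ⟨Nat.mem_divisors.2 ⟨(Dvd.intro_left 3 rfl).trans h5, hm⟩, ?_, ?_⟩
    · exact (by norm_num : Nat.Coprime 7 3).dvd_of_dvd_mul_left h7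
    · obtain ⟨c, rfl⟩ := h5
      have b0 : b ≠ 0 := by rintro rfl; exact hm (by simp)
      have : 3 * b * c = b * (3 * c) := by ring
      rw [this, Nat.mul_div_cancel_left _ (Nat.pos_of_ne_zero b0)]
      exact Dvd.intro c rfl
  · intro a _
    exact Nat.mul_div_cancel_left _ (by norm_num)
  · intro a ha
    have ha := Finset.mem_filter.1 ha
    exact Nat.mul_div_cancel' (ha.2 3 (by simp))
  · intro a ha
    have ha := Finset.mem_filter.1 ha
    obtain ⟨h1, h2, h4⟩ := ha
    have h5 := Nat.dvd_of_mem_divisors h1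
    rw [Gd_three hd h3 hm, ← mul_assoc, hs3, one_mul]
    obtain ⟨b, rfl⟩ := h5
    have a0 : 0 < a := Nat.pos_of_ne_zero (left_ne_zero_of_mul hm)
    rw [Nat.mul_div_cancel_left _ a0] at h4
    rw [mul_comm 3 a]
    exact mul_dvd_mul_left a h4

/-- the sum over the divisors divisible by `3` and `7` -/
theorem sum_div {d m : ℕ} :
    ∑ a ∈ m.divisors.filter (7 ∣ ·), (if 3 ∣ a then Gd d m a else 0) = WS d m {3, 7} := by
  unfold WS
  rw [← Finset.sum_filter, Finset.filter_filter]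
  refine Finset.sum_congr (Finset.filter_congr fun a _ => ?_) fun _ _ => rfl
  simp only [Finset.mem_insert, Finset.mem_singleton, forall_eq_or_imp, forall_eq]
  tauto

theorem sum_seven {d m : ℕ} : ∑ a ∈ m.divisors.filter (7 ∣ ·), Gd d m a = WS d m {7} := by
  unfold WS
  refine Finset.sum_congr (Finset.filter_congr fun a _ => ?_) fun _ _ => rfl
  simp

/-- symmetrization -/
theorem sum_sym {D : ℕ} (f : ℤ → ℤ) : 2 * ∑ t ∈ Tr D, f t = ∑ t ∈ Tr D, (f t + f (-t)) := by
  rw [Finset.sum_add_distrib, two_mul]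
  congr 1
  refine Finset.sum_nbij' (fun t => -t) (fun t => -t) ?_ ?_ ?_ ?_ ?_
  · intro t ht; exact Tr_neg.2 ht
  · intro t ht; exact Tr_neg.2 ht
  · intro t _; exact neg_neg t
  · intro t _; exact neg_neg t
  · intro t _; rw [neg_neg]

/-- the case distinction modulo `3` -/
theorem cases3 {a b : ℕ} {t : ℤ} {D : ℕ} (hD : D % 3 = 1) (h : (D : ℤ) - t ^ 2 = 4 * (a * b)) :
    (t % 3 = 0 ∧ a % 3 = 1 ∧ b % 3 = 1) ∨ (t % 3 = 0 ∧ a % 3 = 2 ∧ b % 3 = 2) ∨
    ((t % 3 = 1 ∨ t % 3 = 2) ∧ a % 3 = 0 ∧ b % 3 = 0) ∨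
    ((t % 3 = 1 ∨ t % 3 = 2) ∧ a % 3 = 0 ∧ b % 3 = 1) ∨
    ((t % 3 = 1 ∨ t % 3 = 2) ∧ a % 3 = 0 ∧ b % 3 = 2) ∨
    ((t % 3 = 1 ∨ t % 3 = 2) ∧ a % 3 = 1 ∧ b % 3 = 0) ∨
    ((t % 3 = 1 ∨ t % 3 = 2) ∧ a % 3 = 2 ∧ b % 3 = 0) := by
  have key : ∀ D t a b : ZMod 3, D = 1 → D - t ^ 2 = 4 * (a * b) →
      (t = 0 ∧ a = 1 ∧ b = 1) ∨ (t = 0 ∧ a = 2 ∧ b = 2) ∨ ((t = 1 ∨ t = 2) ∧ a = 0 ∧ b = 0) ∨
      ((t = 1 ∨ t = 2) ∧ a = 0 ∧ b = 1) ∨ ((t = 1 ∨ t = 2) ∧ a = 0 ∧ b = 2) ∨
      ((t = 1 ∨ t = 2) ∧ a = 1 ∧ b = 0) ∨ ((t = 1 ∨ t = 2) ∧ a = 2 ∧ b = 0) := by decide +kernel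
  have hc := congrArg (fun z : ℤ => (z : ZMod 3)) h
  push_cast at hc
  have hD' : (D : ZMod 3) = 1 := by
    have k : (D : ZMod 3) = ((D % 3 : ℕ) : ZMod 3) := (ZMod.natCast_mod D 3).symm
    rw [k, hD]; rfl
  have hz : ∀ z : ℤ, ∀ r : ℤ, 0 ≤ r → r < 3 → (z : ZMod 3) = (r : ℤ) → z % 3 = r := by
    intro z r h0 h1 h2
    have := (ZMod.intCast_eq_intCast_iff' z r 3).1 h2
    push_cast at this
    omega
  have hn : ∀ z : ℕ, ∀ r : ℕ, r < 3 → (z : ZMod 3) = (r : ℕ) → z % 3 = r := by
    intro z r h1 h2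
    have := (ZMod.natCast_eq_natCast_iff' z r 3).1 h2
    omega
  have t0 : (t : ZMod 3) = 0 → t % 3 = 0 := fun h => hz t 0 (by norm_num) (by norm_num) (by
    push_cast; exact h)
  have t12 : ((t : ZMod 3) = 1 ∨ (t : ZMod 3) = 2) → (t % 3 = 1 ∨ t % 3 = 2) := fun h =>
    h.imp (fun h => hz t 1 (by norm_num) (by norm_num) (by push_cast; exact h))
      (fun h => hz t 2 (by norm_num) (by norm_num) (by push_cast; exact h))
  have z0 : ∀ z : ℕ, (z : ZMod 3) = 0 → z % 3 = 0 := fun z h => hn z 0 (by norm_num) (by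
    push_cast; exact h)
  have z1 : ∀ z : ℕ, (z : ZMod 3) = 1 → z % 3 = 1 := fun z h => hn z 1 (by norm_num) (by
    push_cast; exact h)
  have z2 : ∀ z : ℕ, (z : ZMod 3) = 2 → z % 3 = 2 := fun z h => hn z 2 (by norm_num) (by
    push_cast; exact h)
  rcases key _ _ _ _ hD' hc with h | h | h | h | h | h | h
  · exact Or.inl ⟨t0 h.1, z1 _ h.2.1, z1 _ h.2.2⟩
  · exact Or.inr (Or.inl ⟨t0 h.1, z2 _ h.2.1, z2 _ h.2.2⟩)
  · exact Or.inr (Or.inr (Or.inl ⟨t12 h.1, z0 _ h.2.1, z0 _ h.2.2⟩))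
  · exact Or.inr (Or.inr (Or.inr (Or.inl ⟨t12 h.1, z0 _ h.2.1, z1 _ h.2.2⟩)))
  · exact Or.inr (Or.inr (Or.inr (Or.inr (Or.inl ⟨t12 h.1, z0 _ h.2.1, z2 _ h.2.2⟩))))
  · exact Or.inr (Or.inr (Or.inr (Or.inr (Or.inr (Or.inl ⟨t12 h.1, z1 _ h.2.1, z0 _ h.2.2⟩)))))
  · exact Or.inr (Or.inr (Or.inr (Or.inr (Or.inr (Or.inr ⟨t12 h.1, z2 _ h.2.1, z0 _ h.2.2⟩)))))

/-- the symmetrized count -/
theorem br_one {a b : ℕ} {t : ℤ} {D : ℕ} (hD : D % 3 = 1) (h : (D : ℤ) - t ^ 2 = 4 * (a * b)) :
    (if (3 : ℤ) ∣ (a : ℤ) - t - b then (1 : ℤ) else 0) +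
      (if (3 : ℤ) ∣ (a : ℤ) - -t - b then 1 else 0) =
      2 - (if 3 ∣ a then 1 else 0) - (if 3 ∣ b then 1 else 0) := by
  rcases cases3 hD h with h | h | h | h | h | h | h
  · rw [if_pos (by omega), if_pos (by omega), if_neg (by omega), if_neg (by omega)]; norm_num
  · rw [if_pos (by omega), if_pos (by omega), if_neg (by omega), if_neg (by omega)]; norm_num
  · rw [if_neg (by omega), if_neg (by omega), if_pos (by omega), if_pos (by omega)]; norm_num
  · rcases h.1 with h1 | h1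
    · rw [if_neg (by omega), if_pos (by omega), if_pos (by omega), if_neg (by omega)]; norm_num
    · rw [if_pos (by omega), if_neg (by omega), if_pos (by omega), if_neg (by omega)]; norm_num
  · rcases h.1 with h1 | h1
    · rw [if_pos (by omega), if_neg (by omega), if_pos (by omega), if_neg (by omega)]; norm_num
    · rw [if_neg (by omega), if_pos (by omega), if_pos (by omega), if_neg (by omega)]; norm_num
  · rcases h.1 with h1 | h1
    · rw [if_pos (by omega), if_neg (by omega), if_neg (by omega), if_pos (by omega)]; norm_num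
    · rw [if_neg (by omega), if_pos (by omega), if_neg (by omega), if_pos (by omega)]; norm_num
  · rcases h.1 with h1 | h1
    · rw [if_neg (by omega), if_pos (by omega), if_neg (by omega), if_pos (by omega)]; norm_num
    · rw [if_pos (by omega), if_neg (by omega), if_neg (by omega), if_pos (by omega)]; norm_num

theorem o3_val (z : ℤ) : o3 z = if z % 3 = 0 then 0 else if z % 3 = 1 then 1 else -1 := by
  unfold o3
  rw [jacobiSym.mod_left]
  have h : z % ((3 : ℕ) : ℤ) = z % 3 := rfl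
  have h1 : z % 3 = 0 ∨ z % 3 = 1 ∨ z % 3 = 2 := by omega
  rw [h]
  rcases h1 with h1 | h1 | h1 <;> rw [h1] <;> norm_num

/-- the symmetrized count with orientation at `3` -/
theorem br_o3 {a b : ℕ} {t : ℤ} {D : ℕ} (hD : D % 3 = 1) (h : (D : ℤ) - t ^ 2 = 4 * (a * b)) :
    (if (3 : ℤ) ∣ (a : ℤ) - t - b then o3 (t - 2 * (a : ℤ)) else 0) -
      (if (3 : ℤ) ∣ (a : ℤ) - -t - b then o3 (-t - 2 * (a : ℤ)) else 0) =
      o3 t * ((if 3 ∣ a then 1 else 0) - (if 3 ∣ b then 1 else 0)) := by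
  simp only [o3_val]
  rcases cases3 hD h with h | h | h | h | h | h | h
  · rw [if_pos (by omega), if_neg (by omega), if_pos (by omega), if_pos (by omega),
      if_neg (by omega), if_pos (by omega), if_pos (by omega), if_neg (by omega), if_neg (by omega)]
    norm_num
  · rw [if_pos (by omega), if_neg (by omega), if_neg (by omega), if_pos (by omega),
      if_neg (by omega), if_neg (by omega), if_pos (by omega), if_neg (by omega), if_neg (by omega)]
    norm_num
  · rw [if_neg (by omega), if_neg (by omega), if_neg (by omega)]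
    rcases h.1 with h1 | h1
    · rw [if_pos (by omega), if_pos (by omega), if_pos (by omega)]; norm_num
    · rw [if_neg (by omega), if_pos (by omega), if_pos (by omega)]; norm_num
  · rcases h.1 with h1 | h1
    · rw [if_neg (by omega), if_pos (by omega), if_neg (by omega), if_neg (by omega),
        if_neg (by omega), if_pos (by omega), if_pos (by omega), if_neg (by omega)]
      norm_num
    · rw [if_pos (by omega), if_neg (by omega), if_neg (by omega), if_neg (by omega),
        if_neg (by omega), if_neg (by omega), if_pos (by omega), if_neg (by omega)]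
      norm_num
  · rcases h.1 with h1 | h1
    · rw [if_pos (by omega), if_neg (by omega), if_pos (by omega), if_neg (by omega),
        if_neg (by omega), if_pos (by omega), if_pos (by omega), if_neg (by omega)]
      norm_num
    · rw [if_neg (by omega), if_pos (by omega), if_neg (by omega), if_pos (by omega),
        if_neg (by omega), if_neg (by omega), if_pos (by omega), if_neg (by omega)]
      norm_num
  · rcases h.1 with h1 | h1
    · rw [if_pos (by omega), if_neg (by omega), if_neg (by omega), if_neg (by omega),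
        if_neg (by omega), if_pos (by omega), if_neg (by omega), if_pos (by omega)]
      norm_num
    · rw [if_neg (by omega), if_pos (by omega), if_neg (by omega), if_neg (by omega),
        if_neg (by omega), if_neg (by omega), if_neg (by omega), if_pos (by omega)]
      norm_num
  · rcases h.1 with h1 | h1
    · rw [if_neg (by omega), if_pos (by omega), if_neg (by omega), if_pos (by omega),
        if_neg (by omega), if_pos (by omega), if_neg (by omega), if_pos (by omega)]
      norm_num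
    · rw [if_pos (by omega), if_neg (by omega), if_pos (by omega), if_neg (by omega),
        if_neg (by omega), if_neg (by omega), if_neg (by omega), if_pos (by omega)]
      norm_num

end Pool.Agent.N970.RQ
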