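import Pool.Agent.N970.RQ.Div
import Pool.Agent.N970.RQ.L7
import Pool.Agent.N970.RQ.Hyp

/-!
# Pairs of vectors of the lattice of discriminant `7` and the divisor sums (project RQ)
-/

set_option autoImplicit false

namespace Pool.Agent.N970.RQ

open Finset
open Pool.Agent.Z700 (hh fac)
open Pool.Agent.Y574.Z7 (chp chp_mul chp_sq jac_eq dvd_fac nd4)
open Pool.Agent.N295.P15 (Ps Ps_fac Ps_pm Fd pf_prime pf_dvd fac4 chp4)
open Pool.Agent.N969.P15 (tw ep2)
open Pool.Agent.N816.P17 (bi bi_comm)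
open Pool.Agent.N970.PC
open Pool.Agent.N969.RQ (rr7)

/-! ### the vectors -/

/-- the vectors of norm `n` -/
noncomputable def vv (n : ℕ) : Finset (Fin 3 → ℤ) :=
  (Fintype.piFinset fun _ : Fin 3 => Icc (-(n : ℤ)) n).filter
    fun v : Fin 3 → ℤ => 7 * v 0 ^ 2 + 4 * v 1 ^ 2 + 8 * v 2 ^ 2 + 4 * v 1 * v 2 = n

theorem rr7_eq (n : ℕ) : rr7 n = ((vv n).card : ℤ) := rfl

theorem bi_self (v : Fin 3 → ℤ) :
    bi G7 v v = 7 * v 0 ^ 2 + 4 * v 1 ^ 2 + 8 * v 2 ^ 2 + 4 * v 1 * v 2 := by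
  rw [biG7]; ring

theorem mem_vv (n : ℕ) (v : Fin 3 → ℤ) : v ∈ vv n ↔ bi G7 v v = n := by
  rw [vv, Finset.mem_filter, Fintype.mem_piFinset, bi_self]
  refine ⟨fun h => h.2, fun h => ⟨fun i => ?_, h⟩⟩
  have h1 := L7.bd v i
  rw [bi_self, h] at h1
  exact Finset.mem_Icc.2 (abs_le.1 h1)

/-- the number of pairs with given Gram matrix -/
noncomputable def cpp (n1 : ℕ) (b : ℤ) (n2 : ℕ) : ℕ :=
  ((vv n1 ×ˢ vv n2).filter fun q => bi G7 q.1 q.2 = b).card

theorem card_pairs7 (n1 n2 : ℕ) (b : ℤ) : Nat.card (Pairs G7 n1 n2 b) = cpp n1 b n2 := by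
  rw [cpp]
  apply Nat.subtype_card
  intro q
  rw [Finset.mem_filter, Finset.mem_product, mem_vv, mem_vv, and_assoc]

/-! ### the pairs and the divisor sum -/

theorem R7_eq {n m : ℕ} (h : Fd n) (hm : m ≠ 0) :
    R7 n (4 * m) = ∏ l ∈ m.primeFactors \ {7}, Lf n m l := by
  rw [← prod_Lf h hm {7} (by decide), Finset.sdiff_singleton_eq_erase]
  rfl

theorem prod_split {n m : ℕ} (hm : m ≠ 0) {l : ℕ} (hl : l.Prime) (hd : l ∣ m) :
    ∏ q ∈ m.primeFactors, Lf n m q = Lf n m l * ∏ q ∈ m.primeFactors \ {l}, Lf n m q := by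
  rw [Finset.sdiff_singleton_eq_erase]
  exact (Finset.mul_prod_erase _ _ (Nat.mem_primeFactors.2 ⟨hl, hd, hm⟩)).symm

/-- the local sum with sign is not zero for an even exponent -/
theorem Lf_even {n m l : ℕ} (h : Fd n) (hl : l.Prime) (h2 : l ≠ 2) (hn : ¬ l ∣ n)
    (he : Even (m.factorization l)) : Lf n m l ≠ 0 := by
  have hJ : jacobiSym (-(n : ℤ)) l = 1 ∨ jacobiSym (-(n : ℤ)) l = -1 := by
    apply jacobiSym.eq_one_or_neg_one
    rw [Int.neg_gcd, Int.gcd_natCast_natCast]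
    exact ((Nat.Prime.coprime_iff_not_dvd hl).2 hn).symm
  unfold Lf
  rw [Finset.sum_congr rfl fun i _ => lam_nd h hl h2 hn]
  rcases hJ with hJ | hJ
  · rw [(sum_sign (Or.inl hJ) _).1 hJ]
    positivity
  · rw [(sum_sign (Or.inr hJ) _).2 hJ, if_neg (Nat.not_odd_iff_even.2 he)]
    norm_num

theorem fac4' {m l : ℕ} (hm : m ≠ 0) (hl : l.Prime) (h2 : l ≠ 2) :
    (4 * m).factorization l = m.factorization l := fac4 hm hl h2

/-- the number of pairs is the divisor sum -/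
theorem cp_WS {n n2 m : ℕ} {t : ℤ} (h : Fd n) (hm : m ≠ 0)
    (hD : ((4 * m : ℕ) : ℤ) = n * n2 - t ^ 2) :
    (cpp n t n2 : ℤ) = -4 * WS n m {7} := by
  have p7 : Nat.Prime 7 := by norm_num
  have hH := Hyp h hD
  by_cases h7 : 7 ∣ m
  · have hW := WS_eq h hm {7} (by
      intro l hl
      rw [Finset.mem_singleton] at hl
      subst hl
      exact ⟨p7, h7⟩)
    rw [Finset.prod_singleton] at hW
    have h0 := full_zero h hm hH
    rw [prod_split hm p7 h7] at h0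
    have hW2 : WS n m {7} = - ∏ l ∈ m.primeFactors \ {7}, Lf n m l := by
      rw [hW]; linear_combination h0
    rw [hW2, ← R7_eq h hm, ← card_pairs7]
    have hR0 : Lf n m 7 ≠ 0 → R7 n (4 * m) = 0 := by
      intro h1
      rw [R7_eq h hm]
      exact (mul_eq_zero.1 h0).resolve_left h1
    by_cases hn : 7 ∣ n
    · rw [pcr7 h.sq h.m4 hn (by omega) hD]
      have h25 : ¬ 7 * 7 ∣ n := fun h1 => p7.one_lt.ne' (Nat.isUnit_iff.1 (h.sq 7 h1))
      have h7' : 7 ∈ n.primeFactors := (h.mem p7).2 hn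
      have h74 : 7 ∣ 4 * m := h7.mul_left 4
      rcases Pool.Agent.N970.PCE.hh_pm p7 h25 hn (by omega : 0 < 4 * m) with hp | hp
      · have h1 : R7 n (4 * m) = 0 := hR0 (by
          rw [Lf_pf h hm h7' h7, ← hh_four h hm h7', hp]; norm_num)
        rw [h1]
        simp
      · rw [if_pos ⟨h74, hp⟩]
        ring
    · rw [pc7 h.sq h.m4 hn (by omega) hD, fac4' hm p7 (by norm_num)]
      by_cases ho : Odd (m.factorization 7)
      · rw [if_pos ho]; ring
      · have h1 : R7 n (4 * m) = 0 :=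
          hR0 (Lf_even h p7 (by norm_num) hn (Nat.not_odd_iff_even.1 ho))
        rw [h1]
        simp
  · have hW : WS n m {7} = 0 := by
      unfold WS
      rw [Finset.filter_false_of_mem, Finset.sum_empty]
      intro a ha h1
      exact h7 ((h1 7 (Finset.mem_singleton_self 7)).trans (Nat.dvd_of_mem_divisors ha))
    rw [hW, ← card_pairs7, no_pairs L7 hD]
    · simp
    · intro h1
      apply h7
      have : 7 ∣ 4 * m := (Dvd.intro_left 4 rfl : 7 ∣ 4 * 7).trans h1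
      exact (by norm_num : Nat.Coprime 7 4).dvd_of_dvd_mul_left this

/-! ### all pairs -/

theorem cs7 (v w : Fin 3 → ℤ) : bi G7 v w ^ 2 ≤ bi G7 v v * bi G7 w w := by
  have h := L7.lag2 v w
  have h1 := L7.ff_nonneg (Pool.Agent.Y288.Z7.crs v w)
  push_cast at h
  linarith

/-- no two vectors are proportional when the product of the norms is not a square -/
theorem ip_lt {n n2 : ℕ} (hns : ¬ IsSquare (n * n2)) {v w : Fin 3 → ℤ} (hv : v ∈ vv n)
    (hw : w ∈ vv n2) : bi G7 v w ∈ Tr (n * n2) := by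
  rw [mem_vv] at hv hw
  have h := L7.lag2 v w
  rw [hv, hw] at h
  rw [mem_Tr]
  have h1 := cs7 v w
  rw [hv, hw] at h1
  refine ⟨?_, ?_⟩
  · push_cast
    rcases lt_or_eq_of_le h1 with h2 | h2
    · exact h2
    · exfalso
      apply hns
      have h3 : IsSquare ((n * n2 : ℕ) : ℤ) := ⟨bi G7 v w, by push_cast; rw [← h2]; ring⟩
      exact_mod_cast h3
  · push_cast
    rw [h]
    push_cast
    exact ⟨7 * ff F7 (Pool.Agent.Y288.Z7.crs v w), by ring⟩

theorem sum_cpp {n n2 : ℕ} (hns : ¬ IsSquare (n * n2)) :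
    ∑ t ∈ Tr (n * n2), (cpp n t n2 : ℤ) = rr7 n * rr7 n2 := by
  rw [rr7_eq, rr7_eq, ← Nat.cast_mul, ← Finset.card_product]
  unfold cpp
  rw [Finset.card_eq_sum_card_fiberwise (f := fun q : (Fin 3 → ℤ) × (Fin 3 → ℤ) => bi G7 q.1 q.2)
    (t := Tr (n * n2))]
  · push_cast
    rfl
  · intro q hq
    have hq := Finset.mem_product.1 (Finset.mem_coe.1 hq)
    exact Finset.mem_coe.2 (ip_lt hns hq.1 hq.2)

/-- `X7`: the sum of the divisor sums over all the inner products -/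
theorem sum_X7 {n n2 : ℕ} (h : Fd n) (hns : ¬ IsSquare (n * n2)) :
    4 * ∑ t ∈ Tr (n * n2), WS n (mt (n * n2) t) {7} = - (rr7 n * rr7 n2) := by
  rw [← sum_cpp hns, Finset.mul_sum, ← Finset.sum_neg_distrib]
  refine Finset.sum_congr rfl fun t ht => ?_
  obtain ⟨h1, h2⟩ := mt_spec ht
  rw [cp_WS h h2 (n2 := n2) (t := t) (by rw [h1]; push_cast; ring)]
  ring

end Pool.Agent.N970.RQ
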